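import Pool.Agent.P.MP_3df8df_an.Extremal

set_option autoImplicit false

namespace Pool.Agent.P.MP_3df8df_an.A2Real

open Pool.Agent.P.MP_3df8df_an

/-- The largest modulus of the second coefficient among the functions of `S'` with real
coefficients is `3/2 + 1/π`. -/
theorem result :
    IsGreatest {x : ℝ | ∃ f : ℂ → ℂ, InSR f ∧ x = ‖coeff f 2‖} (3 / 2 + 1 / Real.pi) := by
  refine ⟨?_, ?_⟩
  · obtain ⟨F, hF, h, -⟩ := lower
    exact ⟨F, hF, h.symm⟩
  · rintro _ ⟨f, hf, rfl⟩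
    obtain ⟨g, hg, e⟩ := hf.exists_K
    rw [e]
    exact hg.a2_le

end Pool.Agent.P.MP_3df8df_an.A2Real
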