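import Mathlib

/-! Definitions for the coefficient problem in the class of univalent functions with univalent
derivative. -/

set_option autoImplicit false

namespace Pool.Agent.P.MP_3df8df_an

open Metric Set

/-- The class `S'`: normalised univalent functions on the unit disc with univalent derivative. -/
structure InS' (f : ℂ → ℂ) : Prop where
  diff : DifferentiableOn ℂ f (ball 0 1)
  inj : InjOn f (ball 0 1)
  zero : f 0 = 0
  one : deriv f 0 = 1
  inj' : InjOn (deriv f) (ball 0 1)

/-- The `n`-th Taylor coefficient at `0`. -/
noncomputable def coeff (f : ℂ → ℂ) (n : ℕ) : ℂ := iteratedDeriv n f 0 / n.factorial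

/-- The functions of `S'` all of whose Taylor coefficients are real. -/
def InSR (f : ℂ → ℂ) : Prop := InS' f ∧ ∀ n, (coeff f n).im = 0

/-- Catalan's constant. -/
noncomputable def catalanG : ℝ := ∑' k : ℕ, (-1) ^ k / (2 * k + 1) ^ 2

end Pool.Agent.P.MP_3df8df_an
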