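import Pool.Agent.P.MP_3df8df_an.Ti

/-! A distortion theorem for typically real functions with typically real derivative. -/

set_option autoImplicit false

namespace Pool.Agent.P.MP_3df8df_an

open Complex Metric Set Filter Topology
open scoped Real ComplexConjugate

theorem second_mv {a b : ℝ} (hab : a ≤ b) {y y' W : ℝ → ℝ} (hy : ∀ t, HasDerivAt y (y' t) t)
    (hy' : Continuous y') (hW : Continuous W) (hm : MonotoneOn W (Icc a b))
    (h0 : ∀ t ∈ Icc a b, 0 ≤ y t) (hb : y b = 0) (ha : 0 ≤ W a) :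
    ∫ t in a..b, y' t * W t ≤ 0 := by
  have hyc : Continuous y := continuous_iff_continuousAt.2 fun t => (hy t).continuousAt
  have hI : ∀ t, HasDerivAt (fun t => ∫ s in a..t, y' s * W s) (y' t * W t) t := fun t =>
    ((hy'.mul hW).integral_hasStrictDerivAt a t).hasDerivAt
  have key := image_le_of_liminf_slope_right_le_deriv_boundary
    (f := fun t => (∫ s in a..t, y' s * W s) - y t * W t) (a := a) (b := b)
    (B := fun _ => 0) (B' := fun _ => 0)
    ((continuous_iff_continuousAt.2 fun t => (hI t).continuousAt).sub (hyc.mul hW)).continuousOn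
    (by simpa using mul_nonneg (h0 a ⟨le_rfl, hab⟩) ha) continuousOn_const
    (fun x _ => hasDerivWithinAt_const _ _ _) (fun x hx r hr => by
      have h1 := ((hI x).sub ((hy x).mul_const (W x))).hasDerivWithinAt (s := Ioi x)
      rw [sub_self, hasDerivWithinAt_iff_tendsto_slope' (by simp)] at h1
      refine ((h1.eventually (gt_mem_nhds hr)).and (Ioc_mem_nhdsGT hx.2)).frequently.mono ?_
      rintro z ⟨h2, h3⟩
      refine lt_of_le_of_lt ?_ h2
      simp only [slope_def_field, Pi.sub_apply]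
      refine div_le_div_of_nonneg_right ?_ (by linarith [h3.1])
      have hz : z ∈ Icc a b := ⟨hx.1.trans h3.1.le, h3.2⟩
      nlinarith [mul_le_mul_of_nonneg_left (hm ⟨hx.1, hx.2.le⟩ hz h3.1.le) (h0 z hz)])
    (right_mem_Icc.2 hab)
  simpa [hb] using key

theorem e_cont : Continuous fun t : ℝ => cexp (t * I) := by fun_prop

theorem e_ne (t : ℝ) : cexp (t * I) ≠ 0 := exp_ne_zero _

theorem half {h : ℂ → ℂ} {c : ℂ} (hc : ContinuousOn h (sphere 0 1))
    (hs : ∀ z, ‖z‖ = 1 → h (conj z) = conj (h z)) (hI : ∮ z in C(0, 1), h z = 2 * π * I * c) :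
    π * c.re = ∫ t in (0 : ℝ)..π, (cexp (t * I) * h (cexp (t * I))).re := by
  have h1 : Continuous fun t : ℝ => cexp (t * I) * h (cexp (t * I)) :=
    e_cont.mul (hc.comp_continuous e_cont fun t => by simp)
  have h2 : Continuous fun t : ℝ => (cexp (t * I) * h (cexp (t * I))).re := continuous_re.comp h1
  simp only [circleIntegral, deriv_circleMap, circleMap, ofReal_one, one_mul, zero_add,
    smul_eq_mul] at hI
  have h3 : ∫ t in (0 : ℝ)..2 * π, cexp (t * I) * h (cexp (t * I)) = 2 * π * c := by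
    apply mul_left_cancel₀ I_ne_zero
    rw [← intervalIntegral.integral_const_mul]
    refine (intervalIntegral.integral_congr fun t _ => by ring).trans (hI.trans (by ring))
  have h4 := reCLM.intervalIntegral_comp_comm (h1.intervalIntegrable (μ := MeasureTheory.volume) 0 (2 * π))
  simp only [reCLM_apply, h3] at h4
  rw [← intervalIntegral.integral_add_adjacent_intervals (b := π) (h2.intervalIntegrable _ _)
    (h2.intervalIntegrable _ _)] at h4
  have h5 := intervalIntegral.integral_comp_sub_left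
    (fun t : ℝ => (cexp (t * I) * h (cexp (t * I))).re) (a := 0) (b := π) (2 * π)
  have h6 : ∀ t : ℝ, cexp (((2 * π - t : ℝ) : ℂ) * I) = conj (cexp (t * I)) := fun t => by
    rw [← exp_conj, show ((2 * π - t : ℝ) : ℂ) * I = conj (t * I) + 2 * π * I by simp; ring,
      exp_add, exp_two_pi_mul_I, mul_one]
  simp only [h6, hs _ (norm_e _), ← map_mul, conj_re, show 2 * π - π = π by ring, sub_zero] at h5
  rw [← h5] at h4
  have : (2 * π * c : ℂ).re = 2 * (π * c.re) := by simp; ring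
  linarith

theorem den_pos' {x : ℝ} (h : |x| < 1) (t : ℝ) : 0 < 1 - 2 * x * Real.cos t + x ^ 2 := by
  have h1 : x * Real.cos t ≤ |x| := (le_abs_self _).trans (by
    rw [abs_mul]; exact mul_le_of_le_one_right (abs_nonneg _) (Real.abs_cos_le_one t))
  nlinarith [sq_abs x]

theorem den_pos {x : ℝ} (h0 : 0 ≤ x) (h1 : x < 1) (t : ℝ) : 0 < 1 - 2 * x * Real.cos t + x ^ 2 :=
  den_pos' (by rwa [abs_of_nonneg h0]) t

theorem poisson {J : ℂ → ℂ} (hJ : DiffContOnCl ℂ J (ball 0 1))
    (hs : ∀ z, ‖z‖ = 1 → J (conj z) = conj (J z)) {x : ℝ} (h0 : x ≠ 0) (h1 : |x| < 1) :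
    π * (((J x).re / (1 - x ^ 2) - (J 0).re) / x) =
      ∫ t in (0 : ℝ)..π, (J (cexp (t * I)) / cexp (t * I)).re / (1 - 2 * x * Real.cos t + x ^ 2) := by
  have hne : ∀ z ∈ closedBall (0 : ℂ) 1, 1 - x * z ≠ 0 := fun z hz => by
    rw [sub_eq_add_neg]
    refine one_add_ne ?_
    rw [norm_neg, norm_mul, norm_real, Real.norm_eq_abs]
    exact (mul_le_of_le_one_right (abs_nonneg _) (by simpa using hz)).trans_lt h1
  have hg : DiffContOnCl ℂ (fun z => J z * (1 - x * z)⁻¹) (ball 0 1) := by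
    refine ⟨hJ.1.mul (DifferentiableOn.inv (by fun_prop) fun z hz => hne z
      (ball_subset_closedBall hz)), hJ.2.mul ?_⟩
    rw [closure_ball _ one_ne_zero]
    exact ContinuousOn.inv₀ (by fun_prop) hne
  have hx : (x : ℂ) ∈ ball (0 : ℂ) 1 := by simpa using h1
  have hx0 : (x : ℂ) ≠ 0 := by exact_mod_cast h0
  have gc : ContinuousOn (fun z => J z * (1 - x * z)⁻¹) (sphere 0 1) :=
    hg.continuousOn_ball.mono sphere_subset_closedBall
  have n1 : ∀ z ∈ sphere (0 : ℂ) 1, z - x ≠ 0 := fun z hz h => by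
    rw [sub_eq_zero.1 h] at hz; simp at hz hx; linarith
  have n2 : ∀ z ∈ sphere (0 : ℂ) 1, z - 0 ≠ 0 := fun z hz h => by
    rw [sub_eq_zero.1 h] at hz; simp at hz
  have c1 : ContinuousOn (fun z : ℂ => (z - x)⁻¹ • (J z * (1 - x * z)⁻¹)) (sphere 0 1) :=
    (ContinuousOn.inv₀ (f := fun z : ℂ => z - x) (by fun_prop) n1).smul gc
  have c2 : ContinuousOn (fun z : ℂ => (z - 0)⁻¹ • (J z * (1 - x * z)⁻¹)) (sphere 0 1) :=
    (ContinuousOn.inv₀ (f := fun z : ℂ => z - 0) (by fun_prop) n2).smul gc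
  have I1 := hg.circleIntegral_sub_inv_smul hx
  have I2 := hg.circleIntegral_sub_inv_smul (mem_ball_self one_pos)
  have := half (h := fun z => (x : ℂ)⁻¹ • ((z - x)⁻¹ • (J z * (1 - x * z)⁻¹) -
      (z - 0)⁻¹ • (J z * (1 - x * z)⁻¹))) (c := (J x / ((1 - x ^ 2 : ℝ) : ℂ) - J 0) / x)
    ((c1.sub c2).const_smul (x : ℂ)⁻¹) (fun z hz => by simp [hs z hz]) (by
      rw [circleIntegral.integral_smul, circleIntegral.integral_sub
        (c1.circleIntegrable one_pos.le) (c2.circleIntegrable one_pos.le), I1, I2]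
      simp only [smul_eq_mul]; push_cast; ring_nf)
  rw [div_ofReal_re, sub_re, div_ofReal_re] at this
  rw [this]
  refine intervalIntegral.integral_congr fun t _ => ?_
  have m1 := n1 _ (mem_sphere_zero_iff_norm.2 (norm_e t))
  have m2 := hne (cexp (t * I)) (by simp)
  have m3 := e_ne t
  have m4 : ((1 - 2 * x * Real.cos t + x ^ 2 : ℝ) : ℂ) * cexp (t * I) =
      (cexp (t * I) - x) * (1 - x * cexp (t * I)) := by
    have : cexp (t * I) * cexp (-t * I) = 1 := by rw [← exp_add]; simp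
    push_cast; rw [Complex.cos]; linear_combination (-x) * this
  have m5 : ((1 - 2 * x * Real.cos t + x ^ 2 : ℝ) : ℂ) ≠ 0 := by
    exact_mod_cast (den_pos' h1 t).ne'
  simp only [smul_eq_mul]
  rw [← div_ofReal_re, div_div, mul_comm (cexp _) (((_ : ℝ) : ℂ)), m4]
  congr 1; field_simp; ring

theorem coeff_int {p : ℂ → ℂ} (hp : DiffContOnCl ℂ p (ball 0 1))
    (hs : ∀ z, ‖z‖ = 1 → p (conj z) = conj (p z)) (k : ℕ) :
    π * (iteratedDeriv (k + 1) p 0 / (k + 1).factorial).re =
      ∫ t in (0 : ℝ)..π, 2 * Real.sin ((k + 1 : ℕ) * t) * (p (cexp (t * I))).im := by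
  have pc := hp.continuousOn_ball.mono sphere_subset_closedBall
  have c1 : ContinuousOn (fun z : ℂ => (1 / (z - 0) ^ (k + 1 + 1)) • p z) (sphere 0 1) :=
    (continuousOn_const.div (g := fun z : ℂ => (z - 0) ^ (k + 1 + 1)) (by fun_prop) fun z hz h => by
      rw [sub_eq_zero.1 (pow_eq_zero_iff (by omega) |>.1 h)] at hz; simp at hz).smul pc
  have c2 : ContinuousOn (fun z : ℂ => z ^ k • p z) (sphere 0 1) :=
    ContinuousOn.smul (f := fun z : ℂ => z ^ k) (by fun_prop) pc
  have I1 := hp.circleIntegral_one_div_sub_center_pow_smul one_pos (k + 1)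
  have I2 : ∮ z in C(0, 1), z ^ k • p z = 0 := DiffContOnCl.circleIntegral_eq_zero one_pos.le
    ⟨DifferentiableOn.smul (c := fun z : ℂ => z ^ k) (by fun_prop) hp.1,
      ContinuousOn.smul (f := fun z : ℂ => z ^ k) (by fun_prop) hp.2⟩
  rw [half (h := fun z => (1 / (z - 0) ^ (k + 1 + 1)) • p z - z ^ k • p z) (c1.sub c2)
    (fun z hz => by simp [hs z hz]) (by
      rw [circleIntegral.integral_sub (c1.circleIntegrable one_pos.le)
        (c2.circleIntegrable one_pos.le), I1, I2]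
      simp only [smul_eq_mul]; ring)]
  refine intervalIntegral.integral_congr fun t _ => ?_
  have e1 : cexp (t * I) * ((1 / (cexp (t * I) - 0) ^ (k + 1 + 1)) • p (cexp (t * I)) -
      cexp (t * I) ^ k • p (cexp (t * I))) =
      ((2 * Real.sin ((k + 1 : ℕ) * t) : ℝ) : ℂ) * (-I * p (cexp (t * I))) := by
    have m3 := e_ne t
    have m4 : cexp (-((k + 1) * t) * I) = (cexp (t * I) ^ (k + 1))⁻¹ := by
      rw [← exp_nat_mul, ← exp_neg]; push_cast; ring_nf
    have m5 : cexp ((k + 1) * t * I) = cexp (t * I) ^ (k + 1) := by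
      rw [← exp_nat_mul]; push_cast; ring_nf
    push_cast
    rw [Complex.sin, m4, m5, smul_eq_mul, smul_eq_mul, sub_zero]
    field_simp
    linear_combination (p (cexp (t * I)) * (1 - (cexp (t * I) ^ (k + 1)) ^ 2) *
      cexp (t * I) ^ (k + 2)) * I_sq
  rw [e1, re_ofReal_mul]; simp

/-- The dual certificate. -/
noncomputable def H (z : ℂ) : ℂ := (1 - z) ^ 3 * cexp (-(2 / π) * T z)

noncomputable def W (t : ℝ) : ℝ :=
  8 * Real.sin (t / 2) ^ 3 * Real.exp (-(2 / π) * (T (cexp (t * I))).re)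

theorem H_dc : DiffContOnCl ℂ H (ball 0 1) := by
  refine ⟨DifferentiableOn.mul (by fun_prop) (T_diff.const_mul _).cexp, ?_⟩
  rw [closure_ball _ one_ne_zero]
  exact ContinuousOn.mul (by fun_prop) (continuousOn_const.mul T_cont).cexp

theorem H_conj (z : ℂ) : H (conj z) = conj (H z) := by
  simp [H, T_conj, ← exp_conj, map_ofNat]

theorem H_bdry (t : ℝ) : H (cexp (t * I)) / cexp (t * I) =
    W t * I * cexp ((t / 2 - 2 / π * (T (cexp (t * I))).im : ℝ) * I) := by
  have e1 : cexp (t * I) = cexp (t / 2 * I) ^ 2 := by rw [← exp_nat_mul]; congr 1; push_cast; ring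
  have e2 : cexp (-(2 / π) * T (cexp (t * I))) = cexp (-(2 / π) * (T (cexp (t * I))).re) *
      cexp (-(2 / π * (T (cexp (t * I))).im) * I) := by
    rw [← exp_add]; congr 1
    conv_lhs => rw [← re_add_im (T (cexp (t * I)))]
    ring
  have e3 : cexp (-(t / 2) * I) = (cexp (t / 2 * I))⁻¹ := by rw [← exp_neg]; ring_nf
  have e4 : 1 - cexp (t * I) = -2 * I * Complex.sin (t / 2) * cexp (t / 2 * I) := by
    have := exp_ne_zero (t / 2 * I)
    rw [Complex.sin, e3, e1]; field_simp
    linear_combination (1 - cexp (t * I / 2) ^ 2) * I_sq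
  rw [H, e2, e4, W]
  push_cast
  rw [sub_mul, sub_eq_add_neg, exp_add, ← neg_mul]
  conv_lhs => rw [div_eq_mul_inv, e1]
  rw [← e1]
  conv_lhs => arg 2; rw [e1]
  have := exp_ne_zero (t / 2 * I)
  field_simp
  linear_combination (-(Complex.sin (t / 2)) ^ 3 * 8) * I_sq

theorem W_cont : Continuous W := by
  have := T_cont.comp_continuous e_cont fun t => by simp
  unfold W; fun_prop

theorem W_nonneg {t : ℝ} (h0 : 0 ≤ t) (h1 : t ≤ π) : 0 ≤ W t := by
  have := Real.sin_nonneg_of_nonneg_of_le_pi (x := t / 2) (by linarith) (by linarith)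
  unfold W; positivity

theorem W_mono {x : ℝ} (h0 : 0 ≤ x) (h1 : x < 1) :
    MonotoneOn (fun t => W t / (1 - 2 * x * Real.cos t + x ^ 2)) (Icc 0 π) := by
  intro a ha b hb hab
  have hp := Real.pi_pos
  have s0 := Real.sin_nonneg_of_nonneg_of_le_pi (x := a / 2) (by linarith [ha.1])
    (by linarith [ha.2])
  have s1 : Real.sin (a / 2) ≤ Real.sin (b / 2) :=
    Real.sin_le_sin_of_le_of_le_pi_div_two (by linarith [ha.1]) (by linarith [hb.2]) (by linarith)
  have c : ∀ t : ℝ, 1 - 2 * x * Real.cos t + x ^ 2 = (1 - x) ^ 2 + 4 * x * Real.sin (t / 2) ^ 2 :=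
    fun t => by rw [Real.sin_sq_eq_half_sub, show 2 * (t / 2) = t by ring]; ring
  have e : Real.exp (-(2 / π) * (T (cexp (a * I))).re) ≤
      Real.exp (-(2 / π) * (T (cexp (b * I))).re) :=
    Real.exp_le_exp.2 (mul_le_mul_of_nonpos_left (T_re_anti ha hb hab) (by
      have : 0 < 2 / π := by positivity
      linarith))
  have d1 := den_pos h0 h1 a
  have d2 := den_pos h0 h1 b
  simp only [W, mul_div_right_comm _ (Real.exp _)]
  refine mul_le_mul ?_ e (by positivity) (by have := s0.trans s1; positivity)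
  rw [div_le_div_iff₀ d1 d2, c, c]
  generalize Real.sin (a / 2) = u at *
  generalize Real.sin (b / 2) = v at *
  have k1 : u ^ 3 ≤ v ^ 3 := pow_le_pow_left₀ s0 s1 3
  have k2 : 0 ≤ x * (u ^ 2 * v ^ 2) * (v - u) := by have := sub_nonneg.2 s1; positivity
  nlinarith [mul_le_mul_of_nonneg_left k1 (sq_nonneg (1 - x))]

/-- Real on the real axis, with `f` and `f'` preserving the upper half plane. -/
structure InK (f : ℂ → ℂ) : Prop where
  diff : DifferentiableOn ℂ f (ball 0 1)
  sym : ∀ z ∈ ball (0 : ℂ) 1, f (conj z) = conj (f z)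
  one : deriv f 0 = 1
  im0 : ∀ z ∈ ball (0 : ℂ) 1, 0 ≤ z.im → 0 ≤ (f z).im
  im1 : ∀ z ∈ ball (0 : ℂ) 1, 0 ≤ z.im → 0 ≤ (deriv f z).im

theorem sym_deriv {f : ℂ → ℂ} (hs : ∀ z ∈ ball (0 : ℂ) 1, f (conj z) = conj (f z)) :
    ∀ z ∈ ball (0 : ℂ) 1, deriv f (conj z) = conj (deriv f z) := by
  intro z hz
  have h1 : f =ᶠ[𝓝 (conj z)] conj ∘ f ∘ conj := by
    filter_upwards [isOpen_ball.mem_nhds (show conj z ∈ ball (0 : ℂ) 1 by simpa using hz)] with w hw
    simp [hs w hw]
  rw [h1.deriv_eq, deriv_conj_conj]; simp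

theorem dil_dc {g : ℂ → ℂ} (hg : DifferentiableOn ℂ g (ball 0 1)) {ρ : ℝ} (h0 : 0 ≤ ρ) (h1 : ρ < 1) :
    DiffContOnCl ℂ (fun z => g (ρ * z)) (ball 0 1) := by
  apply DifferentiableOn.diffContOnCl
  rw [closure_ball _ one_ne_zero]
  exact hg.comp (by fun_prop) fun z hz =>
    mem_ball_zero_iff.2 (norm_mul_lt h0 h1 (by simpa using hz))

theorem InK.dist_dil {f : ℂ → ℂ} (hf : InK f) {ρ x : ℝ} (r0 : 0 < ρ) (r1 : ρ < 1) (h0 : 0 < x)
    (h1 : x < 1) : (deriv f (ρ * x) * H x).re ≤ 1 - x ^ 2 := by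
  have hp := Real.pi_pos
  have hd := hf.diff.deriv isOpen_ball
  have hb : ∀ t : ℝ, (ρ : ℂ) * cexp (t * I) ∈ ball (0 : ℂ) 1 := fun t =>
    mem_ball_zero_iff.2 (norm_mul_lt r0.le r1 (norm_e t).le)
  have hi : ∀ t ∈ Icc (0 : ℝ) π, 0 ≤ ((ρ : ℂ) * cexp (t * I)).im := fun t ht => by
    simpa [exp_ofReal_mul_I_im] using
      mul_nonneg r0.le (Real.sin_nonneg_of_nonneg_of_le_pi ht.1 ht.2)
  have pd := dil_dc hd r0.le r1
  have key := poisson (J := fun z => deriv f (ρ * z) * H z) ⟨pd.1.mul H_dc.1, pd.2.mul H_dc.2⟩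
    (fun z hz => by
      have := sym_deriv hf.sym _ (mem_ball_zero_iff.2 (norm_mul_lt r0.le r1 hz.le))
      simp only [map_mul, conj_ofReal] at this
      simp only [this, H_conj, map_mul]) h0.ne' (by rwa [abs_of_pos h0])
  have pc : Continuous fun t : ℝ => deriv f (ρ * cexp (t * I)) :=
    hd.continuousOn.comp_continuous (by fun_prop) hb
  have Hc : Continuous fun t : ℝ => H (cexp (t * I)) :=
    H_dc.continuousOn_ball.comp_continuous e_cont fun t => by simp
  have dc : Continuous fun t : ℝ => 1 - 2 * x * Real.cos t + x ^ 2 := by fun_prop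
  have ic : Continuous fun t : ℝ => (deriv f (ρ * cexp (t * I)) * H (cexp (t * I)) /
      cexp (t * I)).re / (1 - 2 * x * Real.cos t + x ^ 2) :=
    (continuous_re.comp ((pc.mul Hc).div e_cont e_ne)).div dc fun t => (den_pos h0.le h1 t).ne'
  rw [← intervalIntegral.integral_add_adjacent_intervals (b := π / 2) (ic.intervalIntegrable _ _)
    (ic.intervalIntegrable _ _)] at key
  have k1 : ∫ t in (0 : ℝ)..π / 2, (deriv f (ρ * cexp (t * I)) * H (cexp (t * I)) /
      cexp (t * I)).re / (1 - 2 * x * Real.cos t + x ^ 2) ≤ 0 := by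
    rw [← neg_nonneg, ← intervalIntegral.integral_neg]
    refine intervalIntegral.integral_nonneg (by positivity) fun t ht => ?_
    have ht' : t ∈ Icc (0 : ℝ) π := ⟨ht.1, by linarith [ht.2]⟩
    rw [mul_div_assoc, H_bdry, T_im_left ht.1 ht.2,
      show t / 2 - 2 / π * (π * t / 4) = 0 by field_simp; ring, neg_nonneg]
    refine div_nonpos_of_nonpos_of_nonneg ?_ (den_pos h0.le h1 t).le
    simpa using mul_nonneg (hf.im1 _ (hb t) (hi t ht')) (W_nonneg ht'.1 ht'.2)
  have k2 : ∫ t in (π / 2)..π, (deriv f (ρ * cexp (t * I)) * H (cexp (t * I)) /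
      cexp (t * I)).re / (1 - 2 * x * Real.cos t + x ^ 2) ≤ 0 := by
    refine le_trans (le_of_eq (intervalIntegral.integral_congr fun t ht => ?_))
      (second_mv (a := π / 2) (b := π) (by linarith) (y := fun t => (f (ρ * cexp (t * I))).im / ρ)
        (y' := fun t => (deriv f (ρ * cexp (t * I)) * cexp (t * I)).re)
        (W := fun t => W t / (1 - 2 * x * Real.cos t + x ^ 2)) (fun t => ?_)
        (continuous_re.comp (pc.mul e_cont)) (W_cont.div dc fun t => (den_pos h0.le h1 t).ne')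
        ((W_mono h0.le h1).mono (Icc_subset_Icc_left (by positivity)))
        (fun t ht => div_nonneg (hf.im0 _ (hb t) (hi t ⟨by linarith [ht.1], ht.2⟩)) r0.le) ?_
        (div_nonneg (W_nonneg (by positivity) (by linarith)) (den_pos h0.le h1 _).le))
    · rw [uIcc_of_le (by linarith)] at ht
      have e : cexp (((t / 2 - 2 / π * (π * (π - t) / 4) : ℝ) : ℂ) * I) = -I * cexp (t * I) := by
        rw [show t / 2 - 2 / π * (π * (π - t) / 4) = t - π / 2 by field_simp; ring,
          ← exp_neg_pi_div_two_mul_I, ← exp_add]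
        push_cast; ring_nf
      rw [mul_div_assoc, H_bdry, T_im_right ht.1 ht.2, e, ← mul_div_assoc, mul_comm _ (W t),
        ← re_ofReal_mul]
      congr 2
      linear_combination (-(deriv f (ρ * cexp (t * I)) * W t * cexp (t * I))) * I_sq
    · have d1 := (((hf.diff.differentiableAt (isOpen_ball.mem_nhds (hb t))).hasDerivAt).comp (t : ℂ)
        ((hasDerivAt_mul_const I).cexp.const_mul (ρ : ℂ))).comp_ofReal
      have d2 := (imCLM.hasFDerivAt.comp_hasDerivAt t d1).div_const ρ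
      refine HasDerivAt.congr_deriv d2 ?_
      rw [imCLM_apply, mul_left_comm, im_ofReal_mul, ← mul_assoc, mul_I_im]; field_simp
    · have := hf.sym _ (hb π)
      rw [exp_pi_mul_I] at this ⊢
      rw [conj_eq_iff_im.1 (by simpa using this.symm), zero_div]
  have k3 : ((deriv f (ρ * x) * H x).re / (1 - x ^ 2) - 1) / x ≤ 0 := by
    have : (deriv f (ρ * 0) * H 0).re = 1 := by simp [hf.one, H, T_zero]
    rw [this] at key
    by_contra hc
    nlinarith [mul_pos hp (not_le.1 hc)]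
  have k4 : 0 < 1 - x ^ 2 := by nlinarith
  rwa [div_nonpos_iff, or_iff_right (by rintro ⟨-, h⟩; linarith), and_iff_left h0.le, sub_nonpos,
    div_le_one k4] at k3

/-- The distortion theorem. -/
theorem InK.dist {f : ℂ → ℂ} (hf : InK f) {x : ℝ} (h0 : 0 < x) (h1 : x < 1) :
    (deriv f x * H x).re ≤ 1 - x ^ 2 := by
  have hx : (x : ℂ) ∈ ball (0 : ℂ) 1 := by simpa [abs_of_pos h0] using h1
  have hc : ContinuousAt (deriv f) (((1 : ℝ) : ℂ) * x) := by
    simpa using (hf.diff.deriv isOpen_ball).continuousOn.continuousAt (isOpen_ball.mem_nhds hx)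
  have h2 : ContinuousAt (fun ρ : ℝ => (deriv f (ρ * x) * H x).re) 1 :=
    continuous_re.continuousAt.comp ((ContinuousAt.comp (f := fun ρ : ℝ => (ρ : ℂ) * x) hc
      (by fun_prop)).mul continuousAt_const)
  have h3 := h2.tendsto.mono_left (nhdsWithin_le_nhds (s := Iio 1))
  simp only [ofReal_one, one_mul] at h3
  exact le_of_tendsto h3 (mem_of_superset (Ioo_mem_nhdsLT one_pos) fun ρ hρ =>
    hf.dist_dil hρ.1 hρ.2 h0 h1)

end Pool.Agent.P.MP_3df8df_an
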