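import Pool.Agent.P.MP_3df8df_an.Upper

/-! The Barnard-Suffridge function belongs to the class and is asymptotically extremal. -/

set_option autoImplicit false

namespace Pool.Agent.P.MP_3df8df_an

open Complex Metric Set Filter Topology
open scoped Real ComplexConjugate

theorem nw {U : Set ℂ} (hU : Convex ℝ U) {G G' : ℂ → ℂ} (hd : ∀ z ∈ U, HasDerivAt G (G' z) z)
    (hp : ∀ z ∈ U, 0 < (G' z).re) : InjOn G U := by
  intro a ha b hb hab
  by_contra hne
  have hba : b - a ≠ 0 := sub_ne_zero.2 (Ne.symm hne)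
  have hm : ∀ t ∈ Icc (0 : ℝ) 1, a + t * (b - a) ∈ U := fun t ht => by
    simpa using hU.add_smul_sub_mem ha hb ht
  have h1 : ∀ t ∈ Icc (0 : ℝ) 1, HasDerivAt (fun t : ℝ => (G (a + t * (b - a)) / (b - a)).re)
      (G' (a + t * (b - a))).re t := fun t ht => by
    have := (((hd _ (hm t ht)).comp (t : ℂ)
      ((hasDerivAt_mul_const (b - a)).const_add a)).div_const (b - a)).comp_ofReal
    rw [mul_div_cancel_right₀ _ hba] at this
    exact reCLM.hasFDerivAt.comp_hasDerivAt t this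
  obtain ⟨c, hc, e⟩ := exists_hasDerivAt_eq_slope _ _ one_pos
    (fun t ht => (h1 t ht).continuousAt.continuousWithinAt) fun t ht => h1 t (Ioo_subset_Icc_self ht)
  have := hp _ (hm c (Ioo_subset_Icc_self hc))
  simp [e, hab] at this

theorem polar {p : ℂ → Prop} (hc : ∀ z, p (conj z) → p z)
    (h : ∀ r t : ℝ, 0 ≤ r → r < 1 → t ∈ Icc 0 π → p (r * cexp (t * I))) :
    ∀ z ∈ ball (0 : ℂ) 1, p z := by
  have key : ∀ z : ℂ, ‖z‖ < 1 → 0 ≤ z.im → p z := fun z hz hi => by
    simpa using h ‖z‖ (arg z) (norm_nonneg _) hz ⟨arg_nonneg_iff.2 hi, arg_le_pi z⟩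
  intro z hz
  rw [mem_ball_zero_iff] at hz
  rcases le_total 0 z.im with h | h
  · exact key z hz h
  · exact hc z (key _ (by simpa using hz) (by simpa using h))

theorem T_im_bound {r t : ℝ} (r0 : 0 ≤ r) (r1 : r < 1) (ht : t ∈ Icc 0 π) :
    0 ≤ 2 / π * (T (r * cexp (t * I))).im ∧ 2 / π * (T (r * cexp (t * I))).im ≤ t / 2 ∧
      2 / π * (T (r * cexp (t * I))).im ≤ (π - t) / 2 := by
  have hp := Real.pi_pos
  have hm := T_im_mono (norm_e t).le (by
    simpa [exp_ofReal_mul_I_im] using Real.sin_nonneg_of_nonneg_of_le_pi ht.1 ht.2)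
  have h0 := hm ⟨le_rfl, zero_le_one⟩ ⟨r0, r1.le⟩ r0
  have h1 := mul_le_mul_of_nonneg_left (hm ⟨r0, r1.le⟩ ⟨zero_le_one, le_rfl⟩ r1.le)
    (show 0 ≤ 2 / π by positivity)
  simp only [ofReal_zero, zero_mul, T_zero, zero_im, ofReal_one, one_mul] at h0 h1
  refine ⟨by positivity, ?_⟩
  rcases le_total t (π / 2) with h | h
  · rw [T_im_left ht.1 h, show 2 / π * (π * t / 4) = t / 2 by field_simp; ring] at h1
    exact ⟨h1, by linarith⟩
  · rw [T_im_right h ht.2, show 2 / π * (π * (π - t) / 4) = (π - t) / 2 by field_simp; ring] at h1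
    exact ⟨by linarith, h1⟩

noncomputable def B (z : ℂ) : ℂ := (1 + z) * cexp (2 / π * T z)

noncomputable def Q (z : ℂ) : ℂ := B z / (1 - z) ^ 2

noncomputable def L (z : ℂ) : ℂ := log (1 + z) - 2 * log (1 - z) + 2 / π * T z

theorem B_conj (z : ℂ) : B (conj z) = conj (B z) := by
  simp [B, T_conj, ← exp_conj, map_ofNat]

theorem two_div_pi : (2 / π : ℂ) = ((2 / π : ℝ) : ℂ) := by push_cast; rfl

theorem B_re_pos : ∀ z ∈ ball (0 : ℂ) 1, 0 < (B z).re := by
  refine polar (fun z h => by simpa [B_conj] using h) fun r t r0 r1 ht => ?_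
  obtain ⟨s0, s1, s2⟩ := T_im_bound r0 r1 ht
  have hp := Real.pi_pos
  rw [B, two_div_pi, mul_re, exp_re, exp_im, im_ofReal_mul]
  generalize 2 / π * (T (r * cexp (t * I))).im = s at *
  have h1 : 0 < Real.cos s := Real.cos_pos_of_mem_Ioo ⟨by linarith, by linarith⟩
  have h2 : 0 ≤ Real.cos s + Real.cos (t + s) := by
    rw [Real.cos_add_cos]
    exact mul_nonneg (mul_nonneg two_pos.le (Real.cos_nonneg_of_neg_pi_div_two_le_of_le
      (by linarith [ht.1]) (by linarith))) (Real.cos_nonneg_of_neg_pi_div_two_le_of_le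
      (by linarith [ht.2]) (by linarith [ht.1]))
  rw [Real.cos_add] at h2
  have h3 := Real.exp_pos ((((2 / π : ℝ) : ℂ) * T (r * cexp (t * I))).re)
  simp only [add_re, one_re, add_im, one_im, re_ofReal_mul, im_ofReal_mul, exp_ofReal_mul_I_re,
    exp_ofReal_mul_I_im, zero_add] at h3 ⊢
  nlinarith [mul_pos h3 (mul_pos (sub_pos.2 r1) h1), mul_nonneg h3.le (mul_nonneg r0 h2)]

theorem re_one_add {z : ℂ} (hz : ‖z‖ < 1) : 0 < (1 + z).re := by
  have := (abs_lt.1 ((abs_re_le_norm z).trans_lt hz)).1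
  rw [add_re, one_re]; linarith

theorem arg_bound {r t : ℝ} (r0 : 0 ≤ r) (r1 : r < 1) (ht : t ∈ Icc 0 π) :
    0 ≤ arg (1 + r * cexp (t * I)) ∧ arg (1 + r * cexp (t * I)) ≤ t / 2 ∧
      (0 < t → arg (1 + r * cexp (t * I)) < t / 2) := by
  have hp := Real.pi_pos
  have hn := norm_mul_lt r0 r1 (norm_e t).le
  have h0 : 0 ≤ arg (1 + r * cexp (t * I)) := arg_nonneg_iff.2 (by
    simpa [exp_ofReal_mul_I_im] using mul_nonneg r0 (Real.sin_nonneg_of_nonneg_of_le_pi ht.1 ht.2))
  have h1 : 0 < t → arg (1 + r * cexp (t * I)) < t / 2 := fun h => by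
    by_contra hc
    have h2 := Real.sin_nonneg_of_nonneg_of_le_pi (sub_nonneg.2 (not_lt.1 hc))
      (by linarith [arg_le_pi (1 + r * cexp (t * I))])
    have h3 := norm_pos_iff.2 (one_add_ne hn)
    rw [Real.sin_sub, sin_arg, cos_arg (one_add_ne hn), div_mul_eq_mul_div, div_mul_eq_mul_div,
      ← sub_div, le_div_iff₀ h3] at h2
    have h4 := Real.sin_pos_of_pos_of_lt_pi (x := t / 2) (by linarith) (by linarith [ht.2])
    have h5 := Real.sin_sub t (t / 2)
    rw [show t - t / 2 = t / 2 by ring] at h5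
    simp only [add_re, one_re, add_im, one_im, re_ofReal_mul, im_ofReal_mul, exp_ofReal_mul_I_re,
      exp_ofReal_mul_I_im, zero_add] at h2
    nlinarith [mul_pos (sub_pos.2 r1) h4]
  refine ⟨h0, ?_, h1⟩
  rcases ht.1.eq_or_lt with h | h
  · subst h
    simpa using (arg_ofReal_of_nonneg (x := 1 + r) (by linarith)).le
  · exact (h1 h).le

theorem log_conj' {z : ℂ} (hz : ‖z‖ < 1) : log (1 + conj z) = conj (log (1 + z)) := by
  rw [← log_conj _ (by
    have := abs_arg_lt_pi_div_two_iff.2 (Or.inl (re_one_add hz))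
    linarith [(abs_lt.1 this).2, Real.pi_pos] : arg (1 + z) < π).ne, map_add, map_one]

theorem L_im : ∀ z ∈ ball (0 : ℂ) 1, ‖z‖ < 1 → |(L z).im| < π := by
  refine polar (fun z h hz => ?_) fun r t r0 r1 ht hz => ?_
  · have h1 := h (by simpa using hz)
    have h2 := log_conj' (z := -z) (by simpa using hz)
    rw [map_neg, ← sub_eq_add_neg, ← sub_eq_add_neg] at h2
    have : L (conj z) = conj (L z) := by simp [L, log_conj' hz, h2, T_conj, map_ofNat]
    rwa [this, conj_im, abs_neg] at h1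
  · obtain ⟨s0, s1, -⟩ := T_im_bound r0 r1 ht
    obtain ⟨a0, a1, a2⟩ := arg_bound r0 r1 ht
    obtain ⟨b0, b1, b2⟩ := arg_bound r0 r1 (t := π - t) ⟨by linarith [ht.2], by linarith [ht.1]⟩
    have h2 := log_conj' (z := -(r * cexp (t * I))) (by simpa using hz)
    have e : conj (-((r : ℂ) * cexp (t * I))) = r * cexp (((π - t : ℝ) : ℂ) * I) := by
      push_cast
      rw [sub_mul, sub_eq_add_neg, exp_add, exp_pi_mul_I, map_neg, map_mul, conj_ofReal,
        ← exp_conj]
      simp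
    have h3 := congrArg im h2
    rw [e, conj_im, log_im, ← sub_eq_add_neg] at h3
    have h4 : (L (r * cexp (t * I))).im = arg (1 + r * cexp (t * I)) +
        2 * arg (1 + r * cexp (((π - t : ℝ) : ℂ) * I)) + 2 / π * (T (r * cexp (t * I))).im := by
      rw [L, two_div_pi, add_im, im_ofReal_mul, sub_im, log_im, h3]
      simp
      ring
    rw [h4, abs_of_nonneg (by linarith)]
    rcases ht.1.eq_or_lt with h | h
    · linarith [b2 (by linarith [Real.pi_pos])]
    · linarith [a2 h]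

theorem inv_re_pos {z : ℂ} (hz : ‖z‖ < 1) : 0 < (1 / (1 + z)).re := by
  rw [one_div, inv_re]
  exact div_pos (re_one_add hz) (normSq_pos.2 (one_add_ne hz))

theorem Q_inj : InjOn Q (ball 0 1) := by
  have hL : InjOn L (ball 0 1) := by
    refine nw (convex_ball _ _) (G' := fun z => 1 / (1 + z) - 2 * (-1 / (1 - z)) + 2 / π * deriv T z)
      (fun z hz => ?_) fun z hz => ?_
    · rw [mem_ball_zero_iff] at hz
      exact ((((hasDerivAt_id' z).const_add 1).clog (Or.inl (re_one_add hz))).sub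
        ((((hasDerivAt_id' z).const_sub 1).clog (Or.inl (by
          simpa [sub_eq_add_neg] using re_one_add (z := -z) (by simpa using hz)))).const_mul 2)).add
        ((T_hasDerivAt hz).const_mul _)
    · rw [mem_ball_zero_iff] at hz
      have h1 := inv_re_pos hz
      have h2 := inv_re_pos (z := -z) (by simpa using hz)
      have h3 := mul_nonneg (show 0 ≤ 2 / π by positivity) (T_deriv_re_nonneg hz)
      rw [two_div_pi, add_re, re_ofReal_mul, neg_div, mul_neg, sub_neg_eq_add, add_re, two_mul,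
        add_re, sub_eq_add_neg]
      linarith
  have he : ∀ z ∈ ball (0 : ℂ) 1, Q z = cexp (L z) := fun z hz => by
    rw [mem_ball_zero_iff] at hz
    have h2 := one_add_ne (z := -z) (by simpa using hz)
    rw [← sub_eq_add_neg] at h2
    rw [L, exp_add, exp_sub, two_mul (log _), exp_add, exp_log h2, exp_log (one_add_ne hz), Q, B]
    ring
  intro a ha b hb hab
  have h1 := abs_lt.1 (L_im a ha (mem_ball_zero_iff.1 ha))
  have h2 := abs_lt.1 (L_im b hb (mem_ball_zero_iff.1 hb))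
  rw [he a ha, he b hb] at hab
  exact hL ha hb (exp_inj_of_neg_pi_lt_of_le_pi h1.1 h1.2.le h2.1 h2.2.le hab)

theorem one_sub_ne {z : ℂ} (hz : z ∈ ball (0 : ℂ) 1) : 1 - z ≠ 0 := by
  rw [sub_eq_add_neg]; exact one_add_ne (by simpa using hz)

theorem B_diff : DifferentiableOn ℂ B (ball 0 1) :=
  DifferentiableOn.mul (by fun_prop) (T_diff.const_mul _).cexp

theorem Q_diff : DifferentiableOn ℂ Q (ball 0 1) :=
  B_diff.div (by fun_prop) fun _ hz => pow_ne_zero _ (one_sub_ne hz)

theorem F_inj {F : ℂ → ℂ} (hF : ∀ z ∈ ball (0 : ℂ) 1, HasDerivAt F (Q z) z) :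
    InjOn F (ball 0 1) := by
  have n1 : ∀ w : ℂ, -1 / 2 < w.re → 1 + w ≠ 0 := fun w hw h => by
    have := congrArg re h
    rw [add_re, one_re, zero_re] at this; linarith
  have m1 : ∀ w : ℂ, -1 / 2 < w.re → w / (1 + w) ∈ ball (0 : ℂ) 1 := fun w hw => by
    rw [mem_ball_zero_iff, norm_div, div_lt_one (norm_pos_iff.2 (n1 w hw)),
      ← sq_lt_sq₀ (norm_nonneg _) (norm_nonneg _), Complex.sq_norm, Complex.sq_norm, normSq_apply,
      normSq_apply]
    simp only [add_re, one_re, add_im, one_im, zero_add]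
    linarith
  have hG := nw (convex_halfSpace_re_gt (-1 / 2)) (G := fun w => F (w / (1 + w)))
    (G' := fun w => B (w / (1 + w))) (fun w hw => ?_) fun w hw => B_re_pos _ (m1 w hw)
  · have m2 : ∀ z ∈ ball (0 : ℂ) 1, -1 / 2 < (z / (1 - z)).re := fun z hz => by
      have h1 := normSq_pos.2 (one_sub_ne hz)
      rw [mem_ball_zero_iff, ← sq_lt_sq₀ (norm_nonneg _) one_pos.le, Complex.sq_norm,
        normSq_apply] at hz
      rw [div_re, ← add_div, lt_div_iff₀ h1, normSq_apply]
      simp only [sub_re, one_re, sub_im, one_im, zero_sub]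
      linarith
    have m3 : ∀ z ∈ ball (0 : ℂ) 1, z / (1 - z) / (1 + z / (1 - z)) = z := fun z hz => by
      have := one_sub_ne hz
      field_simp
      simp
    intro a ha b hb hab
    have := hG (m2 a ha) (m2 b hb) (by simp only [m3 a ha, m3 b hb, hab])
    rw [← m3 a ha, this, m3 b hb]
  · have h1 := n1 w hw
    refine ((hF _ (m1 w hw)).comp w ((hasDerivAt_id' w).div ((hasDerivAt_id' w).const_add 1)
      h1)).congr_deriv ?_
    have h2 : 1 - w / (1 + w) = 1 / (1 + w) := by field_simp; ring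
    rw [Q, h2]
    field_simp
    ring

theorem sym_iter {g : ℂ → ℂ} (hs : ∀ z ∈ ball (0 : ℂ) 1, g (conj z) = conj (g z)) (n : ℕ) :
    (iteratedDeriv n g 0).im = 0 := by
  have key : ∀ z ∈ ball (0 : ℂ) 1, iteratedDeriv n g (conj z) = conj (iteratedDeriv n g z) := by
    induction n with
    | zero => simpa using hs
    | succ n ih => rw [iteratedDeriv_succ]; exact sym_deriv ih
  have := key 0 (by simp)
  rw [map_zero] at this
  exact conj_eq_iff_im.1 this.symm

theorem Q_deriv : HasDerivAt Q (3 + 2 / π) 0 := by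
  have h1 := ((hasDerivAt_id' (0 : ℂ)).const_sub 1).pow 2
  have h2 := ((T_hasDerivAt (z := 0) (by simp)).const_mul (2 / π : ℂ)).cexp
  refine ((((hasDerivAt_id' (0 : ℂ)).const_add 1).mul h2).div h1 (by simp)).congr_deriv ?_
  simp [T_zero, T_deriv_zero]
  ring

theorem exists_F : ∃ F, InSR F ∧ ∀ n, coeff F (n + 1) = iteratedDeriv n Q 0 / (n + 1).factorial := by
  obtain ⟨F, h0, hF⟩ := Q_diff.isExactOn_ball.with_val_at 0 0
  have hd : ∀ z ∈ ball (0 : ℂ) 1, deriv F z = Q z := fun z hz => (hF z hz).deriv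
  have hc : ∀ n, coeff F (n + 1) = iteratedDeriv n Q 0 / (n + 1).factorial := fun n => by
    rw [coeff, iteratedDeriv_succ', (Filter.EventuallyEq.iteratedDeriv
      (mem_of_superset (ball_mem_nhds _ one_pos) hd) n).eq_of_nhds]
  refine ⟨F, ⟨⟨fun z hz => (hF z hz).differentiableAt.differentiableWithinAt, F_inj hF, h0,
    by simp [hd 0 (by simp), Q, B, T_zero], Q_inj.congr fun z hz => (hd z hz).symm⟩, ?_⟩, hc⟩
  rintro (_ | n)
  · simp [coeff, h0]
  · rw [hc, div_natCast_im, sym_iter (fun z _ => by simp [Q, B_conj]), zero_div]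

theorem B_approx {ε : ℝ} (hε : 0 < ε) : ∃ C, 0 ≤ C ∧ ∀ z ∈ ball (0 : ℂ) 1,
    ‖(B z - B 1) / (1 - z) ^ 2‖ ≤ ε / normSq (1 - z) + C := by
  have hc : ContinuousOn (fun z => B z - B 1) (closedBall 0 1) :=
    (ContinuousOn.mul (by fun_prop) (continuousOn_const.mul T_cont).cexp).sub continuousOn_const
  obtain ⟨M, hM⟩ := (isCompact_closedBall (0 : ℂ) 1).exists_bound_of_continuousOn hc
  obtain ⟨δ, hδ, h⟩ := Metric.continuousWithinAt_iff.1 (hc 1 (by simp)) ε hε
  have M0 : 0 ≤ M := (norm_nonneg _).trans (hM 0 (by simp))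
  refine ⟨M / δ ^ 2, by positivity, fun z hz => ?_⟩
  have h1 := norm_pos_iff.2 (one_sub_ne hz)
  rw [norm_div, norm_pow, ← Complex.sq_norm]
  rcases lt_or_ge (dist z 1) δ with h2 | h2
  · have := h (ball_subset_closedBall hz) h2
    rw [sub_self, dist_zero_right] at this
    exact le_add_of_le_of_nonneg (div_le_div_of_nonneg_right this.le (by positivity))
      (by positivity)
  · rw [dist_comm, dist_eq_norm] at h2
    exact le_add_of_nonneg_of_le (by positivity) (div_le_div₀ M0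
      (hM z (ball_subset_closedBall hz)) (by positivity) (pow_le_pow_left₀ hδ.le h2 2))

theorem rem_le {R : ℂ → ℂ} (hd : DifferentiableOn ℂ R (ball 0 1))
    (hs : ∀ z, R (conj z) = conj (R z)) {ε C : ℝ} (hε : 0 < ε)
    (h : ∀ z ∈ ball (0 : ℂ) 1, ‖R z‖ ≤ ε / normSq (1 - z) + C) (k : ℕ) :
    |(iteratedDeriv (k + 1) R 0 / (k + 1).factorial).re| ≤ 8 * ε * (k + 1) + 4 * C := by
  have hp := Real.pi_pos
  obtain ⟨ρ, hρ⟩ : ∃ ρ : ℝ, ρ = 1 + -(1 / (2 * (k + 1))) := ⟨_, rfl⟩
  have u0 : (0 : ℝ) < 1 / (2 * (k + 1)) := by positivity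
  have u1 : (1 : ℝ) / (2 * (k + 1)) ≤ 1 / 2 :=
    one_div_le_one_div_of_le two_pos (by linarith [k.cast_nonneg (α := ℝ)])
  have r0 : 0 < ρ := by linarith
  have r1 : ρ < 1 := by linarith
  have r2 : 1 / 2 ≤ ρ ^ (k + 1) := by
    refine le_trans (le_of_eq ?_) (hρ ▸ one_add_mul_le_pow (by linarith) (k + 1))
    push_cast; field_simp; ring
  have r3 : 1 / (1 - ρ ^ 2) ≤ 2 * (k + 1) := by
    have : (1 - ρ) * (2 * (k + 1)) = 1 := by rw [hρ]; field_simp; ring
    rw [div_le_iff₀ (by nlinarith)]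
    nlinarith
  have c1 := coeff_int (dil_dc hd r0.le r1) (fun z _ => by rw [← hs]; simp) k
  have p1 := poisson (J := fun z => z) ⟨differentiableOn_id, continuousOn_id⟩ (fun _ _ => rfl)
    r0.ne' (by rwa [abs_of_pos r0])
  simp only [div_self (e_ne _), one_re, ofReal_re, zero_re, sub_zero] at p1
  rw [div_right_comm, div_self r0.ne'] at p1
  have i1 : IntervalIntegrable (fun t : ℝ => 1 / (1 - 2 * ρ * Real.cos t + ρ ^ 2))
      MeasureTheory.volume 0 π := (continuous_const.div (by fun_prop)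
        fun t => (den_pos r0.le r1 t).ne').intervalIntegrable _ _
  have b1 := intervalIntegral.norm_integral_le_of_norm_le hp.le
    (f := fun t => 2 * Real.sin ((k + 1 : ℕ) * t) * (R (ρ * cexp (t * I))).im)
    (Eventually.of_forall fun t _ => ?_)
    ((i1.const_mul (2 * ε)).add (intervalIntegrable_const (c := 2 * C)))
  · rw [← c1, intervalIntegral.integral_add (i1.const_mul _) intervalIntegrable_const,
      intervalIntegral.integral_const_mul, ← p1, iter_dil] at b1
    simp only [mul_zero, mul_div_assoc, ← ofReal_pow, re_ofReal_mul, Real.norm_eq_abs, abs_mul,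
      abs_of_pos hp, abs_of_pos (pow_pos r0 (k + 1)), intervalIntegral.integral_const, sub_zero,
      smul_eq_mul] at b1
    have q1 := mul_le_mul_of_nonneg_right r2
      (abs_nonneg (iteratedDeriv (k + 1) R 0 / (k + 1).factorial).re)
    have q2 := mul_le_mul_of_nonneg_left r3 hε.le
    refine le_of_mul_le_mul_left ?_ hp
    nlinarith [mul_le_mul_of_nonneg_left q1 hp.le, mul_le_mul_of_nonneg_left q2 hp.le]
  · have h1 := (abs_im_le_norm _).trans (h _ (mem_ball_zero_iff.2 (norm_mul_lt r0.le r1 (norm_e t).le)))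
    have h2 : normSq (1 - ρ * cexp (t * I)) = 1 - 2 * ρ * Real.cos t + ρ ^ 2 := by
      simp only [normSq_apply, sub_re, sub_im, one_re, one_im, re_ofReal_mul, im_ofReal_mul,
        exp_ofReal_mul_I_re, exp_ofReal_mul_I_im]
      linear_combination ρ ^ 2 * Real.sin_sq_add_cos_sq t
    rw [h2, div_eq_mul_one_div] at h1
    rw [Real.norm_eq_abs, abs_mul, abs_mul, abs_two]
    nlinarith [mul_le_of_le_one_left (abs_nonneg (R (ρ * cexp (t * I))).im)
      (Real.abs_sin_le_one ((k + 1 : ℕ) * t))]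

theorem B_one : B 1 = ((2 * Real.exp (2 * catalanG / π) : ℝ) : ℂ) := by
  rw [B, T_one]; push_cast; ring_nf

theorem Q_split (n : ℕ) : iteratedDeriv n Q 0 / (n + 1).factorial =
    B 1 + iteratedDeriv n (fun z => (B z - B 1) / (1 - z) ^ 2) 0 / (n + 1).factorial := by
  have e1 : Q = fun z => B 1 * deriv (fun z : ℂ => (-1 * z + 1)⁻¹) z + (B z - B 1) / (1 - z) ^ 2 := by
    ext z
    have := congrFun (iter_deriv_inv_linear 1 (-1 : ℂ) 1) z
    rw [Function.iterate_one] at this
    rw [this, Q, show (-1 - (1 : ℕ) : ℤ) = -(2 : ℕ) by norm_num, zpow_neg, zpow_natCast]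
    simp
    ring
  have a1 : DifferentiableOn ℂ (fun z : ℂ => (-1 * z + 1)⁻¹) (ball 0 1) :=
    DifferentiableOn.inv (by fun_prop) fun z hz => by
      simpa [sub_eq_neg_add] using one_sub_ne hz
  have a2 : DifferentiableOn ℂ (fun z => (B z - B 1) / (1 - z) ^ 2) (ball 0 1) :=
    (B_diff.sub_const _).div (by fun_prop) fun _ hz => pow_ne_zero _ (one_sub_ne hz)
  have : ((n + 1).factorial : ℂ) ≠ 0 := by exact_mod_cast (n + 1).factorial_ne_zero
  rw [e1, iteratedDeriv_fun_add ((((a1.deriv isOpen_ball).const_mul _).analyticAt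
    (ball_mem_nhds _ one_pos)).contDiffAt) (a2.analyticAt (ball_mem_nhds _ one_pos)).contDiffAt,
    iteratedDeriv_const_mul_field, ← iteratedDeriv_succ', iteratedDeriv_eq_iterate,
    iter_deriv_inv_linear, add_div]
  congr 1
  rcases neg_one_pow_eq_or ℂ (n + 1) with h | h <;> simp [h, this]

theorem lower : ∃ F, InSR F ∧ ‖coeff F 2‖ = 3 / 2 + 1 / π ∧
    Tendsto (fun n => ‖coeff F n‖) atTop (𝓝 (2 * Real.exp (2 * catalanG / π))) := by
  obtain ⟨F, hF, hc⟩ := exists_F
  refine ⟨F, hF, ?_, ?_⟩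
  · rw [hc, iteratedDeriv_one, Q_deriv.deriv,
      show (3 + 2 / π : ℂ) / (Nat.factorial (1 + 1) : ℕ) = ((3 / 2 + 1 / π : ℝ) : ℂ) by
        push_cast; simp [Nat.factorial]; ring, norm_real, Real.norm_of_nonneg (by positivity)]
  · rw [← tendsto_add_atTop_iff_nat 2, ← abs_of_pos (show 0 < 2 * Real.exp (2 * catalanG / π) by
      positivity)]
    simp only [← abs_re_eq_norm.2 (hF.2 _)]
    refine Tendsto.abs (Metric.tendsto_atTop'.2 fun ε hε => ?_)
    obtain ⟨C, hC, h⟩ := B_approx (ε := ε / 16) (by positivity)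
    obtain ⟨N, hN⟩ := exists_nat_gt (8 * C / ε)
    refine ⟨N, fun k hk => ?_⟩
    have h1 := rem_le ((B_diff.sub_const _).div (by fun_prop) fun _ hz =>
      pow_ne_zero _ (one_sub_ne hz)) (fun z => by simp [← B_conj]) (by positivity) h k
    have h2 : (N : ℝ) < k := by exact_mod_cast hk
    rw [div_lt_iff₀ hε] at hN
    rw [hc, Q_split, add_re, B_one, ofReal_re, Real.dist_eq, add_sub_cancel_left, ← B_one,
      Nat.factorial_succ (k + 1), Nat.cast_mul, mul_comm, ← div_div, div_natCast_re, abs_div,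
      Nat.abs_cast, div_lt_iff₀ (by positivity)]
    refine h1.trans_lt ?_
    push_cast
    nlinarith

end Pool.Agent.P.MP_3df8df_an
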