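import Pool.Agent.P.MP_3df8df_an.RCoef

/-!
Numerical bounds and positivity of the certificates (Bernstein forms on subintervals).
-/

set_option autoImplicit false

namespace Pool.Agent.P.BSR

open Set

/-- Enclosures of the first coefficients. -/
structure Box (e : ℕ → ℝ) : Prop where
  z : e 0 = 1
  l1 : (3636619 / 1000000) ≤ e 1
  h1 : e 1 ≤ (181831 / 50000)
  l2 : (569 / 80) ≤ e 2
  h2 : e 2 ≤ (7112503 / 1000000)
  l3 : (10763289 / 1000000) ≤ e 3
  h3 : e 3 ≤ (2152659 / 200000)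
  l4 : (14348157 / 1000000) ≤ e 4
  h4 : e 4 ≤ (7174083 / 500000)
  l5 : (447671 / 25000) ≤ e 5
  h5 : e 5 ≤ (17906851 / 1000000)
  l6 : (21493289 / 1000000) ≤ e 6
  h6 : e 6 ≤ (21493303 / 1000000)
  l7 : (12544393 / 500000) ≤ e 7
  h7 : e 7 ≤ (25088803 / 1000000)
  l8 : (28669037 / 1000000) ≤ e 8
  h8 : e 8 ≤ (28669057 / 1000000)
  l9 : (32245053 / 1000000) ≤ e 9
  h9 : e 9 ≤ (8061269 / 250000)
  l10 : (3583069 / 100000) ≤ e 10
  h10 : e 10 ≤ (8957679 / 250000)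
  l11 : (39418663 / 1000000) ≤ e 11
  h11 : e 11 ≤ (9854673 / 250000)
  l12 : (43000019 / 1000000) ≤ e 12
  h12 : e 12 ≤ (43000051 / 1000000)
  l13 : (46579943 / 1000000) ≤ e 13
  h13 : e 13 ≤ (23289989 / 500000)

theorem box {c : ℝ} (c1 : (6366197 / 10000000) ≤ c) (c2 : c ≤ (6366199 / 10000000)) : Box (eta c) := by
  have z : eta c 0 = 1 := by rw [eta]
  have r := eta_succ c 0
  norm_num [Finset.sum_range_succ, mu, tau, z] at r
  have l1 : (3636619 / 1000000) ≤ eta c 1 := by linarith only [r, c1, c2]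
  have h1 : eta c 1 ≤ (181831 / 50000) := by linarith only [r, c1, c2]
  have m1 := mul_le_mul l1 c1 (by norm_num) (le_trans (by norm_num) l1)
  have n1 := mul_le_mul h1 c2 (le_trans (by norm_num) c1) (by norm_num)
  clear r
  have r := eta_succ c 1
  norm_num [Finset.sum_range_succ, mu, tau, z] at r
  have l2 : (569 / 80) ≤ eta c 2 := by linarith only [r, c1, c2, l1, m1]
  have h2 : eta c 2 ≤ (7112503 / 1000000) := by linarith only [r, c1, c2, h1, n1]
  have m2 := mul_le_mul l2 c1 (by norm_num) (le_trans (by norm_num) l2)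
  have n2 := mul_le_mul h2 c2 (le_trans (by norm_num) c1) (by norm_num)
  clear r
  have r := eta_succ c 2
  norm_num [Finset.sum_range_succ, mu, tau, z] at r
  have l3 : (10763289 / 1000000) ≤ eta c 3 := by linarith only [r, c1, c2, l1, l2, m2]
  have h3 : eta c 3 ≤ (2152659 / 200000) := by linarith only [r, c1, c2, h1, h2, n2]
  have m3 := mul_le_mul l3 c1 (by norm_num) (le_trans (by norm_num) l3)
  have n3 := mul_le_mul h3 c2 (le_trans (by norm_num) c1) (by norm_num)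
  clear r
  have r := eta_succ c 3
  norm_num [Finset.sum_range_succ, mu, tau, z] at r
  have l4 : (14348157 / 1000000) ≤ eta c 4 := by linarith only [r, c1, c2, l1, n1, l2, l3, m3]
  have h4 : eta c 4 ≤ (7174083 / 500000) := by linarith only [r, c1, c2, h1, m1, h2, h3, n3]
  have m4 := mul_le_mul l4 c1 (by norm_num) (le_trans (by norm_num) l4)
  have n4 := mul_le_mul h4 c2 (le_trans (by norm_num) c1) (by norm_num)
  clear r
  have r := eta_succ c 4
  norm_num [Finset.sum_range_succ, mu, tau, z] at r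
  have l5 : (447671 / 25000) ≤ eta c 5 := by linarith only [r, c1, c2, l1, l2, n2, l3, l4, m4]
  have h5 : eta c 5 ≤ (17906851 / 1000000) := by linarith only [r, c1, c2, h1, h2, m2, h3, h4, n4]
  have m5 := mul_le_mul l5 c1 (by norm_num) (le_trans (by norm_num) l5)
  have n5 := mul_le_mul h5 c2 (le_trans (by norm_num) c1) (by norm_num)
  clear r
  have r := eta_succ c 5
  norm_num [Finset.sum_range_succ, mu, tau, z] at r
  have l6 : (21493289 / 1000000) ≤ eta c 6 := by linarith only [r, c1, c2, l1, m1, l2, l3, n3, l4, l5, m5]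
  have h6 : eta c 6 ≤ (21493303 / 1000000) := by linarith only [r, c1, c2, h1, n1, h2, h3, m3, h4, h5, n5]
  have m6 := mul_le_mul l6 c1 (by norm_num) (le_trans (by norm_num) l6)
  have n6 := mul_le_mul h6 c2 (le_trans (by norm_num) c1) (by norm_num)
  clear r
  have r := eta_succ c 6
  norm_num [Finset.sum_range_succ, mu, tau, z] at r
  have l7 : (12544393 / 500000) ≤ eta c 7 := by linarith only [r, c1, c2, l1, l2, m2, l3, l4, n4, l5, l6, m6]
  have h7 : eta c 7 ≤ (25088803 / 1000000) := by linarith only [r, c1, c2, h1, h2, n2, h3, h4, m4, h5, h6, n6]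
  have m7 := mul_le_mul l7 c1 (by norm_num) (le_trans (by norm_num) l7)
  have n7 := mul_le_mul h7 c2 (le_trans (by norm_num) c1) (by norm_num)
  clear r
  have r := eta_succ c 7
  norm_num [Finset.sum_range_succ, mu, tau, z] at r
  have l8 : (28669037 / 1000000) ≤ eta c 8 := by linarith only [r, c1, c2, l1, n1, l2, l3, m3, l4, l5, n5, l6, l7, m7]
  have h8 : eta c 8 ≤ (28669057 / 1000000) := by linarith only [r, c1, c2, h1, m1, h2, h3, n3, h4, h5, m5, h6, h7, n7]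
  have m8 := mul_le_mul l8 c1 (by norm_num) (le_trans (by norm_num) l8)
  have n8 := mul_le_mul h8 c2 (le_trans (by norm_num) c1) (by norm_num)
  clear r
  have r := eta_succ c 8
  norm_num [Finset.sum_range_succ, mu, tau, z] at r
  have l9 : (32245053 / 1000000) ≤ eta c 9 := by linarith only [r, c1, c2, l1, l2, n2, l3, l4, m4, l5, l6, n6, l7, l8, m8]
  have h9 : eta c 9 ≤ (8061269 / 250000) := by linarith only [r, c1, c2, h1, h2, m2, h3, h4, n4, h5, h6, m6, h7, h8, n8]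
  have m9 := mul_le_mul l9 c1 (by norm_num) (le_trans (by norm_num) l9)
  have n9 := mul_le_mul h9 c2 (le_trans (by norm_num) c1) (by norm_num)
  clear r
  have r := eta_succ c 9
  norm_num [Finset.sum_range_succ, mu, tau, z] at r
  have l10 : (3583069 / 100000) ≤ eta c 10 := by linarith only [r, c1, c2, l1, m1, l2, l3, n3, l4, l5, m5, l6, l7, n7, l8, l9, m9]
  have h10 : eta c 10 ≤ (8957679 / 250000) := by linarith only [r, c1, c2, h1, n1, h2, h3, m3, h4, h5, n5, h6, h7, m7, h8, h9, n9]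
  have m10 := mul_le_mul l10 c1 (by norm_num) (le_trans (by norm_num) l10)
  have n10 := mul_le_mul h10 c2 (le_trans (by norm_num) c1) (by norm_num)
  clear r
  have r := eta_succ c 10
  norm_num [Finset.sum_range_succ, mu, tau, z] at r
  have l11 : (39418663 / 1000000) ≤ eta c 11 := by linarith only [r, c1, c2, l1, l2, m2, l3, l4, n4, l5, l6, m6, l7, l8, n8, l9, l10, m10]
  have h11 : eta c 11 ≤ (9854673 / 250000) := by linarith only [r, c1, c2, h1, h2, n2, h3, h4, m4, h5, h6, n6, h7, h8, m8, h9, h10, n10]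
  have m11 := mul_le_mul l11 c1 (by norm_num) (le_trans (by norm_num) l11)
  have n11 := mul_le_mul h11 c2 (le_trans (by norm_num) c1) (by norm_num)
  clear r
  have r := eta_succ c 11
  norm_num [Finset.sum_range_succ, mu, tau, z] at r
  have l12 : (43000019 / 1000000) ≤ eta c 12 := by linarith only [r, c1, c2, l1, n1, l2, l3, m3, l4, l5, n5, l6, l7, m7, l8, l9, n9, l10, l11, m11]
  have h12 : eta c 12 ≤ (43000051 / 1000000) := by linarith only [r, c1, c2, h1, m1, h2, h3, n3, h4, h5, m5, h6, h7, n7, h8, h9, m9, h10, h11, n11]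
  have m12 := mul_le_mul l12 c1 (by norm_num) (le_trans (by norm_num) l12)
  have n12 := mul_le_mul h12 c2 (le_trans (by norm_num) c1) (by norm_num)
  clear r
  have r := eta_succ c 12
  norm_num [Finset.sum_range_succ, mu, tau, z] at r
  have l13 : (46579943 / 1000000) ≤ eta c 13 := by linarith only [r, c1, c2, l1, l2, n2, l3, l4, m4, l5, l6, n6, l7, l8, m8, l9, l10, n10, l11, l12, m12]
  have h13 : eta c 13 ≤ (23289989 / 500000) := by linarith only [r, c1, c2, h1, h2, m2, h3, h4, n4, h5, h6, m6, h7, h8, n8, h9, h10, m10, h11, h12, n12]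
  clear r
  exact ⟨z, l1, h1, l2, h2, l3, h3, l4, h4, l5, h5, l6, h6, l7, h7, l8, h8, l9, h9, l10, h10, l11, h11, l12, h12, l13, h13⟩

theorem uu1 (x : ℝ) : uu 1 x = 1 := rfl

theorem du1 (x : ℝ) : du 1 x = 0 := rfl

theorem uu2 (x : ℝ) : uu 2 x = 2 * x ^ 1 := by
  rw [uu, uu, uu]; ring

theorem du2 (x : ℝ) : du 2 x = 2 * x ^ 0 := by
  rw [du, uu, du, du]; ring

theorem uu3 (x : ℝ) : uu 3 x = (-1) * x ^ 0 + 4 * x ^ 2 := by
  rw [uu, uu2, uu]; ring

theorem du3 (x : ℝ) : du 3 x = 8 * x ^ 1 := by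
  rw [du, uu2, du2, du]; ring

theorem uu4 (x : ℝ) : uu 4 x = (-4) * x ^ 1 + 8 * x ^ 3 := by
  rw [uu, uu3, uu2]; ring

theorem du4 (x : ℝ) : du 4 x = (-4) * x ^ 0 + 24 * x ^ 2 := by
  rw [du, uu3, du3, du2]; ring

theorem uu5 (x : ℝ) : uu 5 x = 1 * x ^ 0 + (-12) * x ^ 2 + 16 * x ^ 4 := by
  rw [uu, uu4, uu3]; ring

theorem du5 (x : ℝ) : du 5 x = (-24) * x ^ 1 + 64 * x ^ 3 := by
  rw [du, uu4, du4, du3]; ring

theorem uu6 (x : ℝ) : uu 6 x = 6 * x ^ 1 + (-32) * x ^ 3 + 32 * x ^ 5 := by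
  rw [uu, uu5, uu4]; ring

theorem du6 (x : ℝ) : du 6 x = 6 * x ^ 0 + (-96) * x ^ 2 + 160 * x ^ 4 := by
  rw [du, uu5, du5, du4]; ring

theorem uu7 (x : ℝ) : uu 7 x = (-1) * x ^ 0 + 24 * x ^ 2 + (-80) * x ^ 4 + 64 * x ^ 6 := by
  rw [uu, uu6, uu5]; ring

theorem du7 (x : ℝ) : du 7 x = 48 * x ^ 1 + (-320) * x ^ 3 + 384 * x ^ 5 := by
  rw [du, uu6, du6, du5]; ring

theorem uu8 (x : ℝ) : uu 8 x = (-8) * x ^ 1 + 80 * x ^ 3 + (-192) * x ^ 5 + 128 * x ^ 7 := by
  rw [uu, uu7, uu6]; ring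

theorem du8 (x : ℝ) : du 8 x = (-8) * x ^ 0 + 240 * x ^ 2 + (-960) * x ^ 4 + 896 * x ^ 6 := by
  rw [du, uu7, du7, du6]; ring

theorem uu9 (x : ℝ) : uu 9 x = 1 * x ^ 0 + (-40) * x ^ 2 + 240 * x ^ 4 + (-448) * x ^ 6 + 256 * x ^ 8 := by
  rw [uu, uu8, uu7]; ring

theorem du9 (x : ℝ) : du 9 x = (-80) * x ^ 1 + 960 * x ^ 3 + (-2688) * x ^ 5 + 2048 * x ^ 7 := by
  rw [du, uu8, du8, du7]; ring

theorem uu10 (x : ℝ) : uu 10 x = 10 * x ^ 1 + (-160) * x ^ 3 + 672 * x ^ 5 + (-1024) * x ^ 7 + 512 * x ^ 9 := by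
  rw [uu, uu9, uu8]; ring

theorem du10 (x : ℝ) : du 10 x = 10 * x ^ 0 + (-480) * x ^ 2 + 3360 * x ^ 4 + (-7168) * x ^ 6 + 4608 * x ^ 8 := by
  rw [du, uu9, du9, du8]; ring

theorem uu11 (x : ℝ) : uu 11 x = (-1) * x ^ 0 + 60 * x ^ 2 + (-560) * x ^ 4 + 1792 * x ^ 6 + (-2304) * x ^ 8 + 1024 * x ^ 10 := by
  rw [uu, uu10, uu9]; ring

theorem du11 (x : ℝ) : du 11 x = 120 * x ^ 1 + (-2240) * x ^ 3 + 10752 * x ^ 5 + (-18432) * x ^ 7 + 10240 * x ^ 9 := by
  rw [du, uu10, du10, du9]; ring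

theorem uu12 (x : ℝ) : uu 12 x = (-12) * x ^ 1 + 280 * x ^ 3 + (-1792) * x ^ 5 + 4608 * x ^ 7 + (-5120) * x ^ 9 + 2048 * x ^ 11 := by
  rw [uu, uu11, uu10]; ring

theorem du12 (x : ℝ) : du 12 x = (-12) * x ^ 0 + 840 * x ^ 2 + (-8960) * x ^ 4 + 32256 * x ^ 6 + (-46080) * x ^ 8 + 22528 * x ^ 10 := by
  rw [du, uu11, du11, du10]; ring

theorem uu13 (x : ℝ) : uu 13 x = 1 * x ^ 0 + (-84) * x ^ 2 + 1120 * x ^ 4 + (-5376) * x ^ 6 + 11520 * x ^ 8 + (-11264) * x ^ 10 + 4096 * x ^ 12 := by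
  rw [uu, uu12, uu11]; ring

theorem du13 (x : ℝ) : du 13 x = (-168) * x ^ 1 + 4480 * x ^ 3 + (-32256) * x ^ 5 + 92160 * x ^ 7 + (-112640) * x ^ 9 + 49152 * x ^ 11 := by
  rw [du, uu12, du12, du11]; ring

end Pool.Agent.P.BSR
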