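import Pool.Agent.P.MP_3df8df_an.RGen

/-!
The recursion for the Taylor coefficients of the derivative of the function of Barnard and Suffridge.
-/

set_option autoImplicit false

namespace Pool.Agent.P.BSR

open Metric Set Complex Filter Topology PowerSeries Pool.Agent.P.MP_c09211_an
open Pool.Agent.P.MP_3df8df_an (one_sub_ne)
open scoped Real

/-- Coefficients of `arctan z / z`. -/
noncomputable def tau (k : ℕ) : ℝ := if k % 2 = 0 then (-1) ^ (k / 2) / (k + 1) else 0

/-- Coefficients of the logarithmic derivative. -/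
noncomputable def mu (c : ℝ) (k : ℕ) : ℝ := (-1) ^ k + 2 + c * tau k

/-- The recursion. -/
noncomputable def eta (c : ℝ) : ℕ → ℝ
  | 0 => 1
  | k + 1 => (∑ i : Fin (k + 1), eta c i * mu c (k - i)) / (k + 1)
decreasing_by exact i.2

theorem eta_succ (c : ℝ) (k : ℕ) :
    eta c (k + 1) * (k + 1) = ∑ i ∈ Finset.range (k + 1), eta c i * mu c (k - i) := by
  rw [eta, div_mul_cancel₀ _ (by positivity), Finset.sum_range fun i => eta c i * mu c (k - i)]

theorem tay_of_hasSum {f : ℂ → ℂ} {a : ℕ → ℂ}
    (h : ∀ z ∈ ball (0 : ℂ) 1, HasSum (fun n => a n * z ^ n) (f z)) : tay f = PowerSeries.mk a := by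
  have h1 : HasFPowerSeriesAt f (FormalMultilinearSeries.ofScalars ℂ a) 0 := by
    rw [hasFPowerSeriesAt_iff']
    filter_upwards [ball_mem_nhds (0 : ℂ) one_pos] with z hz
    simpa [mul_comm] using h z hz
  exact congrArg PowerSeries.mk (FormalMultilinearSeries.ofScalars_series_injective ℂ ℂ
    (h1.analyticAt.hasFPowerSeriesAt.eq_formalMultilinearSeries h1))

theorem tay_deriv (f : ℂ → ℂ) : tay (deriv f) = d⁄dX ℂ (tay f) := by
  ext k
  have a : (k + 1 : ℂ) ≠ 0 := by exact_mod_cast k.succ_ne_zero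
  have b : (k.factorial : ℂ) ≠ 0 := by exact_mod_cast k.factorial_ne_zero
  simp only [coeff_derivative, tay, coeff_mk, iteratedDeriv_succ', Nat.factorial_succ]
  push_cast
  field_simp

theorem logder {z : ℂ} (hz : z ∈ ball (0 : ℂ) 1) : HasSum (fun n => (mu (2 / π) n : ℂ) * z ^ n)
    ((1 + z)⁻¹ + 2 * (1 - z)⁻¹ + 2 / π * deriv Ti z) := by
  have hz' := mem_ball_zero_iff.mp hz
  have a1 := hasSum_geometric_of_norm_lt_one (ξ := -z) (by simpa using hz')
  have a2 := hasSum_geometric_of_norm_lt_one hz'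
  have a3 : HasSum (fun n => (tau n : ℂ) * z ^ n) (deriv Ti z) := by
    rw [← add_zero (deriv Ti z)]
    refine HasSum.even_add_odd ((Ti_sum hz').congr_fun fun j => ?_)
      (hasSum_zero.congr_fun fun j => ?_)
    · rw [tau, if_pos (by omega), Nat.mul_div_cancel_left _ two_pos]
      push_cast
      ring
    · rw [tau, if_neg (by omega)]; simp
  rw [sub_neg_eq_add] at a1
  refine ((a1.add (a2.mul_left 2)).add (a3.mul_left (2 / π : ℂ))).congr_fun fun n => ?_
  rw [mu, neg_pow z]
  push_cast
  ring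

theorem bsd_coeff (k : ℕ) : coeff k (tay bsd) = eta (2 / π) k := by
  have a0 : AnalyticAt ℂ (deriv Ti) 0 := (Ti_diff.analyticAt (ball_mem_nhds _ one_pos)).deriv
  have a1 : d⁄dX ℂ (tay bsd) = tay bsd * PowerSeries.mk fun n => (mu (2 / π) n : ℂ) := by
    rw [← tay_deriv, ← tay_of_hasSum fun z hz => logder hz,
      ← tay_mul (bsd_diff.analyticAt (ball_mem_nhds _ one_pos)) (by fun_prop (disch := simp))]
    refine tay_congr ?_
    filter_upwards [ball_mem_nhds (0 : ℂ) one_pos] with z hz
    have b1 := one_sub_ne hz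
    have b2 : 1 + z ≠ 0 := by simpa using one_sub_ne (z := -z) (by simpa using hz)
    have := ((((hasDerivAt_id' z).const_add 1).div (((hasDerivAt_id' z).const_sub 1).pow 2)
      (pow_ne_zero 2 b1)).mul ((Ti_at (mem_ball_zero_iff.mp hz)).const_mul (2 / π : ℂ)).cexp).deriv
    refine Eq.trans this ?_
    simp only [bsd, Pi.div_apply, Pi.pow_apply, Pi.add_apply, Pi.mul_apply, Pi.inv_apply]
    field_simp
    ring
  induction k using Nat.strong_induction_on with
  | _ k ih =>
    cases k with
    | zero => rw [tay_coeff_zero, eta]; simp [bsd, Ti_zero]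
    | succ k =>
      have a := congrArg (coeff k) a1
      rw [coeff_derivative, coeff_mul, Finset.Nat.sum_antidiagonal_eq_sum_range_succ
        (fun i j => coeff i (tay bsd) * coeff j (PowerSeries.mk fun n => (mu (2 / π) n : ℂ))),
        Finset.sum_congr rfl fun i hi => by rw [ih i (Finset.mem_range.mp hi), coeff_mk]] at a
      refine mul_right_cancel₀ (b := (k + 1 : ℂ)) (by exact_mod_cast k.succ_ne_zero) (a.trans ?_)
      exact_mod_cast (eta_succ (2 / π) k).symm

end Pool.Agent.P.BSR
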