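import Pool.Agent.P.MP_3df8df_an.Defs

/-!
The inverse tangent integral and the derivative of the function of Barnard and Suffridge.
-/

set_option autoImplicit false

namespace Pool.Agent.P.BSR

/-- The inverse tangent integral. -/
noncomputable def Ti (z : ℂ) : ℂ := ∑' j : ℕ, (-1) ^ j * z ^ (2 * j + 1) / (2 * (j : ℂ) + 1) ^ 2

/-- The derivative of the function of Barnard and Suffridge. -/
noncomputable def bsd (z : ℂ) : ℂ := (1 + z) / (1 - z) ^ 2 * Complex.exp (2 / Real.pi * Ti z)

end Pool.Agent.P.BSR
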