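import Pool.Agent.P.MP_3df8df_an.RTi
import Pool.Agent.P.MP_c09211_an.Toep

/-!
The dual certificates.
-/

set_option autoImplicit false

namespace Pool.Agent.P.BSR

open Metric Set Complex Filter Topology PowerSeries Pool.Agent.P.MP_c09211_an
open Pool.Agent.P.MP_3df8df_an (catalanG)
open scoped Real ComplexConjugate

theorem circ_ne {t : ℝ} (ht : t ∈ Ioo 0 π) : circleMap 0 1 t ≠ -1 := fun h =>
  (Real.sin_pos_of_pos_of_lt_pi ht.1 ht.2).ne' (by simpa [circleMap_zero_im] using congrArg im h)

theorem avg_half {G : ℂ → ℂ} (hd : DifferentiableOn ℂ G (ball 0 1))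
    (hc : ContinuousOn G (closedBall 0 1)) 
    (hs : ∀ z : ℂ, ‖z‖ = 1 → z ≠ -1 → G (conj z) = conj (G z)) (n : ℕ) : ∫ t in (0 : ℝ)..π, (G (circleMap 0 1 t) * conj (circleMap 0 1 t) ^ n).re =
      π * (coeff n (tay G)).re := by
  have h := (DiffContOnCl.mk_ball hd hc).circleIntegral_one_div_sub_center_pow_smul one_pos n
  simp only [circleIntegral, deriv_circleMap, smul_eq_mul, sub_zero] at h
  have h1 : ∫ θ in (0 : ℝ)..2 * π, G (circleMap 0 1 θ) * conj (circleMap 0 1 θ) ^ n =
      2 * π * coeff n (tay G) := by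
    refine mul_left_cancel₀ I_ne_zero ?_
    rw [← intervalIntegral.integral_const_mul]
    simp only [tay, coeff_mk]
    refine Eq.trans (intervalIntegral.integral_congr fun θ _ => ?_) (h.trans (by ring))
    have h0 : circleMap 0 1 θ ≠ 0 := circleMap_ne_center one_ne_zero
    have h1 : conj (circleMap 0 1 θ) = (circleMap 0 1 θ)⁻¹ := (inv_eq_conj (by simp)).symm
    rw [h1, inv_pow, pow_succ]
    field_simp
  have h2 : Continuous fun θ => G (circleMap 0 1 θ) * conj (circleMap 0 1 θ) ^ n :=
    (hc.comp_continuous (continuous_circleMap 0 1) circ_mem).mul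
      ((continuous_conj.comp (continuous_circleMap 0 1)).pow n)
  have h3 := reCLM.intervalIntegral_comp_comm (h2.intervalIntegrable (μ := MeasureTheory.volume)
    0 (2 * π))
  have h4 : Continuous fun θ => (G (circleMap 0 1 θ) * conj (circleMap 0 1 θ) ^ n).re :=
    continuous_re.comp h2
  simp only [reCLM_apply] at h3
  rw [h1, ← intervalIntegral.integral_add_adjacent_intervals (b := π) (h4.intervalIntegrable _ _)
    (h4.intervalIntegrable _ _)] at h3
  have h5 := intervalIntegral.integral_comp_sub_left (a := 0) (b := π)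
    (fun θ => (G (circleMap 0 1 θ) * conj (circleMap 0 1 θ) ^ n).re) (2 * π)
  rw [sub_zero, show 2 * π - π = π by ring, intervalIntegral.integral_of_le Real.pi_pos.le,
    MeasureTheory.integral_Ioc_eq_integral_Ioo, MeasureTheory.setIntegral_congr_fun
    measurableSet_Ioo (g := fun θ => (G (circleMap 0 1 θ) * conj (circleMap 0 1 θ) ^ n).re)
    (fun θ hθ => by
      have : circleMap 0 1 (2 * π - θ) = conj (circleMap 0 1 θ) := by
        rw [conj_circleMap_zero, (periodic_circleMap 0 1).sub_eq']
      simp only [this]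
      rw [hs _ (by simp) (circ_ne hθ), ← map_pow, ← map_mul, conj_re]),
    ← MeasureTheory.integral_Ioc_eq_integral_Ioo,
    ← intervalIntegral.integral_of_le Real.pi_pos.le] at h5
  rw [← h5] at h3
  simp only [mul_re, re_ofNat, ofReal_re, im_ofNat, ofReal_im, mul_zero, sub_zero, mul_im,
    zero_mul, add_zero] at h3 ⊢
  linarith

/-- The basic multiplier. -/
noncomputable def W (z : ℂ) : ℂ := (1 - z) * exp (-(2 / π) * Ti z)

/-- Its modulus on the upper half circle. -/
noncomputable def om (t : ℝ) : ℝ :=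
  2 * Real.sin (t / 2) * Real.exp (-(2 / π) * (Ti (circleMap 0 1 t)).re)

theorem W_diff : DifferentiableOn ℂ W (ball 0 1) :=
  (differentiableOn_id.const_sub 1).mul (Ti_diff.const_mul _).cexp

theorem W_cont : ContinuousOn W (closedBall 0 1) :=
  (continuousOn_const.sub continuousOn_id).mul (continuousOn_const.mul Ti_cont).cexp

theorem W_conj (z : ℂ) : W (conj z) = conj (W z) := by
  simp [W, Ti_conj, ← exp_conj, conj_ofNat]

theorem om_cont : Continuous om := by
  have := continuous_re.comp Ti_circ_cont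
  exact Continuous.mul (by fun_prop) (Real.continuous_exp.comp (continuous_const.mul this))

theorem W_circ (t : ℝ) : W (circleMap 0 1 t) =
    om t * exp (((t - π) / 2 - 2 / π * (Ti (circleMap 0 1 t)).im : ℝ) * I) := by
  have h1 : 1 - circleMap 0 1 t = 2 * Real.sin (t / 2) * exp (((t - π) / 2 : ℝ) * I) := by
    have a := Real.sin_two_mul (t / 2)
    have b := Real.cos_two_mul (t / 2)
    have c := Real.sin_sq_add_cos_sq (t / 2)
    rw [mul_div_cancel₀ _ two_ne_zero] at a b
    apply Complex.ext <;> simp [-ofReal_sin, -ofReal_div, circleMap_zero_re, circleMap_zero_im,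
      exp_ofReal_mul_I_re, exp_ofReal_mul_I_im, sub_div, Real.cos_sub_pi_div_two,
      Real.sin_sub_pi_div_two, -ofReal_sub] <;> linarith
  rw [W, h1, om, ofReal_mul _ (Real.exp _), ofReal_exp, mul_assoc, mul_assoc _ (exp _), ← exp_add,
    ← exp_add]
  conv_lhs => rw [← re_add_im (Ti (circleMap 0 1 t))]
  push_cast
  ring_nf

theorem W_right {t : ℝ} (ht : t ∈ Icc 0 (π / 2)) : W (circleMap 0 1 t) = -(om t * I) := by
  rw [W_circ, Ti_im_right ht, show (t - π) / 2 - 2 / π * (π / 4 * t) = -(π / 2) by field_simp; ring]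
  simp [exp_neg]

theorem W_left {t : ℝ} (ht : t ∈ Icc (π / 2) π) :
    W (circleMap 0 1 t) = -(om t * circleMap 0 1 t) := by
  rw [W_circ, Ti_im_left ht, show (t - π) / 2 - 2 / π * (π / 4 * (π - t)) = t - π by
    field_simp; ring]
  simp [circleMap, sub_mul, exp_sub]
  ring

theorem om_nonneg {t : ℝ} (ht : t ∈ Icc 0 π) : 0 ≤ om t :=
  mul_nonneg (mul_nonneg two_pos.le (Real.sin_nonneg_of_nonneg_of_le_pi (by linarith [ht.1])
    (by linarith [ht.2, Real.pi_pos]))) (Real.exp_pos _).le

theorem om_deriv {t : ℝ} (ht : Real.cos t ≠ 0) : HasDerivAt om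
    ((Real.cos (t / 2) - 2 / π * Real.sin (t / 2) * Real.log |Real.cos t / (1 + Real.sin t)|) *
      Real.exp (-(2 / π) * (Ti (circleMap 0 1 t)).re)) t := by
  refine (((((hasDerivAt_id t).div_const 2).sin).const_mul 2).mul
    (((Ti_re_deriv ht).const_mul (-(2 / π))).exp)).congr_deriv ?_
  simp only [id]
  ring

/-- The data extracted from a dilated member of the class. -/
structure Tr (h : ℂ → ℂ) (u : ℝ → ℝ) (ρ : ℝ) : Prop where
  lt : 1 < ρ
  diff : DifferentiableOn ℂ h (ball 0 ρ)
  sym : ∀ z : ℂ, ‖z‖ = 1 → h (conj z) = conj (h z)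
  one : h 0 = 1
  im : ∀ t ∈ Icc 0 π, 0 ≤ (h (circleMap 0 1 t)).im
  du : ∀ t, HasDerivAt u (circleMap 0 1 t * h (circleMap 0 1 t)).re t
  pos : ∀ t ∈ Icc 0 π, 0 ≤ u t
  last : u π = 0

namespace Tr

variable {h : ℂ → ℂ} {u : ℝ → ℝ} {ρ : ℝ} (H : Tr h u ρ)
include H

theorem diff' : DifferentiableOn ℂ h (closedBall 0 1) := H.diff.mono (closedBall_subset_ball H.lt)

theorem cont : Continuous fun t => h (circleMap 0 1 t) := circ_cont H.diff'

theorem left {m m' : ℝ → ℝ} (hm : Continuous m) (h0 : 0 ≤ m (π / 2))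
    (hd : ∀ t ∈ Ioo (π / 2) π, HasDerivAt m (m' t) t) (h1 : ∀ t ∈ Ioo (π / 2) π, 0 ≤ m' t) :
    ∫ t in (π / 2)..π, m t * (circleMap 0 1 t * h (circleMap 0 1 t)).re ≤ 0 := by
  have hp := Real.pi_pos
  have hc : Continuous fun t => m t * (circleMap 0 1 t * h (circleMap 0 1 t)).re :=
    hm.mul (continuous_re.comp ((continuous_circleMap 0 1).mul H.cont))
  have a1 := fun t => (hc.integral_hasStrictDerivAt (π / 2) t).hasDerivAt
  have a2 := fun t ht => (a1 t).sub ((hd t ht).mul (H.du t))
  have := antitoneOn_of_deriv_nonpos (convex_Icc (π / 2) π)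
    (f := (fun x => ∫ t in (π / 2)..x, m t * (circleMap 0 1 t * h (circleMap 0 1 t)).re) - m * u)
    (((continuous_iff_continuousAt.mpr fun t => (a1 t).continuousAt).sub (hm.mul
      (continuous_iff_continuousAt.mpr fun t => (H.du t).continuousAt))).continuousOn)
    (fun t ht => (a2 t (by simpa using ht)).differentiableAt.differentiableWithinAt)
    (fun t ht => by
      rw [interior_Icc] at ht
      rw [(a2 t ht).deriv]
      nlinarith [mul_nonneg (h1 t ht) (H.pos t ⟨by linarith [ht.1], ht.2.le⟩)])
    (left_mem_Icc.mpr (by linarith)) (right_mem_Icc.mpr (by linarith)) (by linarith)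
  simp only [Pi.sub_apply, Pi.mul_apply, H.last, intervalIntegral.integral_same] at this
  nlinarith [mul_nonneg h0 (H.pos (π / 2) ⟨by linarith, by linarith⟩)]

theorem dual {P : ℂ → ℂ} (hP : Differentiable ℂ P) (hs : ∀ z, P (conj z) = conj (P z)) (n : ℕ)
    {Y m' : ℝ → ℝ} (hY : Continuous Y)
    (hPY : ∀ t, P (circleMap 0 1 t) * conj (circleMap 0 1 t) ^ n = Y t) (h0 : 0 ≤ Y (π / 2))
    (hd : ∀ t ∈ Ioo (π / 2) π, HasDerivAt (fun t => Y t * om t) (m' t) t)
    (h1 : ∀ t ∈ Ioo (π / 2) π, 0 ≤ m' t) :
    ∫ t in (0 : ℝ)..π / 2, Y t * om t * (h (circleMap 0 1 t)).im ≤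
      π * (coeff n (tay fun z => P z * W z * h z)).re := by
  have hp := Real.pi_pos
  have c0 : ContinuousOn (fun z => P z * W z * h z) (closedBall 0 1) :=
    (hP.continuous.continuousOn.mul W_cont).mul H.diff'.continuousOn
  have c1 : Continuous fun t => (P (circleMap 0 1 t) * W (circleMap 0 1 t) * h (circleMap 0 1 t) *
      conj (circleMap 0 1 t) ^ n).re := continuous_re.comp
    ((c0.comp_continuous (continuous_circleMap 0 1) circ_mem).mul
      ((continuous_conj.comp (continuous_circleMap 0 1)).pow n))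
  rw [← avg_half (G := fun z => P z * W z * h z)
    ((hP.differentiableOn.mul W_diff).mul (H.diff'.mono ball_subset_closedBall)) c0
    (fun z hz _ => by simp only [hs, W_conj, H.sym z hz, map_mul]) n,
    ← intervalIntegral.integral_add_adjacent_intervals (b := π / 2) (c1.intervalIntegrable _ _)
    (c1.intervalIntegrable _ _)]
  have a := H.left (hY.mul om_cont) (mul_nonneg h0 (om_nonneg ⟨by linarith, by linarith⟩)) hd h1
  rw [← neg_nonneg, ← intervalIntegral.integral_neg] at a
  refine le_add_of_le_of_nonneg (le_of_eq (intervalIntegral.integral_congr fun t ht => ?_))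
    (a.trans_eq (intervalIntegral.integral_congr fun t ht => ?_))
  · rw [uIcc_of_le (by linarith)] at ht
    simp only [W_right ht]
    rw [mul_right_comm _ (h _), mul_right_comm _ _ (_ ^ n), hPY]
    simp
  · rw [uIcc_of_le (by linarith)] at ht
    simp only [W_left ht]
    rw [mul_right_comm _ (h _), mul_right_comm _ _ (_ ^ n), hPY]
    simp
    ring

theorem coeff_eq {n : ℕ} (hn : n ≠ 0) : π * (coeff n (tay h)).re =
    ∫ t in (0 : ℝ)..π, 2 * Real.sin (n * t) * (h (circleMap 0 1 t)).im := by
  have d := H.diff'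
  have a1 := avg_half (d.mono ball_subset_closedBall) d.continuousOn (fun z hz _ => H.sym z hz) n
  have a2 := avg_half (G := fun z => z ^ n * h z) (DifferentiableOn.mul (by fun_prop)
    (d.mono ball_subset_closedBall)) (ContinuousOn.mul (by fun_prop) d.continuousOn)
    (fun z hz _ => by simp [H.sym z hz]) 0
  have c := continuous_circleMap 0 1
  rw [tay_coeff_zero, zero_pow hn, zero_mul, zero_re, mul_zero] at a2
  have a3 := intervalIntegral.integral_sub (μ := MeasureTheory.volume) (a := 0) (b := π)
    (f := fun t => (h (circleMap 0 1 t) * conj (circleMap 0 1 t) ^ n).re)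
    (g := fun t => (circleMap 0 1 t ^ n * h (circleMap 0 1 t) * conj (circleMap 0 1 t) ^ 0).re)
    ((continuous_re.comp (H.cont.mul ((continuous_conj.comp c).pow n))).intervalIntegrable _ _)
    ((continuous_re.comp (((c.pow n).mul H.cont).mul
      ((continuous_conj.comp c).pow 0))).intervalIntegrable _ _)
  rw [a1, a2, sub_zero] at a3
  rw [← a3]
  refine intervalIntegral.integral_congr fun t _ => ?_
  simp only [← map_pow, circleMap_zero_pow, one_pow]
  simp [circleMap_zero_re, circleMap_zero_im]
  ring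

theorem tail : ∫ t in (π / 2)..π, (h (circleMap 0 1 t)).im ≤ π := by
  have hp := Real.pi_pos
  have e : circleMap 0 1 π = -1 := by simp [circleMap]
  have a0 : 0 ≤ (h (-1)).re := by
    have := le_of_tendsto (hasDerivAt_iff_tendsto_slope_left_right.mp (H.du π)).1 (b := 0) (by
      filter_upwards [Ioo_mem_nhdsLT hp] with t ht
      rw [slope_def_field, H.last, sub_zero]
      exact div_nonpos_of_nonneg_of_nonpos (H.pos t ⟨ht.1.le, ht.2.le⟩) (by linarith [ht.2]))
    simpa [e] using this
  have a1 : (h (-1)).im = 0 := by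
    rw [← conj_eq_iff_im, ← H.sym _ (by simp)]; simp
  have d : DifferentiableOn ℂ (fun z => (1 - z) * dslope h (-1) z) (closedBall 0 1) :=
    DifferentiableOn.mul (by fun_prop) (((differentiableOn_dslope (isOpen_ball.mem_nhds
      (by simpa using H.lt))).mpr H.diff).mono (closedBall_subset_ball H.lt))
  have sl : ∀ z : ℂ, z ≠ -1 → dslope h (-1) z = (h z - h (-1)) / (z + 1) := fun z hz => by
    rw [dslope_of_ne _ hz, slope_def_field, sub_neg_eq_add]
  have a2 := avg_half (d.mono ball_subset_closedBall) d.continuousOn (fun z hz hz' => by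
    rw [sl z hz', sl _ (fun h => hz' (by simpa using congrArg conj h)), H.sym z hz]
    simp [conj_eq_iff_im.mpr a1]) 0
  have c1 : Continuous fun t => ((1 - circleMap 0 1 t) * dslope h (-1) (circleMap 0 1 t)).re :=
    continuous_re.comp (circ_cont d)
  have key : ∀ t ∈ Ioo 0 π, ((1 - circleMap 0 1 t) * dslope h (-1) (circleMap 0 1 t)).re =
      Real.sin t / (1 + Real.cos t) * (h (circleMap 0 1 t)).im ∧ 0 < 1 + Real.cos t ∧
      0 < Real.sin t := by
    intro t ht
    have b0 := Real.sin_pos_of_pos_of_lt_pi ht.1 ht.2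
    have b1 := Real.sin_sq_add_cos_sq t
    have b2 : 0 < 1 + Real.cos t := by nlinarith [Real.neg_one_le_cos t]
    have b3 : circleMap 0 1 t + 1 ≠ 0 := fun h => circ_ne ht (eq_neg_of_add_eq_zero_left h)
    have b4 : (1 - circleMap 0 1 t) / (circleMap 0 1 t + 1) =
        -((Real.sin t / (1 + Real.cos t) : ℝ) * I) := by
      rw [div_eq_iff b3]
      apply Complex.ext <;>
        simp [-ofReal_div, -ofReal_cos, -ofReal_sin, circleMap_zero_re, circleMap_zero_im] <;>
        field_simp <;> nlinarith
    refine ⟨?_, b2, b0⟩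
    rw [sl _ (circ_ne ht), ← mul_div_assoc, mul_div_right_comm, b4]
    simp [-ofReal_div, a1]
  simp only [pow_zero, mul_one, tay_coeff_zero, sl 0 (by simp), H.one] at a2
  rw [← intervalIntegral.integral_add_adjacent_intervals (b := π / 2) (c1.intervalIntegrable _ _)
    (c1.intervalIntegrable _ _)] at a2
  have a3 := intervalIntegral.integral_mono_on_of_le_Ioo (μ := MeasureTheory.volume)
    (a := 0) (b := π / 2) (by linarith) (continuous_const.intervalIntegrable _ _)
    (c1.intervalIntegrable _ _) (f := fun _ => 0) fun t ht => by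
      obtain ⟨b1, b2, b3⟩ := key t ⟨ht.1, by linarith [ht.2]⟩
      exact (mul_nonneg (by positivity) (H.im t ⟨ht.1.le, by linarith [ht.2]⟩)).trans_eq b1.symm
  have a4 := intervalIntegral.integral_mono_on_of_le_Ioo (μ := MeasureTheory.volume)
    (a := π / 2) (b := π) (by linarith) ((continuous_im.comp H.cont).intervalIntegrable _ _)
    (c1.intervalIntegrable _ _) fun t ht => by
      obtain ⟨b1, b2, b3⟩ := key t ⟨by linarith [ht.1], ht.2⟩
      refine (le_mul_of_one_le_left (H.im t ⟨by linarith [ht.1], ht.2.le⟩) ?_).trans_eq b1.symm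
      have b4 := Real.cos_nonpos_of_pi_div_two_le_of_le ht.1.le (by linarith [ht.2])
      have b5 := Real.sin_sq_add_cos_sq t
      rw [one_le_div b2]
      nlinarith
  simp only [intervalIntegral.integral_zero, Function.comp_def] at a2 a3 a4
  rw [sub_zero, zero_add, div_one, one_mul, sub_re, one_re] at a2
  nlinarith

theorem bound (n : ℕ) : |(coeff (n + 1) (tay h)).re| ≤
    (n + 1) * (2 * Real.exp (2 * catalanG / π)) + 2 := by
  have hp := Real.pi_pos
  have ci : Continuous fun t => (h (circleMap 0 1 t)).im := continuous_im.comp H.cont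
  have a1 := H.dual (P := fun _ => 1) (by fun_prop) (by simp) 0 (Y := fun _ => 1) (by fun_prop)
    (by simp) one_pos.le (fun t ht => by
      simpa only [one_mul] using om_deriv (Real.cos_neg_of_pi_div_two_lt_of_lt ht.1 (by linarith [ht.2])).ne)
    (fun t ht => by
      have b0 := Real.sin_pos_of_pos_of_lt_pi (by linarith [ht.1]) ht.2
      have b1 := Real.sin_pos_of_pos_of_lt_pi (x := t / 2) (by linarith [ht.1]) (by linarith [ht.2])
      have b2 := Real.cos_pos_of_mem_Ioo (x := t / 2) ⟨by linarith [ht.1], by linarith [ht.2]⟩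
      have b3 : Real.log |Real.cos t / (1 + Real.sin t)| ≤ 0 := by
        refine Real.log_nonpos (abs_nonneg _) ?_
        rw [abs_div, abs_of_pos (by linarith : 0 < 1 + Real.sin t), div_le_one (by linarith)]
        linarith [Real.abs_cos_le_one t]
      refine mul_nonneg ?_ (Real.exp_pos _).le
      nlinarith [mul_nonneg (show 0 ≤ 2 / π * Real.sin (t / 2) by positivity) (neg_nonneg.mpr b3)])
  rw [tay_coeff_zero, H.one, W, Ti_zero] at a1
  simp only [one_mul, sub_zero, mul_zero, exp_zero, mul_one, one_re] at a1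
  have hs : ∀ (k : ℕ) (t : ℝ), |Real.sin (k * t)| ≤ k * |Real.sin t| := fun k t => by
    induction k with
    | zero => simp
    | succ k ih =>
      push_cast
      rw [add_mul, one_mul, Real.sin_add, add_mul, one_mul]
      refine (abs_add_le _ _).trans (add_le_add ?_ ?_) <;> rw [abs_mul]
      · exact (mul_le_of_le_one_right (abs_nonneg _) (Real.abs_cos_le_one _)).trans ih
      · exact mul_le_of_le_one_left (abs_nonneg _) (Real.abs_cos_le_one _)
  have c2 : Continuous fun t => |2 * Real.sin ((n + 1 : ℕ) * t) * (h (circleMap 0 1 t)).im| := by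
    fun_prop
  set K := 2 * Real.exp (2 * catalanG / π) with hK
  have a3 := intervalIntegral.integral_mono_on (μ := MeasureTheory.volume)
    (a := 0) (b := π / 2) (by linarith) (c2.intervalIntegrable _ _)
    (g := fun t => (n + 1) * K * (om t * (h (circleMap 0 1 t)).im))
    ((continuous_const.mul (om_cont.mul ci)).intervalIntegrable _ _) fun t ht => by
      have b0 := H.im t ⟨ht.1, by linarith [ht.2]⟩
      have b1 := Real.sin_nonneg_of_nonneg_of_le_pi (x := t / 2) (by linarith [ht.1])
        (by linarith [ht.2])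
      have b2 : |Real.sin t| ≤ 2 * Real.sin (t / 2) := by
        have := Real.sin_two_mul (t / 2)
        rw [mul_div_cancel₀ _ two_ne_zero] at this
        rw [this, abs_mul, abs_of_nonneg (by positivity)]
        exact mul_le_of_le_one_right (by positivity) (Real.abs_cos_le_one _)
      have b3 : 2 ≤ K * Real.exp (-(2 / π) * (Ti (circleMap 0 1 t)).re) := by
        rw [hK, mul_assoc, ← Real.exp_add]
        refine le_mul_of_one_le_right two_pos.le (Real.one_le_exp ?_)
        rw [mul_div_right_comm, neg_mul, ← sub_eq_add_neg, ← mul_sub]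
        exact mul_nonneg (by positivity) (sub_nonneg.mpr (Ti_re_le ht))
      have b4 := (hs (n + 1) t).trans (mul_le_mul_of_nonneg_left b2 (by positivity))
      rw [abs_mul, abs_mul, abs_two, abs_of_nonneg b0, ← mul_assoc, om]
      refine mul_le_mul_of_nonneg_right ?_ b0
      push_cast at b4 ⊢
      nlinarith [mul_le_mul_of_nonneg_left b3 (show 0 ≤ (n + 1) * (2 * Real.sin (t / 2)) by
        positivity)]
  have a4 := intervalIntegral.integral_mono_on (μ := MeasureTheory.volume)
    (a := π / 2) (b := π) (by linarith) (c2.intervalIntegrable _ _)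
    (g := fun t => 2 * (h (circleMap 0 1 t)).im)
    ((continuous_const.mul ci).intervalIntegrable _ _) fun t ht => by
      have b0 := H.im t ⟨by linarith [ht.1], ht.2⟩
      rw [abs_mul, abs_mul, abs_two, abs_of_nonneg b0]
      exact mul_le_mul_of_nonneg_right (mul_le_of_le_one_right two_pos.le
        (Real.abs_sin_le_one _)) b0
  have a5 := intervalIntegral.abs_integral_le_integral_abs (μ := MeasureTheory.volume) hp.le
    (f := fun t => 2 * Real.sin ((n + 1 : ℕ) * t) * (h (circleMap 0 1 t)).im)
  rw [← H.coeff_eq n.succ_ne_zero, ← intervalIntegral.integral_add_adjacent_intervals (b := π / 2)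
    (c2.intervalIntegrable _ _) (c2.intervalIntegrable _ _), abs_mul, abs_of_pos hp] at a5
  rw [intervalIntegral.integral_const_mul] at a3 a4
  have a6 := mul_le_mul_of_nonneg_left a1 (show 0 ≤ (n + 1) * K by positivity)
  refine le_of_mul_le_mul_left ?_ hp
  nlinarith [H.tail]

end Tr

end Pool.Agent.P.BSR
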