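import Pool.Agent.P.MP_3df8df_an.RDual
import Pool.Agent.P.MP_3df8df_an.Extremal

/-!
A sufficient condition for the function of Barnard and Suffridge to be extremal for one coefficient.
-/

set_option autoImplicit false

namespace Pool.Agent.P.BSR

open Metric Set Complex Filter Topology PowerSeries Pool.Agent.P.MP_c09211_an
open Pool.Agent.P.MP_3df8df_an (Q B Q_diff one_sub_ne InK InSR sym_deriv iter_dil exists_F)
open scoped Real ComplexConjugate

/-- Chebyshev polynomials of the second kind, shifted by one. -/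
def uu : ℕ → ℝ → ℝ
  | 0, _ => 0
  | 1, _ => 1
  | j + 2, x => 2 * x * uu (j + 1) x - uu j x

/-- Their derivatives. -/
def du : ℕ → ℝ → ℝ
  | 0, _ => 0
  | 1, _ => 0
  | j + 2, x => 2 * uu (j + 1) x + 2 * x * du (j + 1) x - du j x

theorem uu_deriv (j : ℕ) (x : ℝ) : HasDerivAt (uu j) (du j x) x := by
  induction j using Nat.twoStepInduction with
  | zero => exact hasDerivAt_const x 0
  | one => exact hasDerivAt_const x 1
  | more j h1 h2 =>
    exact ((((hasDerivAt_id x).const_mul 2).mul h2).sub h1).congr_deriv (by simp [du])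

theorem uu_circ (j : ℕ) (t : ℝ) : circleMap 0 1 t * (∑ i ∈ Finset.range j, circleMap 0 1 t ^ (2 * i)) *
    conj (circleMap 0 1 t) ^ j = uu j (Real.cos t) := by
  have b3 : conj (circleMap 0 1 t) * circleMap 0 1 t = 1 := by rw [conj_mul']; simp
  have b4 := add_conj (circleMap 0 1 t)
  rw [circleMap_zero_re, one_mul, ofReal_mul, ofReal_ofNat] at b4
  generalize circleMap 0 1 t = z at *
  induction j using Nat.twoStepInduction with
  | zero => simp [uu]
  | one => simpa [uu, mul_comm] using b3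
  | more j h1 h2 =>
    rw [uu, ofReal_sub, ofReal_mul, ofReal_mul, ← h1, ← h2, ofReal_ofNat, ← b4]
    simp only [Finset.sum_range_succ]
    linear_combination (z ^ (2 * j + 2) * conj z ^ (j + 1) -
      (∑ i ∈ Finset.range j, z ^ (2 * i)) * z * conj z ^ j) * b3

/-- The cosine polynomial of the certificate. -/
def RR (η : ℕ → ℝ) (N : ℕ) (x : ℝ) : ℝ := ∑ k ∈ Finset.range N, η k * uu (N - k) x

/-- Its derivative. -/
def RD (η : ℕ → ℝ) (N : ℕ) (x : ℝ) : ℝ := ∑ k ∈ Finset.range N, η k * du (N - k) x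

theorem RR_deriv (η : ℕ → ℝ) (N : ℕ) (x : ℝ) : HasDerivAt (RR η N) (RD η N x) x :=
  HasDerivAt.fun_sum fun k _ => (uu_deriv _ x).const_mul (η k)

theorem bsd_eq (z : ℂ) : Q z = bsd z := by
  rw [Q, B, bsd, mul_div_right_comm]
  rfl

theorem bsd_diff : DifferentiableOn ℂ bsd (ball 0 1) := Q_diff.congr fun z _ => (bsd_eq z).symm

theorem log_le {t : ℝ} (ht : t ∈ Ioo (π / 2) π) :
    Real.log |Real.cos t / (1 + Real.sin t)| ≤ -Real.sin t := by
  have b0 := Real.sin_pos_of_pos_of_lt_pi (by linarith [ht.1, Real.pi_pos]) ht.2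
  have b1 := Real.cos_neg_of_pi_div_two_lt_of_lt ht.1 (by linarith [ht.2, Real.pi_pos])
  have b2 := Real.sin_sq_add_cos_sq t
  have b3 : Real.sin t < 1 := by nlinarith
  have b4 := sum_le_hasSum {0} (fun k _ => by positivity)
    (Real.hasSum_log_sub_log_of_abs_lt_one (x := Real.sin t) (abs_lt.mpr ⟨by linarith, b3⟩))
  have b5 : 2 * Real.log (Real.cos t) = Real.log (1 + Real.sin t) + Real.log (1 - Real.sin t) := by
    rw [← Real.log_mul (by linarith) (by linarith), show (1 + Real.sin t) * (1 - Real.sin t) =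
      Real.cos t ^ 2 by linarith, Real.log_pow]
    simp
  rw [Real.log_abs, Real.log_div b1.ne (by linarith)]
  simp at b4
  linarith

theorem Tr.upper {h : ℂ → ℂ} {u : ℝ → ℝ} {ρ : ℝ} (H : Tr h u ρ) {η : ℕ → ℝ} {N : ℕ}
    (hη : ∀ k ≤ N, coeff k (tay bsd) = η k) (hR : ∀ x ∈ Icc (-1 : ℝ) 1, 0 ≤ RR η N x)
    (hZ : ∀ x ∈ Icc (-1 : ℝ) 0,
      0 ≤ 3 * RR η N x - 2 * (1 - x) * RD η N x + 2 / π * ((1 - x) * RR η N x)) :
    (coeff N (tay h)).re ≤ η N := by
  have hp := Real.pi_pos
  set P : ℂ → ℂ := fun z => -(1 - z) ^ 2 *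
    ∑ k ∈ Finset.range N, η k * (z ^ k * ∑ i ∈ Finset.range (N - k), z ^ (2 * i)) with hP
  have Pd : Differentiable ℂ P := by rw [hP]; fun_prop
  have Rc : Continuous (RR η N) := continuous_iff_continuousAt.mpr fun x =>
    (RR_deriv η N x).continuousAt
  have hY : ∀ t, 0 ≤ (2 - 2 * Real.cos t) * RR η N (Real.cos t) := fun t =>
    mul_nonneg (by linarith [Real.cos_le_one t]) (hR _ ⟨Real.neg_one_le_cos t, Real.cos_le_one t⟩)
  have a1 := H.dual Pd (fun z => by simp [hP]) N
    (Y := fun t => (2 - 2 * Real.cos t) * RR η N (Real.cos t)) (by fun_prop) (fun t => by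
      have b3 : conj (circleMap 0 1 t) * circleMap 0 1 t = 1 := by rw [conj_mul']; simp
      have b4 := add_conj (circleMap 0 1 t)
      rw [circleMap_zero_re, one_mul, ofReal_mul, ofReal_ofNat] at b4
      simp only [hP, RR, ofReal_mul, ofReal_sum, ← uu_circ, ofReal_sub, ofReal_ofNat, ← b4,
        Finset.mul_sum (Finset.range N), Finset.sum_mul (Finset.range N)]
      refine Finset.sum_congr rfl fun k hk => ?_
      obtain ⟨j, rfl⟩ := Nat.exists_eq_add_of_le (Finset.mem_range.mp hk).le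
      rw [Nat.add_sub_cancel_left]
      generalize circleMap 0 1 t = z at *
      have : conj z ^ k * z ^ k = 1 := by rw [← mul_pow, b3, one_pow]
      linear_combination (η k * (∑ i ∈ Finset.range j, z ^ (2 * i)) * conj z ^ j) *
        (-(1 - z) ^ 2 * this + b3)) (hY _)
    (fun t ht => ((((Real.hasDerivAt_cos t).const_mul 2).const_sub 2).mul
      ((RR_deriv η N _).comp t (Real.hasDerivAt_cos t))).mul
      (om_deriv (Real.cos_neg_of_pi_div_two_lt_of_lt ht.1 (by linarith [ht.2])).ne))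
    (fun t ht => by
      have b0 := Real.sin_pos_of_pos_of_lt_pi (by linarith [ht.1]) ht.2
      have b1 := Real.sin_pos_of_pos_of_lt_pi (x := t / 2) (by linarith [ht.1]) (by linarith [ht.2])
      have b2 := Real.cos_neg_of_pi_div_two_lt_of_lt ht.1 (by linarith [ht.2])
      have b3 : (1 - Real.cos t) * Real.cos (t / 2) = Real.sin (t / 2) * Real.sin t := by
        have a := Real.sin_two_mul (t / 2)
        have b := Real.cos_two_mul (t / 2)
        have c := Real.sin_sq_add_cos_sq (t / 2)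
        rw [mul_div_cancel₀ _ two_ne_zero] at a b
        rw [a, b]
        linear_combination -2 * Real.cos (t / 2) * c
      have b4 := mul_nonneg (mul_nonneg (hY t) (show 0 ≤ 2 / π * Real.sin (t / 2) by positivity))
        (sub_nonneg.mpr (log_le ht))
      have b5 := mul_nonneg (show 0 ≤ 2 * Real.sin (t / 2) * Real.sin t by positivity)
        (hZ _ ⟨Real.neg_one_le_cos t, b2.le⟩)
      simp only [om, Pi.mul_apply, Function.comp_def]
      generalize Real.log |Real.cos t / (1 + Real.sin t)| = L at *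
      refine (mul_nonneg (add_nonneg b4 b5) (Real.exp_pos
        (-(2 / π) * (Ti (circleMap 0 1 t)).re)).le).trans_eq ?_
      linear_combination -2 * RR η N (Real.cos t) *
        Real.exp (-(2 / π) * (Ti (circleMap 0 1 t)).re) * b3)
  have a2 := (intervalIntegral.integral_nonneg (by linarith) fun t ht => mul_nonneg (mul_nonneg
    (hY t) (om_nonneg ⟨ht.1, by linarith [ht.2]⟩)) (H.im t ⟨ht.1, by linarith [ht.2]⟩)).trans a1
  have PW : AnalyticAt ℂ (fun z => P z * W z) 0 :=
    (Pd.differentiableOn.mul W_diff).analyticAt (ball_mem_nhds _ one_pos)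
  have Ba := bsd_diff.analyticAt (ball_mem_nhds _ one_pos)
  have a3 : tay (fun z => P z * W z) * tay bsd =
      ∑ k ∈ Finset.range N, C (η k : ℂ) * (X ^ (k + 2 * (N - k)) - X ^ k) := by
    rw [← tay_mul PW Ba, tay_congr (g := fun z => ∑ k ∈ Finset.range N,
      η k * (z ^ (k + 2 * (N - k)) + (-1) * z ^ k)), tay_sum _ fun k _ => by fun_prop]
    · refine Finset.sum_congr rfl fun k _ => ?_
      rw [tay_cmul _ (by fun_prop), tay_add (by fun_prop) (by fun_prop), tay_cmul _ (by fun_prop),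
        tay_pow (f := fun z => z) (by fun_prop), tay_pow (f := fun z => z) (by fun_prop), tay_id,
        map_neg, map_one, neg_one_mul, sub_eq_add_neg]
    · filter_upwards [ball_mem_nhds (0 : ℂ) one_pos] with z hz
      have b1 := one_sub_ne hz
      have b2 : W z * bsd z = (1 + z) / (1 - z) := by
        rw [W, bsd, neg_mul, exp_neg]
        field_simp
      rw [mul_assoc, b2, hP]
      simp only [Finset.mul_sum (Finset.range N), Finset.sum_mul (Finset.range N)]
      refine Finset.sum_congr rfl fun k _ => ?_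
      have b3 := mul_geom_sum (z ^ 2) (N - k)
      simp only [← pow_mul] at b3
      field_simp
      linear_combination η k * z ^ k * b3
  have a4 : ∀ m ≤ N, coeff m ((tay (fun z => P z * W z) + 1) * tay bsd) =
      if m = N then (η N : ℂ) else 0 := fun m hm => by
    rw [add_mul, one_mul, a3, map_add, map_sum, hη m hm, Finset.sum_congr rfl
      (g := fun k => if m = k then -(η k : ℂ) else 0) fun k hk => by
        have := Finset.mem_range.mp hk
        rw [coeff_C_mul, map_sub, coeff_X_pow, coeff_X_pow, if_neg (by omega)]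
        split_ifs <;> simp, Finset.sum_ite_eq]
    split_ifs with h1 h2 h2
    · exact absurd (Finset.mem_range.mp h1) (by omega)
    · simp
    · simp [h2]
    · exact absurd (Finset.mem_range.mpr (by omega)) h1
  obtain ⟨D, hD⟩ := X_pow_dvd_iff.mpr fun m hm => (a4 m hm.le).trans (if_neg hm.ne)
  have b0 : constantCoeff (tay bsd) = 1 := by
    rw [← coeff_zero_eq_constantCoeff_apply, tay_coeff_zero]; simp [bsd, Ti_zero]
  have a5 := a4 N le_rfl
  have a6 : (tay (fun z => P z * W z) + 1) * tay h = X ^ N * (D * (tay bsd)⁻¹ * tay h) := by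
    have := PowerSeries.mul_inv_cancel (tay bsd) (by rw [b0]; exact one_ne_zero)
    linear_combination (tay bsd)⁻¹ * tay h * hD - (tay (fun z => P z * W z) + 1) * tay h * this
  have a7 := congrArg (coeff N) a6
  rw [hD, if_pos rfl, coeff_X_pow_mul', if_pos le_rfl, Nat.sub_self,
    coeff_zero_eq_constantCoeff_apply] at a5
  rw [coeff_X_pow_mul', if_pos le_rfl, Nat.sub_self, coeff_zero_eq_constantCoeff_apply,
    map_mul constantCoeff, map_mul constantCoeff, a5, constantCoeff_inv, b0, ← coeff_zero_eq_constantCoeff_apply, tay_coeff_zero, H.one,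
    add_mul, one_mul, map_add, ← tay_mul PW (H.diff'.analyticAt (closedBall_mem_nhds _ one_pos)),
    inv_one, mul_one, mul_one] at a7
  have a8 := congrArg re a7
  rw [add_re, ofReal_re] at a8
  linarith [(mul_nonneg_iff_of_pos_left hp).mp a2]

theorem neg_sin_le {N : ℕ} (hN : Odd N) {t : ℝ} (ht : t ∈ Icc 0 π) :
    -Real.sin (N * t) ≤ N / 2 * Real.sin t := by
  have key : ∀ t ∈ Icc 0 (π / 2), -Real.sin (N * t) ≤ N / 2 * Real.sin t := fun t ht => by
    have a := Real.mul_le_sin ht.1 ht.2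
    have b : 0 ≤ 2 / π * t := mul_nonneg (by positivity) ht.1
    rcases le_total (N * t) π with h | h
    · have := Real.sin_nonneg_of_nonneg_of_le_pi (mul_nonneg N.cast_nonneg ht.1) h
      have := mul_nonneg (show (0 : ℝ) ≤ N / 2 by positivity) (b.trans a)
      linarith
    · have c := mul_le_mul_of_nonneg_left a (show (0 : ℝ) ≤ N / 2 by positivity)
      have d : N / 2 * (2 / π * t) = N * t / π := by ring
      have e := (one_le_div Real.pi_pos).mpr h
      linarith [Real.neg_one_le_sin (N * t)]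
  rcases le_total t (π / 2) with h | h
  · exact key t ⟨ht.1, h⟩
  · have := key (π - t) ⟨by linarith [ht.2], by linarith⟩
    rwa [Real.sin_pi_sub, mul_sub, Real.sin_nat_mul_pi_sub, hN.neg_one_pow, neg_one_mul,
      neg_neg] at this

theorem Tr.lower {h : ℂ → ℂ} {u : ℝ → ℝ} {ρ : ℝ} (H : Tr h u ρ) {N : ℕ} (hN : Odd N) :
    -(coeff N (tay h)).re ≤ N / 2 * (coeff 1 (tay h)).re := by
  have ci : Continuous fun t => (h (circleMap 0 1 t)).im := continuous_im.comp H.cont
  refine le_of_mul_le_mul_left ?_ Real.pi_pos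
  rw [mul_neg, mul_left_comm, H.coeff_eq hN.pos.ne', H.coeff_eq one_ne_zero,
    ← intervalIntegral.integral_neg, ← intervalIntegral.integral_const_mul]
  refine intervalIntegral.integral_mono_on Real.pi_pos.le
    (Continuous.intervalIntegrable (by fun_prop) _ _)
    (Continuous.intervalIntegrable (by fun_prop) _ _) fun t ht => ?_
  have := mul_le_mul_of_nonneg_right (neg_sin_le hN ht) (H.im t ht)
  rw [Nat.cast_one, one_mul]
  linarith

theorem InK_tr {f : ℂ → ℂ} (hf : InK f) {r : ℝ} (r0 : 0 < r) (r1 : r < 1) :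
    Tr (fun z => deriv f (r * z)) (fun t => (f (r * circleMap 0 1 t)).im / r) r⁻¹ := by
  have hb : ∀ z ∈ ball (0 : ℂ) r⁻¹, r * z ∈ ball (0 : ℂ) 1 := fun z hz => by
    rw [mem_ball_zero_iff] at *
    rwa [norm_mul, norm_real, Real.norm_eq_abs, abs_of_pos r0, ← lt_inv_mul_iff₀ r0, mul_one]
  have h1 := (one_lt_inv₀ r0).mpr r1
  have hc : ∀ z : ℂ, ‖z‖ = 1 → r * z ∈ ball (0 : ℂ) 1 := fun z hz =>
    hb z (mem_ball_zero_iff.mpr (hz.trans_lt h1))
  have hi : ∀ t ∈ Icc 0 π, 0 ≤ (r * circleMap 0 1 t).im := fun t ht => by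
    simpa [circleMap_zero_im] using mul_nonneg r0.le (Real.sin_nonneg_of_nonneg_of_le_pi ht.1 ht.2)
  refine ⟨h1, (hf.diff.deriv isOpen_ball).comp (by fun_prop) hb, fun z hz => ?_,
    by simp [hf.one], fun t ht => hf.im1 _ (hc _ (by simp)) (hi t ht), fun t => ?_,
    fun t ht => div_nonneg (hf.im0 _ (hc _ (by simp)) (hi t ht)) r0.le, ?_⟩
  · rw [← sym_deriv hf.sym _ (hc z hz), map_mul, conj_ofReal]
  · have := (hf.diff.differentiableAt (isOpen_ball.mem_nhds (hc (circleMap 0 1 t)
      (by simp)))).hasDerivAt.scomp t ((circ_deriv 1 t).const_mul (r : ℂ))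
    refine ((imCLM.hasFDerivAt.comp_hasDerivAt t this).div_const r).congr_deriv ?_
    simp
    field_simp
    ring
  · have := hf.sym _ (hc (circleMap 0 1 π) (by simp))
    rw [show conj (r * circleMap 0 1 π) = r * circleMap 0 1 π by simp [circleMap]] at this
    simp [conj_eq_iff_im.mp this.symm]

theorem coeff_le {f : ℂ → ℂ} (hf : InSR f) {N : ℕ} {M : ℝ}
    (hM : ∀ h u ρ, Tr h u ρ → |(coeff N (tay h)).re| ≤ M) :
    ‖MP_3df8df_an.coeff f (N + 1)‖ ≤ M / (N + 1) := by
  obtain ⟨g, hg, h⟩ := hf.exists_K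
  rw [h, le_div_iff₀ (by positivity)]
  have ht : Tendsto (fun r : ℝ => r ^ N * (|(MP_3df8df_an.coeff g (N + 1)).re| * (N + 1))) (𝓝[<] 1)
      (𝓝 (1 ^ N * (|(MP_3df8df_an.coeff g (N + 1)).re| * (N + 1)))) :=
    (Continuous.tendsto (by fun_prop) 1).mono_left nhdsWithin_le_nhds
  rw [one_pow, one_mul] at ht
  refine le_of_tendsto ht ?_
  filter_upwards [Ioo_mem_nhdsLT zero_lt_one] with r ⟨r0, r1⟩
  refine le_trans (le_of_eq ?_) (hM _ _ _ (InK_tr hg r0 r1))
  have : coeff N (tay fun z => deriv g (r * z)) =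
      ((r ^ N * (N + 1) : ℝ) : ℂ) * MP_3df8df_an.coeff g (N + 1) := by
    have a : (N + 1 : ℂ) ≠ 0 := by exact_mod_cast N.succ_ne_zero
    simp only [tay, coeff_mk, iter_dil, MP_3df8df_an.coeff, iteratedDeriv_succ', mul_zero,
      Nat.factorial_succ]
    push_cast
    field_simp
  rw [this, re_ofReal_mul, abs_mul, abs_of_pos (show 0 < r ^ N * (N + 1) by positivity)]
  ring

theorem greatest {η : ℕ → ℝ} {N : ℕ} (hN : Odd N) (hη : ∀ k ≤ N, coeff k (tay bsd) = η k)
    (h0 : η 0 = 1) (h1 : 0 ≤ η 1) (h2 : N / 2 * η 1 ≤ η N)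
    (hR : ∀ x ∈ Icc (-1 : ℝ) 1, 0 ≤ RR η N x) (hZ : ∀ x ∈ Icc (-1 : ℝ) 0,
      0 ≤ 3 * RR η N x - 2 * (1 - x) * RD η N x + 2 / π * ((1 - x) * RR η N x)) :
    IsGreatest {x : ℝ | ∃ f, InSR f ∧ x = ‖MP_3df8df_an.coeff f (N + 1)‖}
      (‖iteratedDeriv N bsd 0‖ / (N + 1).factorial) := by
  constructor
  · obtain ⟨F, hF, h⟩ := exists_F
    exact ⟨F, hF, by rw [h, norm_div, Complex.norm_natCast, (funext bsd_eq : Q = bsd)]⟩
  · rintro _ ⟨f, hf, rfl⟩
    refine (coeff_le hf (M := η N) fun h u ρ H => abs_le.mpr ⟨?_, H.upper hη hR hZ⟩).trans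
      (le_of_eq ?_)
    · have a1 := H.upper (η := η) (N := 1) (fun k hk => hη k (hk.trans hN.pos))
        (fun x _ => by simp [RR, uu, h0]) fun x hx => by
          have : 0 ≤ 1 - x := by linarith [hx.2]
          simp [RR, RD, uu, du, h0]
          positivity
      have a2 := mul_le_mul_of_nonneg_left a1 (show (0 : ℝ) ≤ N / 2 by positivity)
      linarith [H.lower hN]
    · have a := congrArg norm (hη N le_rfl)
      have b : (0 : ℝ) < N.factorial := by exact_mod_cast N.factorial_pos
      simp only [tay, coeff_mk, norm_div, Complex.norm_natCast, norm_real, Real.norm_eq_abs] at a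
      rw [abs_of_nonneg (le_trans (by positivity) h2)] at a
      rw [← a, Nat.factorial_succ]
      push_cast
      field_simp

end Pool.Agent.P.BSR
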