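import Pool.Agent.P.MP_3df8df_an.RBox

/-!
Positivity of the certificates (Bernstein forms on subintervals), second part.
-/

set_option autoImplicit false

namespace Pool.Agent.P.BSR

open Set

theorem R11_0 {e : ℕ → ℝ} (E : Box e) {x : ℝ} (h1 : (-1) ≤ x) (h2 : x ≤ 0) :
    0 ≤ RR e 11 x := by
  obtain ⟨z, l1, g1, l2, g2, l3, h3, l4, h4, l5, h5, l6, h6, l7, h7, l8, h8, l9, h9, l10, h10, l11, h11, l12, h12, l13, h13⟩ := E
  have p := sub_nonneg.mpr h1
  have q := sub_nonneg.mpr h2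
  have b0 := mul_nonneg (show 0 ≤ 11 * e 0 + (-10) * e 1 + 9 * e 2 + (-8) * e 3 + 7 * e 4 + (-6) * e 5 + 5 * e 6 + (-4) * e 7 + 3 * e 8 + (-2) * e 9 + 1 * e 10 by
    linear_combination 11 * z.ge + 10 * g1 + 9 * l2 + 8 * h3 + 7 * l4 + 6 * h5 + 5 * l6 + 4 * h7 + 3 * l8 + 2 * h9 + 1 * l10) (mul_nonneg (pow_nonneg p 0) (pow_nonneg q 10))
  have b1 := mul_nonneg (show 0 ≤ (-330) * e 0 + 230 * e 1 + (-150) * e 2 + 88 * e 3 + (-42) * e 4 + 10 * e 5 + 10 * e 6 + (-20) * e 7 + 22 * e 8 + (-18) * e 9 + 10 * e 10 by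
    linear_combination 330 * z.le + 230 * l1 + 150 * g2 + 88 * l3 + 42 * h4 + 10 * l5 + 10 * l6 + 20 * h7 + 22 * l8 + 18 * h9 + 10 * l10) (mul_nonneg (pow_nonneg p 1) (pow_nonneg q 9))
  have b2 := mul_nonneg (show 0 ≤ 1683 * e 0 + (-648) * e 1 + 93 * e 2 + 144 * e 3 + (-189) * e 4 + 136 * e 5 + (-51) * e 6 + (-24) * e 7 + 67 * e 8 + (-72) * e 9 + 45 * e 10 by
    linear_combination 1683 * z.ge + 648 * g1 + 93 * l2 + 144 * l3 + 189 * h4 + 136 * l5 + 51 * h6 + 24 * h7 + 67 * l8 + 72 * h9 + 45 * l10) (mul_nonneg (pow_nonneg p 2) (pow_nonneg q 8))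
  have b3 := mul_nonneg (show 0 ≤ (-792) * e 0 + (-936) * e 1 + 888 * e 2 + (-336) * e 3 + (-120) * e 4 + 296 * e 5 + (-232) * e 6 + 56 * e 7 + 104 * e 8 + (-168) * e 9 + 120 * e 10 by
    linear_combination 792 * z.le + 936 * g1 + 888 * l2 + 336 * h3 + 120 * h4 + 296 * l5 + 232 * h6 + 56 * l7 + 104 * l8 + 168 * h9 + 120 * l10) (mul_nonneg (pow_nonneg p 3) (pow_nonneg q 7))
  have b4 := mul_nonneg (show 0 ≤ (-2618) * e 0 + 980 * e 1 + 562 * e 2 + (-832) * e 3 + 334 * e 4 + 204 * e 5 + (-390) * e 6 + 224 * e 7 + 70 * e 8 + (-252) * e 9 + 210 * e 10 by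
    linear_combination 2618 * z.le + 980 * l1 + 562 * l2 + 832 * h3 + 334 * l4 + 204 * l5 + 390 * h6 + 224 * l7 + 70 * l8 + 252 * h9 + 210 * l10) (mul_nonneg (pow_nonneg p 4) (pow_nonneg q 6))
  have b5 := mul_nonneg (show 0 ≤ (-252) * e 0 + 1428 * e 1 + (-548) * e 2 + (-480) * e 3 + 612 * e 4 + (-116) * e 5 + (-324) * e 6 + 336 * e 7 + (-28) * e 8 + (-252) * e 9 + 252 * e 10 by
    linear_combination 252 * z.le + 1428 * l1 + 548 * g2 + 480 * h3 + 612 * l4 + 116 * h5 + 324 * h6 + 336 * l7 + 28 * h8 + 252 * h9 + 252 * l10) (mul_nonneg (pow_nonneg p 5) (pow_nonneg q 5))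
  have b6 := mul_nonneg (show 0 ≤ 910 * e 0 + 280 * e 1 + (-670) * e 2 + 112 * e 3 + 382 * e 4 + (-280) * e 5 + (-110) * e 6 + 280 * e 7 + (-98) * e 8 + (-168) * e 9 + 210 * e 10 by
    linear_combination 910 * z.ge + 280 * l1 + 670 * g2 + 112 * l3 + 382 * l4 + 280 * h5 + 110 * h6 + 280 * l7 + 98 * h8 + 168 * h9 + 210 * l10) (mul_nonneg (pow_nonneg p 6) (pow_nonneg q 4))
  have b7 := mul_nonneg (show 0 ≤ 360 * e 0 + (-200) * e 1 + (-200) * e 2 + 208 * e 3 + 72 * e 4 + (-184) * e 5 + 24 * e 6 + 136 * e 7 + (-88) * e 8 + (-72) * e 9 + 120 * e 10 by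
    linear_combination 360 * z.ge + 200 * g1 + 200 * g2 + 208 * l3 + 72 * l4 + 184 * h5 + 24 * l6 + 136 * l7 + 88 * h8 + 72 * h9 + 120 * l10) (mul_nonneg (pow_nonneg p 7) (pow_nonneg q 3))
  have b8 := mul_nonneg (show 0 ≤ 15 * e 0 + (-90) * e 1 + 5 * e 2 + 72 * e 3 + (-21) * e 4 + (-54) * e 5 + 33 * e 6 + 36 * e 7 + (-41) * e 8 + (-18) * e 9 + 45 * e 10 by
    linear_combination 15 * z.ge + 90 * g1 + 5 * l2 + 72 * l3 + 21 * h4 + 54 * h5 + 33 * l6 + 36 * l7 + 41 * h8 + 18 * h9 + 45 * l10) (mul_nonneg (pow_nonneg p 8) (pow_nonneg q 2))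
  have b9 := mul_nonneg (show 0 ≤ (-10) * e 0 + (-10) * e 1 + 10 * e 2 + 8 * e 3 + (-10) * e 4 + (-6) * e 5 + 10 * e 6 + 4 * e 7 + (-10) * e 8 + (-2) * e 9 + 10 * e 10 by
    linear_combination 10 * z.le + 10 * g1 + 10 * l2 + 8 * l3 + 10 * h4 + 6 * h5 + 10 * l6 + 4 * l7 + 10 * h8 + 2 * h9 + 10 * l10) (mul_nonneg (pow_nonneg p 9) (pow_nonneg q 1))
  have b10 := mul_nonneg (show 0 ≤ (-1) * e 0 + 0 * e 1 + 1 * e 2 + 0 * e 3 + (-1) * e 4 + 0 * e 5 + 1 * e 6 + 0 * e 7 + (-1) * e 8 + 0 * e 9 + 1 * e 10 by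
    linear_combination 1 * z.le + 0 * l1 + 1 * l2 + 0 * l3 + 1 * h4 + 0 * l5 + 1 * l6 + 0 * l7 + 1 * h8 + 0 * l9 + 1 * l10) (mul_nonneg (pow_nonneg p 10) (pow_nonneg q 0))
  refine nonneg_of_mul_nonneg_right ((add_nonneg (add_nonneg (add_nonneg (add_nonneg (add_nonneg (add_nonneg (add_nonneg (add_nonneg (add_nonneg (add_nonneg b0 b1) b2) b3) b4) b5) b6) b7) b8) b9) b10).trans_eq ?_) (show (0 : ℝ) < 1 by norm_num)
  simp only [RR, Finset.sum_range_succ, Finset.sum_range_zero, Nat.reduceSub, uu1, uu2, uu3, uu4, uu5, uu6, uu7, uu8, uu9, uu10, uu11]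
  ring

theorem R11_1 {e : ℕ → ℝ} (E : Box e) {x : ℝ} (h1 : 0 ≤ x) (h2 : x ≤ (1 / 2)) :
    0 ≤ RR e 11 x := by
  obtain ⟨z, l1, g1, l2, g2, l3, h3, l4, h4, l5, h5, l6, h6, l7, h7, l8, h8, l9, h9, l10, h10, l11, h11, l12, h12, l13, h13⟩ := E
  have p := sub_nonneg.mpr h1
  have q := sub_nonneg.mpr h2
  have b0 := mul_nonneg (show 0 ≤ (-1) * e 0 + 0 * e 1 + 1 * e 2 + 0 * e 3 + (-1) * e 4 + 0 * e 5 + 1 * e 6 + 0 * e 7 + (-1) * e 8 + 0 * e 9 + 1 * e 10 by
    linear_combination 1 * z.le + 0 * l1 + 1 * l2 + 0 * l3 + 1 * h4 + 0 * l5 + 1 * l6 + 0 * l7 + 1 * h8 + 0 * l9 + 1 * l10) (mul_nonneg (pow_nonneg p 0) (pow_nonneg q 10))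
  have b1 := mul_nonneg (show 0 ≤ (-10) * e 0 + 5 * e 1 + 10 * e 2 + (-4) * e 3 + (-10) * e 4 + 3 * e 5 + 10 * e 6 + (-2) * e 7 + (-10) * e 8 + 1 * e 9 + 10 * e 10 by
    linear_combination 10 * z.le + 5 * l1 + 10 * l2 + 4 * h3 + 10 * h4 + 3 * l5 + 10 * l6 + 2 * h7 + 10 * h8 + 1 * l9 + 10 * l10) (mul_nonneg (pow_nonneg p 1) (pow_nonneg q 9))
  have b2 := mul_nonneg (show 0 ≤ (-30) * e 0 + 45 * e 1 + 35 * e 2 + (-36) * e 3 + (-39) * e 4 + 27 * e 5 + 42 * e 6 + (-18) * e 7 + (-44) * e 8 + 9 * e 9 + 45 * e 10 by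
    linear_combination 30 * z.le + 45 * l1 + 35 * l2 + 36 * h3 + 39 * h4 + 27 * l5 + 42 * l6 + 18 * h7 + 44 * h8 + 9 * l9 + 45 * l10) (mul_nonneg (pow_nonneg p 2) (pow_nonneg q 8))
  have b3 := mul_nonneg (show 0 ≤ 0 * e 0 + 160 * e 1 + 40 * e 2 + (-134) * e 3 + (-72) * e 4 + 104 * e 5 + 96 * e 6 + (-71) * e 7 + (-112) * e 8 + 36 * e 9 + 120 * e 10 by
    linear_combination 0 * z.ge + 160 * l1 + 40 * l2 + 134 * h3 + 72 * h4 + 104 * l5 + 96 * l6 + 71 * h7 + 112 * h8 + 36 * l9 + 120 * l10) (mul_nonneg (pow_nonneg p 3) (pow_nonneg q 7))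
  have b4 := mul_nonneg (show 0 ≤ 175 * e 0 + 280 * e 1 + (-55) * e 2 + (-266) * e 3 + (-47) * e 4 + 224 * e 5 + 127 * e 6 + (-161) * e 7 + (-182) * e 8 + 84 * e 9 + 210 * e 10 by
    linear_combination 175 * z.ge + 280 * l1 + 55 * g2 + 266 * h3 + 47 * h4 + 224 * l5 + 127 * l6 + 161 * h7 + 182 * h8 + 84 * l9 + 210 * l10) (mul_nonneg (pow_nonneg p 4) (pow_nonneg q 6))
  have b5 := mul_nonneg (show 0 ≤ 378 * e 0 + 231 * e 1 + (-218) * e 2 + (-300) * e 3 + 54 * e 4 + 295 * e 5 + 90 * e 6 + (-231) * e 7 + (-196) * e 8 + 126 * e 9 + 252 * e 10 by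
    linear_combination 378 * z.ge + 231 * l1 + 218 * g2 + 300 * h3 + 54 * l4 + 295 * l5 + 90 * l6 + 231 * h7 + 196 * h8 + 126 * l9 + 252 * l10) (mul_nonneg (pow_nonneg p 5) (pow_nonneg q 5))
  have b6 := mul_nonneg (show 0 ≤ 343 * e 0 + 35 * e 1 + (-272) * e 2 + (-184) * e 3 + 136 * e 4 + 243 * e 5 + 15 * e 6 + (-217) * e 7 + (-140) * e 8 + 126 * e 9 + 210 * e 10 by
    linear_combination 343 * z.ge + 35 * l1 + 272 * g2 + 184 * h3 + 136 * l4 + 243 * l5 + 15 * l6 + 217 * h7 + 140 * h8 + 126 * l9 + 210 * l10) (mul_nonneg (pow_nonneg p 6) (pow_nonneg q 4))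
  have b7 := mul_nonneg (show 0 ≤ 132 * e 0 + (-78) * e 1 + (-168) * e 2 + (-45) * e 3 + 120 * e 4 + 122 * e 5 + (-28) * e 6 + (-133) * e 7 + (-64) * e 8 + 84 * e 9 + 120 * e 10 by
    linear_combination 132 * z.ge + 78 * g1 + 168 * g2 + 45 * h3 + 120 * l4 + 122 * l5 + 28 * h6 + 133 * h7 + 64 * h8 + 84 * l9 + 120 * l10) (mul_nonneg (pow_nonneg p 7) (pow_nonneg q 3))
  have b8 := mul_nonneg (show 0 ≤ 9 * e 0 + (-54) * e 1 + (-51) * e 2 + 9 * e 3 + 54 * e 4 + 34 * e 5 + (-24) * e 6 + (-51) * e 7 + (-17) * e 8 + 36 * e 9 + 45 * e 10 by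
    linear_combination 9 * z.ge + 54 * g1 + 51 * g2 + 9 * l3 + 54 * l4 + 34 * l5 + 24 * h6 + 51 * h7 + 17 * h8 + 36 * l9 + 45 * l10) (mul_nonneg (pow_nonneg p 8) (pow_nonneg q 2))
  have b9 := mul_nonneg (show 0 ≤ (-6) * e 0 + (-13) * e 1 + (-6) * e 2 + 7 * e 3 + 12 * e 4 + 4 * e 5 + (-8) * e 6 + (-11) * e 7 + (-2) * e 8 + 9 * e 9 + 10 * e 10 by
    linear_combination 6 * z.le + 13 * g1 + 6 * g2 + 7 * l3 + 12 * l4 + 4 * l5 + 8 * h6 + 11 * h7 + 2 * h8 + 9 * l9 + 10 * l10) (mul_nonneg (pow_nonneg p 9) (pow_nonneg q 1))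
  have b10 := mul_nonneg (show 0 ≤ (-1) * e 0 + (-1) * e 1 + 0 * e 2 + 1 * e 3 + 1 * e 4 + 0 * e 5 + (-1) * e 6 + (-1) * e 7 + 0 * e 8 + 1 * e 9 + 1 * e 10 by
    linear_combination 1 * z.le + 1 * g1 + 0 * l2 + 1 * l3 + 1 * l4 + 0 * l5 + 1 * h6 + 1 * h7 + 0 * l8 + 1 * l9 + 1 * l10) (mul_nonneg (pow_nonneg p 10) (pow_nonneg q 0))
  refine nonneg_of_mul_nonneg_right ((add_nonneg (add_nonneg (add_nonneg (add_nonneg (add_nonneg (add_nonneg (add_nonneg (add_nonneg (add_nonneg (add_nonneg b0 b1) b2) b3) b4) b5) b6) b7) b8) b9) b10).trans_eq ?_) (show (0 : ℝ) < (1 / 1024) by norm_num)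
  simp only [RR, Finset.sum_range_succ, Finset.sum_range_zero, Nat.reduceSub, uu1, uu2, uu3, uu4, uu5, uu6, uu7, uu8, uu9, uu10, uu11]
  ring

theorem R11_2 {e : ℕ → ℝ} (E : Box e) {x : ℝ} (h1 : (1 / 2) ≤ x) (h2 : x ≤ 1) :
    0 ≤ RR e 11 x := by
  obtain ⟨z, l1, g1, l2, g2, l3, h3, l4, h4, l5, h5, l6, h6, l7, h7, l8, h8, l9, h9, l10, h10, l11, h11, l12, h12, l13, h13⟩ := E
  have p := sub_nonneg.mpr h1
  have q := sub_nonneg.mpr h2
  have b0 := mul_nonneg (show 0 ≤ (-1) * e 0 + (-1) * e 1 + 0 * e 2 + 1 * e 3 + 1 * e 4 + 0 * e 5 + (-1) * e 6 + (-1) * e 7 + 0 * e 8 + 1 * e 9 + 1 * e 10 by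
    linear_combination 1 * z.le + 1 * g1 + 0 * l2 + 1 * l3 + 1 * l4 + 0 * l5 + 1 * h6 + 1 * h7 + 0 * l8 + 1 * l9 + 1 * l10) (mul_nonneg (pow_nonneg p 0) (pow_nonneg q 10))
  have b1 := mul_nonneg (show 0 ≤ (-14) * e 0 + (-7) * e 1 + 6 * e 2 + 13 * e 3 + 8 * e 4 + (-4) * e 5 + (-12) * e 6 + (-9) * e 7 + 2 * e 8 + 11 * e 9 + 10 * e 10 by
    linear_combination 14 * z.le + 7 * g1 + 6 * l2 + 13 * l3 + 8 * l4 + 4 * h5 + 12 * h6 + 9 * h7 + 2 * l8 + 11 * l9 + 10 * l10) (mul_nonneg (pow_nonneg p 1) (pow_nonneg q 9))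
  have b2 := mul_nonneg (show 0 ≤ (-63) * e 0 + 0 * e 1 + 57 * e 2 + 63 * e 3 + 18 * e 4 + (-38) * e 5 + (-60) * e 6 + (-33) * e 7 + 19 * e 8 + 54 * e 9 + 45 * e 10 by
    linear_combination 63 * z.le + 0 * l1 + 57 * l2 + 63 * l3 + 18 * l4 + 38 * h5 + 60 * h6 + 33 * h7 + 19 * l8 + 54 * l9 + 45 * l10) (mul_nonneg (pow_nonneg p 2) (pow_nonneg q 8))
  have b3 := mul_nonneg (show 0 ≤ (-84) * e 0 + 126 * e 1 + 216 * e 2 + 141 * e 3 + (-24) * e 4 + (-154) * e 5 + (-164) * e 6 + (-59) * e 7 + 80 * e 8 + 156 * e 9 + 120 * e 10 by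
    linear_combination 84 * z.le + 126 * l1 + 216 * l2 + 141 * l3 + 24 * h4 + 154 * h5 + 164 * h6 + 59 * h7 + 80 * l8 + 156 * l9 + 120 * l10) (mul_nonneg (pow_nonneg p 3) (pow_nonneg q 7))
  have b4 := mul_nonneg (show 0 ≤ 175 * e 0 + 455 * e 1 + 400 * e 2 + 110 * e 3 + (-200) * e 4 + (-345) * e 5 + (-265) * e 6 + (-35) * e 7 + 196 * e 8 + 294 * e 9 + 210 * e 10 by
    linear_combination 175 * z.ge + 455 * l1 + 400 * l2 + 110 * l3 + 200 * h4 + 345 * h5 + 265 * h6 + 35 * h7 + 196 * l8 + 294 * l9 + 210 * l10) (mul_nonneg (pow_nonneg p 4) (pow_nonneg q 6))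
  have b5 := mul_nonneg (show 0 ≤ 714 * e 0 + 693 * e 1 + 314 * e 2 + (-144) * e 3 + (-438) * e 4 + (-459) * e 5 + (-246) * e 6 + 63 * e 7 + 308 * e 8 + 378 * e 9 + 252 * e 10 by
    linear_combination 714 * z.ge + 693 * l1 + 314 * l2 + 144 * h3 + 438 * h4 + 459 * h5 + 246 * h6 + 63 * l7 + 308 * l8 + 378 * l9 + 252 * l10) (mul_nonneg (pow_nonneg p 5) (pow_nonneg q 5))
  have b6 := mul_nonneg (show 0 ≤ 847 * e 0 + 406 * e 1 + (-83) * e 2 + (-410) * e 3 + (-491) * e 4 + (-354) * e 5 + (-97) * e 6 + 161 * e 7 + 322 * e 8 + 336 * e 9 + 210 * e 10 by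
    linear_combination 847 * z.ge + 406 * l1 + 83 * g2 + 410 * h3 + 491 * h4 + 354 * h5 + 97 * h6 + 161 * l7 + 322 * l8 + 336 * l9 + 210 * l10) (mul_nonneg (pow_nonneg p 6) (pow_nonneg q 4))
  have b7 := mul_nonneg (show 0 ≤ 264 * e 0 + (-120) * e 1 + (-336) * e 2 + (-378) * e 3 + (-288) * e 4 + (-128) * e 5 + 40 * e 6 + 167 * e 7 + 224 * e 8 + 204 * e 9 + 120 * e 10 by
    linear_combination 264 * z.ge + 120 * g1 + 336 * g2 + 378 * h3 + 288 * h4 + 128 * h5 + 40 * l6 + 167 * l7 + 224 * l8 + 204 * l9 + 120 * l10) (mul_nonneg (pow_nonneg p 7) (pow_nonneg q 3))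
  have b8 := mul_nonneg (show 0 ≤ (-198) * e 0 + (-243) * e 1 + (-213) * e 2 + (-144) * e 3 + (-63) * e 4 + 11 * e 5 + 66 * e 6 + 96 * e 7 + 100 * e 8 + 81 * e 9 + 45 * e 10 by
    linear_combination 198 * z.le + 243 * g1 + 213 * g2 + 144 * h3 + 63 * h4 + 11 * l5 + 66 * l6 + 96 * l7 + 100 * l8 + 81 * l9 + 45 * l10) (mul_nonneg (pow_nonneg p 8) (pow_nonneg q 2))
  have b9 := mul_nonneg (show 0 ≤ (-110) * e 0 + (-65) * e 1 + (-30) * e 2 + (-4) * e 3 + 14 * e 4 + 25 * e 5 + 30 * e 6 + 30 * e 7 + 26 * e 8 + 19 * e 9 + 10 * e 10 by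
    linear_combination 110 * z.le + 65 * g1 + 30 * g2 + 4 * h3 + 14 * l4 + 25 * l5 + 30 * l6 + 30 * l7 + 26 * l8 + 19 * l9 + 10 * l10) (mul_nonneg (pow_nonneg p 9) (pow_nonneg q 1))
  have b10 := mul_nonneg (show 0 ≤ 11 * e 0 + 10 * e 1 + 9 * e 2 + 8 * e 3 + 7 * e 4 + 6 * e 5 + 5 * e 6 + 4 * e 7 + 3 * e 8 + 2 * e 9 + 1 * e 10 by
    linear_combination 11 * z.ge + 10 * l1 + 9 * l2 + 8 * l3 + 7 * l4 + 6 * l5 + 5 * l6 + 4 * l7 + 3 * l8 + 2 * l9 + 1 * l10) (mul_nonneg (pow_nonneg p 10) (pow_nonneg q 0))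
  refine nonneg_of_mul_nonneg_right ((add_nonneg (add_nonneg (add_nonneg (add_nonneg (add_nonneg (add_nonneg (add_nonneg (add_nonneg (add_nonneg (add_nonneg b0 b1) b2) b3) b4) b5) b6) b7) b8) b9) b10).trans_eq ?_) (show (0 : ℝ) < (1 / 1024) by norm_num)
  simp only [RR, Finset.sum_range_succ, Finset.sum_range_zero, Nat.reduceSub, uu1, uu2, uu3, uu4, uu5, uu6, uu7, uu8, uu9, uu10, uu11]
  ring

theorem Z11_0 {e : ℕ → ℝ} (E : Box e) {x : ℝ} (h1 : (-1) ≤ x) (h2 : x ≤ (-7 / 8)) :
    0 ≤ 3 * RR e 11 x - 2 * (1 - x) * RD e 11 x + (3183 / 5000) * ((1 - x) * RR e 11 x) := by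
  obtain ⟨z, l1, g1, l2, g2, l3, h3, l4, h4, l5, h5, l6, h6, l7, h7, l8, h8, l9, h9, l10, h10, l11, h11, l12, h12, l13, h13⟩ := E
  have p := sub_nonneg.mpr h1
  have q := sub_nonneg.mpr h2
  have b0 := mul_nonneg (show 0 ≤ 75791291383808 * e 0 + (-57157122785280) * e 1 + 41878397386752 * e 2 + (-29619570868224) * e 3 + 20045098909696 * e 4 + (-12819437191168) * e 5 + 7607041392640 * e 6 + (-4072367194112) * e 7 + 1879870275584 * e 8 + (-694006317056) * e 9 + 179230998528 * e 10 by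
    linear_combination 75791291383808 * z.ge + 57157122785280 * g1 + 41878397386752 * l2 + 29619570868224 * h3 + 20045098909696 * l4 + 12819437191168 * h5 + 7607041392640 * l6 + 4072367194112 * h7 + 1879870275584 * l8 + 694006317056 * h9 + 179230998528 * l10) (mul_nonneg (pow_nonneg p 0) (pow_nonneg q 11))
  have b1 := mul_nonneg (show 0 ≤ 603273282191360 * e 0 + (-484965844254720) * e 1 + 375228082421760 * e 2 + (-277984535642112) * e 3 + 195649793425408 * e 4 + (-129296268001280) * e 5 + 78821966479360 * e 6 + (-43118263009280) * e 7 + 20237670940672 * e 8 + (-7561614983168) * e 9 + 1968203366400 * e 10 by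
    linear_combination 603273282191360 * z.ge + 484965844254720 * g1 + 375228082421760 * l2 + 277984535642112 * h3 + 195649793425408 * l4 + 129296268001280 * h5 + 78821966479360 * l6 + 43118263009280 * h7 + 20237670940672 * l8 + 7561614983168 * h9 + 1968203366400 * l10) (mul_nonneg (pow_nonneg p 1) (pow_nonneg q 10))
  have b2 := mul_nonneg (show 0 ≤ 2108230201245696 * e 0 + (-1831292407382016) * e 1 + 1508917144190976 * e 2 + (-1177066153181184) * e 3 + 864346617937920 * e 4 + (-591402273865728) * e 5 + 370807834411008 * e 6 + (-207403819204608) * e 7 + 99008869564416 * e 8 + (-37446636797952) * e 9 + 9824328744960 * e 10 by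
    linear_combination 2108230201245696 * z.ge + 1831292407382016 * g1 + 1508917144190976 * l2 + 1177066153181184 * h3 + 864346617937920 * l4 + 591402273865728 * h5 + 370807834411008 * l6 + 207403819204608 * h7 + 99008869564416 * l8 + 37446636797952 * h9 + 9824328744960 * l10) (mul_nonneg (pow_nonneg p 2) (pow_nonneg q 9))
  have b3 := mul_nonneg (show 0 ≤ 4203999828312064 * e 0 + (-4035390521737216) * e 1 + 3584502892724224 * e 2 + (-2964632393482240) * e 3 + 2280332542738432 * e 4 + (-1619031769219072) * e 5 + 1045364634615808 * e 6 + (-598245140201472) * e 7 + 290563020619776 * e 8 + (-111258099253248) * e 9 + 29422921973760 * e 10 by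
    linear_combination 4203999828312064 * z.ge + 4035390521737216 * g1 + 3584502892724224 * l2 + 2964632393482240 * h3 + 2280332542738432 * l4 + 1619031769219072 * h5 + 1045364634615808 * l6 + 598245140201472 * h7 + 290563020619776 * l8 + 111258099253248 * h9 + 29422921973760 * l10) (mul_nonneg (pow_nonneg p 3) (pow_nonneg q 8))
  have b4 := mul_nonneg (show 0 ≤ 5156248452136960 * e 0 + (-5703709157294080) * e 1 + 5566369268695040 * e 2 + (-4927334299303936) * e 3 + 3989470164484096 * e 4 + (-2946938721075200) * e 5 + 1962149784125440 * e 6 + (-1149734069452800) * e 7 + 568348182577152 * e 8 + (-220357582651392) * e 9 + 58745715425280 * e 10 by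
    linear_combination 5156248452136960 * z.ge + 5703709157294080 * g1 + 5566369268695040 * l2 + 4927334299303936 * h3 + 3989470164484096 * l4 + 2946938721075200 * h5 + 1962149784125440 * l6 + 1149734069452800 * h7 + 568348182577152 * l8 + 220357582651392 * h9 + 58745715425280 * l10) (mul_nonneg (pow_nonneg p 4) (pow_nonneg q 7))
  have b5 := mul_nonneg (show 0 ≤ 3793970047537152 * e 0 + (-5325430019481600) * e 1 + 5897037715058688 * e 2 + (-5662603206574080) * e 3 + 4856465239732224 * e 4 + (-3743835501158400) * e 5 + 2574536959856640 * e 6 + (-1545793785446400) * e 7 + 778006913875968 * e 8 + (-305485562511360) * e 9 + 82103821664256 * e 10 by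
    linear_combination 3793970047537152 * z.ge + 5325430019481600 * g1 + 5897037715058688 * l2 + 5662603206574080 * h3 + 4856465239732224 * l4 + 3743835501158400 * h5 + 2574536959856640 * l6 + 1545793785446400 * h7 + 778006913875968 * l8 + 305485562511360 * h9 + 82103821664256 * l10) (mul_nonneg (pow_nonneg p 5) (pow_nonneg q 6))
  have b6 := mul_nonneg (show 0 ≤ 1279757073244160 * e 0 + (-3218691480202240) * e 1 + 4306758508257280 * e 2 + (-4578542089529344) * e 3 + 4193778970075136 * e 4 + (-3386471990819840) * e 5 + 2409391124602880 * e 6 + (-1483562520330240) * e 7 + 760534248456192 * e 8 + (-302477518307328) * e 9 + 81963641733120 * e 10 by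
    linear_combination 1279757073244160 * z.ge + 3218691480202240 * g1 + 4306758508257280 * l2 + 4578542089529344 * h3 + 4193778970075136 * l4 + 3386471990819840 * h5 + 2409391124602880 * l6 + 1483562520330240 * h7 + 760534248456192 * l8 + 302477518307328 * h9 + 81963641733120 * l10) (mul_nonneg (pow_nonneg p 6) (pow_nonneg q 5))
  have b7 := mul_nonneg (show 0 ≤ (-361383378420736) * e 0 + (-1126347880827904) * e 1 + 2131481728289024 * e 2 + (-2594136425228800) * e 3 + 2566193899872512 * e 4 + (-2180343328918528) * e 5 + 1608117081141248 * e 6 + (-1016365598588928) * e 7 + 530906339475456 * e 8 + (-213911773642752) * e 9 + 58445329858560 * e 10 by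
    linear_combination 361383378420736 * z.le + 1126347880827904 * g1 + 2131481728289024 * l2 + 2594136425228800 * h3 + 2566193899872512 * l4 + 2180343328918528 * h5 + 1608117081141248 * l6 + 1016365598588928 * h7 + 530906339475456 * l8 + 213911773642752 * h9 + 58445329858560 * l10) (mul_nonneg (pow_nonneg p 7) (pow_nonneg q 4))
  have b8 := mul_nonneg (show 0 ≤ (-612511548175104) * e 0 + (-115539961150464) * e 1 + 676727945976576 * e 2 + (-1003260713251776) * e 3 + 1088875313955840 * e 4 + (-978841288169472) * e 5 + 750089426976768 * e 6 + (-487078481313792) * e 7 + 259360789364736 * e 8 + (-105886591746048) * e 9 + 29172600668160 * e 10 by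
    linear_combination 612511548175104 * z.le + 115539961150464 * g1 + 676727945976576 * l2 + 1003260713251776 * h3 + 1088875313955840 * l4 + 978841288169472 * h5 + 750089426976768 * l6 + 487078481313792 * h7 + 259360789364736 * l8 + 105886591746048 * h9 + 29172600668160 * l10) (mul_nonneg (pow_nonneg p 8) (pow_nonneg q 3))
  have b9 := mul_nonneg (show 0 ≤ (-294481572917840) * e 0 + 72339774183840 * e 1 + 120051809322000 * e 2 + (-249803461324608) * e 3 + 304553886545408 * e 4 + (-291693730887680) * e 5 + 232839163473920 * e 6 + (-155507658506240) * e 7 + 84447341576192 * e 8 + (-34939933294592) * e 9 + 9707512135680 * e 10 by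
    linear_combination 294481572917840 * z.le + 72339774183840 * l1 + 120051809322000 * l2 + 249803461324608 * h3 + 304553886545408 * l4 + 291693730887680 * h5 + 232839163473920 * l6 + 155507658506240 * h7 + 84447341576192 * l8 + 34939933294592 * h9 + 9707512135680 * l10) (mul_nonneg (pow_nonneg p 9) (pow_nonneg q 2))
  have b10 := mul_nonneg (show 0 ≤ (-68710827747392) * e 0 + 30326694306180 * e 1 + 7082859109152 * e 2 + (-35433026577216) * e 3 + 50405494055936 * e 4 + (-51901478136832) * e 5 + 43284794531840 * e 6 + (-29767232012288) * e 7 + 16493111148544 * e 8 + (-6917034082304) * e 9 + 1938164809728 * e 10 by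
    linear_combination 68710827747392 * z.le + 30326694306180 * l1 + 7082859109152 * l2 + 35433026577216 * h3 + 50405494055936 * l4 + 51901478136832 * h5 + 43284794531840 * l6 + 29767232012288 * h7 + 16493111148544 * l8 + 6917034082304 * h9 + 1938164809728 * l10) (mul_nonneg (pow_nonneg p 10) (pow_nonneg q 1))
  have b11 := mul_nonneg (show 0 ≤ (-6573564617055) * e 0 + 3731057609700 * e 1 + (-568104199920) * e 2 + (-2095830459840) * e 3 + 3726297104640 * e 4 + (-4174591073280) * e 5 + 3650200473600 * e 6 + (-2588043755520) * e 7 + 1463784898560 * e 8 + (-622386216960) * e 9 + 175893381120 * e 10 by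
    linear_combination 6573564617055 * z.le + 3731057609700 * l1 + 568104199920 * g2 + 2095830459840 * h3 + 3726297104640 * l4 + 4174591073280 * h5 + 3650200473600 * l6 + 2588043755520 * h7 + 1463784898560 * l8 + 622386216960 * h9 + 175893381120 * l10) (mul_nonneg (pow_nonneg p 11) (pow_nonneg q 0))
  refine nonneg_of_mul_nonneg_right ((add_nonneg (add_nonneg (add_nonneg (add_nonneg (add_nonneg (add_nonneg (add_nonneg (add_nonneg (add_nonneg (add_nonneg (add_nonneg b0 b1) b2) b3) b4) b5) b6) b7) b8) b9) b10) b11).trans_eq ?_) (show (0 : ℝ) < (625 / 128) by norm_num)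
  simp only [RR, RD, Finset.sum_range_succ, Finset.sum_range_zero, Nat.reduceSub, uu1, du1, uu2, du2, uu3, du3, uu4, du4, uu5, du5, uu6, du6, uu7, du7, uu8, du8, uu9, du9, uu10, du10, uu11, du11]
  ring

theorem Z11_1 {e : ℕ → ℝ} (E : Box e) {x : ℝ} (h1 : (-7 / 8) ≤ x) (h2 : x ≤ (-3 / 4)) :
    0 ≤ 3 * RR e 11 x - 2 * (1 - x) * RD e 11 x + (3183 / 5000) * ((1 - x) * RR e 11 x) := by
  obtain ⟨z, l1, g1, l2, g2, l3, h3, l4, h4, l5, h5, l6, h6, l7, h7, l8, h8, l9, h9, l10, h10, l11, h11, l12, h12, l13, h13⟩ := E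
  have p := sub_nonneg.mpr h1
  have q := sub_nonneg.mpr h2
  have b0 := mul_nonneg (show 0 ≤ (-6573564617055) * e 0 + 3731057609700 * e 1 + (-568104199920) * e 2 + (-2095830459840) * e 3 + 3726297104640 * e 4 + (-4174591073280) * e 5 + 3650200473600 * e 6 + (-2588043755520) * e 7 + 1463784898560 * e 8 + (-622386216960) * e 9 + 175893381120 * e 10 by
    linear_combination 6573564617055 * z.le + 3731057609700 * l1 + 568104199920 * g2 + 2095830459840 * h3 + 3726297104640 * l4 + 4174591073280 * h5 + 3650200473600 * l6 + 2588043755520 * h7 + 1463784898560 * l8 + 622386216960 * h9 + 175893381120 * l10) (mul_nonneg (pow_nonneg p 0) (pow_nonneg q 11))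
  have b1 := mul_nonneg (show 0 ≤ (-75907593827818) * e 0 + 51756573107220 * e 1 + (-19581151507392) * e 2 + (-10675243539264) * e 3 + 31573042246144 * e 4 + (-39939525475328) * e 5 + 37019615887360 * e 6 + (-27169730609152) * e 7 + 15710156619776 * e 8 + (-6775462690816) * e 9 + 1931489574912 * e 10 by
    linear_combination 75907593827818 * z.le + 51756573107220 * l1 + 19581151507392 * g2 + 10675243539264 * h3 + 31573042246144 * l4 + 39939525475328 * h5 + 37019615887360 * l6 + 27169730609152 * h7 + 15710156619776 * l8 + 6775462690816 * h9 + 1931489574912 * l10) (mul_nonneg (pow_nonneg p 1) (pow_nonneg q 10))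
  have b2 := mul_nonneg (show 0 ≤ (-366449233722100) * e 0 + 286638562194240 * e 1 + (-146588296843440) * e 2 + (-2225630945088) * e 3 + 116229368447488 * e 4 + (-172074204272640) * e 5 + 170187377029120 * e 6 + (-129532644474880) * e 7 + 76617796288512 * e 8 + (-33524219379712) * e 9 + 9640759787520 * e 10 by
    linear_combination 366449233722100 * z.le + 286638562194240 * l1 + 146588296843440 * g2 + 2225630945088 * h3 + 116229368447488 * l4 + 172074204272640 * h5 + 170187377029120 * l6 + 129532644474880 * h7 + 76617796288512 * l8 + 33524219379712 * h9 + 9640759787520 * l10) (mul_nonneg (pow_nonneg p 2) (pow_nonneg q 9))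
  have b3 := mul_nonneg (show 0 ≤ (-997313064328056) * e 0 + 883846966151184 * e 1 + (-540607561722336) * e 2 + 118246986318912 * e 3 + 238817891917824 * e 4 + (-439840019908608) * e 5 + 468017124974592 * e 6 + (-370175366873088) * e 7 + 224127418368000 * e 8 + (-99515879129088) * e 9 + 28872215101440 * e 10 by
    linear_combination 997313064328056 * z.le + 883846966151184 * l1 + 540607561722336 * g2 + 118246986318912 * l3 + 238817891917824 * l4 + 439840019908608 * h5 + 468017124974592 * l6 + 370175366873088 * h7 + 224127418368000 * l8 + 99515879129088 * h9 + 28872215101440 * l10) (mul_nonneg (pow_nonneg p 3) (pow_nonneg q 8))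
  have b4 := mul_nonneg (show 0 ≤ (-1712571648342112) * e 0 + 1725576625335680 * e 1 + (-1207839785331712) * e 2 + 436057242228224 * e 3 + 285522957918464 * e 4 + (-739201821592576) * e 5 + 855181539799040 * e 6 + (-704541019815936) * e 7 + 436948458405888 * e 8 + (-196923206664192) * e 9 + 57644301680640 * e 10 by
    linear_combination 1712571648342112 * z.le + 1725576625335680 * l1 + 1207839785331712 * g2 + 436057242228224 * l3 + 285522957918464 * l4 + 739201821592576 * h5 + 855181539799040 * l6 + 704541019815936 * h7 + 436948458405888 * l8 + 196923206664192 * h9 + 57644301680640 * l10) (mul_nonneg (pow_nonneg p 4) (pow_nonneg q 7))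
  have b5 := mul_nonneg (show 0 ≤ (-1944646043615296) * e 0 + 2264887882044032 * e 1 + (-1781987495571456) * e 2 + 828117791559680 * e 3 + 166228590652928 * e 4 + (-854485383195648) * e 5 + 1089804219170816 * e 6 + (-937651789283328) * e 7 + 596102115753984 * e 8 + (-272747526094848) * e 9 + 80561842421760 * e 10 by
    linear_combination 1944646043615296 * z.le + 2264887882044032 * l1 + 1781987495571456 * g2 + 828117791559680 * l3 + 166228590652928 * l4 + 854485383195648 * h5 + 1089804219170816 * l6 + 937651789283328 * h7 + 596102115753984 * l8 + 272747526094848 * h9 + 80561842421760 * l10) (mul_nonneg (pow_nonneg p 5) (pow_nonneg q 6))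
  have b6 := mul_nonneg (show 0 ≤ (-1472039680766592) * e 0 + 2049981622004736 * e 1 + (-1803152251540992) * e 2 + 991874937065472 * e 3 + (-34851465624576) * e 4 + (-689464769445888) * e 5 + 987913056964608 * e 6 + (-890352559079424) * e 7 + 580679009304576 * e 8 + (-269809571856384) * e 9 + 80421662490624 * e 10 by
    linear_combination 1472039680766592 * z.le + 2049981622004736 * l1 + 1803152251540992 * g2 + 991874937065472 * l3 + 34851465624576 * h4 + 689464769445888 * h5 + 987913056964608 * l6 + 890352559079424 * h7 + 580679009304576 * l8 + 269809571856384 * h9 + 80421662490624 * l10) (mul_nonneg (pow_nonneg p 6) (pow_nonneg q 5))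
  have b7 := mul_nonneg (show 0 ≤ (-719930877290240) * e 0 + 1281319099230720 * e 1 + (-1263370831703040) * e 2 + 792069896570880 * e 3 + (-147395498608640) * e 4 + (-384969904148480) * e 5 + 636713467617280 * e 6 + (-603170183823360) * e 7 + 403898527383552 * e 8 + (-190627590438912) * e 9 + 57343916113920 * e 10 by
    linear_combination 719930877290240 * z.le + 1281319099230720 * l1 + 1263370831703040 * g2 + 792069896570880 * l3 + 147395498608640 * h4 + 384969904148480 * h5 + 636713467617280 * l6 + 603170183823360 * h7 + 403898527383552 * l8 + 190627590438912 * h9 + 57343916113920 * l10) (mul_nonneg (pow_nonneg p 7) (pow_nonneg q 4))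
  have b8 := mul_nonneg (show 0 ≤ (-204306422958848) * e 0 + 540990810842112 * e 1 + (-603925729947648) * e 2 + 423449603039232 * e 3 + (-125338007195648) * e 4 + (-143619316236288) * e 5 + 285743947743232 * e 6 + (-285674099048448) * e 7 + 196585113845760 * e 8 + (-94269532274688) * e 9 + 28621893795840 * e 10 by
    linear_combination 204306422958848 * z.le + 540990810842112 * l1 + 603925729947648 * g2 + 423449603039232 * l3 + 125338007195648 * h4 + 143619316236288 * h5 + 285743947743232 * l6 + 285674099048448 * h7 + 196585113845760 * l8 + 94269532274688 * h9 + 28621893795840 * l10) (mul_nonneg (pow_nonneg p 8) (pow_nonneg q 3))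
  have b9 := mul_nonneg (show 0 ≤ (-21155798954496) * e 0 + 146100528399360 * e 1 + (-188158644781056) * e 2 + 146190966767616 * e 3 + (-56086699597824) * e 4 + (-33118382800896) * e 5 + 84975040266240 * e 6 + (-90080819675136) * e 7 + 63764234108928 * e 8 + (-31075924180992) * e 9 + 9523943178240 * e 10 by
    linear_combination 21155798954496 * z.le + 146100528399360 * l1 + 188158644781056 * g2 + 146190966767616 * l3 + 56086699597824 * h4 + 33118382800896 * h5 + 84975040266240 * l6 + 90080819675136 * h7 + 63764234108928 * l8 + 31075924180992 * h9 + 9523943178240 * l10) (mul_nonneg (pow_nonneg p 9) (pow_nonneg q 2))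
  have b10 := mul_nonneg (show 0 ≤ 3979704916992 * e 0 + 22440592900096 * e 1 + (-34436835995648) * e 2 + 29552347856896 * e 3 + (-13553231806464) * e 4 + (-3961208045568) * e 5 + 15055919579136 * e 6 + (-17018838581248) * e 7 + 12404788035584 * e 8 + (-6145901068288) * e 9 + 1901451018240 * e 10 by
    linear_combination 3979704916992 * z.ge + 22440592900096 * l1 + 34436835995648 * g2 + 29552347856896 * l3 + 13553231806464 * h4 + 3961208045568 * h5 + 15055919579136 * l6 + 17018838581248 * h7 + 12404788035584 * l8 + 6145901068288 * h9 + 1901451018240 * l10) (mul_nonneg (pow_nonneg p 10) (pow_nonneg q 1))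
  have b11 := mul_nonneg (show 0 ≤ 992532523008 * e 0 + 1448221954048 * e 1 + (-2805318574080) * e 2 + 2662271107072 * e 3 + (-1401407766528) * e 4 + (-142695137280) * e 5 + 1202573672448 * e 6 + (-1459314491392) * e 7 + 1096498544640 * e 8 + (-552434925568) * e 9 + 172555763712 * e 10 by
    linear_combination 992532523008 * z.ge + 1448221954048 * l1 + 2805318574080 * g2 + 2662271107072 * l3 + 1401407766528 * h4 + 142695137280 * h5 + 1202573672448 * l6 + 1459314491392 * h7 + 1096498544640 * l8 + 552434925568 * h9 + 172555763712 * l10) (mul_nonneg (pow_nonneg p 11) (pow_nonneg q 0))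
  refine nonneg_of_mul_nonneg_right ((add_nonneg (add_nonneg (add_nonneg (add_nonneg (add_nonneg (add_nonneg (add_nonneg (add_nonneg (add_nonneg (add_nonneg (add_nonneg b0 b1) b2) b3) b4) b5) b6) b7) b8) b9) b10) b11).trans_eq ?_) (show (0 : ℝ) < (625 / 128) by norm_num)
  simp only [RR, RD, Finset.sum_range_succ, Finset.sum_range_zero, Nat.reduceSub, uu1, du1, uu2, du2, uu3, du3, uu4, du4, uu5, du5, uu6, du6, uu7, du7, uu8, du8, uu9, du9, uu10, du10, uu11, du11]
  ring

theorem Z11_2 {e : ℕ → ℝ} (E : Box e) {x : ℝ} (h1 : (-3 / 4) ≤ x) (h2 : x ≤ (-1 / 2)) :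
    0 ≤ 3 * RR e 11 x - 2 * (1 - x) * RD e 11 x + (3183 / 5000) * ((1 - x) * RR e 11 x) := by
  obtain ⟨z, l1, g1, l2, g2, l3, h3, l4, h4, l5, h5, l6, h6, l7, h7, l8, h8, l9, h9, l10, h10, l11, h11, l12, h12, l13, h13⟩ := E
  have p := sub_nonneg.mpr h1
  have q := sub_nonneg.mpr h2
  have b0 := mul_nonneg (show 0 ≤ 484635021 * e 0 + 707139626 * e 1 + (-1369784460) * e 2 + 1299937064 * e 3 + (-684281136) * e 4 + (-69675360) * e 5 + 587194176 * e 6 + (-712555904) * e 7 + 535399680 * e 8 + (-269743616) * e 9 + 84255744 * e 10 by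
    linear_combination 484635021 * z.ge + 707139626 * l1 + 1369784460 * g2 + 1299937064 * l3 + 684281136 * h4 + 69675360 * h5 + 587194176 * l6 + 712555904 * h7 + 535399680 * l8 + 269743616 * h9 + 84255744 * l10) (mul_nonneg (pow_nonneg p 0) (pow_nonneg q 11))
  have b1 := mul_nonneg (show 0 ≤ 12106525110 * e 0 + 1420966154 * e 1 + (-11573164528) * e 2 + 14038208408 * e 3 + (-9345699552) * e 4 + 1569080352 * e 5 + 4674361344 * e 6 + (-6894385280) * e 7 + 5554138624 * e 8 + (-2899682816) * e 9 + 923553792 * e 10 by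
    linear_combination 12106525110 * z.ge + 1420966154 * l1 + 11573164528 * g2 + 14038208408 * l3 + 9345699552 * h4 + 1569080352 * l5 + 4674361344 * l6 + 6894385280 * h7 + 5554138624 * l8 + 2899682816 * h9 + 923553792 * l10) (mul_nonneg (pow_nonneg p 1) (pow_nonneg q 10))
  have b2 := mul_nonneg (show 0 ≤ 81981498072 * e 0 + (-22052535720) * e 1 + (-36648981228) * e 2 + 63206637528 * e 3 + (-51196159392) * e 4 + 16877372352 * e 5 + 15536598720 * e 6 + (-30055486848) * e 7 + 26140836864 * e 8 + (-14162558976) * e 9 + 4601472000 * e 10 by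
    linear_combination 81981498072 * z.ge + 22052535720 * g1 + 36648981228 * g2 + 63206637528 * l3 + 51196159392 * h4 + 16877372352 * l5 + 15536598720 * l6 + 30055486848 * h7 + 26140836864 * l8 + 14162558976 * h9 + 4601472000 * l10) (mul_nonneg (pow_nonneg p 2) (pow_nonneg q 9))
  have b3 := mul_nonneg (show 0 ≤ 267478761632 * e 0 + (-133848077832) * e 1 + (-45695746008) * e 2 + 158224416264 * e 3 + (-156158855296) * e 4 + 70820736192 * e 5 + 26134579328 * e 6 + (-77794209408) * e 7 + 73671426048 * e 8 + (-41485000704) * e 9 + 13755525120 * e 10 by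
    linear_combination 267478761632 * z.ge + 133848077832 * g1 + 45695746008 * g2 + 158224416264 * l3 + 156158855296 * h4 + 70820736192 * l5 + 26134579328 * l6 + 77794209408 * h7 + 73671426048 * l8 + 41485000704 * h9 + 13755525120 * l10) (mul_nonneg (pow_nonneg p 3) (pow_nonneg q 8))
  have b4 := mul_nonneg (show 0 ≤ 503872170080 * e 0 + (-354938695968) * e 1 + 24772936080 * e 2 + 242959019424 * e 3 + (-301016000176) * e 4 + 170094363680 * e 5 + 16926314432 * e 6 + (-132539341440) * e 7 + 138116021760 * e 8 + (-80974427136) * e 9 + 27413268480 * e 10 by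
    linear_combination 503872170080 * z.ge + 354938695968 * g1 + 24772936080 * l2 + 242959019424 * l3 + 301016000176 * h4 + 170094363680 * l5 + 16926314432 * l6 + 132539341440 * h7 + 138116021760 * l8 + 80974427136 * h9 + 27413268480 * l10) (mul_nonneg (pow_nonneg p 4) (pow_nonneg q 7))
  have b5 := mul_nonneg (show 0 ≤ 587368426176 * e 0 + (-553007885472) * e 1 + 169230591840 * e 2 + 233003938176 * e 3 + (-388796454432) * e 4 + 263692880544 * e 5 + (-18542104320) * e 6 + (-155578340736) * e 7 + 180828060672 * e 8 + (-110584083456) * e 9 + 38241681408 * e 10 by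
    linear_combination 587368426176 * z.ge + 553007885472 * g1 + 169230591840 * l2 + 233003938176 * l3 + 388796454432 * h4 + 263692880544 * l5 + 18542104320 * h6 + 155578340736 * h7 + 180828060672 * l8 + 110584083456 * h9 + 38241681408 * l10) (mul_nonneg (pow_nonneg p 5) (pow_nonneg q 6))
  have b6 := mul_nonneg (show 0 ≤ 426386761024 * e 0 + (-552024561536) * e 1 + 270854468736 * e 2 + 129398773888 * e 3 + (-344594865152) * e 4 + 277186119552 * e 5 + (-54124875968) * e 6 + (-127812521088) * e 7 + 168674601984 * e 8 + (-107817658368) * e 9 + 38104786944 * e 10 by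
    linear_combination 426386761024 * z.ge + 552024561536 * g1 + 270854468736 * l2 + 129398773888 * l3 + 344594865152 * h4 + 277186119552 * l5 + 54124875968 * h6 + 127812521088 * h7 + 168674601984 * l8 + 107817658368 * h9 + 38104786944 * l10) (mul_nonneg (pow_nonneg p 6) (pow_nonneg q 5))
  have b7 := mul_nonneg (show 0 ≤ 178934059648 * e 0 + (-361817060480) * e 1 + 242085902848 * e 2 + 24786565120 * e 3 + (-209399648000) * e 4 + 200437758592 * e 5 + (-59722728320) * e 6 + (-72983668608) * e 7 + 112071266304 * e 8 + (-75046373376) * e 9 + 27119923200 * e 10 by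
    linear_combination 178934059648 * z.ge + 361817060480 * g1 + 242085902848 * l2 + 24786565120 * l3 + 209399648000 * h4 + 200437758592 * l5 + 59722728320 * h6 + 72983668608 * h7 + 112071266304 * l8 + 75046373376 * h9 + 27119923200 * l10) (mul_nonneg (pow_nonneg p 7) (pow_nonneg q 4))
  have b8 := mul_nonneg (show 0 ≤ 29125851648 * e 0 + (-153596057088) * e 1 + 134147251968 * e 2 + (-17023268352) * e 3 + (-85015089408) * e 4 + 98492746752 * e 5 + (-38406772992) * e 6 + (-28068668928) * e 7 + 51964747008 * e 8 + (-36544955904) * e 9 + 13511070720 * e 10 by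
    linear_combination 29125851648 * z.ge + 153596057088 * g1 + 134147251968 * l2 + 17023268352 * h3 + 85015089408 * h4 + 98492746752 * l5 + 38406772992 * h6 + 28068668928 * h7 + 51964747008 * l8 + 36544955904 * h9 + 13511070720 * l10) (mul_nonneg (pow_nonneg p 8) (pow_nonneg q 3))
  have b9 := mul_nonneg (show 0 ≤ (-7797355520) * e 0 + (-39920604672) * e 1 + 45815616000 * e 2 + (-13788665856) * e 3 + (-21677991424) * e 4 + 31465344000 * e 5 + (-15049788928) * e 6 + (-6783165440) * e 7 + 16009152000 * e 8 + (-11857204736) * e 9 + 4487393280 * e 10 by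
    linear_combination 7797355520 * z.le + 39920604672 * g1 + 45815616000 * l2 + 13788665856 * h3 + 21677991424 * h4 + 31465344000 * l5 + 15049788928 * h6 + 6783165440 * h7 + 16009152000 * l8 + 11857204736 * h9 + 4487393280 * l10) (mul_nonneg (pow_nonneg p 9) (pow_nonneg q 2))
  have b10 := mul_nonneg (show 0 ≤ (-4333011968) * e 0 + (-5555595264) * e 1 + 8844589056 * e 2 + (-4026273792) * e 3 + (-3037017088) * e 4 + 5896392704 * e 5 + (-3350895616) * e 6 + (-887078912) * e 7 + 2948196352 * e 8 + (-2306877440) * e 9 + 894219264 * e 10 by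
    linear_combination 4333011968 * z.le + 5555595264 * g1 + 8844589056 * l2 + 4026273792 * h3 + 3037017088 * h4 + 5896392704 * l5 + 3350895616 * h6 + 887078912 * h7 + 2948196352 * l8 + 2306877440 * h9 + 894219264 * l10) (mul_nonneg (pow_nonneg p 10) (pow_nonneg q 1))
  have b11 := mul_nonneg (show 0 ≤ (-572516352) * e 0 + (-287643648) * e 1 + 737280000 * e 2 + (-449636352) * e 3 + (-164763648) * e 4 + 491520000 * e 5 + (-326756352) * e 6 + (-41883648) * e 7 + 245760000 * e 8 + (-203876352) * e 9 + 80996352 * e 10 by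
    linear_combination 572516352 * z.le + 287643648 * g1 + 737280000 * l2 + 449636352 * h3 + 164763648 * h4 + 491520000 * l5 + 326756352 * h6 + 41883648 * h7 + 245760000 * l8 + 203876352 * h9 + 80996352 * l10) (mul_nonneg (pow_nonneg p 11) (pow_nonneg q 0))
  refine nonneg_of_mul_nonneg_right ((add_nonneg (add_nonneg (add_nonneg (add_nonneg (add_nonneg (add_nonneg (add_nonneg (add_nonneg (add_nonneg (add_nonneg (add_nonneg b0 b1) b2) b3) b4) b5) b6) b7) b8) b9) b10) b11).trans_eq ?_) (show (0 : ℝ) < (625 / 128) by norm_num)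
  simp only [RR, RD, Finset.sum_range_succ, Finset.sum_range_zero, Nat.reduceSub, uu1, du1, uu2, du2, uu3, du3, uu4, du4, uu5, du5, uu6, du6, uu7, du7, uu8, du8, uu9, du9, uu10, du10, uu11, du11]
  ring

theorem Z11_3 {e : ℕ → ℝ} (E : Box e) {x : ℝ} (h1 : (-1 / 2) ≤ x) (h2 : x ≤ 0) :
    0 ≤ 3 * RR e 11 x - 2 * (1 - x) * RD e 11 x + (3183 / 5000) * ((1 - x) * RR e 11 x) := by
  obtain ⟨z, l1, g1, l2, g2, l3, h3, l4, h4, l5, h5, l6, h6, l7, h7, l8, h8, l9, h9, l10, h10, l11, h11, l12, h12, l13, h13⟩ := E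
  have p := sub_nonneg.mpr h1
  have q := sub_nonneg.mpr h2
  have b0 := mul_nonneg (show 0 ≤ (-279549) * e 0 + (-140451) * e 1 + 360000 * e 2 + (-219549) * e 3 + (-80451) * e 4 + 240000 * e 5 + (-159549) * e 6 + (-20451) * e 7 + 120000 * e 8 + (-99549) * e 9 + 39549 * e 10 by
    linear_combination 279549 * z.le + 140451 * g1 + 360000 * l2 + 219549 * h3 + 80451 * h4 + 240000 * l5 + 159549 * h6 + 20451 * h7 + 120000 * l8 + 99549 * h9 + 39549 * l10) (mul_nonneg (pow_nonneg p 0) (pow_nonneg q 11))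
  have b1 := mul_nonneg (show 0 ≤ (-4993660) * e 0 + 790503 * e 1 + 3242706 * e 2 + (-3313209) * e 3 + 310954 * e 4 + 2161804 * e 5 + (-1992758) * e 6 + 191405 * e 7 + 1080902 * e 8 + (-1032307) * e 9 + 431856 * e 10 by
    linear_combination 4993660 * z.le + 790503 * l1 + 3242706 * l2 + 3313209 * h3 + 310954 * l4 + 2161804 * l5 + 1992758 * h6 + 191405 * l7 + 1080902 * l8 + 1032307 * h9 + 431856 * l10) (mul_nonneg (pow_nonneg p 1) (pow_nonneg q 10))
  have b2 := mul_nonneg (show 0 ≤ (-26662255) * e 0 + 15268404 * e 1 + 8564805 * e 2 + (-17650503) * e 3 + 6812038 * e 4 + 7509870 * e 5 + (-10200104) * e 6 + 2617025 * e 7 + 4294935 * e 8 + (-4851058) * e 9 + 2143365 * e 10 by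
    linear_combination 26662255 * z.le + 15268404 * l1 + 8564805 * l2 + 17650503 * h3 + 6812038 * l4 + 7509870 * l5 + 10200104 * h6 + 2617025 * l7 + 4294935 * l8 + 4851058 * h9 + 2143365 * l10) (mul_nonneg (pow_nonneg p 2) (pow_nonneg q 9))
  have b3 := mul_nonneg (show 0 ≤ (-56612238) * e 0 + 66368586 * e 1 + (-2258898) * e 2 + (-46307589) * e 3 + 31669644 * e 4 + 11698578 * e 5 + (-29100156) * e 6 + 11674683 * e 7 + 9810642 * e 8 + (-13631292) * e 9 + 6382350 * e 10 by
    linear_combination 56612238 * z.le + 66368586 * l1 + 2258898 * g2 + 46307589 * h3 + 31669644 * l4 + 11698578 * l5 + 29100156 * h6 + 11674683 * l7 + 9810642 * l8 + 13631292 * h9 + 6382350 * l10) (mul_nonneg (pow_nonneg p 3) (pow_nonneg q 8))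
  have b4 := mul_nonneg (show 0 ≤ (-29314381) * e 0 + 134672333 * e 1 + (-54346816) * e 2 + (-65226514) * e 3 + 74982584 * e 4 + 2532941 * e 5 + (-51945013) * e 6 + 28898811 * e 7 + 13975716 * e 8 + (-25437918) * e 9 + 12669210 * e 10 by
    linear_combination 29314381 * z.le + 134672333 * l1 + 54346816 * g2 + 65226514 * h3 + 74982584 * l4 + 2532941 * l5 + 51945013 * h6 + 28898811 * l7 + 13975716 * l8 + 25437918 * h9 + 12669210 * l10) (mul_nonneg (pow_nonneg p 4) (pow_nonneg q 7))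
  have b5 := mul_nonneg (show 0 ≤ 76703060 * e 0 + 143031371 * e 1 + (-121833234) * e 2 + (-43643956) * e 3 + 106641422 * e 4 + (-21943893) * e 5 + (-60855100) * e 6 + 45587241 * e 7 + 12357156 * e 8 + (-33085290) * e 9 + 17603208 * e 10 by
    linear_combination 76703060 * z.ge + 143031371 * l1 + 121833234 * g2 + 43643956 * h3 + 106641422 * l4 + 21943893 * h5 + 60855100 * h6 + 45587241 * l7 + 12357156 * l8 + 33085290 * h9 + 17603208 * l10) (mul_nonneg (pow_nonneg p 5) (pow_nonneg q 6))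
  have b6 := mul_nonneg (show 0 ≤ 153387423 * e 0 + 70825734 * e 1 + (-137782983) * e 2 + 3549834 * e 3 + 96104961 * e 4 + (-42086946) * e 5 + (-47144337) * e 6 + 48367935 * e 7 + 5834346 * e 8 + (-30584232) * e 9 + 17469522 * e 10 by
    linear_combination 153387423 * z.ge + 70825734 * l1 + 137782983 * g2 + 3549834 * l3 + 96104961 * l4 + 42086946 * h5 + 47144337 * h6 + 48367935 * l7 + 5834346 * l8 + 30584232 * h9 + 17469522 * l10) (mul_nonneg (pow_nonneg p 6) (pow_nonneg q 5))
  have b7 := mul_nonneg (show 0 ≤ 124364050 * e 0 + (-2710320) * e 1 + (-90418170) * e 2 + 30572922 * e 3 + 54883270 * e 4 + (-40059080) * e 5 + (-23344814) * e 6 + 35062905 * e 7 + (-8100) * e 8 + (-20078508) * e 9 + 12382740 * e 10 by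
    linear_combination 124364050 * z.ge + 2710320 * g1 + 90418170 * g2 + 30572922 * l3 + 54883270 * l4 + 40059080 * h5 + 23344814 * h6 + 35062905 * l7 + 8100 * h8 + 20078508 * h9 + 12382740 * l10) (mul_nonneg (pow_nonneg p 7) (pow_nonneg q 4))
  have b8 := mul_nonneg (show 0 ≤ 52613530 * e 0 + (-22298265) * e 1 + (-34361145) * e 2 + 24896808 * e 3 + 18799237 * e 4 + (-22789887) * e 5 + (-6567806) * e 6 + 17153868 * e 7 + (-1853148) * e 8 + (-9165117) * e 9 + 6143625 * e 10 by
    linear_combination 52613530 * z.ge + 22298265 * g1 + 34361145 * g2 + 24896808 * l3 + 18799237 * l4 + 22789887 * h5 + 6567806 * h6 + 17153868 * l7 + 1853148 * h8 + 9165117 * h9 + 6143625 * l10) (mul_nonneg (pow_nonneg p 8) (pow_nonneg q 3))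
  have b9 := mul_nonneg (show 0 ≤ 11113530 * e 0 + (-11434215) * e 1 + (-6731700) * e 2 + 9867372 * e 3 + 3226236 * e 4 + (-7820529) * e 5 + (-597138) * e 6 + 5413686 * e 7 + (-1155594) * e 8 + (-2766843) * e 9 + 2031960 * e 10 by
    linear_combination 11113530 * z.ge + 11434215 * g1 + 6731700 * g2 + 9867372 * l3 + 3226236 * l4 + 7820529 * h5 + 597138 * h6 + 5413686 * l7 + 1155594 * h8 + 2766843 * h9 + 2031960 * l10) (mul_nonneg (pow_nonneg p 9) (pow_nonneg q 2))
  have b10 := mul_nonneg (show 0 ≤ 796791 * e 0 + (-2481830) * e 1 + (-396791) * e 2 + 1985464 * e 3 + 76791 * e 4 + (-1489098) * e 5 + 163209 * e 6 + 992732 * e 7 + (-323209) * e 8 + (-496366) * e 9 + 403209 * e 10 by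
    linear_combination 796791 * z.ge + 2481830 * g1 + 396791 * g2 + 1985464 * l3 + 76791 * l4 + 1489098 * h5 + 163209 * l6 + 992732 * l7 + 323209 * h8 + 496366 * h9 + 403209 * l10) (mul_nonneg (pow_nonneg p 10) (pow_nonneg q 1))
  have b11 := mul_nonneg (show 0 ≤ (-36366) * e 0 + (-200000) * e 1 + 36366 * e 2 + 160000 * e 3 + (-36366) * e 4 + (-120000) * e 5 + 36366 * e 6 + 80000 * e 7 + (-36366) * e 8 + (-40000) * e 9 + 36366 * e 10 by
    linear_combination 36366 * z.le + 200000 * g1 + 36366 * l2 + 160000 * l3 + 36366 * h4 + 120000 * h5 + 36366 * l6 + 80000 * l7 + 36366 * h8 + 40000 * h9 + 36366 * l10) (mul_nonneg (pow_nonneg p 11) (pow_nonneg q 0))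
  refine nonneg_of_mul_nonneg_right ((add_nonneg (add_nonneg (add_nonneg (add_nonneg (add_nonneg (add_nonneg (add_nonneg (add_nonneg (add_nonneg (add_nonneg (add_nonneg b0 b1) b2) b3) b4) b5) b6) b7) b8) b9) b10) b11).trans_eq ?_) (show (0 : ℝ) < (625 / 128) by norm_num)
  simp only [RR, RD, Finset.sum_range_succ, Finset.sum_range_zero, Nat.reduceSub, uu1, du1, uu2, du2, uu3, du3, uu4, du4, uu5, du5, uu6, du6, uu7, du7, uu8, du8, uu9, du9, uu10, du10, uu11, du11]
  ring

theorem R11 {e : ℕ → ℝ} (E : Box e) : ∀ x ∈ Icc (-1 : ℝ) 1, 0 ≤ RR e 11 x := fun _ hx =>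
  (le_total _ 0).elim (R11_0 E hx.1) fun a0 => (le_total _ (1 / 2)).elim (R11_1 E a0) fun a1 => R11_2 E a1 hx.2

theorem Z11 {e : ℕ → ℝ} (E : Box e) : ∀ x ∈ Icc (-1 : ℝ) 0, 0 ≤ 3 * RR e 11 x - 2 * (1 - x) * RD e 11 x + (3183 / 5000) * ((1 - x) * RR e 11 x) := fun _ hx =>
  (le_total _ (-7 / 8)).elim (Z11_0 E hx.1) fun a0 => (le_total _ (-3 / 4)).elim (Z11_1 E a0) fun a1 => (le_total _ (-1 / 2)).elim (Z11_2 E a1) fun a2 => Z11_3 E a2 hx.2

end Pool.Agent.P.BSR
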