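import Pool.Agent.P.MP_3df8df_an.RNumA
import Pool.Agent.P.MP_3df8df_an.RNumB
import Pool.Agent.P.MP_3df8df_an.RNumC

/-!
The function of Barnard and Suffridge is extremal for the even coefficients up to order fourteen.
-/

set_option autoImplicit false

namespace Pool.Agent.P.BSR

open Set Pool.Agent.P.MP_3df8df_an
open scoped Real

theorem c_bounds : (6366197 / 10000000 : ℝ) ≤ 2 / π ∧ 2 / π ≤ (6366199 / 10000000 : ℝ) := by
  rw [le_div_iff₀ Real.pi_pos, div_le_iff₀ Real.pi_pos]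
  constructor <;> linarith [Real.pi_gt_d20, Real.pi_lt_d20]

theorem greatest' {N : ℕ} (hN : Odd N) (h2 : N / 2 * eta (2 / π) 1 ≤ eta (2 / π) N)
    (hR : ∀ x ∈ Icc (-1 : ℝ) 1, 0 ≤ RR (eta (2 / π)) N x)
    (hZ : ∀ x ∈ Icc (-1 : ℝ) 0, 0 ≤ 3 * RR (eta (2 / π)) N x - 2 * (1 - x) * RD (eta (2 / π)) N x +
      3183 / 5000 * ((1 - x) * RR (eta (2 / π)) N x)) :
    IsGreatest {x : ℝ | ∃ f, InSR f ∧ x = ‖coeff f (N + 1)‖}
      (‖iteratedDeriv N bsd 0‖ / (N + 1).factorial) := by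
  have E := box c_bounds.1 c_bounds.2
  refine greatest hN (fun k _ => bsd_coeff k) E.z (by linarith [E.l1]) h2 hR fun x hx => ?_
  have := mul_le_mul_of_nonneg_right (show 3183 / 5000 ≤ 2 / π by linarith [c_bounds.1])
    (mul_nonneg (show 0 ≤ 1 - x by linarith [hx.2]) (hR x ⟨hx.1, by linarith [hx.2]⟩))
  linarith [hZ x hx]

theorem even_case {n : ℕ} (he : Even n) (h1 : 4 ≤ n) (h2 : n ≤ 14) :
    IsGreatest {x : ℝ | ∃ f, InSR f ∧ x = ‖coeff f n‖}
      (‖iteratedDeriv (n - 1) bsd 0‖ / n.factorial) := by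
  have E := box c_bounds.1 c_bounds.2
  have := E.h1
  obtain ⟨m, rfl⟩ := he
  rcases (by omega : m = 2 ∨ m = 3 ∨ m = 4 ∨ m = 5 ∨ m = 6 ∨ m = 7) with h | h | h | h | h | h <;>
    subst h
  · exact greatest' (N := 3) (by decide) (by push_cast; linarith [E.l3]) (R3 E) (Z3 E)
  · exact greatest' (N := 5) (by decide) (by push_cast; linarith [E.l5]) (R5 E) (Z5 E)
  · exact greatest' (N := 7) (by decide) (by push_cast; linarith [E.l7]) (R7 E) (Z7 E)
  · exact greatest' (N := 9) (by decide) (by push_cast; linarith [E.l9]) (R9 E) (Z9 E)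
  · exact greatest' (N := 11) (by decide) (by push_cast; linarith [E.l11]) (R11 E) (Z11 E)
  · exact greatest' (N := 13) (by decide) (by push_cast; linarith [E.l13]) (R13 E) (Z13 E)

end Pool.Agent.P.BSR
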