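import Pool.Agent.P.MP_3df8df_an.RBox

/-!
Positivity of the certificates (Bernstein forms on subintervals), first part.
-/

set_option autoImplicit false

namespace Pool.Agent.P.BSR

open Set

theorem R3_0 {e : ℕ → ℝ} (E : Box e) {x : ℝ} (h1 : (-1) ≤ x) (h2 : x ≤ 1) :
    0 ≤ RR e 3 x := by
  obtain ⟨z, l1, g1, l2, g2, l3, h3, l4, h4, l5, h5, l6, h6, l7, h7, l8, h8, l9, h9, l10, h10, l11, h11, l12, h12, l13, h13⟩ := E
  have p := sub_nonneg.mpr h1
  have q := sub_nonneg.mpr h2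
  have b0 := mul_nonneg (show 0 ≤ 3 * e 0 + (-2) * e 1 + 1 * e 2 by
    linear_combination 3 * z.ge + 2 * g1 + 1 * l2) (mul_nonneg (pow_nonneg p 0) (pow_nonneg q 2))
  have b1 := mul_nonneg (show 0 ≤ (-10) * e 0 + 0 * e 1 + 2 * e 2 by
    linear_combination 10 * z.le + 0 * l1 + 2 * l2) (mul_nonneg (pow_nonneg p 1) (pow_nonneg q 1))
  have b2 := mul_nonneg (show 0 ≤ 3 * e 0 + 2 * e 1 + 1 * e 2 by
    linear_combination 3 * z.ge + 2 * l1 + 1 * l2) (mul_nonneg (pow_nonneg p 2) (pow_nonneg q 0))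
  refine nonneg_of_mul_nonneg_right ((add_nonneg (add_nonneg b0 b1) b2).trans_eq ?_) (show (0 : ℝ) < 4 by norm_num)
  simp only [RR, Finset.sum_range_succ, Finset.sum_range_zero, Nat.reduceSub, uu1, uu2, uu3]
  ring

theorem Z3_0 {e : ℕ → ℝ} (E : Box e) {x : ℝ} (h1 : (-1) ≤ x) (h2 : x ≤ 0) :
    0 ≤ 3 * RR e 3 x - 2 * (1 - x) * RD e 3 x + (3183 / 5000) * ((1 - x) * RR e 3 x) := by
  obtain ⟨z, l1, g1, l2, g2, l3, h3, l4, h4, l5, h5, l6, h6, l7, h7, l8, h8, l9, h9, l10, h10, l11, h11, l12, h12, l13, h13⟩ := E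
  have p := sub_nonneg.mpr h1
  have q := sub_nonneg.mpr h2
  have b0 := mul_nonneg (show 0 ≤ 224098 * e 0 + (-82732) * e 1 + 21366 * e 2 by
    linear_combination 224098 * z.ge + 82732 * g1 + 21366 * l2) (mul_nonneg (pow_nonneg p 0) (pow_nonneg q 3))
  have b1 := mul_nonneg (show 0 ≤ 251817 * e 0 + (-179098) * e 1 + 60915 * e 2 by
    linear_combination 251817 * z.ge + 179098 * g1 + 60915 * l2) (mul_nonneg (pow_nonneg p 1) (pow_nonneg q 2))
  have b2 := mul_nonneg (show 0 ≤ 22268 * e 0 + (-116366) * e 1 + 57732 * e 2 by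
    linear_combination 22268 * z.ge + 116366 * g1 + 57732 * l2) (mul_nonneg (pow_nonneg p 2) (pow_nonneg q 1))
  have b3 := mul_nonneg (show 0 ≤ (-18183) * e 0 + (-20000) * e 1 + 18183 * e 2 by
    linear_combination 18183 * z.le + 20000 * g1 + 18183 * l2) (mul_nonneg (pow_nonneg p 3) (pow_nonneg q 0))
  refine nonneg_of_mul_nonneg_right ((add_nonneg (add_nonneg (add_nonneg b0 b1) b2) b3).trans_eq ?_) (show (0 : ℝ) < 5000 by norm_num)
  simp only [RR, RD, Finset.sum_range_succ, Finset.sum_range_zero, Nat.reduceSub, uu1, du1, uu2, du2, uu3, du3]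
  ring

theorem R3 {e : ℕ → ℝ} (E : Box e) : ∀ x ∈ Icc (-1 : ℝ) 1, 0 ≤ RR e 3 x := fun _ hx =>
  R3_0 E hx.1 hx.2

theorem Z3 {e : ℕ → ℝ} (E : Box e) : ∀ x ∈ Icc (-1 : ℝ) 0, 0 ≤ 3 * RR e 3 x - 2 * (1 - x) * RD e 3 x + (3183 / 5000) * ((1 - x) * RR e 3 x) := fun _ hx =>
  Z3_0 E hx.1 hx.2

theorem R5_0 {e : ℕ → ℝ} (E : Box e) {x : ℝ} (h1 : (-1) ≤ x) (h2 : x ≤ 0) :
    0 ≤ RR e 5 x := by
  obtain ⟨z, l1, g1, l2, g2, l3, h3, l4, h4, l5, h5, l6, h6, l7, h7, l8, h8, l9, h9, l10, h10, l11, h11, l12, h12, l13, h13⟩ := E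
  have p := sub_nonneg.mpr h1
  have q := sub_nonneg.mpr h2
  have b0 := mul_nonneg (show 0 ≤ 5 * e 0 + (-4) * e 1 + 3 * e 2 + (-2) * e 3 + 1 * e 4 by
    linear_combination 5 * z.ge + 4 * g1 + 3 * l2 + 2 * h3 + 1 * l4) (mul_nonneg (pow_nonneg p 0) (pow_nonneg q 4))
  have b1 := mul_nonneg (show 0 ≤ (-20) * e 0 + 4 * e 1 + 4 * e 2 + (-6) * e 3 + 4 * e 4 by
    linear_combination 20 * z.le + 4 * l1 + 4 * l2 + 6 * h3 + 4 * l4) (mul_nonneg (pow_nonneg p 1) (pow_nonneg q 3))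
  have b2 := mul_nonneg (show 0 ≤ (-6) * e 0 + 12 * e 1 + (-2) * e 2 + (-6) * e 3 + 6 * e 4 by
    linear_combination 6 * z.le + 12 * l1 + 2 * g2 + 6 * h3 + 6 * l4) (mul_nonneg (pow_nonneg p 2) (pow_nonneg q 2))
  have b3 := mul_nonneg (show 0 ≤ 4 * e 0 + 4 * e 1 + (-4) * e 2 + (-2) * e 3 + 4 * e 4 by
    linear_combination 4 * z.ge + 4 * l1 + 4 * g2 + 2 * h3 + 4 * l4) (mul_nonneg (pow_nonneg p 3) (pow_nonneg q 1))
  have b4 := mul_nonneg (show 0 ≤ 1 * e 0 + 0 * e 1 + (-1) * e 2 + 0 * e 3 + 1 * e 4 by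
    linear_combination 1 * z.ge + 0 * l1 + 1 * g2 + 0 * l3 + 1 * l4) (mul_nonneg (pow_nonneg p 4) (pow_nonneg q 0))
  refine nonneg_of_mul_nonneg_right ((add_nonneg (add_nonneg (add_nonneg (add_nonneg b0 b1) b2) b3) b4).trans_eq ?_) (show (0 : ℝ) < 1 by norm_num)
  simp only [RR, Finset.sum_range_succ, Finset.sum_range_zero, Nat.reduceSub, uu1, uu2, uu3, uu4, uu5]
  ring

theorem R5_1 {e : ℕ → ℝ} (E : Box e) {x : ℝ} (h1 : 0 ≤ x) (h2 : x ≤ 1) :
    0 ≤ RR e 5 x := by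
  obtain ⟨z, l1, g1, l2, g2, l3, h3, l4, h4, l5, h5, l6, h6, l7, h7, l8, h8, l9, h9, l10, h10, l11, h11, l12, h12, l13, h13⟩ := E
  have p := sub_nonneg.mpr h1
  have q := sub_nonneg.mpr h2
  have b0 := mul_nonneg (show 0 ≤ 1 * e 0 + 0 * e 1 + (-1) * e 2 + 0 * e 3 + 1 * e 4 by
    linear_combination 1 * z.ge + 0 * l1 + 1 * g2 + 0 * l3 + 1 * l4) (mul_nonneg (pow_nonneg p 0) (pow_nonneg q 4))
  have b1 := mul_nonneg (show 0 ≤ 4 * e 0 + (-4) * e 1 + (-4) * e 2 + 2 * e 3 + 4 * e 4 by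
    linear_combination 4 * z.ge + 4 * g1 + 4 * g2 + 2 * l3 + 4 * l4) (mul_nonneg (pow_nonneg p 1) (pow_nonneg q 3))
  have b2 := mul_nonneg (show 0 ≤ (-6) * e 0 + (-12) * e 1 + (-2) * e 2 + 6 * e 3 + 6 * e 4 by
    linear_combination 6 * z.le + 12 * g1 + 2 * g2 + 6 * l3 + 6 * l4) (mul_nonneg (pow_nonneg p 2) (pow_nonneg q 2))
  have b3 := mul_nonneg (show 0 ≤ (-20) * e 0 + (-4) * e 1 + 4 * e 2 + 6 * e 3 + 4 * e 4 by
    linear_combination 20 * z.le + 4 * g1 + 4 * l2 + 6 * l3 + 4 * l4) (mul_nonneg (pow_nonneg p 3) (pow_nonneg q 1))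
  have b4 := mul_nonneg (show 0 ≤ 5 * e 0 + 4 * e 1 + 3 * e 2 + 2 * e 3 + 1 * e 4 by
    linear_combination 5 * z.ge + 4 * l1 + 3 * l2 + 2 * l3 + 1 * l4) (mul_nonneg (pow_nonneg p 4) (pow_nonneg q 0))
  refine nonneg_of_mul_nonneg_right ((add_nonneg (add_nonneg (add_nonneg (add_nonneg b0 b1) b2) b3) b4).trans_eq ?_) (show (0 : ℝ) < 1 by norm_num)
  simp only [RR, Finset.sum_range_succ, Finset.sum_range_zero, Nat.reduceSub, uu1, uu2, uu3, uu4, uu5]
  ring

theorem Z5_0 {e : ℕ → ℝ} (E : Box e) {x : ℝ} (h1 : (-1) ≤ x) (h2 : x ≤ (-1 / 2)) :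
    0 ≤ 3 * RR e 5 x - 2 * (1 - x) * RD e 5 x + (3183 / 5000) * ((1 - x) * RR e 5 x) := by
  obtain ⟨z, l1, g1, l2, g2, l3, h3, l4, h4, l5, h5, l6, h6, l7, h7, l8, h8, l9, h9, l10, h10, l11, h11, l12, h12, l13, h13⟩ := E
  have p := sub_nonneg.mpr h1
  have q := sub_nonneg.mpr h2
  have b0 := mul_nonneg (show 0 ≤ 1813660 * e 0 + (-970928) * e 1 + 448196 * e 2 + (-165464) * e 3 + 42732 * e 4 by
    linear_combination 1813660 * z.ge + 970928 * g1 + 448196 * l2 + 165464 * h3 + 42732 * l4) (mul_nonneg (pow_nonneg p 0) (pow_nonneg q 5))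
  have b1 := mul_nonneg (show 0 ≤ 4437745 * e 0 + (-3254588) * e 1 + 1820503 * e 2 + (-758222) * e 3 + 210477 * e 4 by
    linear_combination 4437745 * z.ge + 3254588 * g1 + 1820503 * l2 + 758222 * h3 + 210477 * l4) (mul_nonneg (pow_nonneg p 1) (pow_nonneg q 4))
  have b2 := mul_nonneg (show 0 ≤ 3335412 * e 0 + (-4077294) * e 1 + 2895516 * e 2 + (-1381431) * e 3 + 414588 * e 4 by
    linear_combination 3335412 * z.ge + 4077294 * g1 + 2895516 * l2 + 1381431 * h3 + 414588 * l4) (mul_nonneg (pow_nonneg p 2) (pow_nonneg q 3))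
  have b3 := mul_nonneg (show 0 ≤ 307667 * e 0 + (-2291804) * e 1 + 2242307 * e 2 + (-1249601) * e 3 + 408222 * e 4 by
    linear_combination 307667 * z.ge + 2291804 * g1 + 2242307 * l2 + 1249601 * h3 + 408222 * l4) (mul_nonneg (pow_nonneg p 3) (pow_nonneg q 2))
  have b4 := mul_nonneg (show 0 ≤ (-560026) * e 0 + (-518621) * e 1 + 839098 * e 2 + (-560477) * e 3 + 200928 * e 4 by
    linear_combination 560026 * z.le + 518621 * g1 + 839098 * l2 + 560477 * h3 + 200928 * l4) (mul_nonneg (pow_nonneg p 4) (pow_nonneg q 1))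
  have b5 := mul_nonneg (show 0 ≤ (-159549) * e 0 + (-20451) * e 1 + 120000 * e 2 + (-99549) * e 3 + 39549 * e 4 by
    linear_combination 159549 * z.le + 20451 * g1 + 120000 * l2 + 99549 * h3 + 39549 * l4) (mul_nonneg (pow_nonneg p 5) (pow_nonneg q 0))
  refine nonneg_of_mul_nonneg_right ((add_nonneg (add_nonneg (add_nonneg (add_nonneg (add_nonneg b0 b1) b2) b3) b4) b5).trans_eq ?_) (show (0 : ℝ) < (625 / 2) by norm_num)
  simp only [RR, RD, Finset.sum_range_succ, Finset.sum_range_zero, Nat.reduceSub, uu1, du1, uu2, du2, uu3, du3, uu4, du4, uu5, du5]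
  ring

theorem Z5_1 {e : ℕ → ℝ} (E : Box e) {x : ℝ} (h1 : (-1 / 2) ≤ x) (h2 : x ≤ 0) :
    0 ≤ 3 * RR e 5 x - 2 * (1 - x) * RD e 5 x + (3183 / 5000) * ((1 - x) * RR e 5 x) := by
  obtain ⟨z, l1, g1, l2, g2, l3, h3, l4, h4, l5, h5, l6, h6, l7, h7, l8, h8, l9, h9, l10, h10, l11, h11, l12, h12, l13, h13⟩ := E
  have p := sub_nonneg.mpr h1
  have q := sub_nonneg.mpr h2
  have b0 := mul_nonneg (show 0 ≤ (-159549) * e 0 + (-20451) * e 1 + 120000 * e 2 + (-99549) * e 3 + 39549 * e 4 by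
    linear_combination 159549 * z.le + 20451 * g1 + 120000 * l2 + 99549 * h3 + 39549 * l4) (mul_nonneg (pow_nonneg p 0) (pow_nonneg q 5))
  have b1 := mul_nonneg (show 0 ≤ (-1035464) * e 0 + 314111 * e 1 + 360902 * e 2 + (-435013) * e 3 + 194562 * e 4 by
    linear_combination 1035464 * z.le + 314111 * l1 + 360902 * l2 + 435013 * h3 + 194562 * l4) (mul_nonneg (pow_nonneg p 1) (pow_nonneg q 4))
  have b2 := mul_nonneg (show 0 ≤ (-1594085) * e 0 + 1039124 * e 1 + 329523 * e 2 + (-747745) * e 3 + 382758 * e 4 by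
    linear_combination 1594085 * z.le + 1039124 * l1 + 329523 * l2 + 747745 * h3 + 382758 * l4) (mul_nonneg (pow_nonneg p 2) (pow_nonneg q 3))
  have b3 := mul_nonneg (show 0 ≤ (-812706) * e 0 + 1137294 * e 1 + 19974 * e 2 + (-628647) * e 3 + 376392 * e 4 by
    linear_combination 812706 * z.le + 1137294 * l1 + 19974 * l2 + 628647 * h3 + 376392 * l4) (mul_nonneg (pow_nonneg p 3) (pow_nonneg q 2))
  have b4 := mul_nonneg (show 0 ≤ (-54987) * e 0 + 512732 * e 1 + (-105013) * e 2 + (-256366) * e 3 + 185013 * e 4 by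
    linear_combination 54987 * z.le + 512732 * l1 + 105013 * g2 + 256366 * h3 + 185013 * l4) (mul_nonneg (pow_nonneg p 4) (pow_nonneg q 1))
  have b5 := mul_nonneg (show 0 ≤ 36366 * e 0 + 80000 * e 1 + (-36366) * e 2 + (-40000) * e 3 + 36366 * e 4 by
    linear_combination 36366 * z.ge + 80000 * l1 + 36366 * g2 + 40000 * h3 + 36366 * l4) (mul_nonneg (pow_nonneg p 5) (pow_nonneg q 0))
  refine nonneg_of_mul_nonneg_right ((add_nonneg (add_nonneg (add_nonneg (add_nonneg (add_nonneg b0 b1) b2) b3) b4) b5).trans_eq ?_) (show (0 : ℝ) < (625 / 2) by norm_num)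
  simp only [RR, RD, Finset.sum_range_succ, Finset.sum_range_zero, Nat.reduceSub, uu1, du1, uu2, du2, uu3, du3, uu4, du4, uu5, du5]
  ring

theorem R5 {e : ℕ → ℝ} (E : Box e) : ∀ x ∈ Icc (-1 : ℝ) 1, 0 ≤ RR e 5 x := fun _ hx =>
  (le_total _ 0).elim (R5_0 E hx.1) fun a0 => R5_1 E a0 hx.2

theorem Z5 {e : ℕ → ℝ} (E : Box e) : ∀ x ∈ Icc (-1 : ℝ) 0, 0 ≤ 3 * RR e 5 x - 2 * (1 - x) * RD e 5 x + (3183 / 5000) * ((1 - x) * RR e 5 x) := fun _ hx =>
  (le_total _ (-1 / 2)).elim (Z5_0 E hx.1) fun a0 => Z5_1 E a0 hx.2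

theorem R7_0 {e : ℕ → ℝ} (E : Box e) {x : ℝ} (h1 : (-1) ≤ x) (h2 : x ≤ 0) :
    0 ≤ RR e 7 x := by
  obtain ⟨z, l1, g1, l2, g2, l3, h3, l4, h4, l5, h5, l6, h6, l7, h7, l8, h8, l9, h9, l10, h10, l11, h11, l12, h12, l13, h13⟩ := E
  have p := sub_nonneg.mpr h1
  have q := sub_nonneg.mpr h2
  have b0 := mul_nonneg (show 0 ≤ 7 * e 0 + (-6) * e 1 + 5 * e 2 + (-4) * e 3 + 3 * e 4 + (-2) * e 5 + 1 * e 6 by
    linear_combination 7 * z.ge + 6 * g1 + 5 * l2 + 4 * h3 + 3 * l4 + 2 * h5 + 1 * l6) (mul_nonneg (pow_nonneg p 0) (pow_nonneg q 6))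
  have b1 := mul_nonneg (show 0 ≤ (-70) * e 0 + 34 * e 1 + (-10) * e 2 + (-4) * e 3 + 10 * e 4 + (-10) * e 5 + 6 * e 6 by
    linear_combination 70 * z.le + 34 * l1 + 10 * g2 + 4 * h3 + 10 * l4 + 10 * h5 + 6 * l6) (mul_nonneg (pow_nonneg p 1) (pow_nonneg q 5))
  have b2 := mul_nonneg (show 0 ≤ 49 * e 0 + 36 * e 1 + (-41) * e 2 + 16 * e 3 + 9 * e 4 + (-20) * e 5 + 15 * e 6 by
    linear_combination 49 * z.ge + 36 * l1 + 41 * g2 + 16 * l3 + 9 * l4 + 20 * h5 + 15 * l6) (mul_nonneg (pow_nonneg p 2) (pow_nonneg q 4))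
  have b3 := mul_nonneg (show 0 ≤ 76 * e 0 + (-28) * e 1 + (-28) * e 2 + 32 * e 3 + (-4) * e 4 + (-20) * e 5 + 20 * e 6 by
    linear_combination 76 * z.ge + 28 * g1 + 28 * g2 + 32 * l3 + 4 * h4 + 20 * h5 + 20 * l6) (mul_nonneg (pow_nonneg p 3) (pow_nonneg q 3))
  have b4 := mul_nonneg (show 0 ≤ 9 * e 0 + (-30) * e 1 + 3 * e 2 + 20 * e 3 + (-11) * e 4 + (-10) * e 5 + 15 * e 6 by
    linear_combination 9 * z.ge + 30 * g1 + 3 * l2 + 20 * l3 + 11 * h4 + 10 * h5 + 15 * l6) (mul_nonneg (pow_nonneg p 4) (pow_nonneg q 2))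
  have b5 := mul_nonneg (show 0 ≤ (-6) * e 0 + (-6) * e 1 + 6 * e 2 + 4 * e 3 + (-6) * e 4 + (-2) * e 5 + 6 * e 6 by
    linear_combination 6 * z.le + 6 * g1 + 6 * l2 + 4 * l3 + 6 * h4 + 2 * h5 + 6 * l6) (mul_nonneg (pow_nonneg p 5) (pow_nonneg q 1))
  have b6 := mul_nonneg (show 0 ≤ (-1) * e 0 + 0 * e 1 + 1 * e 2 + 0 * e 3 + (-1) * e 4 + 0 * e 5 + 1 * e 6 by
    linear_combination 1 * z.le + 0 * l1 + 1 * l2 + 0 * l3 + 1 * h4 + 0 * l5 + 1 * l6) (mul_nonneg (pow_nonneg p 6) (pow_nonneg q 0))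
  refine nonneg_of_mul_nonneg_right ((add_nonneg (add_nonneg (add_nonneg (add_nonneg (add_nonneg (add_nonneg b0 b1) b2) b3) b4) b5) b6).trans_eq ?_) (show (0 : ℝ) < 1 by norm_num)
  simp only [RR, Finset.sum_range_succ, Finset.sum_range_zero, Nat.reduceSub, uu1, uu2, uu3, uu4, uu5, uu6, uu7]
  ring

theorem R7_1 {e : ℕ → ℝ} (E : Box e) {x : ℝ} (h1 : 0 ≤ x) (h2 : x ≤ 1) :
    0 ≤ RR e 7 x := by
  obtain ⟨z, l1, g1, l2, g2, l3, h3, l4, h4, l5, h5, l6, h6, l7, h7, l8, h8, l9, h9, l10, h10, l11, h11, l12, h12, l13, h13⟩ := E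
  have p := sub_nonneg.mpr h1
  have q := sub_nonneg.mpr h2
  have b0 := mul_nonneg (show 0 ≤ (-1) * e 0 + 0 * e 1 + 1 * e 2 + 0 * e 3 + (-1) * e 4 + 0 * e 5 + 1 * e 6 by
    linear_combination 1 * z.le + 0 * l1 + 1 * l2 + 0 * l3 + 1 * h4 + 0 * l5 + 1 * l6) (mul_nonneg (pow_nonneg p 0) (pow_nonneg q 6))
  have b1 := mul_nonneg (show 0 ≤ (-6) * e 0 + 6 * e 1 + 6 * e 2 + (-4) * e 3 + (-6) * e 4 + 2 * e 5 + 6 * e 6 by
    linear_combination 6 * z.le + 6 * l1 + 6 * l2 + 4 * h3 + 6 * h4 + 2 * l5 + 6 * l6) (mul_nonneg (pow_nonneg p 1) (pow_nonneg q 5))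
  have b2 := mul_nonneg (show 0 ≤ 9 * e 0 + 30 * e 1 + 3 * e 2 + (-20) * e 3 + (-11) * e 4 + 10 * e 5 + 15 * e 6 by
    linear_combination 9 * z.ge + 30 * l1 + 3 * l2 + 20 * h3 + 11 * h4 + 10 * l5 + 15 * l6) (mul_nonneg (pow_nonneg p 2) (pow_nonneg q 4))
  have b3 := mul_nonneg (show 0 ≤ 76 * e 0 + 28 * e 1 + (-28) * e 2 + (-32) * e 3 + (-4) * e 4 + 20 * e 5 + 20 * e 6 by
    linear_combination 76 * z.ge + 28 * l1 + 28 * g2 + 32 * h3 + 4 * h4 + 20 * l5 + 20 * l6) (mul_nonneg (pow_nonneg p 3) (pow_nonneg q 3))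
  have b4 := mul_nonneg (show 0 ≤ 49 * e 0 + (-36) * e 1 + (-41) * e 2 + (-16) * e 3 + 9 * e 4 + 20 * e 5 + 15 * e 6 by
    linear_combination 49 * z.ge + 36 * g1 + 41 * g2 + 16 * h3 + 9 * l4 + 20 * l5 + 15 * l6) (mul_nonneg (pow_nonneg p 4) (pow_nonneg q 2))
  have b5 := mul_nonneg (show 0 ≤ (-70) * e 0 + (-34) * e 1 + (-10) * e 2 + 4 * e 3 + 10 * e 4 + 10 * e 5 + 6 * e 6 by
    linear_combination 70 * z.le + 34 * g1 + 10 * g2 + 4 * l3 + 10 * l4 + 10 * l5 + 6 * l6) (mul_nonneg (pow_nonneg p 5) (pow_nonneg q 1))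
  have b6 := mul_nonneg (show 0 ≤ 7 * e 0 + 6 * e 1 + 5 * e 2 + 4 * e 3 + 3 * e 4 + 2 * e 5 + 1 * e 6 by
    linear_combination 7 * z.ge + 6 * l1 + 5 * l2 + 4 * l3 + 3 * l4 + 2 * l5 + 1 * l6) (mul_nonneg (pow_nonneg p 6) (pow_nonneg q 0))
  refine nonneg_of_mul_nonneg_right ((add_nonneg (add_nonneg (add_nonneg (add_nonneg (add_nonneg (add_nonneg b0 b1) b2) b3) b4) b5) b6).trans_eq ?_) (show (0 : ℝ) < 1 by norm_num)
  simp only [RR, Finset.sum_range_succ, Finset.sum_range_zero, Nat.reduceSub, uu1, uu2, uu3, uu4, uu5, uu6, uu7]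
  ring

theorem Z7_0 {e : ℕ → ℝ} (E : Box e) {x : ℝ} (h1 : (-1) ≤ x) (h2 : x ≤ (-3 / 4)) :
    0 ≤ 3 * RR e 7 x - 2 * (1 - x) * RD e 7 x + (3183 / 5000) * ((1 - x) * RR e 7 x) := by
  obtain ⟨z, l1, g1, l2, g2, l3, h3, l4, h4, l5, h5, l6, h6, l7, h7, l8, h8, l9, h9, l10, h10, l11, h11, l12, h12, l13, h13⟩ := E
  have p := sub_nonneg.mpr h1
  have q := sub_nonneg.mpr h2
  have b0 := mul_nonneg (show 0 ≤ 611727872 * e 0 + (-391218176) * e 1 + 232148480 * e 2 + (-124278784) * e 3 + 57369088 * e 4 + (-21179392) * e 5 + 5469696 * e 6 by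
    linear_combination 611727872 * z.ge + 391218176 * g1 + 232148480 * l2 + 124278784 * h3 + 57369088 * l4 + 21179392 * h5 + 5469696 * l6) (mul_nonneg (pow_nonneg p 0) (pow_nonneg q 7))
  have b1 := mul_nonneg (show 0 ≤ 2765597632 * e 0 + (-2023345280) * e 1 + 1328683840 * e 2 + (-767548160) * e 3 + 374673088 * e 4 + (-143833472) * e 5 + 38084160 * e 6 by
    linear_combination 2765597632 * z.ge + 2023345280 * g1 + 1328683840 * l2 + 767548160 * h3 + 374673088 * l4 + 143833472 * h5 + 38084160 * l6) (mul_nonneg (pow_nonneg p 1) (pow_nonneg q 6))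
  have b2 := mul_nonneg (show 0 ≤ 5008179840 * e 0 + (-4352790688) * e 1 + 3216057984 * e 2 + (-2020017600) * e 3 + 1046342528 * e 4 + (-418335456) * e 5 + 113641344 * e 6 by
    linear_combination 5008179840 * z.ge + 4352790688 * g1 + 3216057984 * l2 + 2020017600 * h3 + 1046342528 * l4 + 418335456 * h5 + 113641344 * l6) (mul_nonneg (pow_nonneg p 2) (pow_nonneg q 5))
  have b3 := mul_nonneg (show 0 ≤ 4482147872 * e 0 + (-4993184800) * e 1 + 4255889936 * e 2 + (-2934673760) * e 3 + 1619483472 * e 4 + (-675453920) * e 5 + 188383680 * e 6 by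
    linear_combination 4482147872 * z.ge + 4993184800 * g1 + 4255889936 * l2 + 2934673760 * h3 + 1619483472 * l4 + 675453920 * h5 + 188383680 * l6) (mul_nonneg (pow_nonneg p 3) (pow_nonneg q 4))
  have b4 := mul_nonneg (show 0 ≤ 1843727968 * e 0 + (-3233037024) * e 1 + 3312645472 * e 2 + (-2539750264) * e 3 + 1500052288 * e 4 + (-653851840) * e 5 + 187365120 * e 6 by
    linear_combination 1843727968 * z.ge + 3233037024 * g1 + 3312645472 * l2 + 2539750264 * h3 + 1500052288 * l4 + 653851840 * h5 + 187365120 * l6) (mul_nonneg (pow_nonneg p 4) (pow_nonneg q 3))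
  have b5 := mul_nonneg (show 0 ≤ 72944508 * e 0 + (-1132613400) * e 1 + 1508024388 * e 2 + (-1308016296) * e 3 + 831335840 * e 4 + (-379451712) * e 5 + 111807936 * e 6 by
    linear_combination 72944508 * z.ge + 1132613400 * g1 + 1508024388 * l2 + 1308016296 * h3 + 831335840 * l4 + 379451712 * h5 + 111807936 * l6) (mul_nonneg (pow_nonneg p 5) (pow_nonneg q 2))
  have b6 := mul_nonneg (show 0 ≤ (-185710056) * e 0 + (-176452302) * e 1 + 368445864 * e 2 + (-370726312) * e 3 + 255190976 * e 4 + (-122231392) * e 5 + 37065600 * e 6 by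
    linear_combination 185710056 * z.le + 176452302 * g1 + 368445864 * l2 + 370726312 * h3 + 255190976 * l4 + 122231392 * h5 + 37065600 * l6) (mul_nonneg (pow_nonneg p 6) (pow_nonneg q 1))
  have b7 := mul_nonneg (show 0 ≤ (-42767571) * e 0 + (-4354710) * e 1 + 36699636 * e 2 + (-44534744) * e 3 + 33462480 * e 4 + (-16858976) * e 5 + 5265984 * e 6 by
    linear_combination 42767571 * z.le + 4354710 * g1 + 36699636 * l2 + 44534744 * h3 + 33462480 * l4 + 16858976 * h5 + 5265984 * l6) (mul_nonneg (pow_nonneg p 7) (pow_nonneg q 0))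
  refine nonneg_of_mul_nonneg_right ((add_nonneg (add_nonneg (add_nonneg (add_nonneg (add_nonneg (add_nonneg (add_nonneg b0 b1) b2) b3) b4) b5) b6) b7).trans_eq ?_) (show (0 : ℝ) < (625 / 8) by norm_num)
  simp only [RR, RD, Finset.sum_range_succ, Finset.sum_range_zero, Nat.reduceSub, uu1, du1, uu2, du2, uu3, du3, uu4, du4, uu5, du5, uu6, du6, uu7, du7]
  ring

theorem Z7_1 {e : ℕ → ℝ} (E : Box e) {x : ℝ} (h1 : (-3 / 4) ≤ x) (h2 : x ≤ (-1 / 2)) :
    0 ≤ 3 * RR e 7 x - 2 * (1 - x) * RD e 7 x + (3183 / 5000) * ((1 - x) * RR e 7 x) := by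
  obtain ⟨z, l1, g1, l2, g2, l3, h3, l4, h4, l5, h5, l6, h6, l7, h7, l8, h8, l9, h9, l10, h10, l11, h11, l12, h12, l13, h13⟩ := E
  have p := sub_nonneg.mpr h1
  have q := sub_nonneg.mpr h2
  have b0 := mul_nonneg (show 0 ≤ (-42767571) * e 0 + (-4354710) * e 1 + 36699636 * e 2 + (-44534744) * e 3 + 33462480 * e 4 + (-16858976) * e 5 + 5265984 * e 6 by
    linear_combination 42767571 * z.le + 4354710 * g1 + 36699636 * l2 + 44534744 * h3 + 33462480 * l4 + 16858976 * h5 + 5265984 * l6) (mul_nonneg (pow_nonneg p 0) (pow_nonneg q 7))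
  have b1 := mul_nonneg (show 0 ≤ (-413035938) * e 0 + 115486362 * e 1 + 145349040 * e 2 + (-252760104) * e 3 + 213283744 * e 4 + (-113794272) * e 5 + 36658176 * e 6 by
    linear_combination 413035938 * z.le + 115486362 * l1 + 145349040 * l2 + 252760104 * h3 + 213283744 * l4 + 113794272 * h5 + 36658176 * l6) (mul_nonneg (pow_nonneg p 1) (pow_nonneg q 6))
  have b2 := mul_nonneg (show 0 ≤ (-1291010784) * e 0 + 619018584 * e 1 + 169443444 * e 2 + (-600219048) * e 3 + 579892448 * e 4 + (-328828992) * e 5 + 109363392 * e 6 by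
    linear_combination 1291010784 * z.le + 619018584 * l1 + 169443444 * l2 + 600219048 * h3 + 579892448 * l4 + 328828992 * h5 + 109363392 * l6) (mul_nonneg (pow_nonneg p 2) (pow_nonneg q 5))
  have b3 := mul_nonneg (show 0 ≤ (-1946599408) * e 0 + 1274722344 * e 1 + (-63255352) * e 2 + (-766562296) * e 3 + 871341952 * e 4 + (-527295040) * e 5 + 181253760 * e 6 by
    linear_combination 1946599408 * z.le + 1274722344 * l1 + 63255352 * g2 + 766562296 * h3 + 871341952 * l4 + 527295040 * h5 + 181253760 * l6) (mul_nonneg (pow_nonneg p 3) (pow_nonneg q 4))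
  have b4 := mul_nonneg (show 0 ≤ (-1586126352) * e 0 + 1360306112 * e 1 + (-323840400) * e 2 + (-560570208) * e 3 + 780931408 * e 4 + (-506711520) * e 5 + 180235200 * e 6 by
    linear_combination 1586126352 * z.le + 1360306112 * l1 + 323840400 * g2 + 560570208 * h3 + 780931408 * l4 + 506711520 * h5 + 180235200 * l6) (mul_nonneg (pow_nonneg p 4) (pow_nonneg q 3))
  have b5 := mul_nonneg (show 0 ≤ (-698597472) * e 0 + 799685824 * e 1 + (-307110624) * e 2 + (-228355392) * e 3 + 417122912 * e 4 + (-291778656) * e 5 + 107529984 * e 6 by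
    linear_combination 698597472 * z.le + 799685824 * l1 + 307110624 * g2 + 228355392 * h3 + 417122912 * l4 + 291778656 * h5 + 107529984 * l6) (mul_nonneg (pow_nonneg p 5) (pow_nonneg q 2))
  have b6 := mul_nonneg (show 0 ≤ (-148622656) * e 0 + 245644544 * e 1 + (-127741888) * e 2 + (-44971520) * e 3 + 122822272 * e 4 + (-93210752) * e 5 + 35639616 * e 6 by
    linear_combination 148622656 * z.le + 245644544 * l1 + 127741888 * g2 + 44971520 * h3 + 122822272 * l4 + 93210752 * h5 + 35639616 * l6) (mul_nonneg (pow_nonneg p 6) (pow_nonneg q 1))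
  have b7 := mul_nonneg (show 0 ≤ (-10297728) * e 0 + 30720000 * e 1 + (-20422272) * e 2 + (-2617728) * e 3 + 15360000 * e 4 + (-12742272) * e 5 + 5062272 * e 6 by
    linear_combination 10297728 * z.le + 30720000 * l1 + 20422272 * g2 + 2617728 * h3 + 15360000 * l4 + 12742272 * h5 + 5062272 * l6) (mul_nonneg (pow_nonneg p 7) (pow_nonneg q 0))
  refine nonneg_of_mul_nonneg_right ((add_nonneg (add_nonneg (add_nonneg (add_nonneg (add_nonneg (add_nonneg (add_nonneg b0 b1) b2) b3) b4) b5) b6) b7).trans_eq ?_) (show (0 : ℝ) < (625 / 8) by norm_num)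
  simp only [RR, RD, Finset.sum_range_succ, Finset.sum_range_zero, Nat.reduceSub, uu1, du1, uu2, du2, uu3, du3, uu4, du4, uu5, du5, uu6, du6, uu7, du7]
  ring

theorem Z7_2 {e : ℕ → ℝ} (E : Box e) {x : ℝ} (h1 : (-1 / 2) ≤ x) (h2 : x ≤ 0) :
    0 ≤ 3 * RR e 7 x - 2 * (1 - x) * RD e 7 x + (3183 / 5000) * ((1 - x) * RR e 7 x) := by
  obtain ⟨z, l1, g1, l2, g2, l3, h3, l4, h4, l5, h5, l6, h6, l7, h7, l8, h8, l9, h9, l10, h10, l11, h11, l12, h12, l13, h13⟩ := E
  have p := sub_nonneg.mpr h1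
  have q := sub_nonneg.mpr h2
  have b0 := mul_nonneg (show 0 ≤ (-80451) * e 0 + 240000 * e 1 + (-159549) * e 2 + (-20451) * e 3 + 120000 * e 4 + (-99549) * e 5 + 39549 * e 6 by
    linear_combination 80451 * z.le + 240000 * l1 + 159549 * g2 + 20451 * h3 + 120000 * l4 + 99549 * h5 + 39549 * l6) (mul_nonneg (pow_nonneg p 0) (pow_nonneg q 7))
  have b1 := mul_nonneg (show 0 ≤ 632758 * e 0 + 1201804 * e 1 + (-1354562) * e 2 + 273209 * e 3 + 600902 * e 4 + (-634111) * e 5 + 273660 * e 6 by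
    linear_combination 632758 * z.ge + 1201804 * l1 + 1354562 * g2 + 273209 * l3 + 600902 * l4 + 634111 * h5 + 273660 * l6) (mul_nonneg (pow_nonneg p 1) (pow_nonneg q 6))
  have b2 := mul_nonneg (show 0 ≤ 4763712 * e 0 + 1262654 * e 1 + (-3824562) * e 2 + 1646895 * e 3 + 1171327 * e 4 + (-1717320) * e 5 + 811431 * e 6 by
    linear_combination 4763712 * z.ge + 1262654 * l1 + 3824562 * g2 + 1646895 * l3 + 1171327 * l4 + 1717320 * h5 + 811431 * l6) (mul_nonneg (pow_nonneg p 2) (pow_nonneg q 5))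
  have b3 := mul_nonneg (show 0 ≤ 9140052 * e 0 + (-1522862) * e 1 + (-5036340) * e 2 + 3529653 * e 3 + 1039922 * e 4 + (-2559150) * e 5 + 1336470 * e 6 by
    linear_combination 9140052 * z.ge + 1522862 * g1 + 5036340 * g2 + 3529653 * l3 + 1039922 * l4 + 2559150 * h5 + 1336470 * l6) (mul_nonneg (pow_nonneg p 3) (pow_nonneg q 4))
  have b4 := mul_nonneg (show 0 ≤ 7389523 * e 0 + (-3998751) * e 1 + (-3274484) * e 2 + 3826444 * e 3 + 264458 * e 4 + (-2261405) * e 5 + 1320555 * e 6 by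
    linear_combination 7389523 * z.ge + 3998751 * g1 + 3274484 * g2 + 3826444 * l3 + 264458 * l4 + 2261405 * h5 + 1320555 * l6) (mul_nonneg (pow_nonneg p 4) (pow_nonneg q 3))
  have b5 := mul_nonneg (show 0 ≤ 2555412 * e 0 + (-3064137) * e 1 + (-886314) * e 2 + 2242758 * e 3 + (-226418) * e 4 + (-1181379) * e 5 + 782784 * e 6 by
    linear_combination 2555412 * z.ge + 3064137 * g1 + 886314 * g2 + 2242758 * l3 + 226418 * h4 + 1181379 * h5 + 782784 * l6) (mul_nonneg (pow_nonneg p 5) (pow_nonneg q 2))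
  have b6 := mul_nonneg (show 0 ≤ 222255 * e 0 + (-1009098) * e 1 + 17745 * e 2 + 672732 * e 3 + (-177745) * e 4 + (-336366) * e 5 + 257745 * e 6 by
    linear_combination 222255 * z.ge + 1009098 * g1 + 17745 * l2 + 672732 * l3 + 177745 * h4 + 336366 * h5 + 257745 * l6) (mul_nonneg (pow_nonneg p 6) (pow_nonneg q 1))
  have b7 := mul_nonneg (show 0 ≤ (-36366) * e 0 + (-120000) * e 1 + 36366 * e 2 + 80000 * e 3 + (-36366) * e 4 + (-40000) * e 5 + 36366 * e 6 by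
    linear_combination 36366 * z.le + 120000 * g1 + 36366 * l2 + 80000 * l3 + 36366 * h4 + 40000 * h5 + 36366 * l6) (mul_nonneg (pow_nonneg p 7) (pow_nonneg q 0))
  refine nonneg_of_mul_nonneg_right ((add_nonneg (add_nonneg (add_nonneg (add_nonneg (add_nonneg (add_nonneg (add_nonneg b0 b1) b2) b3) b4) b5) b6) b7).trans_eq ?_) (show (0 : ℝ) < (625 / 8) by norm_num)
  simp only [RR, RD, Finset.sum_range_succ, Finset.sum_range_zero, Nat.reduceSub, uu1, du1, uu2, du2, uu3, du3, uu4, du4, uu5, du5, uu6, du6, uu7, du7]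
  ring

theorem R7 {e : ℕ → ℝ} (E : Box e) : ∀ x ∈ Icc (-1 : ℝ) 1, 0 ≤ RR e 7 x := fun _ hx =>
  (le_total _ 0).elim (R7_0 E hx.1) fun a0 => R7_1 E a0 hx.2

theorem Z7 {e : ℕ → ℝ} (E : Box e) : ∀ x ∈ Icc (-1 : ℝ) 0, 0 ≤ 3 * RR e 7 x - 2 * (1 - x) * RD e 7 x + (3183 / 5000) * ((1 - x) * RR e 7 x) := fun _ hx =>
  (le_total _ (-3 / 4)).elim (Z7_0 E hx.1) fun a0 => (le_total _ (-1 / 2)).elim (Z7_1 E a0) fun a1 => Z7_2 E a1 hx.2

theorem R9_0 {e : ℕ → ℝ} (E : Box e) {x : ℝ} (h1 : (-1) ≤ x) (h2 : x ≤ 0) :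
    0 ≤ RR e 9 x := by
  obtain ⟨z, l1, g1, l2, g2, l3, h3, l4, h4, l5, h5, l6, h6, l7, h7, l8, h8, l9, h9, l10, h10, l11, h11, l12, h12, l13, h13⟩ := E
  have p := sub_nonneg.mpr h1
  have q := sub_nonneg.mpr h2
  have b0 := mul_nonneg (show 0 ≤ 9 * e 0 + (-8) * e 1 + 7 * e 2 + (-6) * e 3 + 5 * e 4 + (-4) * e 5 + 3 * e 6 + (-2) * e 7 + 1 * e 8 by
    linear_combination 9 * z.ge + 8 * g1 + 7 * l2 + 6 * h3 + 5 * l4 + 4 * h5 + 3 * l6 + 2 * h7 + 1 * l8) (mul_nonneg (pow_nonneg p 0) (pow_nonneg q 8))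
  have b1 := mul_nonneg (show 0 ≤ (-168) * e 0 + 104 * e 1 + (-56) * e 2 + 22 * e 3 + 0 * e 4 + (-12) * e 5 + 16 * e 6 + (-14) * e 7 + 8 * e 8 by
    linear_combination 168 * z.le + 104 * l1 + 56 * g2 + 22 * l3 + 0 * l4 + 12 * h5 + 16 * l6 + 14 * h7 + 8 * l8) (mul_nonneg (pow_nonneg p 1) (pow_nonneg q 7))
  have b2 := mul_nonneg (show 0 ≤ 420 * e 0 + (-56) * e 1 + (-84) * e 2 + 98 * e 3 + (-56) * e 4 + 4 * e 5 + 32 * e 6 + (-42) * e 7 + 28 * e 8 by
    linear_combination 420 * z.ge + 56 * g1 + 84 * g2 + 98 * l3 + 56 * h4 + 4 * l5 + 32 * l6 + 42 * h7 + 28 * l8) (mul_nonneg (pow_nonneg p 2) (pow_nonneg q 6))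
  have b3 := mul_nonneg (show 0 ≤ 216 * e 0 + (-328) * e 1 + 104 * e 2 + 78 * e 3 + (-120) * e 4 + 60 * e 5 + 24 * e 6 + (-70) * e 7 + 56 * e 8 by
    linear_combination 216 * z.ge + 328 * g1 + 104 * l2 + 78 * l3 + 120 * h4 + 60 * l5 + 24 * l6 + 70 * h7 + 56 * l8) (mul_nonneg (pow_nonneg p 3) (pow_nonneg q 5))
  have b4 := mul_nonneg (show 0 ≤ (-290) * e 0 + (-120) * e 1 + 210 * e 2 + (-50) * e 3 + (-94) * e 4 + 100 * e 5 + (-10) * e 6 + (-70) * e 7 + 70 * e 8 by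
    linear_combination 290 * z.le + 120 * g1 + 210 * l2 + 50 * h3 + 94 * h4 + 100 * l5 + 10 * h6 + 70 * h7 + 70 * l8) (mul_nonneg (pow_nonneg p 4) (pow_nonneg q 4))
  have b5 := mul_nonneg (show 0 ≤ (-184) * e 0 + 88 * e 1 + 88 * e 2 + (-94) * e 3 + (-16) * e 4 + 76 * e 5 + (-32) * e 6 + (-42) * e 7 + 56 * e 8 by
    linear_combination 184 * z.le + 88 * l1 + 88 * l2 + 94 * h3 + 16 * h4 + 76 * l5 + 32 * h6 + 42 * h7 + 56 * l8) (mul_nonneg (pow_nonneg p 5) (pow_nonneg q 3))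
  have b6 := mul_nonneg (show 0 ≤ (-12) * e 0 + 56 * e 1 + (-4) * e 2 + (-42) * e 3 + 16 * e 4 + 28 * e 5 + (-24) * e 6 + (-14) * e 7 + 28 * e 8 by
    linear_combination 12 * z.le + 56 * l1 + 4 * g2 + 42 * h3 + 16 * l4 + 28 * l5 + 24 * h6 + 14 * h7 + 28 * l8) (mul_nonneg (pow_nonneg p 6) (pow_nonneg q 2))
  have b7 := mul_nonneg (show 0 ≤ 8 * e 0 + 8 * e 1 + (-8) * e 2 + (-6) * e 3 + 8 * e 4 + 4 * e 5 + (-8) * e 6 + (-2) * e 7 + 8 * e 8 by
    linear_combination 8 * z.ge + 8 * l1 + 8 * g2 + 6 * h3 + 8 * l4 + 4 * l5 + 8 * h6 + 2 * h7 + 8 * l8) (mul_nonneg (pow_nonneg p 7) (pow_nonneg q 1))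
  have b8 := mul_nonneg (show 0 ≤ 1 * e 0 + 0 * e 1 + (-1) * e 2 + 0 * e 3 + 1 * e 4 + 0 * e 5 + (-1) * e 6 + 0 * e 7 + 1 * e 8 by
    linear_combination 1 * z.ge + 0 * l1 + 1 * g2 + 0 * l3 + 1 * l4 + 0 * l5 + 1 * h6 + 0 * l7 + 1 * l8) (mul_nonneg (pow_nonneg p 8) (pow_nonneg q 0))
  refine nonneg_of_mul_nonneg_right ((add_nonneg (add_nonneg (add_nonneg (add_nonneg (add_nonneg (add_nonneg (add_nonneg (add_nonneg b0 b1) b2) b3) b4) b5) b6) b7) b8).trans_eq ?_) (show (0 : ℝ) < 1 by norm_num)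
  simp only [RR, Finset.sum_range_succ, Finset.sum_range_zero, Nat.reduceSub, uu1, uu2, uu3, uu4, uu5, uu6, uu7, uu8, uu9]
  ring

theorem R9_1 {e : ℕ → ℝ} (E : Box e) {x : ℝ} (h1 : 0 ≤ x) (h2 : x ≤ (1 / 2)) :
    0 ≤ RR e 9 x := by
  obtain ⟨z, l1, g1, l2, g2, l3, h3, l4, h4, l5, h5, l6, h6, l7, h7, l8, h8, l9, h9, l10, h10, l11, h11, l12, h12, l13, h13⟩ := E
  have p := sub_nonneg.mpr h1
  have q := sub_nonneg.mpr h2
  have b0 := mul_nonneg (show 0 ≤ 1 * e 0 + 0 * e 1 + (-1) * e 2 + 0 * e 3 + 1 * e 4 + 0 * e 5 + (-1) * e 6 + 0 * e 7 + 1 * e 8 by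
    linear_combination 1 * z.ge + 0 * l1 + 1 * g2 + 0 * l3 + 1 * l4 + 0 * l5 + 1 * h6 + 0 * l7 + 1 * l8) (mul_nonneg (pow_nonneg p 0) (pow_nonneg q 8))
  have b1 := mul_nonneg (show 0 ≤ 8 * e 0 + (-4) * e 1 + (-8) * e 2 + 3 * e 3 + 8 * e 4 + (-2) * e 5 + (-8) * e 6 + 1 * e 7 + 8 * e 8 by
    linear_combination 8 * z.ge + 4 * g1 + 8 * g2 + 3 * l3 + 8 * l4 + 2 * h5 + 8 * h6 + 1 * l7 + 8 * l8) (mul_nonneg (pow_nonneg p 1) (pow_nonneg q 7))
  have b2 := mul_nonneg (show 0 ≤ 18 * e 0 + (-28) * e 1 + (-22) * e 2 + 21 * e 3 + 25 * e 4 + (-14) * e 5 + (-27) * e 6 + 7 * e 7 + 28 * e 8 by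
    linear_combination 18 * z.ge + 28 * g1 + 22 * g2 + 21 * l3 + 25 * l4 + 14 * h5 + 27 * h6 + 7 * l7 + 28 * l8) (mul_nonneg (pow_nonneg p 2) (pow_nonneg q 6))
  have b3 := mul_nonneg (show 0 ≤ (-4) * e 0 + (-74) * e 1 + (-20) * e 2 + 59 * e 3 + 38 * e 4 + (-41) * e 5 + (-50) * e 6 + 21 * e 7 + 56 * e 8 by
    linear_combination 4 * z.le + 74 * g1 + 20 * g2 + 59 * l3 + 38 * l4 + 41 * h5 + 50 * h6 + 21 * l7 + 56 * l8) (mul_nonneg (pow_nonneg p 3) (pow_nonneg q 5))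
  have b4 := mul_nonneg (show 0 ≤ (-65) * e 0 + (-90) * e 1 + 15 * e 2 + 85 * e 3 + 26 * e 4 + (-65) * e 5 + (-55) * e 6 + 35 * e 7 + 70 * e 8 by
    linear_combination 65 * z.le + 90 * g1 + 15 * l2 + 85 * l3 + 26 * l4 + 65 * h5 + 55 * h6 + 35 * l7 + 70 * l8) (mul_nonneg (pow_nonneg p 4) (pow_nonneg q 4))
  have b5 := mul_nonneg (show 0 ≤ (-84) * e 0 + (-46) * e 1 + 44 * e 2 + 66 * e 3 + 0 * e 4 + (-60) * e 5 + (-36) * e 6 + 35 * e 7 + 56 * e 8 by
    linear_combination 84 * z.le + 46 * g1 + 44 * l2 + 66 * l3 + 0 * l4 + 60 * h5 + 36 * h6 + 35 * l7 + 56 * l8) (mul_nonneg (pow_nonneg p 5) (pow_nonneg q 3))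
  have b6 := mul_nonneg (show 0 ≤ (-39) * e 0 + (-2) * e 1 + 33 * e 2 + 26 * e 3 + (-11) * e 4 + (-32) * e 5 + (-13) * e 6 + 21 * e 7 + 28 * e 8 by
    linear_combination 39 * z.le + 2 * g1 + 33 * l2 + 26 * l3 + 11 * h4 + 32 * h5 + 13 * h6 + 21 * l7 + 28 * l8) (mul_nonneg (pow_nonneg p 6) (pow_nonneg q 2))
  have b7 := mul_nonneg (show 0 ≤ (-6) * e 0 + 5 * e 1 + 10 * e 2 + 4 * e 3 + (-6) * e 4 + (-9) * e 5 + (-2) * e 6 + 7 * e 7 + 8 * e 8 by
    linear_combination 6 * z.le + 5 * l1 + 10 * l2 + 4 * l3 + 6 * h4 + 9 * h5 + 2 * h6 + 7 * l7 + 8 * l8) (mul_nonneg (pow_nonneg p 7) (pow_nonneg q 1))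
  have b8 := mul_nonneg (show 0 ≤ 0 * e 0 + 1 * e 1 + 1 * e 2 + 0 * e 3 + (-1) * e 4 + (-1) * e 5 + 0 * e 6 + 1 * e 7 + 1 * e 8 by
    linear_combination 0 * z.ge + 1 * l1 + 1 * l2 + 0 * l3 + 1 * h4 + 1 * h5 + 0 * l6 + 1 * l7 + 1 * l8) (mul_nonneg (pow_nonneg p 8) (pow_nonneg q 0))
  refine nonneg_of_mul_nonneg_right ((add_nonneg (add_nonneg (add_nonneg (add_nonneg (add_nonneg (add_nonneg (add_nonneg (add_nonneg b0 b1) b2) b3) b4) b5) b6) b7) b8).trans_eq ?_) (show (0 : ℝ) < (1 / 256) by norm_num)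
  simp only [RR, Finset.sum_range_succ, Finset.sum_range_zero, Nat.reduceSub, uu1, uu2, uu3, uu4, uu5, uu6, uu7, uu8, uu9]
  ring

theorem R9_2 {e : ℕ → ℝ} (E : Box e) {x : ℝ} (h1 : (1 / 2) ≤ x) (h2 : x ≤ 1) :
    0 ≤ RR e 9 x := by
  obtain ⟨z, l1, g1, l2, g2, l3, h3, l4, h4, l5, h5, l6, h6, l7, h7, l8, h8, l9, h9, l10, h10, l11, h11, l12, h12, l13, h13⟩ := E
  have p := sub_nonneg.mpr h1
  have q := sub_nonneg.mpr h2
  have b0 := mul_nonneg (show 0 ≤ 0 * e 0 + 1 * e 1 + 1 * e 2 + 0 * e 3 + (-1) * e 4 + (-1) * e 5 + 0 * e 6 + 1 * e 7 + 1 * e 8 by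
    linear_combination 0 * z.ge + 1 * l1 + 1 * l2 + 0 * l3 + 1 * h4 + 1 * h5 + 0 * l6 + 1 * l7 + 1 * l8) (mul_nonneg (pow_nonneg p 0) (pow_nonneg q 8))
  have b1 := mul_nonneg (show 0 ≤ 6 * e 0 + 11 * e 1 + 6 * e 2 + (-4) * e 3 + (-10) * e 4 + (-7) * e 5 + 2 * e 6 + 9 * e 7 + 8 * e 8 by
    linear_combination 6 * z.ge + 11 * l1 + 6 * l2 + 4 * h3 + 10 * h4 + 7 * h5 + 2 * l6 + 9 * l7 + 8 * l8) (mul_nonneg (pow_nonneg p 1) (pow_nonneg q 7))
  have b2 := mul_nonneg (show 0 ≤ 45 * e 0 + 40 * e 1 + 5 * e 2 + (-30) * e 3 + (-39) * e 4 + (-18) * e 5 + 15 * e 6 + 35 * e 7 + 28 * e 8 by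
    linear_combination 45 * z.ge + 40 * l1 + 5 * l2 + 30 * h3 + 39 * h4 + 18 * h5 + 15 * l6 + 35 * l7 + 28 * l8) (mul_nonneg (pow_nonneg p 2) (pow_nonneg q 6))
  have b3 := mul_nonneg (show 0 ≤ 120 * e 0 + 50 * e 1 + (-40) * e 2 + (-90) * e 3 + (-76) * e 4 + (-16) * e 5 + 48 * e 6 + 77 * e 7 + 56 * e 8 by
    linear_combination 120 * z.ge + 50 * l1 + 40 * g2 + 90 * h3 + 76 * h4 + 16 * h5 + 48 * l6 + 77 * l7 + 56 * l8) (mul_nonneg (pow_nonneg p 3) (pow_nonneg q 5))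
  have b4 := mul_nonneg (show 0 ≤ 115 * e 0 + (-30) * e 1 + (-125) * e 2 + (-135) * e 3 + (-74) * e 4 + 15 * e 5 + 85 * e 6 + 105 * e 7 + 70 * e 8 by
    linear_combination 115 * z.ge + 30 * g1 + 125 * g2 + 135 * h3 + 74 * h4 + 15 * l5 + 85 * l6 + 105 * l7 + 70 * l8) (mul_nonneg (pow_nonneg p 4) (pow_nonneg q 4))
  have b5 := mul_nonneg (show 0 ≤ (-36) * e 0 + (-134) * e 1 + (-148) * e 2 + (-99) * e 3 + (-22) * e 4 + 49 * e 5 + 90 * e 6 + 91 * e 7 + 56 * e 8 by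
    linear_combination 36 * z.le + 134 * g1 + 148 * g2 + 99 * h3 + 22 * h4 + 49 * l5 + 90 * l6 + 91 * l7 + 56 * l8) (mul_nonneg (pow_nonneg p 5) (pow_nonneg q 3))
  have b6 := mul_nonneg (show 0 ≤ (-126) * e 0 + (-112) * e 1 + (-70) * e 2 + (-21) * e 3 + 21 * e 4 + 48 * e 5 + 57 * e 6 + 49 * e 7 + 28 * e 8 by
    linear_combination 126 * z.le + 112 * g1 + 70 * g2 + 21 * h3 + 21 * l4 + 48 * l5 + 57 * l6 + 49 * l7 + 28 * l8) (mul_nonneg (pow_nonneg p 6) (pow_nonneg q 2))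
  have b7 := mul_nonneg (show 0 ≤ (-48) * e 0 + (-20) * e 1 + 0 * e 2 + 13 * e 3 + 20 * e 4 + 22 * e 5 + 20 * e 6 + 15 * e 7 + 8 * e 8 by
    linear_combination 48 * z.le + 20 * g1 + 0 * l2 + 13 * l3 + 20 * l4 + 22 * l5 + 20 * l6 + 15 * l7 + 8 * l8) (mul_nonneg (pow_nonneg p 7) (pow_nonneg q 1))
  have b8 := mul_nonneg (show 0 ≤ 9 * e 0 + 8 * e 1 + 7 * e 2 + 6 * e 3 + 5 * e 4 + 4 * e 5 + 3 * e 6 + 2 * e 7 + 1 * e 8 by
    linear_combination 9 * z.ge + 8 * l1 + 7 * l2 + 6 * l3 + 5 * l4 + 4 * l5 + 3 * l6 + 2 * l7 + 1 * l8) (mul_nonneg (pow_nonneg p 8) (pow_nonneg q 0))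
  refine nonneg_of_mul_nonneg_right ((add_nonneg (add_nonneg (add_nonneg (add_nonneg (add_nonneg (add_nonneg (add_nonneg (add_nonneg b0 b1) b2) b3) b4) b5) b6) b7) b8).trans_eq ?_) (show (0 : ℝ) < (1 / 256) by norm_num)
  simp only [RR, Finset.sum_range_succ, Finset.sum_range_zero, Nat.reduceSub, uu1, uu2, uu3, uu4, uu5, uu6, uu7, uu8, uu9]
  ring

theorem Z9_0 {e : ℕ → ℝ} (E : Box e) {x : ℝ} (h1 : (-1) ≤ x) (h2 : x ≤ (-7 / 8)) :
    0 ≤ 3 * RR e 9 x - 2 * (1 - x) * RD e 9 x + (3183 / 5000) * ((1 - x) * RR e 9 x) := by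
  obtain ⟨z, l1, g1, l2, g2, l3, h3, l4, h4, l5, h5, l6, h6, l7, h7, l8, h8, l9, h9, l10, h10, l11, h11, l12, h12, l13, h13⟩ := E
  have p := sub_nonneg.mpr h1
  have q := sub_nonneg.mpr h2
  have b0 := mul_nonneg (show 0 ≤ 2617399836672 * e 0 + (-1851223179264) * e 1 + 1252818681856 * e 2 + (-801214824448) * e 3 + 475440087040 * e 4 + (-254522949632) * e 5 + 117491892224 * e 6 + (-43375394816) * e 7 + 11201937408 * e 8 by
    linear_combination 2617399836672 * z.ge + 1851223179264 * g1 + 1252818681856 * l2 + 801214824448 * h3 + 475440087040 * l4 + 254522949632 * h5 + 117491892224 * l6 + 43375394816 * h7 + 11201937408 * l8) (mul_nonneg (pow_nonneg p 0) (pow_nonneg q 9))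
  have b1 := mul_nonneg (show 0 ≤ 18216955478016 * e 0 + (-13671587119104) * e 1 + 9722474725376 * e 2 + (-6478587101184) * e 3 + 3975492730880 * e 4 + (-2185845538816) * e 5 + 1029870649344 * e 6 + (-385850146816) * e 7 + 100608835584 * e 8 by
    linear_combination 18216955478016 * z.ge + 13671587119104 * g1 + 9722474725376 * l2 + 6478587101184 * h3 + 3975492730880 * l4 + 2185845538816 * h5 + 1029870649344 * l6 + 385850146816 * h7 + 100608835584 * l8) (mul_nonneg (pow_nonneg p 1) (pow_nonneg q 8))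
  have b2 := mul_nonneg (show 0 ≤ 55256010719232 * e 0 + (-44372237156352) * e 1 + 33323895488512 * e 2 + (-23204253089792) * e 3 + 14749064101888 * e 4 + (-8336524673024) * e 5 + 4010821156864 * e 6 + (-1525339111424) * e 7 + 401600937984 * e 8 by
    linear_combination 55256010719232 * z.ge + 44372237156352 * g1 + 33323895488512 * l2 + 23204253089792 * h3 + 14749064101888 * l4 + 8336524673024 * h5 + 4010821156864 * l6 + 1525339111424 * h7 + 401600937984 * l8) (mul_nonneg (pow_nonneg p 2) (pow_nonneg q 7))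
  have b3 := mul_nonneg (show 0 ≤ 95302453878784 * e 0 + (-82873463160832) * e 1 + 66150518218752 * e 2 + (-48302392295424) * e 3 + 31861668728832 * e 4 + (-18531426377728) * e 5 + 9108675825664 * e 6 + (-3517102833664) * e 7 + 935121911808 * e 8 by
    linear_combination 95302453878784 * z.ge + 82873463160832 * g1 + 66150518218752 * l2 + 48302392295424 * h3 + 31861668728832 * l4 + 18531426377728 * h5 + 9108675825664 * l6 + 3517102833664 * h7 + 935121911808 * l8) (mul_nonneg (pow_nonneg p 3) (pow_nonneg q 6))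
  have b4 := mul_nonneg (show 0 ≤ 102037160816640 * e 0 + (-97839230228480) * e 1 + 83716953354240 * e 2 + (-64374632386560) * e 3 + 44161959948288 * e 4 + (-26459001912320) * e 5 + 13293588602880 * e 6 + (-5212804136960) * e 7 + 1399762452480 * e 8 by
    linear_combination 102037160816640 * z.ge + 97839230228480 * g1 + 83716953354240 * l2 + 64374632386560 * h3 + 44161959948288 * l4 + 26459001912320 * h5 + 13293588602880 * l6 + 5212804136960 * h7 + 1399762452480 * l8) (mul_nonneg (pow_nonneg p 4) (pow_nonneg q 5))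
  have b5 := mul_nonneg (show 0 ≤ 69188081679104 * e 0 + (-75360776793088) * e 1 + 69944652556032 * e 2 + (-56938061753856) * e 3 + 40722971365632 * e 4 + (-25162681388032) * e 5 + 12929579085824 * e 6 + (-5150136549376) * e 7 + 1396842037248 * e 8 by
    linear_combination 69188081679104 * z.ge + 75360776793088 * g1 + 69944652556032 * l2 + 56938061753856 * h3 + 40722971365632 * l4 + 25162681388032 * h5 + 12929579085824 * l6 + 5150136549376 * h7 + 1396842037248 * l8) (mul_nonneg (pow_nonneg p 5) (pow_nonneg q 4))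
  have b6 := mul_nonneg (show 0 ≤ 28759082591232 * e 0 + (-37598096780928) * e 1 + 38504927163392 * e 2 + (-33403743531968) * e 3 + 24979042608128 * e 4 + (-15938292832256) * e 5 + 8380643753984 * e 6 + (-3391767658496) * e 7 + 929281081344 * e 8 by
    linear_combination 28759082591232 * z.ge + 37598096780928 * g1 + 38504927163392 * l2 + 33403743531968 * h3 + 24979042608128 * l4 + 15938292832256 * h5 + 8380643753984 * l6 + 3391767658496 * h7 + 929281081344 * l8) (mul_nonneg (pow_nonneg p 6) (pow_nonneg q 3))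
  have b7 := mul_nonneg (show 0 ≤ 6511361156496 * e 0 + (-11576556221856) * e 1 + 13432611859216 * e 2 + (-12525909239616) * e 3 + 9826260989440 * e 4 + (-6483582859264) * e 5 + 3490779623424 * e 6 + (-1435813986304) * e 7 + 397428916224 * e 8 by
    linear_combination 6511361156496 * z.ge + 11576556221856 * g1 + 13432611859216 * l2 + 12525909239616 * h3 + 9826260989440 * l4 + 6483582859264 * h5 + 3490779623424 * l6 + 1435813986304 * h7 + 397428916224 * l8) (mul_nonneg (pow_nonneg p 7) (pow_nonneg q 2))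
  have b8 := mul_nonneg (show 0 ≤ 513691719312 * e 0 + (-1952585353596) * e 1 + 2684556240416 * e 2 + (-2722018499392) * e 3 + 2249024599040 * e 4 + (-1536946531328) * e 5 + 847846334464 * e 6 + (-354516353024) * e 7 + 99148627968 * e 8 by
    linear_combination 513691719312 * z.ge + 1952585353596 * g1 + 2684556240416 * l2 + 2722018499392 * h3 + 2249024599040 * l4 + 1536946531328 * h5 + 847846334464 * l6 + 354516353024 * h7 + 99148627968 * l8) (mul_nonneg (pow_nonneg p 8) (pow_nonneg q 1))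
  have b9 := mul_nonneg (show 0 ≤ (-35506512495) * e 0 + (-130989403740) * e 1 + 232893569040 * e 2 + (-260911942080) * e 3 + 228137529600 * e 4 + (-161752734720) * e 5 + 91486556160 * e 6 + (-38899138560) * e 7 + 10993336320 * e 8 by
    linear_combination 35506512495 * z.le + 130989403740 * g1 + 232893569040 * l2 + 260911942080 * h3 + 228137529600 * l4 + 161752734720 * h5 + 91486556160 * l6 + 38899138560 * h7 + 10993336320 * l8) (mul_nonneg (pow_nonneg p 9) (pow_nonneg q 0))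
  refine nonneg_of_mul_nonneg_right ((add_nonneg (add_nonneg (add_nonneg (add_nonneg (add_nonneg (add_nonneg (add_nonneg (add_nonneg (add_nonneg b0 b1) b2) b3) b4) b5) b6) b7) b8) b9).trans_eq ?_) (show (0 : ℝ) < (625 / 32) by norm_num)
  simp only [RR, RD, Finset.sum_range_succ, Finset.sum_range_zero, Nat.reduceSub, uu1, du1, uu2, du2, uu3, du3, uu4, du4, uu5, du5, uu6, du6, uu7, du7, uu8, du8, uu9, du9]
  ring

theorem Z9_1 {e : ℕ → ℝ} (E : Box e) {x : ℝ} (h1 : (-7 / 8) ≤ x) (h2 : x ≤ (-3 / 4)) :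
    0 ≤ 3 * RR e 9 x - 2 * (1 - x) * RD e 9 x + (3183 / 5000) * ((1 - x) * RR e 9 x) := by
  obtain ⟨z, l1, g1, l2, g2, l3, h3, l4, h4, l5, h5, l6, h6, l7, h7, l8, h8, l9, h9, l10, h10, l11, h11, l12, h12, l13, h13⟩ := E
  have p := sub_nonneg.mpr h1
  have q := sub_nonneg.mpr h2
  have b0 := mul_nonneg (show 0 ≤ (-35506512495) * e 0 + (-130989403740) * e 1 + 232893569040 * e 2 + (-260911942080) * e 3 + 228137529600 * e 4 + (-161752734720) * e 5 + 91486556160 * e 6 + (-38899138560) * e 7 + 10993336320 * e 8 by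
    linear_combination 35506512495 * z.le + 130989403740 * g1 + 232893569040 * l2 + 260911942080 * h3 + 228137529600 * l4 + 161752734720 * h5 + 91486556160 * l6 + 38899138560 * h7 + 10993336320 * l8) (mul_nonneg (pow_nonneg p 0) (pow_nonneg q 9))
  have b1 := mul_nonneg (show 0 ≤ (-1152808944222) * e 0 + (-405223913724) * e 1 + 1507528002304 * e 2 + (-1974396458048) * e 3 + 1857450933760 * e 4 + (-1374602693632) * e 5 + 798911676416 * e 6 + (-345668141056) * e 7 + 98731425792 * e 8 by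
    linear_combination 1152808944222 * z.le + 405223913724 * g1 + 1507528002304 * l2 + 1974396458048 * h3 + 1857450933760 * l4 + 1374602693632 * h5 + 798911676416 * l6 + 345668141056 * h7 + 98731425792 * l8) (mul_nonneg (pow_nonneg p 1) (pow_nonneg q 8))
  have b2 := mul_nonneg (show 0 ≤ (-6820644151776) * e 0 + 802335297120 * e 1 + 4016385954320 * e 2 + (-6544932908864) * e 3 + 6693671667200 * e 4 + (-5184832157696) * e 5 + 3099302359040 * e 6 + (-1365028290560) * e 7 + 394091298816 * e 8 by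
    linear_combination 6820644151776 * z.le + 802335297120 * l1 + 4016385954320 * l2 + 6544932908864 * h3 + 6693671667200 * l4 + 5184832157696 * h5 + 3099302359040 * l6 + 1365028290560 * h7 + 394091298816 * l8) (mul_nonneg (pow_nonneg p 2) (pow_nonneg q 7))
  have b3 := mul_nonneg (show 0 ≤ (-18993875359872) * e 0 + 6190989964416 * e 1 + 5385818333920 * e 2 + (-12425738968512) * e 3 + 14006276042752 * e 4 + (-11391693420544) * e 5 + 7010447253504 * e 6 + (-3144017723392) * e 7 + 917599420416 * e 8 by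
    linear_combination 18993875359872 * z.le + 6190989964416 * l1 + 5385818333920 * l2 + 12425738968512 * h3 + 14006276042752 * l4 + 11391693420544 * h5 + 7010447253504 * l6 + 3144017723392 * h7 + 917599420416 * l8) (mul_nonneg (pow_nonneg p 3) (pow_nonneg q 6))
  have b4 := mul_nonneg (show 0 ≤ (-30681591711712) * e 0 + 14069262413312 * e 1 + 3057162247744 * e 2 + (-14803703003648) * e 3 + 18742622484736 * e 4 + (-16065594739712) * e 5 + 10189081784320 * e 6 + (-4654636679168) * e 7 + 1373478715392 * e 8 by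
    linear_combination 30681591711712 * z.le + 14069262413312 * l1 + 3057162247744 * l2 + 14803703003648 * h3 + 18742622484736 * l4 + 16065594739712 * h5 + 10189081784320 * l6 + 4654636679168 * h7 + 1373478715392 * l8) (mul_nonneg (pow_nonneg p 4) (pow_nonneg q 5))
  have b5 := mul_nonneg (show 0 ≤ (-31017159689920) * e 0 + 17427847181440 * e 1 + (-1110855913600) * e 2 + (-11372191473920) * e 3 + 16621242685952 * e 4 + (-15080353930240) * e 5 + 9867771412480 * e 6 + (-4593429299200) * e 7 + 1370558300160 * e 8 by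
    linear_combination 31017159689920 * z.le + 17427847181440 * l1 + 1110855913600 * g2 + 11372191473920 * h3 + 16621242685952 * l4 + 15080353930240 * h5 + 9867771412480 * l6 + 4593429299200 * h7 + 1370558300160 * l8) (mul_nonneg (pow_nonneg p 5) (pow_nonneg q 4))
  have b6 := mul_nonneg (show 0 ≤ (-19981104629760) * e 0 + 13067226790400 * e 1 + (-3013667022080) * e 2 + (-5543462138880) * e 3 + 9759458203648 * e 4 + (-9420732342272) * e 5 + 6367813472256 * e 6 + (-3021602963456) * e 7 + 911758589952 * e 8 by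
    linear_combination 19981104629760 * z.le + 13067226790400 * l1 + 3013667022080 * g2 + 5543462138880 * h3 + 9759458203648 * l4 + 9420732342272 * h5 + 6367813472256 * l6 + 3021602963456 * h7 + 911758589952 * l8) (mul_nonneg (pow_nonneg p 6) (pow_nonneg q 3))
  have b7 := mul_nonneg (show 0 ≤ (-7981308032000) * e 0 + 5942067773440 * e 1 + (-2074028705280) * e 2 + (-1601503257600) * e 3 + 3654432632832 * e 4 + (-3776317874176) * e 5 + 2640259604480 * e 6 + (-1277589176320) * e 7 + 389919277056 * e 8 by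
    linear_combination 7981308032000 * z.le + 5942067773440 * l1 + 2074028705280 * g2 + 1601503257600 * h3 + 3654432632832 * l4 + 3776317874176 * h5 + 2640259604480 * l6 + 1277589176320 * h7 + 389919277056 * l8) (mul_nonneg (pow_nonneg p 7) (pow_nonneg q 2))
  have b8 := mul_nonneg (show 0 ≤ (-1801637427968) * e 0 + 1514237852672 * e 1 + (-671901017088) * e 2 + (-229738610688) * e 3 + 790673264640 * e 4 + (-881263099904) * e 5 + 638236934144 * e 6 + (-315064451072) * e 7 + 97271218176 * e 8 by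
    linear_combination 1801637427968 * z.le + 1514237852672 * l1 + 671901017088 * g2 + 229738610688 * h3 + 790673264640 * l4 + 881263099904 * h5 + 638236934144 * l6 + 315064451072 * h7 + 97271218176 * l8) (mul_nonneg (pow_nonneg p 8) (pow_nonneg q 1))
  have b9 := mul_nonneg (show 0 ≤ (-175332410880) * e 0 + 166391944192 * e 1 + (-87587985408) * e 2 + (-8918446080) * e 3 + 75160854528 * e 4 + (-91207155712) * e 5 + 68531159040 * e 6 + (-34527182848) * e 7 + 10784735232 * e 8 by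
    linear_combination 175332410880 * z.le + 166391944192 * l1 + 87587985408 * g2 + 8918446080 * h3 + 75160854528 * l4 + 91207155712 * h5 + 68531159040 * l6 + 34527182848 * h7 + 10784735232 * l8) (mul_nonneg (pow_nonneg p 9) (pow_nonneg q 0))
  refine nonneg_of_mul_nonneg_right ((add_nonneg (add_nonneg (add_nonneg (add_nonneg (add_nonneg (add_nonneg (add_nonneg (add_nonneg (add_nonneg b0 b1) b2) b3) b4) b5) b6) b7) b8) b9).trans_eq ?_) (show (0 : ℝ) < (625 / 32) by norm_num)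
  simp only [RR, RD, Finset.sum_range_succ, Finset.sum_range_zero, Nat.reduceSub, uu1, du1, uu2, du2, uu3, du3, uu4, du4, uu5, du5, uu6, du6, uu7, du7, uu8, du8, uu9, du9]
  ring

theorem Z9_2 {e : ℕ → ℝ} (E : Box e) {x : ℝ} (h1 : (-3 / 4) ≤ x) (h2 : x ≤ (-1 / 2)) :
    0 ≤ 3 * RR e 9 x - 2 * (1 - x) * RD e 9 x + (3183 / 5000) * ((1 - x) * RR e 9 x) := by
  obtain ⟨z, l1, g1, l2, g2, l3, h3, l4, h4, l5, h5, l6, h6, l7, h7, l8, h8, l9, h9, l10, h10, l11, h11, l12, h12, l13, h13⟩ := E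
  have p := sub_nonneg.mpr h1
  have q := sub_nonneg.mpr h2
  have b0 := mul_nonneg (show 0 ≤ (-342446115) * e 0 + 324984266 * e 1 + (-171070284) * e 2 + (-17418840) * e 3 + 146798544 * e 4 + (-178138976) * e 5 + 133849920 * e 6 + (-67435904) * e 7 + 21063936 * e 8 by
    linear_combination 342446115 * z.le + 324984266 * l1 + 171070284 * g2 + 17418840 * h3 + 146798544 * l4 + 178138976 * h5 + 133849920 * l6 + 67435904 * h7 + 21063936 * l8) (mul_nonneg (pow_nonneg p 0) (pow_nonneg q 9))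
  have b1 := mul_nonneg (show 0 ≤ (-2208398902) * e 0 + 2859583570 * e 1 + (-1994284320) * e 2 + 427107768 * e 3 + 874993248 * e 4 + (-1367318368) * e 5 + 1120834816 * e 6 + (-590048896) * e 7 + 188760576 * e 8 by
    linear_combination 2208398902 * z.le + 2859583570 * l1 + 1994284320 * g2 + 427107768 * l3 + 874993248 * l4 + 1367318368 * h5 + 1120834816 * l6 + 590048896 * h7 + 188760576 * l8) (mul_nonneg (pow_nonneg p 1) (pow_nonneg q 8))
  have b2 := mul_nonneg (show 0 ≤ (-4403001388) * e 0 + 9757507976 * e 1 + (-8639400924) * e 2 + 3382546392 * e 3 + 1987364640 * e 4 + (-4601096000) * e 5 + 4159689664 * e 6 + (-2293106048) * e 7 + 751782912 * e 8 by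
    linear_combination 4403001388 * z.le + 9757507976 * l1 + 8639400924 * g2 + 3382546392 * l3 + 1987364640 * l4 + 4601096000 * h5 + 4159689664 * l6 + 2293106048 * h7 + 751782912 * l8) (mul_nonneg (pow_nonneg p 2) (pow_nonneg q 7))
  have b3 := mul_nonneg (show 0 ≤ (-409534824) * e 0 + 17181504544 * e 1 + (-19766627656) * e 2 + 10512983496 * e 3 + 1683922304 * e 4 + (-8879041984) * e 5 + 8977642368 * e 6 + (-5194989184) * e 7 + 1746554880 * e 8 by
    linear_combination 409534824 * z.le + 17181504544 * l1 + 19766627656 * g2 + 10512983496 * l3 + 1683922304 * l4 + 8879041984 * h5 + 8977642368 * l6 + 5194989184 * h7 + 1746554880 * l8) (mul_nonneg (pow_nonneg p 3) (pow_nonneg q 6))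
  have b4 := mul_nonneg (show 0 ≤ 11415305056 * e 0 + 16619237792 * e 1 + (-27081343808) * e 2 + 18115077536 * e 3 + (-1123630640) * e 4 + (-10775655392) * e 5 + 12414031040 * e 6 + (-7560522368) * e 7 + 2608424448 * e 8 by
    linear_combination 11415305056 * z.ge + 16619237792 * l1 + 27081343808 * g2 + 18115077536 * l3 + 1123630640 * h4 + 10775655392 * h5 + 12414031040 * l6 + 7560522368 * h7 + 2608424448 * l8) (mul_nonneg (pow_nonneg p 4) (pow_nonneg q 5))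
  have b5 := mul_nonneg (show 0 ≤ 19886572672 * e 0 + 7831004416 * e 1 + (-23269798336) * e 2 + 19180081568 * e 3 + (-4072187104) * e 4 + (-8464232416) * e 5 + 11401310720 * e 6 + (-7329986944) * e 7 + 2597016576 * e 8 by
    linear_combination 19886572672 * z.ge + 7831004416 * l1 + 23269798336 * g2 + 19180081568 * l3 + 4072187104 * h4 + 8464232416 * h5 + 11401310720 * l6 + 7329986944 * h7 + 2597016576 * l8) (mul_nonneg (pow_nonneg p 5) (pow_nonneg q 4))
  have b6 := mul_nonneg (show 0 ≤ 16525166784 * e 0 + 68446848 * e 1 + (-12527775808) * e 2 + 12821289216 * e 3 + (-4263214144) * e 4 + (-4249010048) * e 5 + 6951998016 * e 6 + (-4733918336) * e 7 + 1723739136 * e 8 by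
    linear_combination 16525166784 * z.ge + 68446848 * l1 + 12527775808 * g2 + 12821289216 * l3 + 4263214144 * h4 + 4249010048 * h5 + 6951998016 * l6 + 4733918336 * h7 + 1723739136 * l8) (mul_nonneg (pow_nonneg p 6) (pow_nonneg q 3))
  have b7 := mul_nonneg (show 0 ≤ 7584569472 * e 0 + (-1771256832) * e 1 + (-4024562048) * e 2 + 5286779648 * e 3 + (-2332066688) * e 4 + (-1283664640) * e 5 + 2712509824 * e 6 + (-1963769728) * e 7 + 735485952 * e 8 by
    linear_combination 7584569472 * z.ge + 1771256832 * g1 + 4024562048 * g2 + 5286779648 * l3 + 2332066688 * h4 + 1283664640 * h5 + 2712509824 * l6 + 1963769728 * h7 + 735485952 * l8) (mul_nonneg (pow_nonneg p 7) (pow_nonneg q 2))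
  have b8 := mul_nonneg (show 0 ≤ 1842507264 * e 0 + (-781750272) * e 1 + (-676872448) * e 2 + 1228338176 * e 3 + (-674345728) * e 4 + (-200827904) * e 5 + 614169088 * e 6 + (-474781184) * e 7 + 183056640 * e 8 by
    linear_combination 1842507264 * z.ge + 781750272 * g1 + 676872448 * g2 + 1228338176 * l3 + 674345728 * h4 + 200827904 * h5 + 614169088 * l6 + 474781184 * h7 + 183056640 * l8) (mul_nonneg (pow_nonneg p 8) (pow_nonneg q 1))
  have b9 := mul_nonneg (show 0 ≤ 184320000 * e 0 + (-112409088) * e 1 + (-41190912) * e 2 + 122880000 * e 3 + (-81689088) * e 4 + (-10470912) * e 5 + 61440000 * e 6 + (-50969088) * e 7 + 20249088 * e 8 by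
    linear_combination 184320000 * z.ge + 112409088 * g1 + 41190912 * g2 + 122880000 * l3 + 81689088 * h4 + 10470912 * h5 + 61440000 * l6 + 50969088 * h7 + 20249088 * l8) (mul_nonneg (pow_nonneg p 9) (pow_nonneg q 0))
  refine nonneg_of_mul_nonneg_right ((add_nonneg (add_nonneg (add_nonneg (add_nonneg (add_nonneg (add_nonneg (add_nonneg (add_nonneg (add_nonneg b0 b1) b2) b3) b4) b5) b6) b7) b8) b9).trans_eq ?_) (show (0 : ℝ) < (625 / 32) by norm_num)
  simp only [RR, RD, Finset.sum_range_succ, Finset.sum_range_zero, Nat.reduceSub, uu1, du1, uu2, du2, uu3, du3, uu4, du4, uu5, du5, uu6, du6, uu7, du7, uu8, du8, uu9, du9]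
  ring

theorem Z9_3 {e : ℕ → ℝ} (E : Box e) {x : ℝ} (h1 : (-1 / 2) ≤ x) (h2 : x ≤ 0) :
    0 ≤ 3 * RR e 9 x - 2 * (1 - x) * RD e 9 x + (3183 / 5000) * ((1 - x) * RR e 9 x) := by
  obtain ⟨z, l1, g1, l2, g2, l3, h3, l4, h4, l5, h5, l6, h6, l7, h7, l8, h8, l9, h9, l10, h10, l11, h11, l12, h12, l13, h13⟩ := E
  have p := sub_nonneg.mpr h1
  have q := sub_nonneg.mpr h2
  have b0 := mul_nonneg (show 0 ≤ 360000 * e 0 + (-219549) * e 1 + (-80451) * e 2 + 240000 * e 3 + (-159549) * e 4 + (-20451) * e 5 + 120000 * e 6 + (-99549) * e 7 + 39549 * e 8 by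
    linear_combination 360000 * z.ge + 219549 * g1 + 80451 * g2 + 240000 * l3 + 159549 * h4 + 20451 * h5 + 120000 * l6 + 99549 * h7 + 39549 * l8) (mul_nonneg (pow_nonneg p 0) (pow_nonneg q 9))
  have b1 := mul_nonneg (show 0 ≤ 2522706 * e 0 + (-2874111) * e 1 + 471856 * e 2 + 1681804 * e 3 + (-1673660) * e 4 + 232307 * e 5 + 840902 * e 6 + (-833209) * e 7 + 352758 * e 8 by
    linear_combination 2522706 * z.ge + 2874111 * g1 + 471856 * l2 + 1681804 * l3 + 1673660 * h4 + 232307 * l5 + 840902 * l6 + 833209 * h7 + 352758 * l8) (mul_nonneg (pow_nonneg p 1) (pow_nonneg q 8))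
  have b2 := mul_nonneg (show 0 ≤ 3159393 * e 0 + (-11682732) * e 1 + 5948777 * e 2 + 3906262 * e 3 + (-6693235) * e 4 + 2172862 * e 5 + 2493131 * e 6 + (-3085091) * e 7 + 1398300 * e 8 by
    linear_combination 3159393 * z.ge + 11682732 * g1 + 5948777 * l2 + 3906262 * l3 + 6693235 * h4 + 2172862 * l5 + 2493131 * l6 + 3085091 * h7 + 1398300 * l8) (mul_nonneg (pow_nonneg p 2) (pow_nonneg q 7))
  have b3 := mul_nonneg (show 0 ≤ (-11100390) * e 0 + (-20068014) * e 1 + 19300234 * e 2 + 2204250 * e 3 + (-14040026) * e 4 + 7096652 * e 5 + 3983478 * e 6 + (-6627901) * e 7 + 3232992 * e 8 by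
    linear_combination 11100390 * z.le + 20068014 * g1 + 19300234 * l2 + 2204250 * l3 + 14040026 * h4 + 7096652 * l5 + 3983478 * l6 + 6627901 * h7 + 3232992 * l8) (mul_nonneg (pow_nonneg p 3) (pow_nonneg q 6))
  have b4 := mul_nonneg (show 0 ≤ (-35305429) * e 0 + (-13407754) * e 1 + 30433339 * e 2 + (-5781821) * e 3 + (-17171726) * e 4 + 12532645 * e 5 + 3515629 * e 6 + (-9097025) * e 7 + 4804926 * e 8 by
    linear_combination 35305429 * z.le + 13407754 * g1 + 30433339 * l2 + 5781821 * h3 + 17171726 * h4 + 12532645 * l5 + 3515629 * l6 + 9097025 * h7 + 4804926 * l8) (mul_nonneg (pow_nonneg p 4) (pow_nonneg q 5))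
  have b5 := mul_nonneg (show 0 ≤ (-40121986) * e 0 + 3239566 * e 1 + 26474510 * e 2 + (-12584501) * e 3 + (-12471622) * e 4 + 13425299 * e 5 + 1342420 * e 6 + (-8263339) * e 7 + 4760364 * e 8 by
    linear_combination 40121986 * z.le + 3239566 * l1 + 26474510 * l2 + 12584501 * h3 + 12471622 * h4 + 13425299 * l5 + 1342420 * l6 + 8263339 * h7 + 4760364 * l8) (mul_nonneg (pow_nonneg p 5) (pow_nonneg q 4))
  have b6 := mul_nonneg (show 0 ≤ (-22233582) * e 0 + 10478456 * e 1 + 12722602 * e 2 + (-11136123) * e 3 + (-5029367) * e 4 + 8984692 * e 5 + (-366123) * e 6 + (-4960529) * e 7 + 3143868 * e 8 by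
    linear_combination 22233582 * z.le + 10478456 * l1 + 12722602 * l2 + 11136123 * h3 + 5029367 * h4 + 8984692 * l5 + 366123 * h6 + 4960529 * h7 + 3143868 * l8) (mul_nonneg (pow_nonneg p 6) (pow_nonneg q 3))
  have b7 := mul_nonneg (show 0 ≤ (-5829020) * e 0 + 6376444 * e 1 + 2963556 * e 2 + (-5202333) * e 3 + (-814458) * e 4 + 3668222 * e 5 + (-618274) * e 6 + (-1894111) * e 7 + 1334640 * e 8 by
    linear_combination 5829020 * z.le + 6376444 * l1 + 2963556 * l2 + 5202333 * h3 + 814458 * h4 + 3668222 * l5 + 618274 * h6 + 1894111 * h7 + 1334640 * l8) (mul_nonneg (pow_nonneg p 7) (pow_nonneg q 2))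
  have b8 := mul_nonneg (show 0 ≤ (-469523) * e 0 + 1665464 * e 1 + 149523 * e 2 + (-1249098) * e 3 + 90477 * e 4 + 832732 * e 5 + (-250477) * e 6 + (-416366) * e 7 + 330477 * e 8 by
    linear_combination 469523 * z.le + 1665464 * l1 + 149523 * l2 + 1249098 * h3 + 90477 * l4 + 832732 * l5 + 250477 * h6 + 416366 * h7 + 330477 * l8) (mul_nonneg (pow_nonneg p 8) (pow_nonneg q 1))
  have b9 := mul_nonneg (show 0 ≤ 36366 * e 0 + 160000 * e 1 + (-36366) * e 2 + (-120000) * e 3 + 36366 * e 4 + 80000 * e 5 + (-36366) * e 6 + (-40000) * e 7 + 36366 * e 8 by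
    linear_combination 36366 * z.ge + 160000 * l1 + 36366 * g2 + 120000 * h3 + 36366 * l4 + 80000 * l5 + 36366 * h6 + 40000 * h7 + 36366 * l8) (mul_nonneg (pow_nonneg p 9) (pow_nonneg q 0))
  refine nonneg_of_mul_nonneg_right ((add_nonneg (add_nonneg (add_nonneg (add_nonneg (add_nonneg (add_nonneg (add_nonneg (add_nonneg (add_nonneg b0 b1) b2) b3) b4) b5) b6) b7) b8) b9).trans_eq ?_) (show (0 : ℝ) < (625 / 32) by norm_num)
  simp only [RR, RD, Finset.sum_range_succ, Finset.sum_range_zero, Nat.reduceSub, uu1, du1, uu2, du2, uu3, du3, uu4, du4, uu5, du5, uu6, du6, uu7, du7, uu8, du8, uu9, du9]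
  ring

theorem R9 {e : ℕ → ℝ} (E : Box e) : ∀ x ∈ Icc (-1 : ℝ) 1, 0 ≤ RR e 9 x := fun _ hx =>
  (le_total _ 0).elim (R9_0 E hx.1) fun a0 => (le_total _ (1 / 2)).elim (R9_1 E a0) fun a1 => R9_2 E a1 hx.2

theorem Z9 {e : ℕ → ℝ} (E : Box e) : ∀ x ∈ Icc (-1 : ℝ) 0, 0 ≤ 3 * RR e 9 x - 2 * (1 - x) * RD e 9 x + (3183 / 5000) * ((1 - x) * RR e 9 x) := fun _ hx =>
  (le_total _ (-7 / 8)).elim (Z9_0 E hx.1) fun a0 => (le_total _ (-3 / 4)).elim (Z9_1 E a0) fun a1 => (le_total _ (-1 / 2)).elim (Z9_2 E a1) fun a2 => Z9_3 E a2 hx.2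

end Pool.Agent.P.BSR
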