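import Pool.Agent.P.MP_3df8df_an.RDefs

/-!
The inverse tangent integral inside the disc and on the circle.
-/

set_option autoImplicit false

namespace Pool.Agent.P.BSR

open Metric Set Complex Filter Topology
open Pool.Agent.P.MP_3df8df_an (catalanG)
open scoped Real ComplexConjugate

theorem sum_odd : Summable fun j : ℕ => 1 / (2 * (j : ℝ) + 1) ^ 2 := by
  have := (Real.summable_one_div_nat_pow.mpr one_lt_two).comp_injective
    (i := fun j : ℕ => 2 * j + 1) fun a b h => by simpa using h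
  simpa [Function.comp_def] using this

theorem term_le {z : ℂ} (hz : ‖z‖ ≤ 1) (j : ℕ) :
    ‖(-1) ^ j * z ^ (2 * j + 1) / (2 * (j : ℂ) + 1) ^ 2‖ ≤ 1 / (2 * (j : ℝ) + 1) ^ 2 := by
  have : ‖(2 * (j : ℂ) + 1)‖ = 2 * (j : ℝ) + 1 := by exact_mod_cast Complex.norm_natCast (2 * j + 1)
  rw [norm_div, norm_mul, norm_pow, norm_pow, norm_pow, norm_neg, norm_one, one_pow, one_mul, this]
  gcongr
  exact pow_le_one₀ (norm_nonneg _) hz

theorem Ti_cont : ContinuousOn Ti (closedBall 0 1) :=
  continuousOn_tsum (fun _ => by fun_prop) sum_odd fun j _ hz =>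
    term_le (mem_closedBall_zero_iff.mp hz) j

theorem Ti_diff : DifferentiableOn ℂ Ti (ball 0 1) :=
  differentiableOn_tsum_of_summable_norm sum_odd (fun _ => by fun_prop) isOpen_ball fun j _ hz =>
    term_le (mem_ball_zero_iff.mp hz).le j

theorem Ti_at {z : ℂ} (hz : ‖z‖ < 1) : HasDerivAt Ti (deriv Ti z) z :=
  (Ti_diff.differentiableAt (isOpen_ball.mem_nhds (mem_ball_zero_iff.mpr hz))).hasDerivAt

theorem Ti_sum {z : ℂ} (hz : ‖z‖ < 1) :
    HasSum (fun j : ℕ => (-1) ^ j * z ^ (2 * j) / (2 * (j : ℂ) + 1)) (deriv Ti z) := by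
  have := hasSum_deriv_of_summable_norm (U := ball 0 1)
    (F := fun (j : ℕ) (z : ℂ) => (-1) ^ j * z ^ (2 * j + 1) / (2 * (j : ℂ) + 1) ^ 2) sum_odd
    (fun _ => by fun_prop) isOpen_ball (fun j _ hz => term_le (mem_ball_zero_iff.mp hz).le j)
    (mem_ball_zero_iff.mpr hz)
  refine this.congr_fun fun j => ?_
  have h : (2 * (j : ℂ) + 1) ≠ 0 := by exact_mod_cast (by omega : 2 * j + 1 ≠ 0)
  rw [(((hasDerivAt_pow (2 * j + 1) z).const_mul _).div_const _).deriv]
  push_cast
  field_simp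

theorem Ti_deriv {z : ℂ} (hz : ‖z‖ < 1) : z * deriv Ti z = arctan z := by
  refine ((Ti_sum hz).mul_left z).unique ((hasSum_arctan hz).congr_fun fun j => ?_)
  push_cast
  ring

theorem Ti_neg (z : ℂ) : Ti (-z) = -Ti z := by
  simp only [Ti, ← tsum_neg, Odd.neg_pow (odd_two_mul_add_one _)]
  exact tsum_congr fun j => by ring

theorem Ti_conj (z : ℂ) : Ti (conj z) = conj (Ti z) := by
  simp only [Ti, Complex.conj_tsum, map_div₀, map_mul, map_pow, map_neg, map_one, map_add,
    map_ofNat, map_natCast]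

theorem Ti_real (x : ℝ) : (Ti x).im = 0 := by
  rw [← conj_eq_iff_im, ← Ti_conj, conj_ofReal]

theorem Ti_one : Ti 1 = catalanG := by
  simp [Ti, catalanG, ofReal_tsum]

theorem Ti_zero : Ti 0 = 0 := by simp [Ti]

theorem arctan_re (z : ℂ) : (arctan z).re = arg ((1 + z * I) / (1 - z * I)) / 2 := by
  simp [arctan, log_im]
  ring

theorem arctan_im (z : ℂ) : (arctan z).im = -Real.log ‖(1 + z * I) / (1 - z * I)‖ / 2 := by
  simp [arctan, log_re, -norm_div]
  ring

theorem cay {z : ℂ} (hz : 1 - z * I ≠ 0) : (1 + z * I) / (1 - z * I) =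
    (((1 - normSq z) / normSq (1 - z * I) : ℝ) : ℂ) + (2 * z.re / normSq (1 - z * I) : ℝ) * I := by
  have := (normSq_pos.mpr hz).ne'
  apply Complex.ext <;> simp [div_re, div_im, -ofReal_div] <;> field_simp
  · simp [normSq_apply]; ring
  · ring

theorem den_I {z : ℂ} (hz : ‖z‖ < 1) : 1 - z * I ≠ 0 := fun h => by
  have := congrArg norm (sub_eq_zero.mp h)
  simp at this
  linarith

theorem arctan_re_le {z : ℂ} (hz : ‖z‖ < 1) : |(arctan z).re| ≤ π / 4 := by
  have : |arg ((1 + z * I) / (1 - z * I))| ≤ π / 2 := by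
    rw [abs_arg_le_pi_div_two_iff, cay (den_I hz)]
    have : normSq z ≤ 1 := by rw [normSq_eq_norm_sq]; nlinarith [norm_nonneg z]
    simpa [-ofReal_div] using div_nonneg (sub_nonneg.mpr this) (normSq_nonneg _)
  rw [arctan_re, abs_div, abs_two]
  linarith

theorem Ti_re_nonneg {z : ℂ} (hz : ‖z‖ < 1) : 0 ≤ (deriv Ti z).re := by
  rcases eq_or_ne z 0 with rfl | h0
  · have := (Ti_sum hz).unique (hasSum_single 0 fun j hj => by simp [hj])
    simp [this]
  have a0 := normSq_pos.mpr (den_I hz)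
  have a1 : 0 ≤ (arctan z).re * z.re := by
    rw [arctan_re, cay (den_I hz)]
    rcases le_or_gt 0 z.re with h | h
    · exact mul_nonneg (div_nonneg (arg_nonneg_iff.mpr (by
        simpa [-ofReal_div] using div_nonneg (by linarith) a0.le)) two_pos.le) h
    · exact mul_nonneg_of_nonpos_of_nonpos (div_nonpos_of_nonpos_of_nonneg (arg_neg_iff.mpr (by
        simpa [-ofReal_div] using div_neg_of_neg_of_pos (by linarith) a0)).le two_pos.le) h.le
  have a2 : 0 ≤ (arctan z).im * z.im := by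
    have b0 := norm_pos_iff.mpr (den_I hz)
    have b1 : ‖1 + z * I‖ ^ 2 = ‖1 - z * I‖ ^ 2 - 4 * z.im := by
      simp only [Complex.sq_norm, normSq_apply]; simp; ring
    rw [arctan_im, norm_div]
    rcases le_total 0 z.im with h | h
    · refine mul_nonneg (div_nonneg (neg_nonneg.mpr (Real.log_nonpos (by positivity) ?_))
        two_pos.le) h
      rw [div_le_one b0]
      exact (sq_le_sq₀ (norm_nonneg _) (norm_nonneg _)).mp (by linarith)
    · refine mul_nonneg_of_nonpos_of_nonpos (div_nonpos_of_nonpos_of_nonneg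
        (neg_nonpos.mpr (Real.log_nonneg ?_)) two_pos.le) h
      rw [one_le_div b0]
      exact (sq_le_sq₀ (norm_nonneg _) (norm_nonneg _)).mp (by linarith)
  have := normSq_pos.mpr h0
  rw [eq_div_of_mul_eq h0 ((mul_comm _ _).trans (Ti_deriv hz)), div_re]
  positivity

theorem circ_deriv (r t : ℝ) : HasDerivAt (circleMap 0 r) (circleMap 0 r t * I) t :=
  hasDerivAt_circleMap 0 r t

theorem Ti_circ_in {r : ℝ} (hr : |r| < 1) (t : ℝ) :
    HasDerivAt (fun t => Ti (circleMap 0 r t)) (I * arctan (circleMap 0 r t)) t := by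
  have hz : ‖circleMap 0 r t‖ < 1 := by simpa using hr
  refine ((Ti_at hz).scomp t (circ_deriv r t)).congr_deriv ?_
  rw [← Ti_deriv hz, smul_eq_mul]
  ring

theorem cay_circ {t : ℝ} (ht : Real.cos t ≠ 0) :
    (1 + circleMap 0 1 t * I) / (1 - circleMap 0 1 t * I) =
      (Real.cos t / (1 + Real.sin t) : ℝ) * I ∧ 1 - circleMap 0 1 t * I ≠ 0 ∧
      0 < 1 + Real.sin t := by
  have h := Real.sin_sq_add_cos_sq t
  have h1 : 0 < 1 + Real.sin t := by nlinarith [sq_pos_of_ne_zero ht, Real.neg_one_le_sin t]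
  have h2 : 1 - circleMap 0 1 t * I ≠ 0 := fun h => ht (by
    simpa [circleMap_zero_re] using congrArg im h)
  refine ⟨?_, h2, h1⟩
  rw [div_eq_iff h2]
  apply Complex.ext <;>
    simp [-ofReal_div, -ofReal_cos, -ofReal_sin, circleMap_zero_re, circleMap_zero_im] <;>
    field_simp <;> nlinarith

theorem Ti_circ {t : ℝ} (ht : Real.cos t ≠ 0) :
    HasDerivAt (fun t => Ti (circleMap 0 1 t)) (I * arctan (circleMap 0 1 t)) t := by
  obtain ⟨a1, a2, a3⟩ := cay_circ ht
  have hc : ContinuousAt (fun z => I * arctan z) (circleMap 0 1 t) := by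
    refine continuousAt_const.mul (continuousAt_const.mul (ContinuousAt.clog
      (ContinuousAt.div (by fun_prop) (by fun_prop) a2) ?_))
    rw [a1]
    exact Or.inr (by simpa [-ofReal_div] using div_ne_zero ht a3.ne')
  have hj : Continuous fun p : ℝ × ℝ => circleMap 0 p.1 p.2 := by unfold circleMap; fun_prop
  refine hasDerivAt_of_tendstoUniformlyOnFilter (l := 𝓝[<] (1 : ℝ))
    (f := fun r t => Ti (circleMap 0 r t)) (f' := fun r t => I * arctan (circleMap 0 r t))
    (g' := fun t => I * arctan (circleMap 0 1 t)) ?_ ?_ (Eventually.of_forall fun y => ?_)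
  · refine Metric.tendstoUniformlyOnFilter_iff.mpr fun ε hε => ?_
    have b1 : Tendsto (fun p : ℝ × ℝ => I * arctan (circleMap 0 p.1 p.2)) (𝓝[<] 1 ×ˢ 𝓝 t)
        (𝓝 (I * arctan (circleMap 0 1 t))) :=
      hc.tendsto.comp ((hj.tendsto (1, t)).mono_left (by
        rw [nhds_prod_eq]; exact Filter.prod_mono nhdsWithin_le_nhds le_rfl))
    have b2 : Tendsto (fun p : ℝ × ℝ => I * arctan (circleMap 0 1 p.2)) (𝓝[<] 1 ×ˢ 𝓝 t)
        (𝓝 (I * arctan (circleMap 0 1 t))) :=
      (hc.tendsto.comp ((continuous_circleMap 0 1).tendsto t)).comp tendsto_snd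
    exact (b2.dist b1).eventually_lt_const (by rwa [dist_self])
  · filter_upwards [tendsto_fst.eventually (Ioo_mem_nhdsLT zero_lt_one)] with p hp
    exact Ti_circ_in (abs_lt.mpr ⟨by linarith [hp.1], hp.2⟩) _
  · refine (Ti_cont _ (circleMap_mem_closedBall 0 zero_le_one y)).tendsto.comp
      (tendsto_nhdsWithin_iff.mpr ⟨((hj.comp (Continuous.prodMk_left y)).tendsto 1).mono_left
        nhdsWithin_le_nhds, ?_⟩)
    filter_upwards [Ioo_mem_nhdsLT zero_lt_one] with r hr
    simpa using abs_le.mpr ⟨by linarith [hr.1], hr.2.le⟩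

theorem Ti_circ_cont : Continuous fun t => Ti (circleMap 0 1 t) :=
  Ti_cont.comp_continuous (continuous_circleMap 0 1) (circleMap_mem_closedBall 0 zero_le_one)

theorem Ti_re_deriv {t : ℝ} (ht : Real.cos t ≠ 0) : HasDerivAt (fun t => (Ti (circleMap 0 1 t)).re)
    (Real.log |Real.cos t / (1 + Real.sin t)| / 2) t := by
  refine (reCLM.hasFDerivAt.comp_hasDerivAt t (Ti_circ ht)).congr_deriv ?_
  rw [reCLM_apply, I_mul_re, arctan_im, (cay_circ ht).1, norm_mul, norm_I, mul_one, norm_real,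
    Real.norm_eq_abs, neg_div, neg_neg]

theorem Ti_im_right {t : ℝ} (ht : t ∈ Icc 0 (π / 2)) : (Ti (circleMap 0 1 t)).im = π / 4 * t := by
  have := constant_of_has_deriv_right_zero (a := 0) (b := π / 2)
    (f := fun t => (Ti (circleMap 0 1 t)).im - π / 4 * t)
    (((continuous_im.comp Ti_circ_cont).sub (by fun_prop)).continuousOn) (fun x hx => by
      have hc : 0 < Real.cos x := Real.cos_pos_of_mem_Ioo ⟨by linarith [hx.1, Real.pi_pos], hx.2⟩
      obtain ⟨a1, -, a3⟩ := cay_circ hc.ne'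
      refine (((imCLM.hasFDerivAt.comp_hasDerivAt x (Ti_circ hc.ne')).sub
        ((hasDerivAt_id x).const_mul (π / 4))).congr_deriv ?_).hasDerivWithinAt
      rw [imCLM_apply, I_mul_im, arctan_re, a1, arg_real_mul _ (div_pos hc a3), arg_I]
      ring) t ht
  have h0 : circleMap 0 1 0 = (1 : ℝ) := by simp [circleMap]
  simp only [h0, Ti_real] at this
  linarith

theorem circ_pi_sub (r t : ℝ) : circleMap 0 r (π - t) = -conj (circleMap 0 r t) := by
  apply Complex.ext <;> simp [circleMap_zero_re, circleMap_zero_im]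

theorem Ti_im_left {t : ℝ} (ht : t ∈ Icc (π / 2) π) :
    (Ti (circleMap 0 1 t)).im = π / 4 * (π - t) := by
  rw [← Ti_im_right ⟨by linarith [ht.2], by linarith [ht.1]⟩, circ_pi_sub, Ti_neg, Ti_conj]
  simp

theorem Ti_re_le {t : ℝ} (ht : t ∈ Icc 0 (π / 2)) : (Ti (circleMap 0 1 t)).re ≤ catalanG := by
  have hd : ∀ x ∈ interior (Icc 0 (π / 2)), 0 < Real.cos x ∧ 0 < Real.sin x := fun x hx => by
    rw [interior_Icc] at hx
    exact ⟨Real.cos_pos_of_mem_Ioo ⟨by linarith [hx.1, Real.pi_pos], hx.2⟩,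
      Real.sin_pos_of_pos_of_lt_pi hx.1 (by linarith [hx.2, Real.pi_pos])⟩
  have := antitoneOn_of_deriv_nonpos (convex_Icc 0 (π / 2))
    (continuous_re.comp Ti_circ_cont).continuousOn
    (fun x hx => (Ti_re_deriv (hd x hx).1.ne').differentiableAt.differentiableWithinAt)
    (fun x hx => by
      obtain ⟨a, b⟩ := hd x hx
      refine (Ti_re_deriv a.ne').deriv.trans_le (div_nonpos_of_nonpos_of_nonneg
        (Real.log_nonpos (abs_nonneg _) ?_) two_pos.le)
      rw [abs_of_pos (by positivity), div_le_one (by positivity)]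
      linarith [Real.cos_le_one x]) (left_mem_Icc.mpr (by positivity)) ht ht.1
  have h0 : circleMap 0 1 0 = 1 := by simp [circleMap]
  simpa [h0, Ti_one] using this

theorem Ti_im_lip {r : ℝ} (hr : |r| < 1) (s t : ℝ) :
    |(Ti (circleMap 0 r t)).im - (Ti (circleMap 0 r s)).im| ≤ π / 4 * |t - s| :=
  convex_univ.norm_image_sub_le_of_norm_hasDerivWithin_le
    (f := fun t => (Ti (circleMap 0 r t)).im)
    (fun x _ => (imCLM.hasFDerivAt.comp_hasDerivAt x (Ti_circ_in hr x)).hasDerivWithinAt)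
    (fun x _ => by
      rw [imCLM_apply, I_mul_im]
      exact arctan_re_le (by simpa using hr)) (mem_univ s) (mem_univ t)

end Pool.Agent.P.BSR
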