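import Mathlib

/-! The inverse tangent integral on the closed unit disc. -/

set_option autoImplicit false

namespace Pool.Agent.P.MP_3df8df_an

open Complex Metric Set Filter Topology
open scoped Real ComplexConjugate

/-- The inverse tangent integral. -/
noncomputable def T (z : ℂ) : ℂ := ∑' k : ℕ, (-1) ^ k * z ^ (2 * k + 1) / (2 * k + 1) ^ 2

theorem hs_congr {α : Type} [AddCommMonoid α] [TopologicalSpace α] {f g : ℕ → α} {a b : α}
    (h : HasSum f a) (h1 : ∀ n, g n = f n) (h2 : b = a) : HasSum g b := by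
  rw [h2, funext h1]; exact h

theorem summ_u : Summable fun k : ℕ => 1 / ((2 * k + 1 : ℕ) : ℝ) ^ 2 :=
  (Real.summable_one_div_nat_pow.2 one_lt_two).comp_injective
    (i := fun k : ℕ => 2 * k + 1) fun a b h => by simpa using h

theorem term_le (k : ℕ) {z : ℂ} (hz : ‖z‖ ≤ 1) :
    ‖(-1) ^ k * z ^ (2 * k + 1) / (2 * k + 1) ^ 2‖ ≤ 1 / ((2 * k + 1 : ℕ) : ℝ) ^ 2 := by
  have : (2 * k + 1 : ℂ) = ((2 * k + 1 : ℕ) : ℂ) := by push_cast; ring
  rw [this, norm_div, norm_mul, norm_pow, norm_pow, norm_pow, norm_neg, norm_one, one_pow, one_mul,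
    Complex.norm_natCast]
  gcongr
  exact pow_le_one₀ (norm_nonneg _) hz

theorem T_cont : ContinuousOn T (closedBall 0 1) :=
  continuousOn_tsum (fun k => by fun_prop) summ_u fun k z hz => term_le k (by simpa using hz)

theorem T_diff : DifferentiableOn ℂ T (ball 0 1) :=
  differentiableOn_tsum_of_summable_norm summ_u (fun k => by fun_prop) isOpen_ball
    fun k z hz => term_le k (by simpa using (mem_ball_zero_iff.1 hz).le)

theorem T_hasSum {z : ℂ} (hz : ‖z‖ ≤ 1) :
    HasSum (fun k : ℕ => (-1) ^ k * z ^ (2 * k + 1) / (2 * k + 1) ^ 2) (T z) :=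
  (Summable.of_norm_bounded summ_u fun k => term_le k hz).hasSum

theorem T_zero : T 0 = 0 := by simp [T]

theorem T_conj (z : ℂ) : T (conj z) = conj (T z) := by
  simp only [T, conj_tsum, map_div₀, map_mul, map_pow, map_neg, map_one, map_add, map_natCast,
    map_ofNat]

theorem T_deriv_hasSum {z : ℂ} (hz : ‖z‖ < 1) :
    HasSum (fun k : ℕ => (-1) ^ k * z ^ (2 * k) / (2 * k + 1)) (deriv T z) := by
  have := hasSum_deriv_of_summable_norm summ_u
    (F := fun (k : ℕ) (z : ℂ) => (-1) ^ k * z ^ (2 * k + 1) / (2 * k + 1) ^ 2)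
    (fun k => by fun_prop) isOpen_ball
    (fun k z hz => term_le k (by simpa using (mem_ball_zero_iff.1 hz).le))
    (mem_ball_zero_iff.2 hz)
  refine hs_congr this (fun k => ?_) rfl
  have h : (2 * k + 1 : ℂ) ≠ 0 := by exact_mod_cast (by omega : 2 * k + 1 ≠ 0)
  rw [(((hasDerivAt_pow (2 * k + 1) z).const_mul ((-1) ^ k)).div_const ((2 * k + 1) ^ 2)).deriv]
  push_cast
  field_simp

theorem T_deriv_zero : deriv T 0 = 1 := by
  refine (T_deriv_hasSum (z := 0) (by simp)).unique ?_
  convert hasSum_single 0 _ using 1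
  · simp
  · intro k hk; simp [hk]

theorem mul_T_deriv {z : ℂ} (hz : ‖z‖ < 1) : z * deriv T z = arctan z := by
  refine ((T_deriv_hasSum hz).mul_left z).unique ?_
  refine hs_congr (hasSum_arctan hz) (fun k => ?_) rfl
  push_cast; ring

theorem T_hasDerivAt {z : ℂ} (hz : ‖z‖ < 1) : HasDerivAt T (deriv T z) z :=
  (T_diff.differentiableAt (isOpen_ball.mem_nhds (mem_ball_zero_iff.2 hz))).hasDerivAt

theorem one_add_ne {z : ℂ} (hz : ‖z‖ < 1) : 1 + z ≠ 0 := fun h => by
  have : z = -1 := by linear_combination h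
  simp [this] at hz

theorem arctan_im_nonneg {z : ℂ} (hz : ‖z‖ < 1) (h : 0 ≤ z.im) : 0 ≤ (arctan z).im := by
  have h1 : 1 + z * I ≠ 0 := one_add_ne (by simpa using hz)
  have h2 : 1 - z * I ≠ 0 := by
    rw [sub_eq_add_neg]; exact one_add_ne (by simpa using hz)
  have h3 : ‖(1 + z * I) / (1 - z * I)‖ ≤ 1 := by
    rw [norm_div, div_le_one (norm_pos_iff.2 h2), ← sq_le_sq₀ (norm_nonneg _) (norm_nonneg _),
      Complex.sq_norm, Complex.sq_norm]
    simp [normSq_apply]; nlinarith
  have h4 := Real.log_nonpos (norm_nonneg _) h3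
  simp only [arctan, mul_im, div_ofNat_re, div_ofNat_im, neg_re, I_re, neg_im, I_im, log_re]
  linarith

theorem norm_mul_lt {r : ℝ} {z : ℂ} (h0 : 0 ≤ r) (h1 : r < 1) (hz : ‖z‖ ≤ 1) : ‖r * z‖ < 1 := by
  rw [norm_mul, Complex.norm_real, Real.norm_of_nonneg h0]
  nlinarith [norm_nonneg z]

theorem radial_cont {z : ℂ} (hz : ‖z‖ ≤ 1) : ContinuousOn (fun r : ℝ => T (r * z)) (Icc 0 1) :=
  T_cont.comp (by fun_prop) fun r hr => by
    rw [mem_closedBall_zero_iff, norm_mul, Complex.norm_real, Real.norm_of_nonneg hr.1]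
    nlinarith [norm_nonneg z, hr.1, hr.2]

/-- The imaginary part increases along radii in the upper half disc. -/
theorem T_im_mono {z : ℂ} (hz : ‖z‖ ≤ 1) (h : 0 ≤ z.im) :
    MonotoneOn (fun r : ℝ => (T (r * z)).im) (Icc 0 1) := by
  have hd : ∀ r ∈ interior (Icc (0 : ℝ) 1),
      HasDerivAt (fun r : ℝ => (T (r * z)).im) (deriv T (r * z) * z).im r := by
    intro r hr
    rw [interior_Icc] at hr
    have h1 := ((T_hasDerivAt (norm_mul_lt hr.1.le hr.2 hz)).comp (r : ℂ)
      (hasDerivAt_mul_const z)).comp_ofReal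
    exact imCLM.hasFDerivAt.comp_hasDerivAt r h1
  refine monotoneOn_of_deriv_nonneg (convex_Icc _ _) (continuous_im.comp_continuousOn
    (radial_cont hz)) (fun r hr => (hd r hr).differentiableAt.differentiableWithinAt) fun r hr => ?_
  rw [(hd r hr).deriv]
  rw [interior_Icc] at hr
  have h1 := arctan_im_nonneg (norm_mul_lt hr.1.le hr.2 hz) (by simpa using mul_nonneg hr.1.le h)
  rw [← mul_T_deriv (norm_mul_lt hr.1.le hr.2 hz), mul_assoc, mul_comm z, im_ofReal_mul] at h1
  exact nonneg_of_mul_nonneg_right (by linarith) hr.1 |> fun h => by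
    by_contra hc
    nlinarith [hr.1, not_le.1 hc]

theorem norm_e (t : ℝ) : ‖cexp (t * I)‖ = 1 := norm_exp_ofReal_mul_I t

/-- The real part decreases along the upper half circle. -/
theorem T_re_anti : AntitoneOn (fun t : ℝ => (T (cexp (t * I))).re) (Icc 0 π) := by
  have key : ∀ r : ℝ, 0 ≤ r → r < 1 →
      AntitoneOn (fun t : ℝ => (T (r * cexp (t * I))).re) (Icc 0 π) := by
    intro r h0 h1
    have hd : ∀ t : ℝ, HasDerivAt (fun t : ℝ => (T (r * cexp (t * I))).re)
        (deriv T (r * cexp (t * I)) * (r * (cexp (t * I) * I))).re t := by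
      intro t
      have h1 := ((T_hasDerivAt (norm_mul_lt h0 h1 (norm_e t).le)).comp (t : ℂ)
        ((hasDerivAt_mul_const I).cexp.const_mul (r : ℂ))).comp_ofReal
      exact reCLM.hasFDerivAt.comp_hasDerivAt t h1
    refine antitoneOn_of_deriv_nonpos (convex_Icc _ _)
      (fun t _ => (hd t).continuousAt.continuousWithinAt)
      (fun t _ => (hd t).differentiableAt.differentiableWithinAt) fun t ht => ?_
    rw [interior_Icc] at ht
    have h2 := arctan_im_nonneg (norm_mul_lt h0 h1 (norm_e t).le) (by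
      simpa [exp_ofReal_mul_I_im] using
        mul_nonneg h0 (Real.sin_nonneg_of_nonneg_of_le_pi ht.1.le ht.2.le))
    rw [← mul_T_deriv (norm_mul_lt h0 h1 (norm_e t).le)] at h2
    rw [(hd t).deriv, ← mul_assoc, ← mul_assoc, mul_I_re, mul_assoc, mul_comm]
    linarith
  intro a ha b hb hab
  have lim : ∀ t : ℝ, Tendsto (fun r : ℝ => (T (r * cexp (t * I))).re) (𝓝[Ico 0 1] 1)
      (𝓝 (T (cexp (t * I))).re) := fun t => by
    have := ((continuous_re.comp_continuousOn (radial_cont (norm_e t).le)) 1 (by simp)).tendsto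
    simpa [Function.comp_def] using this.mono_left (nhdsWithin_mono _ Ico_subset_Icc_self)
  have : (𝓝[Ico (0 : ℝ) 1] 1).NeBot := right_nhdsWithin_Ico_neBot one_pos
  exact le_of_tendsto_of_tendsto (lim b) (lim a) (eventually_nhdsWithin_of_forall fun r hr =>
    key r hr.1 hr.2 ha hb hab)

theorem hasSum_cos {x : ℝ} (h0 : 0 ≤ x) (h1 : x ≤ 2 * π) :
    HasSum (fun n : ℕ => 1 / (n : ℝ) ^ 2 * Real.cos (n * x)) (x ^ 2 / 4 - π * x / 2 + π ^ 2 / 6) := by
  have hp := Real.pi_pos
  have := hasSum_one_div_nat_pow_mul_cos (k := 1) one_ne_zero (x := x / (2 * π))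
    ⟨by positivity, by rw [div_le_one (by positivity)]; exact h1⟩
  convert this using 1
  · funext n; congr 2; field_simp
  · simp [Polynomial.bernoulli, Finset.sum_range_succ, bernoulli_one, bernoulli_two,
      Nat.factorial]
    field_simp; ring

theorem T_im_hasSum (t : ℝ) : HasSum (fun n : ℕ => (1 / (n : ℝ) ^ 2 * Real.cos (n * (π / 2 - t)) -
    1 / (n : ℝ) ^ 2 * Real.cos (n * (π / 2 + t))) / 2) (T (cexp (t * I))).im := by
  have h := hasSum_im (T_hasSum (norm_e t).le)
  have e : ∀ n : ℕ, (1 / (n : ℝ) ^ 2 * Real.cos (n * (π / 2 - t)) -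
      1 / (n : ℝ) ^ 2 * Real.cos (n * (π / 2 + t))) / 2 =
      Real.sin (n * (π / 2)) * Real.sin (n * t) / n ^ 2 := fun n => by
    rw [mul_sub, mul_add, Real.cos_sub, Real.cos_add]; ring
  simp only [e]
  refine (Function.Injective.hasSum_iff (g := fun k : ℕ => 2 * k + 1)
    (fun a b h => by simpa using h) fun n hn => ?_).1 ?_
  · obtain ⟨k, rfl | rfl⟩ := Nat.even_or_odd' n
    · rw [show ((2 * k : ℕ) : ℝ) * (π / 2) = k * π by push_cast; ring, Real.sin_nat_mul_pi]; simp
    · exact absurd ⟨k, rfl⟩ hn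
  · convert h using 2 with k
    have e1 : (2 * k + 1 : ℂ) ^ 2 = ((((2 * k + 1 : ℕ) : ℝ) ^ 2 : ℝ) : ℂ) := by push_cast; ring
    have e2 : ((-1 : ℂ)) ^ k = (((-1 : ℝ) ^ k : ℝ) : ℂ) := by push_cast; ring
    have e3 : cexp (t * I) ^ (2 * k + 1) = cexp ((((2 * k + 1 : ℕ) : ℝ) * t : ℝ) * I) := by
      rw [← exp_nat_mul]; push_cast; ring_nf
    rw [e1, e2, e3, div_ofReal_im, im_ofReal_mul, exp_ofReal_mul_I_im, Function.comp,
      show ((2 * k + 1 : ℕ) : ℝ) * (π / 2) = π / 2 + k * π by push_cast; ring,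
      Real.sin_add_nat_mul_pi, Real.sin_pi_div_two, mul_one]

theorem T_im_left {t : ℝ} (h0 : 0 ≤ t) (h1 : t ≤ π / 2) : (T (cexp (t * I))).im = π * t / 4 := by
  have hp := Real.pi_pos
  refine (T_im_hasSum t).unique ?_
  exact hs_congr (((hasSum_cos (x := π / 2 - t) (by linarith) (by linarith)).sub
    (hasSum_cos (x := π / 2 + t) (by linarith) (by linarith))).div_const 2) (fun _ => rfl)
    (by ring)

theorem T_im_right {t : ℝ} (h0 : π / 2 ≤ t) (h1 : t ≤ π) :
    (T (cexp (t * I))).im = π * (π - t) / 4 := by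
  have hp := Real.pi_pos
  refine (T_im_hasSum t).unique ?_
  refine hs_congr (((hasSum_cos (x := t - π / 2) (by linarith) (by linarith)).sub
    (hasSum_cos (x := π / 2 + t) (by linarith) (by linarith))).div_const 2) (fun n => ?_)
    (by ring)
  rw [← Real.cos_neg (n * (π / 2 - t)), ← mul_neg, neg_sub]

theorem T_deriv_re_nonneg {z : ℂ} (hz : ‖z‖ < 1) : 0 ≤ (deriv T z).re := by
  by_cases h0 : z = 0
  · simp [h0, T_deriv_zero]
  have hs : ∀ s : ℝ, s ∈ Icc (0 : ℝ) 1 → ‖s * z‖ < 1 := fun s hs => by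
    rw [norm_mul, Complex.norm_real, Real.norm_of_nonneg hs.1]
    nlinarith [norm_nonneg z, hs.1, hs.2]
  have hd : ∀ s ∈ Icc (0 : ℝ) 1, HasDerivAt (fun s : ℝ =>
      (-I / 2 * (log (1 + s * z * I) - log (1 - s * z * I)) / z).re) (1 / (1 + (s * z) ^ 2)).re s := by
    intro s h
    have h1 : ‖s * z * I‖ < 1 := by simpa using hs s h
    have n1 : 1 + s * z * I ≠ 0 := one_add_ne h1
    have n2 : 1 - s * z * I ≠ 0 := by rw [sub_eq_add_neg]; exact one_add_ne (by simpa using h1)
    have d1 : HasDerivAt (fun w : ℂ => w * z * I) (z * I) s := by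
      simpa using ((hasDerivAt_id (s : ℂ)).mul_const z).mul_const I
    have h2 := ((((d1.const_add 1).clog (mem_slitPlane_of_norm_lt_one h1)).sub
      ((d1.const_sub 1).clog (by
        rw [sub_eq_add_neg]; exact mem_slitPlane_of_norm_lt_one (by simpa using h1)))).const_mul
      (-I / 2)).div_const z
    have e : -I / 2 * (z * I / (1 + s * z * I) - -(z * I) / (1 - s * z * I)) / z =
        1 / (1 + (s * z) ^ 2) := by
      have : 1 + (s * z) ^ 2 = (1 + s * z * I) * (1 - s * z * I) := by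
        linear_combination (s * z) ^ 2 * I_sq
      rw [this]
      generalize hA : 1 + s * z * I = A at n1
      generalize hB : 1 - s * z * I = B at n2
      field_simp
      linear_combination (-A - B) * I_sq - hA - hB
    rw [e] at h2
    exact reCLM.hasFDerivAt.comp_hasDerivAt s h2.comp_ofReal
  have hm := monotoneOn_of_deriv_nonneg (convex_Icc (0 : ℝ) 1)
    (fun s h => (hd s h).continuousAt.continuousWithinAt)
    (fun s h => (hd s (interior_subset h)).differentiableAt.differentiableWithinAt) fun s h => by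
      rw [(hd s (interior_subset h)).deriv, one_div, inv_re]
      refine div_nonneg ?_ (normSq_nonneg _)
      have h1 := abs_re_le_norm ((s * z) ^ 2)
      have h2 : ‖(s * z : ℂ) ^ 2‖ ≤ 1 := by
        rw [norm_pow]; exact pow_le_one₀ (norm_nonneg _) (hs s (interior_subset h)).le
      rw [add_re, one_re]; linarith [neg_abs_le ((s * z : ℂ) ^ 2).re]
  have h1 := hm (left_mem_Icc.2 one_pos.le) (right_mem_Icc.2 one_pos.le) one_pos.le
  simp only [ofReal_zero, zero_mul, add_zero, sub_zero, sub_self, mul_zero, zero_div, zero_re,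
    ofReal_one, one_mul] at h1
  rwa [sub_eq_add_neg (log _), hasSum_arctan_aux hz, ← arctan, ← mul_T_deriv hz,
    mul_div_cancel_left₀ _ h0] at h1

end Pool.Agent.P.MP_3df8df_an
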