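import Pool.Agent.P.MP_3df8df_an.Dist
import Pool.Agent.P.MP_3df8df_an.Defs

/-! Upper bounds for the coefficients in the real-coefficient subclass. -/

set_option autoImplicit false

namespace Pool.Agent.P.MP_3df8df_an

open Complex Metric Set Filter Topology
open scoped Real ComplexConjugate

theorem iter_dil (g : ℂ → ℂ) (c : ℂ) (k : ℕ) :
    iteratedDeriv k (fun z => g (c * z)) = fun z => c ^ k * iteratedDeriv k g (c * z) := by
  induction k with
  | zero => simp
  | succ k ih =>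
    ext z
    rw [iteratedDeriv_succ, ih, deriv_const_mul_field, deriv_comp_mul_left, iteratedDeriv_succ,
      smul_eq_mul]
    ring

theorem sym_of_real {f : ℂ → ℂ} (hd : DifferentiableOn ℂ f (ball 0 1))
    (hr : ∀ n, (coeff f n).im = 0) : ∀ z ∈ ball (0 : ℂ) 1, f (conj z) = conj (f z) := by
  intro z hz
  have h1 := hasSum_taylorSeries_on_ball hd hz
  have h2 := hasSum_taylorSeries_on_ball hd (show conj z ∈ ball (0 : ℂ) 1 by simpa using hz)
  refine h2.unique (hs_congr (h1.map conjCLE conjCLE.continuous) (fun n => ?_) rfl)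
  have := conj_eq_iff_im.2 (hr n)
  simp only [coeff, map_div₀, map_natCast] at this
  rw [div_left_inj' (by exact_mod_cast n.factorial_ne_zero)] at this
  simp [this]

theorem sign_lemma {g : ℂ → ℂ} (hc : ContinuousOn g (ball 0 1)) (hi : InjOn g (ball 0 1))
    (hs : ∀ z ∈ ball (0 : ℂ) 1, g (conj z) = conj (g z)) :
    (∀ z ∈ ball (0 : ℂ) 1, 0 ≤ z.im → 0 ≤ (g z).im) ∨
      (∀ z ∈ ball (0 : ℂ) 1, 0 ≤ z.im → (g z).im ≤ 0) := by
  have h0 : ∀ z ∈ ball (0 : ℂ) 1, z.im = 0 → (g z).im = 0 := fun z hz h => by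
    have := hs z hz
    rw [conj_eq_iff_im.2 h] at this
    exact conj_eq_iff_im.1 this.symm
  by_contra hn
  push Not at hn
  obtain ⟨⟨a, ha, ha1, ha2⟩, b, hb, hb1, hb2⟩ := hn
  have hU : IsPreconnected (ball (0 : ℂ) 1 ∩ {z | 0 < z.im}) :=
    ((convex_ball _ _).inter (convex_halfSpace_im_gt 0)).isPreconnected
  obtain ⟨c, hc1, hc2⟩ := hU.intermediate_value
    (⟨ha, lt_of_le_of_ne ha1 fun h => ha2.ne (h0 a ha h.symm)⟩ : a ∈ ball (0 : ℂ) 1 ∩ {z | 0 < z.im})
    (⟨hb, lt_of_le_of_ne hb1 fun h => hb2.ne' (h0 b hb h.symm)⟩ : b ∈ ball (0 : ℂ) 1 ∩ {z | 0 < z.im})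
    (continuous_im.comp_continuousOn (hc.mono inter_subset_left)) ⟨ha2.le, hb2.le⟩
  have h1 := hs c hc1.1
  rw [conj_eq_iff_im.2 hc2] at h1
  exact hc1.2.ne' (conj_eq_iff_im.1 (hi (by simpa using hc1.1) hc1.1 h1))

theorem slope_nonneg {φ : ℝ → ℝ} {c : ℝ} (hd : HasDerivAt φ c 0) (h0 : φ 0 = 0)
    (h : ∀ᶠ y in 𝓝[>] (0 : ℝ), 0 ≤ φ y) : 0 ≤ c := by
  have h1 := hd.hasDerivWithinAt (s := Ioi 0)
  rw [hasDerivWithinAt_iff_tendsto_slope' (by simp)] at h1
  refine ge_of_tendsto h1 ((h.and self_mem_nhdsWithin).mono fun y hy => ?_)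
  simp only [slope_def_field, h0, sub_zero]
  exact div_nonneg hy.1 (le_of_lt hy.2)

theorem re_deriv_nonneg {g : ℂ → ℂ} (hd : DifferentiableOn ℂ g (ball 0 1))
    (hs : ∀ z ∈ ball (0 : ℂ) 1, g (conj z) = conj (g z))
    (h : ∀ z ∈ ball (0 : ℂ) 1, 0 ≤ z.im → 0 ≤ (g z).im) {x : ℝ} (hx : |x| < 1) :
    0 ≤ (deriv g x).re := by
  have hx' : (x : ℂ) ∈ ball (0 : ℂ) 1 := by simpa using hx
  have h1 : HasDerivAt g (deriv g x) (((0 : ℝ) : ℂ) * I + x) := by
    simpa using (hd.differentiableAt (isOpen_ball.mem_nhds hx')).hasDerivAt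
  have h2 := imCLM.hasFDerivAt.comp_hasDerivAt (0 : ℝ)
    (h1.comp ((0 : ℝ) : ℂ) ((hasDerivAt_mul_const I).add_const (x : ℂ))).comp_ofReal
  refine slope_nonneg (h2.congr_deriv (by simp)) ?_ ?_
  · have := hs x hx'
    rw [conj_ofReal] at this
    simpa using conj_eq_iff_im.1 this.symm
  · filter_upwards [Ioo_mem_nhdsGT (sub_pos.2 hx)] with y hy
    refine h (y * I + x) ?_ (by simpa using hy.1.le)
    rw [mem_ball_zero_iff]
    refine (norm_add_le _ _).trans_lt ?_
    simp only [norm_mul, norm_real, norm_I, Real.norm_eq_abs, abs_of_pos hy.1]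
    linarith [hy.2]

/-- Reduction to the class `InK`, by the reflection `f ↦ -f(-z)` if necessary. -/
theorem InSR.exists_K {f : ℂ → ℂ} (hf : InSR f) :
    ∃ g, InK g ∧ ∀ n, ‖coeff f n‖ = |(coeff g n).re| := by
  obtain ⟨hf, hr⟩ := hf
  have hs := sym_of_real hf.diff hr
  have hd := hf.diff.deriv isOpen_ball
  have im0 : ∀ z ∈ ball (0 : ℂ) 1, 0 ≤ z.im → 0 ≤ (f z).im := by
    refine (sign_lemma hf.diff.continuousOn hf.inj hs).resolve_right fun h => ?_
    have := re_deriv_nonneg hf.diff.neg (fun z hz => by simp [hs z hz])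
      (fun z hz hz' => by simpa using h z hz hz') (x := 0) (by simp)
    norm_num [hf.one] at this
  have nr : ∀ n, ‖coeff f n‖ = |(coeff f n).re| := fun n => (abs_re_eq_norm.2 (hr n)).symm
  rcases sign_lemma hd.continuousOn hf.inj' (sym_deriv hs) with h | h
  · exact ⟨f, ⟨hf.diff, hs, hf.one, im0, h⟩, nr⟩
  · have e : deriv (fun z => -f (-z)) = fun z => deriv f (-z) := by
      ext z; simp [deriv_comp_neg]
    refine ⟨fun z => -f (-z), ⟨(hf.diff.comp (by fun_prop) fun z hz => by simpa using hz).neg,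
      fun z hz => ?_, by simp [e, hf.one], fun z hz hz' => ?_, fun z hz hz' => ?_⟩,
      fun n => ?_⟩
    · rw [← map_neg, hs _ (by simpa using hz), map_neg]
    · have := im0 (conj (-z)) (by simpa using hz) (by simpa using hz')
      rwa [hs _ (by simpa using hz), conj_im, ← neg_im] at this
    · have := h (conj (-z)) (by simpa using hz) (by simpa using hz')
      rw [sym_deriv hs _ (by simpa using hz), conj_im] at this
      rw [e]; linarith
    · rw [nr, coeff, coeff, iteratedDeriv_fun_neg, iteratedDeriv_comp_neg]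
      rcases neg_one_pow_eq_or ℂ n with h | h <;> simp [h, neg_div]

theorem H_deriv : HasDerivAt H (-3 - 2 / π) 0 := by
  have h1 := ((hasDerivAt_id (0 : ℂ)).const_sub 1).pow 3
  have h2 := ((T_hasDerivAt (z := 0) (by simp)).const_mul (-(2 / π) : ℂ)).cexp
  refine (h1.mul h2).congr_deriv ?_
  simp [T_zero, T_deriv_zero, sub_eq_add_neg]

theorem InK.a2_le {f : ℂ → ℂ} (hf : InK f) : |(coeff f 2).re| ≤ 3 / 2 + 1 / π := by
  have hd := hf.diff.deriv isOpen_ball
  have h0 := re_deriv_nonneg hd (sym_deriv hf.sym) hf.im1 (x := 0) (by simp)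
  have h1 : HasDerivAt (fun z => deriv f z * H z) _ ((0 : ℝ) : ℂ) :=
    (hd.differentiableAt (ball_mem_nhds _ one_pos)).hasDerivAt.mul H_deriv
  have h2 := ((hasDerivAt_pow 2 (0 : ℝ)).const_sub 1).sub
    (reCLM.hasFDerivAt.comp_hasDerivAt (0 : ℝ) h1.comp_ofReal)
  have h3 := slope_nonneg h2 (by simp [hf.one, H, T_zero])
    (mem_of_superset (Ioo_mem_nhdsGT one_pos) fun y hy => sub_nonneg.2 (hf.dist hy.1 hy.2))
  have h4 : (2 / π : ℂ).re = 2 / π := by rw [div_ofReal_re]; simp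
  have h5 : (coeff f 2).re = (deriv (deriv f) 0).re / 2 := by
    simp [coeff, iteratedDeriv_succ]
  simp [hf.one, H, T_zero, h4] at h3 h0
  have h6 : 2 / π = 2 * (1 / π) := by ring
  rw [h5, abs_of_nonneg (by linarith)]
  linarith

theorem abs_sin_nat_mul (N : ℕ) (t : ℝ) : |Real.sin (N * t)| ≤ N * |Real.sin t| := by
  induction N with
  | zero => simp
  | succ N ih =>
    push_cast
    rw [add_mul, one_mul, Real.sin_add, add_mul, one_mul]
    refine (abs_add_le _ _).trans (add_le_add ?_ ?_) <;> rw [abs_mul]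
    · exact (mul_le_of_le_one_right (abs_nonneg _) (Real.abs_cos_le_one _)).trans ih
    · exact mul_le_of_le_one_left (abs_nonneg _) (Real.abs_cos_le_one _)

theorem sin_bound {N : ℕ} {β x t : ℝ} (hβ : 0 < β) (h0 : 0 < x) (h1 : x < 1)
    (hN : N * (1 - x) * β ^ 3 = 2) (ht : t ∈ Icc 0 π) :
    |Real.sin (N * t)| ≤ N * ((1 - x) ^ 2 * (Real.sin t / (1 - 2 * x * Real.cos t + x ^ 2)) +
      ((1 - x) ^ 2 + 4 * β ^ 2) * (Real.sin t / (1 - 2 * -x * Real.cos t + (-x) ^ 2))) := by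
  have hs := Real.sin_nonneg_of_nonneg_of_le_pi ht.1 ht.2
  have d1 := den_pos h0.le h1 t
  have d2 := den_pos' (x := -x) (by rwa [abs_neg, abs_of_pos h0]) t
  have hu : 0 < 1 - x := by linarith
  have A : ∀ w : ℝ, 0 ≤ w → 2 * w ≤ β * (1 - x) →
      1 ≤ (1 - x) ^ 2 / ((1 - x) ^ 2 + 4 * x * w ^ 2) + β ^ 2 := fun w hw h => by
    have e1 : 4 * x * w ^ 2 ≤ β ^ 2 * (1 - x) ^ 2 := by nlinarith [sq_nonneg w]
    rw [← sub_le_iff_le_add, le_div_iff₀ (by positivity)]
    nlinarith [mul_nonneg (sq_nonneg β) (show 0 ≤ 4 * x * w ^ 2 by positivity)]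
  have s0 := Real.sin_nonneg_of_nonneg_of_le_pi (x := t / 2) (by linarith [ht.1])
    (by linarith [ht.1, ht.2])
  have c0 := Real.cos_nonneg_of_neg_pi_div_two_le_of_le (x := t / 2)
    (by linarith [ht.1, Real.pi_pos]) (by linarith [ht.2])
  have e1 : 1 - 2 * x * Real.cos t + x ^ 2 = (1 - x) ^ 2 + 4 * x * Real.sin (t / 2) ^ 2 := by
    rw [Real.sin_sq_eq_half_sub, show 2 * (t / 2) = t by ring]; ring
  have e2 : 1 - 2 * -x * Real.cos t + (-x) ^ 2 = (1 - x) ^ 2 + 4 * x * Real.cos (t / 2) ^ 2 := by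
    rw [Real.cos_sq, show 2 * (t / 2) = t by ring]; ring
  have e3 : Real.sin t = 2 * Real.sin (t / 2) * Real.cos (t / 2) := by
    rw [← Real.sin_two_mul]; ring_nf
  have b1 : β ^ 2 ≤ 4 * β ^ 2 / (1 - 2 * -x * Real.cos t + (-x) ^ 2) := by
    rw [le_div_iff₀ d2]
    have : 1 - 2 * -x * Real.cos t + (-x) ^ 2 ≤ 4 := by nlinarith [Real.cos_le_one t]
    nlinarith [sq_nonneg β]
  have b2 := div_nonneg (sq_nonneg (1 - x)) d1.le
  have b3 := div_nonneg (sq_nonneg (1 - x)) d2.le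
  have key : |Real.sin (N * t)| ≤ N * Real.sin t * ((1 - x) ^ 2 / (1 - 2 * x * Real.cos t + x ^ 2) +
      (1 - x) ^ 2 / (1 - 2 * -x * Real.cos t + (-x) ^ 2) + β ^ 2) := by
    have k1 := abs_sin_nat_mul N t
    rw [abs_of_nonneg hs] at k1
    by_cases a1 : 2 * Real.sin (t / 2) ≤ β * (1 - x)
    · have := A _ s0 a1
      rw [← e1] at this
      exact k1.trans (le_mul_of_one_le_right (by positivity) (by linarith))
    by_cases a2 : 2 * Real.cos (t / 2) ≤ β * (1 - x)
    · have := A _ c0 a2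
      rw [← e2] at this
      exact k1.trans (le_mul_of_one_le_right (by positivity) (by linarith))
    have k2 : β * (1 - x) ≤ 2 * Real.sin t := by
      have := Real.sin_sq_add_cos_sq (t / 2)
      rw [e3]
      rcases le_total (Real.sin (t / 2)) (Real.cos (t / 2)) with h | h
      · have : 1 ≤ 2 * Real.cos (t / 2) := by nlinarith
        nlinarith
      · have : 1 ≤ 2 * Real.sin (t / 2) := by nlinarith
        nlinarith
    have k3 := mul_le_mul_of_nonneg_left k2 (show 0 ≤ N * β ^ 2 by positivity)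
    have k4 : 0 ≤ N * Real.sin t := by positivity
    nlinarith [Real.abs_sin_le_one (N * t), mul_nonneg k4 b2, mul_nonneg k4 b3]
  refine key.trans ?_
  rw [mul_assoc]
  refine mul_le_mul_of_nonneg_left ?_ N.cast_nonneg
  have := mul_le_mul_of_nonneg_left b1 hs
  simp only [div_eq_mul_inv] at this ⊢
  linarith

theorem poisson' {p : ℂ → ℂ} (hp : DiffContOnCl ℂ p (ball 0 1))
    (hs : ∀ z, ‖z‖ = 1 → p (conj z) = conj (p z)) {x : ℝ} (h0 : x ≠ 0) (h1 : |x| < 1) :
    π * (((p x).re - (p 0).re) / x) = ∫ t in (0 : ℝ)..π,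
      2 * (Real.sin t / (1 - 2 * x * Real.cos t + x ^ 2)) * (p (cexp (t * I))).im := by
  have key := poisson (J := fun z => (1 - z ^ 2) * p z)
    ⟨DifferentiableOn.mul (by fun_prop) hp.1, ContinuousOn.mul (by fun_prop) hp.2⟩
    (fun z hz => by simp [hs z hz]) h0 h1
  have k4 : 1 - x ^ 2 ≠ 0 := by nlinarith [sq_abs x, abs_nonneg x]
  rw [show (1 - (x : ℂ) ^ 2) = ((1 - x ^ 2 : ℝ) : ℂ) by push_cast; rfl, re_ofReal_mul,
    mul_div_cancel_left₀ _ k4] at key
  simp only [ne_eq, OfNat.ofNat_ne_zero, not_false_eq_true, zero_pow, sub_zero, one_mul] at key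
  rw [key]
  refine intervalIntegral.integral_congr fun t _ => ?_
  have e1 : (1 - cexp (t * I) ^ 2) * p (cexp (t * I)) / cexp (t * I) =
      ((2 * Real.sin t : ℝ) : ℂ) * (-I * p (cexp (t * I))) := by
    have m3 := e_ne t
    push_cast
    rw [Complex.sin, neg_mul (t : ℂ), exp_neg]
    field_simp
    linear_combination (p (cexp (t * I)) * (1 - cexp (t * I) ^ 2)) * I_sq
  rw [e1, re_ofReal_mul]
  simp
  ring

theorem InK.coeff_le {f : ℂ → ℂ} (hf : InK f) (k : ℕ) {β x : ℝ} (hβ : 0 < β) (h0 : 0 < x)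
    (h1 : x < 1) (hN : (k + 1 : ℕ) * (1 - x) * β ^ 3 = 2) : |(coeff f (k + 2)).re| ≤
      ((1 + x) * Real.exp (2 / π * (T x).re) + ((1 - x) ^ 2 + 4 * β ^ 2)) / x := by
  have hp := Real.pi_pos
  have hd := hf.diff.deriv isOpen_ball
  have hx : |x| < 1 := by rwa [abs_of_pos h0]
  set M := ((1 + x) * Real.exp (2 / π * (T x).re) + ((1 - x) ^ 2 + 4 * β ^ 2)) / x with hM
  have key : ∀ ρ ∈ Ioo (0 : ℝ) 1, ρ ^ (k + 1) * |(coeff f (k + 2)).re| ≤ M := by
    intro ρ ⟨r0, r1⟩
    have pd := dil_dc hd r0.le r1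
    have ps : ∀ z : ℂ, ‖z‖ = 1 → deriv f (ρ * conj z) = conj (deriv f (ρ * z)) := fun z hz => by
      simpa using sym_deriv hf.sym _ (mem_ball_zero_iff.2 (norm_mul_lt r0.le r1 hz.le))
    have hb : ∀ t : ℝ, (ρ : ℂ) * cexp (t * I) ∈ ball (0 : ℂ) 1 := fun t =>
      mem_ball_zero_iff.2 (norm_mul_lt r0.le r1 (norm_e t).le)
    have hv : ∀ t ∈ Icc (0 : ℝ) π, 0 ≤ (deriv f (ρ * cexp (t * I))).im := fun t ht =>
      hf.im1 _ (hb t) (by
        simpa [exp_ofReal_mul_I_im] using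
          mul_nonneg r0.le (Real.sin_nonneg_of_nonneg_of_le_pi ht.1 ht.2))
    have vc : Continuous fun t : ℝ => (deriv f (ρ * cexp (t * I))).im :=
      continuous_im.comp (hd.continuousOn.comp_continuous (by fun_prop) hb)
    have c1 := coeff_int pd ps k
    have p1 := poisson' pd ps h0.ne' hx
    have p2 := poisson' pd ps (x := -x) (neg_ne_zero.2 h0.ne') (by rwa [abs_neg])
    have ic : ∀ y : ℝ, |y| < 1 → IntervalIntegrable (fun t : ℝ => 2 * (Real.sin t /
        (1 - 2 * y * Real.cos t + y ^ 2)) * (deriv f (ρ * cexp (t * I))).im)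
        MeasureTheory.volume 0 π := fun y hy =>
      ((continuous_const.mul (Real.continuous_sin.div (by fun_prop)
        fun t => (den_pos' hy t).ne')).mul vc).intervalIntegrable _ _
    have i1 := ((ic x hx).const_mul ((1 - x) ^ 2))
    have i2 := ((ic (-x) (by rwa [abs_neg])).const_mul ((1 - x) ^ 2 + 4 * β ^ 2))
    have b1 := intervalIntegral.norm_integral_le_of_norm_le hp.le
      (f := fun t => 2 * Real.sin ((k + 1 : ℕ) * t) * (deriv f (ρ * cexp (t * I))).im)
      (Eventually.of_forall fun t ht => ?_) ((i1.add i2).const_mul ((k + 1 : ℕ) : ℝ))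
    · rw [← c1, intervalIntegral.integral_const_mul, intervalIntegral.integral_add i1 i2,
        intervalIntegral.integral_const_mul, intervalIntegral.integral_const_mul, ← p1, ← p2,
        iter_dil] at b1
      have e1 : (ρ : ℂ) ^ (k + 1) * iteratedDeriv (k + 1) (deriv f) 0 / (k + 1).factorial =
          ((ρ ^ (k + 1) * (k + 2) : ℝ) : ℂ) * coeff f (k + 2) := by
        rw [coeff, iteratedDeriv_succ' (n := k + 1), Nat.factorial_succ (k + 1)]
        have : ((k + 1).factorial : ℂ) ≠ 0 := by exact_mod_cast (k + 1).factorial_ne_zero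
        have : ((k + 1 + 1 : ℕ) : ℂ) ≠ 0 := by exact_mod_cast (k + 1).succ_ne_zero
        rw [Nat.cast_mul]
        field_simp
        push_cast; ring
      simp only [e1, re_ofReal_mul, mul_zero, hf.one, one_re, Real.norm_eq_abs, abs_mul,
        abs_of_pos hp, abs_of_pos (pow_pos r0 (k + 1)),
        abs_of_pos (show (0 : ℝ) < k + 2 by positivity)] at b1
      have q1 := re_deriv_nonneg hf.diff hf.sym hf.im0 (x := ρ * -x) (by
        rw [abs_mul, abs_neg, abs_of_pos h0, abs_of_pos r0]; nlinarith)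
      rw [ofReal_mul] at q1
      have q2 := hf.dist_dil r0 r1 h0 h1
      have q3 : H x = (((1 - x) ^ 3 * Real.exp (-(2 / π * (T x).re)) : ℝ) : ℂ) := by
        have := T_conj x
        rw [conj_ofReal] at this
        rw [H]; push_cast; rw [conj_eq_iff_re.1 this.symm, neg_mul]
      rw [q3, re_mul_ofReal, Real.exp_neg, ← mul_assoc, mul_inv_le_iff₀ (Real.exp_pos _)] at q2
      have q4 : (1 - x) ^ 2 * (deriv f (ρ * x)).re ≤ (1 + x) * Real.exp (2 / π * (T x).re) :=
        le_of_mul_le_mul_left (by linarith) (sub_pos.2 h1)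
      have q5 : (1 - x) ^ 2 * (((deriv f (ρ * x)).re - 1) / x) + ((1 - x) ^ 2 + 4 * β ^ 2) *
          (((deriv f (ρ * ((-x : ℝ) : ℂ))).re - 1) / -x) ≤ M := by
        rw [hM, div_neg, ← neg_div, ← mul_div_assoc, ← mul_div_assoc, ← add_div]
        refine div_le_div_of_nonneg_right ?_ h0.le
        nlinarith [mul_nonneg (show 0 ≤ (1 - x) ^ 2 + 4 * β ^ 2 by positivity) q1, sq_nonneg (1 - x)]
      have q6 : 0 ≤ ρ ^ (k + 1) * |(coeff f (k + 2)).re| := by positivity
      have q7 := mul_le_mul_of_nonneg_left q5 (show 0 ≤ π * (k + 1) by positivity)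
      push_cast at b1 q7
      refine le_of_mul_le_mul_left ?_ (show 0 < π * (k + 1) by positivity)
      nlinarith [mul_nonneg hp.le q6]
    · have ht' := Ioc_subset_Icc_self ht
      have := mul_le_mul_of_nonneg_right (sin_bound hβ h0 h1 hN ht') (hv t ht')
      rw [Real.norm_eq_abs, abs_mul, abs_mul, abs_of_nonneg (hv t ht'), abs_two]
      linarith
  have h2 : ContinuousAt (fun ρ : ℝ => ρ ^ (k + 1) * |(coeff f (k + 2)).re|) 1 := by fun_prop
  have h3 := h2.tendsto.mono_left (nhdsWithin_le_nhds (s := Iio 1))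
  simp only [one_pow, one_mul] at h3
  exact le_of_tendsto h3 (mem_of_superset (Ioo_mem_nhdsLT one_pos) key)

theorem T_one : T 1 = catalanG := by
  simp [T, catalanG, ofReal_tsum]

theorem upper {ε : ℝ} (hε : 0 < ε) : ∀ᶠ n : ℕ in atTop, ∀ f, InSR f →
    ‖coeff f n‖ ≤ 2 * Real.exp (2 * catalanG / π) + ε := by
  obtain ⟨β, hβ, hb⟩ : ∃ β : ℝ, 0 < β ∧ 4 * β ^ 2 = ε / 2 :=
    ⟨√(ε / 8), by positivity, by rw [Real.sq_sqrt (by positivity)]; ring⟩
  have c1 : ContinuousWithinAt (fun x : ℝ => (T x).re) (Icc 0 1) 1 := by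
    simpa only [Function.comp_def, mul_one] using
      continuous_re.comp_continuousOn (radial_cont (z := 1) (by simp)) 1 (by simp)
  have c2 : ContinuousWithinAt (fun x : ℝ => ((1 + x) * Real.exp (2 / π * (T x).re) +
      ((1 - x) ^ 2 + 4 * β ^ 2)) / x) (Icc 0 1) 1 :=
    (((continuousWithinAt_const.add continuousWithinAt_id).mul
      (continuousWithinAt_const.mul c1).rexp).add
      (Continuous.continuousWithinAt (by fun_prop))).div continuousWithinAt_id one_ne_zero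
  have t0 : Tendsto (fun k : ℕ => 2 / β ^ 3 / (k + 1 : ℕ)) atTop (𝓝 0) :=
    (tendsto_const_div_atTop_nhds_zero_nat _).comp (tendsto_add_atTop_nat 1)
  have t1 : ∀ᶠ k : ℕ in atTop, 1 - 2 / β ^ 3 / (k + 1 : ℕ) ∈ Ioo (0 : ℝ) 1 :=
    (t0.eventually (gt_mem_nhds one_pos)).mono fun k hk =>
      ⟨by linarith, sub_lt_self _ (by positivity)⟩
  have t2 : Tendsto (fun k : ℕ => 1 - 2 / β ^ 3 / (k + 1 : ℕ)) atTop (𝓝[Icc 0 1] 1) :=
    tendsto_nhdsWithin_iff.2 ⟨by simpa using t0.const_sub 1, t1.mono fun _ h => Ioo_subset_Icc_self h⟩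
  have t3 := (c2.tendsto.comp t2).eventually (gt_mem_nhds (a := 2 * Real.exp (2 * catalanG / π) + ε)
    (by simp only [ofReal_one, T_one, ofReal_re]; ring_nf; nlinarith))
  rw [← map_add_atTop_eq_nat 2, eventually_map]
  filter_upwards [t1, t3] with k h1 h3 f hf
  obtain ⟨g, hg, e⟩ := hf.exists_K
  rw [e]
  exact (hg.coeff_le k hβ h1.1 h1.2 (by field_simp; ring)).trans h3.le

end Pool.Agent.P.MP_3df8df_an
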