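import Pool.Agent.P.MP_3df8df_an.XDefs

set_option autoImplicit false

namespace Pool.Agent.P.BSX

open Complex Metric Set Filter Topology
open Pool.Agent.P.MP_3df8df_an
open scoped Real ComplexConjugate

theorem XApprox_ev {GH G ω : ℝ → ℝ} (cH : Continuous GH) (cG : Continuous G) (c : Continuous ω)
    (M : ℝ) (h : 0 < (∫ t in (0 : ℝ)..π / 2, ω t * GH t) + ∫ t in π / 2..π, ω t * G t) :
    ∀ᶠ s in 𝓝 (0 : ℝ), 0 < (∫ t in (0 : ℝ)..π / 2 - 2 * s, ω t * (GH t - 3 * s)) +
      (∫ t in π / 2 - 2 * s..π / 2 + 2 * s, ω t * (-M - 3 * s)) +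
      ∫ t in π / 2 + 2 * s..π, ω t * (G t - 3 * s) := by
  have iA : ∀ a b, IntervalIntegrable (fun t => ω t * GH t) MeasureTheory.volume a b :=
    fun a b => (c.mul cH).intervalIntegrable a b
  have iB : ∀ a b, IntervalIntegrable (fun t => ω t * G t) MeasureTheory.volume a b :=
    fun a b => (c.mul cG).intervalIntegrable a b
  have iC : ∀ a b, IntervalIntegrable ω MeasureTheory.volume a b :=
    fun a b => c.intervalIntegrable a b
  have cA := intervalIntegral.continuous_primitive iA 0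
  have cB := intervalIntegral.continuous_primitive iB π
  have cC := intervalIntegral.continuous_primitive iC 0
  set A : ℝ → ℝ := fun b => ∫ t in (0 : ℝ)..b, ω t * GH t with hA
  set B : ℝ → ℝ := fun b => ∫ t in π..b, ω t * G t with hB
  set C : ℝ → ℝ := fun b => ∫ t in (0 : ℝ)..b, ω t with hC
  have hCab : ∀ a b, ∫ t in a..b, ω t = C b - C a := by
    intro a b
    simp only [hC]
    exact (intervalIntegral.integral_interval_sub_left (iC 0 b) (iC 0 a)).symm
  have cF : Continuous fun s : ℝ => (A (π / 2 - 2 * s) - 3 * s * C (π / 2 - 2 * s)) +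
      (-M - 3 * s) * (C (π / 2 + 2 * s) - C (π / 2 - 2 * s)) +
      (-B (π / 2 + 2 * s) - 3 * s * (C π - C (π / 2 + 2 * s))) := by
    fun_prop
  have h0 : 0 < (A (π / 2 - 2 * 0) - 3 * 0 * C (π / 2 - 2 * 0)) +
      (-M - 3 * 0) * (C (π / 2 + 2 * 0) - C (π / 2 - 2 * 0)) +
      (-B (π / 2 + 2 * 0) - 3 * 0 * (C π - C (π / 2 + 2 * 0))) := by
    simp only [mul_zero, sub_zero, add_zero, zero_mul, sub_self, hA, hB]
    rw [← intervalIntegral.integral_symm]
    exact h
  have hev := (cF.tendsto 0).eventually (lt_mem_nhds h0)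
  filter_upwards [hev] with s hs
  have e1 : (∫ t in (0 : ℝ)..π / 2 - 2 * s, ω t * (GH t - 3 * s)) =
      A (π / 2 - 2 * s) - 3 * s * C (π / 2 - 2 * s) := by
    simp only [hA, hC]
    rw [← intervalIntegral.integral_const_mul,
      ← intervalIntegral.integral_sub (iA _ _) ((iC _ _).const_mul _)]
    congr 1
    funext t
    ring
  have e2 : (∫ t in π / 2 - 2 * s..π / 2 + 2 * s, ω t * (-M - 3 * s)) =
      (-M - 3 * s) * (C (π / 2 + 2 * s) - C (π / 2 - 2 * s)) := by
    rw [← hCab, ← intervalIntegral.integral_const_mul]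
    congr 1
    funext t
    ring
  have e3 : (∫ t in π / 2 + 2 * s..π, ω t * (G t - 3 * s)) =
      -B (π / 2 + 2 * s) - 3 * s * (C π - C (π / 2 + 2 * s)) := by
    rw [← hCab]
    simp only [hB]
    rw [← intervalIntegral.integral_symm, ← intervalIntegral.integral_const_mul,
      ← intervalIntegral.integral_sub (iB _ _) ((iC _ _).const_mul _)]
    congr 1
    funext t
    ring
  rw [e1, e2, e3]
  exact hs

theorem XApprox_low {GH G ω P : ℝ → ℝ} (cH : Continuous GH) (cG : Continuous G) (c : Continuous ω)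
    (cP : Continuous P) (p : ∀ t, 0 ≤ ω t) {M s : ℝ} (s0 : 0 < s) (s1 : s ≤ π / 4)
    (b1 : ∀ t ∈ Icc 0 (π / 2 - 2 * s), GH t - 3 * s ≤ P t)
    (b2 : ∀ t ∈ Icc (π / 2 - 2 * s) (π / 2 + 2 * s), -M - 3 * s ≤ P t)
    (b3 : ∀ t ∈ Icc (π / 2 + 2 * s) π, G t - 3 * s ≤ P t)
    (h : 0 < (∫ t in (0 : ℝ)..π / 2 - 2 * s, ω t * (GH t - 3 * s)) +
      (∫ t in π / 2 - 2 * s..π / 2 + 2 * s, ω t * (-M - 3 * s)) +
      ∫ t in π / 2 + 2 * s..π, ω t * (G t - 3 * s)) :
    0 < ∫ t in (0 : ℝ)..π, ω t * P t := by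
  have iP : ∀ a b, IntervalIntegrable (fun t => ω t * P t) MeasureTheory.volume a b :=
    fun a b => (c.mul cP).intervalIntegrable a b
  rw [← intervalIntegral.integral_add_adjacent_intervals (iP 0 (π / 2 + 2 * s)) (iP _ π),
    ← intervalIntegral.integral_add_adjacent_intervals (iP 0 (π / 2 - 2 * s)) (iP _ _)]
  refine h.trans_le (add_le_add (add_le_add ?_ ?_) ?_)
  · refine intervalIntegral.integral_mono_on (by linarith)
      ((c.mul (cH.sub continuous_const)).intervalIntegrable _ _) (iP _ _) ?_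
    intro t ht
    exact mul_le_mul_of_nonneg_left (b1 t ht) (p t)
  · refine intervalIntegral.integral_mono_on (by linarith)
      ((c.mul continuous_const).intervalIntegrable _ _) (iP _ _) ?_
    intro t ht
    exact mul_le_mul_of_nonneg_left (b2 t ht) (p t)
  · refine intervalIntegral.integral_mono_on (by linarith)
      ((c.mul (cG.sub continuous_const)).intervalIntegrable _ _) (iP _ _) ?_
    intro t ht
    exact mul_le_mul_of_nonneg_left (b3 t ht) (p t)

theorem approx {GH GF ω1 ω2 : ℝ → ℝ} (cH : Continuous GH) (cF : ContinuousOn GF (Icc (π / 4) π))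
    (c1 : Continuous ω1) (c2 : Continuous ω2) (p1 : ∀ t, 0 ≤ ω1 t) (p2 : ∀ t, 0 ≤ ω2 t)
    (h1 : 0 < (∫ t in (0 : ℝ)..π / 2, ω1 t * GH t) + ∫ t in π / 2..π, ω1 t * GF t)
    (h2 : 0 < (∫ t in (0 : ℝ)..π / 2, ω2 t * GH t) + ∫ t in π / 2..π, ω2 t * GF t) :
    ∃ (p : Polynomial ℝ) (s0 η : ℝ), 0 < s0 ∧ s0 ≤ π / 4 ∧ 0 < η ∧
      (∀ t ∈ Icc 0 (π / 2 + s0), p.eval (Real.cos t) + η ≤ GH t) ∧
      (∀ t ∈ Icc (π / 2 - s0) π, p.eval (Real.cos t) + η ≤ GF t) ∧
      (0 < ∫ t in (0 : ℝ)..π, ω1 t * p.eval (Real.cos t)) ∧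
      0 < ∫ t in (0 : ℝ)..π, ω2 t * p.eval (Real.cos t) := by
  have hπ := Real.pi_pos
  have hle : π / 4 ≤ π := by linarith
  set G : ℝ → ℝ := fun t => GF (max (π / 4) (min t π)) with hG
  have cG : Continuous G := by
    refine cF.comp_continuous (by fun_prop) ?_
    intro t
    exact ⟨le_max_left _ _, max_le hle (min_le_right _ _)⟩
  have hGe : ∀ t ∈ Icc (π / 4) π, G t = GF t := by
    intro t ht
    simp only [hG]
    rw [min_eq_left ht.2, max_eq_right ht.1]
  have hint : ∀ ω : ℝ → ℝ, ∫ t in π / 2..π, ω t * GF t = ∫ t in π / 2..π, ω t * G t := by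
    intro ω
    refine intervalIntegral.integral_congr ?_
    intro t ht
    rw [uIcc_of_le (by linarith)] at ht
    simp only
    rw [hGe t ⟨by linarith [ht.1], ht.2⟩]
  rw [hint] at h1 h2
  obtain ⟨M1, hM1⟩ := isCompact_Icc.exists_bound_of_continuousOn (cH.continuousOn (s := Icc 0 π))
  obtain ⟨M2, hM2⟩ := isCompact_Icc.exists_bound_of_continuousOn (cG.continuousOn (s := Icc 0 π))
  set M : ℝ := max M1 M2 with hM
  have bH : ∀ t ∈ Icc 0 π, |GH t| ≤ M := fun t ht => (hM1 t ht).trans (le_max_left _ _)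
  have bG : ∀ t ∈ Icc 0 π, |G t| ≤ M := fun t ht => (hM2 t ht).trans (le_max_right _ _)
  have hM0 : 0 ≤ M := (abs_nonneg _).trans (bH 0 ⟨le_rfl, hπ.le⟩)
  have ev1 := XApprox_ev cH cG c1 M h1
  have ev2 := XApprox_ev cH cG c2 M h2
  have ev3 : ∀ᶠ s in 𝓝 (0 : ℝ), s < π / 4 := gt_mem_nhds (by linarith)
  obtain ⟨s, ⟨⟨f1, f2⟩, f3⟩, s0⟩ :=
    ((((ev1.and ev2).and ev3).filter_mono nhdsWithin_le_nhds).and
      (self_mem_nhdsWithin (a := (0 : ℝ)) (s := Ioi 0))).exists
  have s0' : 0 < s := s0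
  set K : ℝ := 2 * M / s with hK
  have hK0 : 0 ≤ K := by positivity
  have hKs : K * s = 2 * M := by
    rw [hK]
    field_simp
  set q : ℝ → ℝ := fun t => min (GH t + K * max 0 (t - π / 2 - s))
    (G t + K * max 0 (π / 2 - s - t)) with hq
  have cq : Continuous q := by
    simp only [hq]
    fun_prop
  obtain ⟨p, hp⟩ := exists_polynomial_near_of_continuousOn (-1) 1
    (fun x => q (Real.arccos x) - 2 * s)
    ((cq.comp Real.continuous_arccos).sub continuous_const).continuousOn s s0'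
  have hp' : ∀ t ∈ Icc 0 π, q t - 3 * s ≤ p.eval (Real.cos t) ∧ p.eval (Real.cos t) + s ≤ q t := by
    intro t ht
    have := hp (Real.cos t) ⟨Real.neg_one_le_cos t, Real.cos_le_one t⟩
    rw [Real.arccos_cos ht.1 ht.2, abs_lt] at this
    constructor <;> linarith [this.1, this.2]
  have m1 : ∀ t, 0 ≤ K * max 0 (t - π / 2 - s) := fun t => mul_nonneg hK0 (le_max_left _ _)
  have m2 : ∀ t, 0 ≤ K * max 0 (π / 2 - s - t) := fun t => mul_nonneg hK0 (le_max_left _ _)
  have b1 : ∀ t ∈ Icc 0 (π / 2 - 2 * s), GH t - 3 * s ≤ p.eval (Real.cos t) := by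
    intro t ht
    have ht' : t ∈ Icc 0 π := ⟨ht.1, by linarith [ht.2]⟩
    refine le_trans (sub_le_sub_right (le_min ?_ ?_) _) (hp' t ht').1
    · linarith [m1 t]
    · have : K * s ≤ K * max 0 (π / 2 - s - t) :=
        mul_le_mul_of_nonneg_left (le_max_of_le_right (by linarith [ht.2])) hK0
      linarith [(abs_le.1 (bH t ht')).2, (abs_le.1 (bG t ht')).1]
  have b2 : ∀ t ∈ Icc (π / 2 - 2 * s) (π / 2 + 2 * s), -M - 3 * s ≤ p.eval (Real.cos t) := by
    intro t ht
    have ht' : t ∈ Icc 0 π := ⟨by linarith [ht.1], by linarith [ht.2]⟩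
    refine le_trans (sub_le_sub_right (le_min ?_ ?_) _) (hp' t ht').1
    · linarith [m1 t, (abs_le.1 (bH t ht')).1]
    · linarith [m2 t, (abs_le.1 (bG t ht')).1]
  have b3 : ∀ t ∈ Icc (π / 2 + 2 * s) π, G t - 3 * s ≤ p.eval (Real.cos t) := by
    intro t ht
    have ht' : t ∈ Icc 0 π := ⟨by linarith [ht.1], ht.2⟩
    refine le_trans (sub_le_sub_right (le_min ?_ ?_) _) (hp' t ht').1
    · have : K * s ≤ K * max 0 (t - π / 2 - s) :=
        mul_le_mul_of_nonneg_left (le_max_of_le_right (by linarith [ht.1])) hK0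
      linarith [(abs_le.1 (bH t ht')).1, (abs_le.1 (bG t ht')).2]
    · linarith [m2 t]
  have cP : Continuous fun t => p.eval (Real.cos t) := p.continuous.comp Real.continuous_cos
  refine ⟨p, s, s, s0', f3.le, s0', ?_, ?_, XApprox_low cH cG c1 cP p1 s0' f3.le b1 b2 b3 f1,
    XApprox_low cH cG c2 cP p2 s0' f3.le b1 b2 b3 f2⟩
  · intro t ht
    refine (hp' t ⟨ht.1, by linarith [ht.2]⟩).2.trans ((min_le_left _ _).trans ?_)
    rw [max_eq_left (by linarith [ht.2])]
    simp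
  · intro t ht
    refine (hp' t ⟨by linarith [ht.1], ht.2⟩).2.trans ((min_le_right _ _).trans ?_)
    rw [max_eq_left (by linarith [ht.1]), hGe t ⟨by linarith [ht.1], ht.2⟩]
    simp

end Pool.Agent.P.BSX
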