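import Pool.Agent.P.MP_3df8df_an.XDefs

set_option autoImplicit false

namespace Pool.Agent.P.BSX

open Complex Metric Set Filter Topology
open Pool.Agent.P.MP_3df8df_an
open scoped Real ComplexConjugate

theorem XAsym_approx {H : ℂ → ℂ} (hH : ContinuousOn H (closedBall 0 1)) {ε : ℝ} (hε : 0 < ε) :
    ∃ C, 0 ≤ C ∧ ∀ z ∈ ball (0 : ℂ) 1,
      ‖(H z - H 1) / (1 - z) ^ 2‖ ≤ ε / normSq (1 - z) + C := by
  have hc : ContinuousOn (fun z => H z - H 1) (closedBall 0 1) := hH.sub continuousOn_const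
  obtain ⟨M, hM⟩ := (isCompact_closedBall (0 : ℂ) 1).exists_bound_of_continuousOn hc
  obtain ⟨δ, hδ, h⟩ := Metric.continuousWithinAt_iff.1 (hc 1 (by simp)) ε hε
  have M0 : 0 ≤ M := (norm_nonneg _).trans (hM 0 (by simp))
  refine ⟨M / δ ^ 2, by positivity, fun z hz => ?_⟩
  have h1 := norm_pos_iff.2 (one_sub_ne hz)
  rw [norm_div, norm_pow, ← Complex.sq_norm]
  rcases lt_or_ge (dist z 1) δ with h2 | h2
  · have := h (ball_subset_closedBall hz) h2
    rw [sub_self, dist_zero_right] at this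
    exact le_add_of_le_of_nonneg (div_le_div_of_nonneg_right this.le (by positivity))
      (by positivity)
  · rw [dist_comm, dist_eq_norm] at h2
    exact le_add_of_nonneg_of_le (by positivity) (div_le_div₀ M0
      (hM z (ball_subset_closedBall hz)) (by positivity) (pow_le_pow_left₀ hδ.le h2 2))

theorem XAsym_sym {R : ℂ → ℂ} (hd : DifferentiableOn ℂ R (ball 0 1))
    (hs : ∀ z, R (conj z) = conj (R z)) {ε C : ℝ} (hε : 0 < ε)
    (h : ∀ z ∈ ball (0 : ℂ) 1, ‖R z‖ ≤ ε / normSq (1 - z) + C) (k : ℕ) :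
    ‖iteratedDeriv (k + 1) R 0 / ((k + 1).factorial : ℂ)‖ ≤ 8 * ε * (k + 1) + 4 * C := by
  have h0 : (iteratedDeriv (k + 1) R 0 / ((k + 1).factorial : ℂ)).im = 0 := by
    rw [div_natCast_im, sym_iter (fun z _ => hs z), zero_div]
  rw [← abs_re_eq_norm.2 h0]
  exact rem_le hd hs hε h k

theorem XAsym_rem {R : ℂ → ℂ} (hd : DifferentiableOn ℂ R (ball 0 1)) {ε C : ℝ} (hε : 0 < ε)
    (h : ∀ z ∈ ball (0 : ℂ) 1, ‖R z‖ ≤ ε / normSq (1 - z) + C) (k : ℕ) :
    ‖iteratedDeriv (k + 1) R 0 / ((k + 1).factorial : ℂ)‖ ≤ 16 * ε * (k + 1) + 8 * C := by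
  have hm : ∀ z ∈ ball (0 : ℂ) 1, conj z ∈ ball (0 : ℂ) 1 := fun z hz => by simpa using hz
  have hd' : DifferentiableOn ℂ (fun z => conj (R (conj z))) (ball 0 1) := fun z hz => by
    have := ((hd _ (hm z hz)).differentiableAt (isOpen_ball.mem_nhds (hm z hz))).conj_conj
    rw [conj_conj] at this
    exact this.differentiableWithinAt
  have hb : ∀ z ∈ ball (0 : ℂ) 1, ‖R z‖ + ‖conj (R (conj z))‖ ≤
      2 * (ε / normSq (1 - z) + C) := fun z hz => by
    have h1 := h _ (hm z hz)
    have h2 : normSq (1 - conj z) = normSq (1 - z) := by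
      rw [← normSq_conj (1 - z), map_sub (starRingEnd ℂ), map_one]
    rw [h2] at h1
    rw [norm_conj]
    linarith [h z hz]
  have d1 : DifferentiableOn ℂ (fun z => (R z + conj (R (conj z))) / 2) (ball 0 1) :=
    (hd.add hd').div_const _
  have d2 : DifferentiableOn ℂ (fun z => (R z - conj (R (conj z))) / (2 * I)) (ball 0 1) :=
    (hd.sub hd').div_const _
  have b1 := XAsym_sym d1 (fun z => by simp [map_ofNat, add_comm]) hε (C := C) (fun z hz => by
    have := norm_add_le (R z) (conj (R (conj z)))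
    rw [norm_div, Complex.norm_two]
    linarith [hb z hz]) k
  have b2 := XAsym_sym d2 (fun z => by
    simp only [conj_conj, map_div₀, map_sub, map_mul, conj_I, map_ofNat]
    field_simp
    ring) hε (C := C) (fun z hz => by
    have := norm_sub_le (R z) (conj (R (conj z)))
    rw [norm_div, norm_mul, Complex.norm_two, norm_I, mul_one]
    linarith [hb z hz]) k
  have e1 : R = fun z => (R z + conj (R (conj z))) / 2 +
      I * ((R z - conj (R (conj z))) / (2 * I)) := by
    ext z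
    field_simp
    ring
  have e2 : iteratedDeriv (k + 1) R 0 =
      iteratedDeriv (k + 1) (fun z => (R z + conj (R (conj z))) / 2) 0 +
      I * iteratedDeriv (k + 1) (fun z => (R z - conj (R (conj z))) / (2 * I)) 0 := by
    conv_lhs => rw [e1]
    rw [iteratedDeriv_fun_add (d1.analyticAt (ball_mem_nhds _ one_pos)).contDiffAt
      ((d2.const_mul I).analyticAt (ball_mem_nhds _ one_pos)).contDiffAt,
      iteratedDeriv_const_mul_field]
  rw [e2, add_div, mul_div_assoc]
  refine (norm_add_le _ _).trans ?_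
  rw [norm_mul, norm_I, one_mul]
  linarith

theorem XAsym_split {H : ℂ → ℂ} (hH : DifferentiableOn ℂ H (ball 0 1)) (n : ℕ) :
    iteratedDeriv n (fun z => H z / (1 - z) ^ 2) 0 / (n + 1).factorial =
      H 1 + iteratedDeriv n (fun z => (H z - H 1) / (1 - z) ^ 2) 0 / (n + 1).factorial := by
  have e1 : (fun z => H z / (1 - z) ^ 2) = fun z =>
      H 1 * deriv (fun z : ℂ => (-1 * z + 1)⁻¹) z + (H z - H 1) / (1 - z) ^ 2 := by
    ext z
    have := congrFun (iter_deriv_inv_linear 1 (-1 : ℂ) 1) z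
    rw [Function.iterate_one] at this
    rw [this, show (-1 - (1 : ℕ) : ℤ) = -(2 : ℕ) by norm_num, zpow_neg, zpow_natCast]
    simp
    ring
  have a1 : DifferentiableOn ℂ (fun z : ℂ => (-1 * z + 1)⁻¹) (ball 0 1) :=
    DifferentiableOn.inv (by fun_prop) fun z hz => by
      simpa [sub_eq_neg_add] using one_sub_ne hz
  have a2 : DifferentiableOn ℂ (fun z => (H z - H 1) / (1 - z) ^ 2) (ball 0 1) :=
    (hH.sub_const _).div (by fun_prop) fun _ hz => pow_ne_zero _ (one_sub_ne hz)
  have : ((n + 1).factorial : ℂ) ≠ 0 := by exact_mod_cast (n + 1).factorial_ne_zero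
  rw [e1, iteratedDeriv_fun_add ((((a1.deriv isOpen_ball).const_mul _).analyticAt
    (ball_mem_nhds _ one_pos)).contDiffAt) (a2.analyticAt (ball_mem_nhds _ one_pos)).contDiffAt,
    iteratedDeriv_const_mul_field, ← iteratedDeriv_succ', iteratedDeriv_eq_iterate,
    iter_deriv_inv_linear, add_div]
  congr 1
  rcases neg_one_pow_eq_or ℂ (n + 1) with h | h <;> simp [h, this]

theorem asym {G : ℂ → ℂ} (hd : DifferentiableOn ℂ G (ball 0 1))
    (hc : ContinuousOn G (closedBall 0 1)) :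
    Tendsto (fun n : ℕ => iteratedDeriv n (fun z => (1 + z) * G z / (1 - z) ^ 2) 0 /
      ((n + 1).factorial : ℂ)) atTop (𝓝 (2 * G 1)) := by
  have hH : DifferentiableOn ℂ (fun z => (1 + z) * G z) (ball 0 1) :=
    DifferentiableOn.mul (by fun_prop) hd
  have hH' : ContinuousOn (fun z => (1 + z) * G z) (closedBall 0 1) :=
    ContinuousOn.mul (by fun_prop) hc
  rw [← tendsto_add_atTop_iff_nat 1]
  refine Metric.tendsto_atTop'.2 fun ε hε => ?_
  obtain ⟨C, hC, h⟩ := XAsym_approx hH' (ε := ε / 32) (by positivity)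
  obtain ⟨N, hN⟩ := exists_nat_gt (16 * C / ε)
  refine ⟨N, fun k hk => ?_⟩
  have h1 := XAsym_rem ((hH.sub_const _).div (by fun_prop) fun _ hz =>
    pow_ne_zero _ (one_sub_ne hz)) (by positivity) h k
  have h2 : (N : ℝ) < k := by exact_mod_cast hk
  rw [div_lt_iff₀ hε] at hN
  have e : (2 : ℂ) * G 1 = (1 + 1) * G 1 := by norm_num
  rw [XAsym_split hH, e, dist_eq_norm, add_sub_cancel_left, Nat.factorial_succ (k + 1),
    Nat.cast_mul, mul_comm (((k + 1 + 1 : ℕ) : ℂ)), ← div_div, norm_div, Complex.norm_natCast,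
    div_lt_iff₀ (by positivity)]
  refine h1.trans_lt ?_
  push_cast
  nlinarith

end Pool.Agent.P.BSX
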