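import Pool.Agent.P.MP_3df8df_an.XDefs

set_option autoImplicit false

namespace Pool.Agent.P.BSX

open Complex Metric Set Filter Topology
open Pool.Agent.P.MP_3df8df_an
open scoped Real ComplexConjugate

theorem XBdry_re (t : ℝ) : (e t).re = Real.cos t := exp_ofReal_mul_I_re t

theorem XBdry_im (t : ℝ) : (e t).im = Real.sin t := exp_ofReal_mul_I_im t

theorem e_mem {t : ℝ} (ht : t ∈ Ioo 0 π) : e t ∈ closedBall (0 : ℂ) 1 \ {1, -1} := by
  have hs := Real.sin_pos_of_pos_of_lt_pi ht.1 ht.2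
  refine ⟨mem_closedBall_zero_iff.2 (norm_e t).le, ?_⟩
  rintro (h | h)
  · have := congrArg im h
    rw [XBdry_im, one_im] at this
    exact hs.ne' this
  · have := congrArg im (mem_singleton_iff.1 h)
    rw [XBdry_im, neg_im, one_im, neg_zero] at this
    exact hs.ne' this

theorem e_neg (t : ℝ) : e (-t) = conj (e t) := by
  apply Complex.ext
  · rw [conj_re, XBdry_re, XBdry_re, Real.cos_neg]
  · rw [conj_im, XBdry_im, XBdry_im, Real.sin_neg]

theorem XBdry_pos {z : ℂ} (hz : ‖z‖ ≤ 1) (h : z ≠ -1) : 0 < (1 + z).re := by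
  rw [add_re, one_re]
  by_contra hc
  have h1 : normSq z ≤ 1 := by rw [normSq_eq_norm_sq]; nlinarith [norm_nonneg z]
  rw [normSq_apply] at h1
  have h2 : z.re = -1 := by nlinarith [mul_self_nonneg z.im]
  have h3 : z.im = 0 := by
    rw [h2] at h1
    exact mul_self_eq_zero.1 (le_antisymm (by linarith) (mul_self_nonneg _))
  exact h (Complex.ext (by simpa using h2) (by simpa using h3))

theorem XBdry_slit {z : ℂ} (hz : z ∈ closedBall (0 : ℂ) 1 \ {1, -1}) :
    1 + z ∈ slitPlane ∧ 1 - z ∈ slitPlane := by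
  have h1 := mem_closedBall_zero_iff.1 hz.1
  refine ⟨Or.inl (XBdry_pos h1 fun h => hz.2 (Or.inr h)), Or.inl ?_⟩
  rw [sub_eq_add_neg]
  exact XBdry_pos (by rwa [norm_neg]) fun h => hz.2 (Or.inl (neg_injective h))

theorem L_cont : ContinuousOn L (closedBall 0 1 \ {1, -1}) := by
  refine ((ContinuousOn.clog (by fun_prop) fun z hz => (XBdry_slit hz).1).sub
    (continuousOn_const.mul (ContinuousOn.clog (by fun_prop) fun z hz => (XBdry_slit hz).2))).add
    (continuousOn_const.mul (T_cont.mono sdiff_subset))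

theorem XBdry_arctan_re (z : ℂ) : (arctan z).re = arg ((1 + z * I) / (1 - z * I)) / 2 := by
  simp [arctan, log_im]
  ring

theorem XBdry_arctan_im (z : ℂ) : (arctan z).im = -Real.log ‖(1 + z * I) / (1 - z * I)‖ / 2 := by
  simp [arctan, log_re, -norm_div]
  ring

theorem XBdry_cay {z : ℂ} (hz : 1 - z * I ≠ 0) : (1 + z * I) / (1 - z * I) =
    (((1 - normSq z) / normSq (1 - z * I) : ℝ) : ℂ) + (2 * z.re / normSq (1 - z * I) : ℝ) * I := by
  have := (normSq_pos.mpr hz).ne'
  apply Complex.ext <;> simp [div_re, div_im, -ofReal_div] <;> field_simp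
  · simp [normSq_apply]; ring
  · ring

theorem XBdry_den {z : ℂ} (hz : ‖z‖ < 1) : 1 - z * I ≠ 0 := fun h => by
  have := congrArg norm (sub_eq_zero.mp h)
  simp at this
  linarith

theorem XBdry_sign_re {z : ℂ} (hz : ‖z‖ < 1) : 0 ≤ (arctan z).re * z.re := by
  have a0 := normSq_pos.mpr (XBdry_den hz)
  rw [XBdry_arctan_re, XBdry_cay (XBdry_den hz)]
  rcases le_or_gt 0 z.re with h | h
  · exact mul_nonneg (div_nonneg (arg_nonneg_iff.mpr (by
      simpa [-ofReal_div] using div_nonneg (by linarith) a0.le)) two_pos.le) h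
  · exact mul_nonneg_of_nonpos_of_nonpos (div_nonpos_of_nonpos_of_nonneg (arg_neg_iff.mpr (by
      simpa [-ofReal_div] using div_neg_of_neg_of_pos (by linarith) a0)).le two_pos.le) h.le

theorem XBdry_sign_im {z : ℂ} (hz : ‖z‖ < 1) : 0 ≤ (arctan z).im * z.im := by
  have b0 := norm_pos_iff.mpr (XBdry_den hz)
  have b1 : ‖1 + z * I‖ ^ 2 = ‖1 - z * I‖ ^ 2 - 4 * z.im := by
    simp only [Complex.sq_norm, normSq_apply]; simp; ring
  rw [XBdry_arctan_im, norm_div]
  rcases le_total 0 z.im with h | h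
  · refine mul_nonneg (div_nonneg (neg_nonneg.mpr (Real.log_nonpos (by positivity) ?_))
      two_pos.le) h
    rw [div_le_one b0]
    exact (sq_le_sq₀ (norm_nonneg _) (norm_nonneg _)).mp (by linarith)
  · refine mul_nonneg_of_nonpos_of_nonpos (div_nonpos_of_nonpos_of_nonneg
      (neg_nonpos.mpr (Real.log_nonneg ?_)) two_pos.le) h
    rw [one_le_div b0]
    exact (sq_le_sq₀ (norm_nonneg _) (norm_nonneg _)).mp (by linarith)

theorem XBdry_T {z : ℂ} (hz : ‖z‖ < 1) : 0 ≤ ((1 - z ^ 2) * deriv T z).re := by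
  rcases eq_or_ne z 0 with rfl | h0
  · simp [T_deriv_zero]
  have a1 := XBdry_sign_re hz
  have a2 := XBdry_sign_im hz
  have hn := normSq_pos.mpr h0
  have h1 : normSq z ≤ 1 := by rw [normSq_eq_norm_sq]; nlinarith [norm_nonneg z]
  have e1 : (1 - z ^ 2) * deriv T z = arctan z / z - z * arctan z := by
    rw [← mul_T_deriv hz]
    field_simp
  have h2 : 1 ≤ 1 / normSq z := by rw [le_div_iff₀ hn]; linarith
  rw [e1, sub_re, div_re, mul_re, div_eq_mul_one_div, div_eq_mul_one_div (_ * z.im)]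
  nlinarith [mul_nonneg a1 (sub_nonneg.2 h2), mul_nonneg a2 (zero_le_one.trans h2)]

theorem L_deriv {z : ℂ} (hz : z ∈ ball (0 : ℂ) 1) :
    ∃ L' : ℂ, HasDerivAt L L' z ∧ 2 ≤ ((1 - z ^ 2) * L').re := by
  have n2 := one_sub_ne hz
  rw [mem_ball_zero_iff] at hz
  have n1 := one_add_ne hz
  refine ⟨1 / (1 + z) - 2 * (-1 / (1 - z)) + 2 / π * deriv T z, ?_, ?_⟩
  · exact ((((hasDerivAt_id' z).const_add 1).clog (Or.inl (re_one_add hz))).sub
      ((((hasDerivAt_id' z).const_sub 1).clog (Or.inl (by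
        simpa [sub_eq_add_neg] using re_one_add (z := -z) (by simpa using hz)))).const_mul 2)).add
      ((T_hasDerivAt hz).const_mul _)
  · have e1 : (1 - z ^ 2) * (1 / (1 + z) - 2 * (-1 / (1 - z)) + 2 / π * deriv T z) =
        2 + (1 + z) + 2 / π * ((1 - z ^ 2) * deriv T z) := by
      generalize (2 / π : ℂ) = c
      field_simp
      ring
    have h1 := re_one_add hz
    have h2 := mul_nonneg (show 0 ≤ 2 / π by positivity) (XBdry_T hz)
    rw [e1, two_div_pi, add_re, add_re, re_ofReal_mul, re_ofNat]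
    linarith

theorem exp_L {z : ℂ} (hz : z ∈ closedBall (0 : ℂ) 1 \ {1, -1}) : cexp (L z) = Q z := by
  have n1 := slitPlane_ne_zero (XBdry_slit hz).1
  have n2 := slitPlane_ne_zero (XBdry_slit hz).2
  rw [L, exp_add, exp_sub, two_mul (log _), exp_add, exp_log n2, exp_log n1, Q, B]
  ring

theorem XBdry_add (t : ℝ) : 1 + e t = ((2 * Real.cos (t / 2) : ℝ) : ℂ) * e (t / 2) := by
  have h1 := Real.cos_two_mul (t / 2)
  have h2 := Real.sin_two_mul (t / 2)
  rw [show 2 * (t / 2) = t by ring] at h1 h2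
  apply Complex.ext
  · rw [add_re, one_re, re_ofReal_mul, XBdry_re, XBdry_re, h1]; ring
  · rw [add_im, one_im, im_ofReal_mul, XBdry_im, XBdry_im, h2]; ring

theorem XBdry_sub (t : ℝ) :
    1 - e t = ((2 * Real.sin (t / 2) : ℝ) : ℂ) * e (-((π - t) / 2)) := by
  have h1 := Real.cos_two_mul (t / 2)
  have h2 := Real.sin_two_mul (t / 2)
  have h3 := Real.sin_sq_add_cos_sq (t / 2)
  rw [show 2 * (t / 2) = t by ring] at h1 h2
  rw [show (π - t) / 2 = π / 2 - t / 2 by ring]
  apply Complex.ext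
  · rw [sub_re, one_re, re_ofReal_mul, XBdry_re, XBdry_re, h1, Real.cos_neg,
      Real.cos_pi_div_two_sub]
    linarith
  · rw [sub_im, one_im, im_ofReal_mul, XBdry_im, XBdry_im, h2, Real.sin_neg,
      Real.sin_pi_div_two_sub]
    ring

theorem XBdry_arg {r θ : ℝ} (hr : 0 < r) (hθ : θ ∈ Ioc (-π) π) : arg (r * e θ) = θ := by
  rw [e, exp_mul_I]
  exact arg_mul_cos_add_sin_mul_I hr hθ

theorem logs_im {t : ℝ} (ht : t ∈ Ioo 0 π) :
    (log (1 + e t)).im = t / 2 ∧ (log (1 - e t)).im = -((π - t) / 2) := by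
  have hp := Real.pi_pos
  have hc : 0 < Real.cos (t / 2) := Real.cos_pos_of_mem_Ioo ⟨by linarith [ht.1], by linarith [ht.2]⟩
  have hs : 0 < Real.sin (t / 2) :=
    Real.sin_pos_of_pos_of_lt_pi (by linarith [ht.1]) (by linarith [ht.2])
  rw [log_im, log_im, XBdry_add, XBdry_sub]
  exact ⟨XBdry_arg (by linarith) ⟨by linarith [ht.1], by linarith [ht.2]⟩,
    XBdry_arg (by linarith) ⟨by linarith [ht.1], by linarith [ht.2]⟩⟩

theorem L_conj {z : ℂ} (hz : z ∈ closedBall (0 : ℂ) 1 \ {1, -1}) : L (conj z) = conj (L z) := by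
  have h1 := log_conj _ (slitPlane_arg_ne_pi (XBdry_slit hz).1)
  have h2 := log_conj _ (slitPlane_arg_ne_pi (XBdry_slit hz).2)
  rw [map_add, map_one] at h1
  rw [map_sub, map_one] at h2
  simp [L, h1, h2, T_conj, map_ofNat]

theorem L_im_e {t : ℝ} (ht : t ∈ Ioo 0 π) : (L (e t)).im = π - max (t - π / 2) 0 := by
  have hp := Real.pi_pos
  obtain ⟨h1, h2⟩ := logs_im ht
  have h3 : (L (e t)).im = t / 2 + (π - t) + 2 / π * (T (e t)).im := by
    rw [L, two_div_pi, add_im, im_ofReal_mul, sub_im, two_mul (log _), add_im, h1, h2]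
    ring
  rw [h3, e]
  rcases le_total t (π / 2) with h | h
  · rw [T_im_left ht.1.le h, max_eq_right (by linarith)]
    field_simp
    ring
  · rw [T_im_right h ht.2.le, max_eq_left (by linarith)]
    field_simp
    ring

end Pool.Agent.P.BSX
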