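import Pool.Agent.P.MP_3df8df_an.XBdry

set_option autoImplicit false

namespace Pool.Agent.P.BSX

open Complex Metric Set Filter Topology
open Pool.Agent.P.MP_3df8df_an
open scoped Real ComplexConjugate

theorem XBdry2_norm_add (t : ℝ) : ‖1 + e t‖ = |2 * Real.cos (t / 2)| := by
  rw [XBdry_add, norm_mul, e, norm_e, mul_one, norm_real, Real.norm_eq_abs]

theorem XBdry2_norm_sub (t : ℝ) : ‖1 - e t‖ = |2 * Real.sin (t / 2)| := by
  rw [XBdry_sub, norm_mul, e, norm_e, mul_one, norm_real, Real.norm_eq_abs]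

theorem XBdry2_m (t : ℝ) : (L (e t)).re = Real.log (2 * Real.cos (t / 2)) -
    2 * Real.log (2 * Real.sin (t / 2)) + 2 / π * (T (e t)).re := by
  rw [L, two_div_pi, add_re, re_ofReal_mul, sub_re, two_mul (log _), add_re, log_re, log_re,
    XBdry2_norm_add, XBdry2_norm_sub, Real.log_abs, Real.log_abs]
  ring

theorem XBdry2_Tc : Continuous fun t : ℝ => (T (e t)).re :=
  continuous_re.comp (T_cont.comp_continuous e_cont fun t =>
    mem_closedBall_zero_iff.2 (norm_e t).le)

theorem XBdry2_cs {t : ℝ} (ht : t ∈ Ioo 0 π) : 0 < Real.cos (t / 2) ∧ 0 < Real.sin (t / 2) := by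
  have hp := Real.pi_pos
  exact ⟨Real.cos_pos_of_mem_Ioo ⟨by linarith [ht.1], by linarith [ht.2]⟩,
    Real.sin_pos_of_pos_of_lt_pi (by linarith [ht.1]) (by linarith [ht.2])⟩

theorem XBdry2_g : AntitoneOn (fun t : ℝ => Real.log (2 * Real.cos (t / 2)) -
    2 * Real.log (2 * Real.sin (t / 2)) + 5 / 4 * t) (Ioo 0 π) := by
  have hd : ∀ t ∈ Ioo 0 π, HasDerivAt (fun t : ℝ => Real.log (2 * Real.cos (t / 2)) -
      2 * Real.log (2 * Real.sin (t / 2)) + 5 / 4 * t)
      (2 * (-Real.sin (t / 2) * (1 / 2)) / (2 * Real.cos (t / 2)) -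
        2 * (2 * (Real.cos (t / 2) * (1 / 2)) / (2 * Real.sin (t / 2))) + 5 / 4 * 1) t := by
    intro t ht
    obtain ⟨hc, hs⟩ := XBdry2_cs ht
    have h0 : HasDerivAt (fun t : ℝ => t / 2) (1 / 2) t := (hasDerivAt_id' t).div_const 2
    exact (((h0.cos.const_mul 2).log (by positivity)).sub
      (((h0.sin.const_mul 2).log (by positivity)).const_mul 2)).add
      ((hasDerivAt_id' t).const_mul _)
  refine antitoneOn_of_deriv_nonpos (convex_Ioo _ _)
    (fun t ht => (hd t ht).continuousAt.continuousWithinAt)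
    (fun t ht => (hd t (interior_subset ht)).differentiableAt.differentiableWithinAt) fun t ht => ?_
  obtain ⟨hc, hs⟩ := XBdry2_cs (interior_subset ht)
  rw [(hd t (interior_subset ht)).deriv]
  generalize Real.cos (t / 2) = c at *
  generalize Real.sin (t / 2) = s at *
  have e1 : 2 * (-s * (1 / 2)) / (2 * c) - 2 * (2 * (c * (1 / 2)) / (2 * s)) + 5 / 4 * 1 =
      -((s - 5 / 4 * c) ^ 2 + 7 / 16 * c ^ 2) / (2 * s * c) := by
    field_simp
    ring
  rw [e1]
  exact div_nonpos_of_nonpos_of_nonneg (neg_nonpos.2 (by positivity)) (by positivity)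

theorem m_anti : AntitoneOn (fun t => (L (e t)).re + 5 / 4 * t) (Ioo 0 π) := by
  intro a ha b hb hab
  have h1 := XBdry2_g ha hb hab
  have h2 := mul_le_mul_of_nonneg_left
    (T_re_anti (Ioo_subset_Icc_self ha) (Ioo_subset_Icc_self hb) hab)
    (show 0 ≤ 2 / π by positivity)
  simp only [XBdry2_m]
  simp only [e] at h1 h2 ⊢
  linarith

theorem m_zero : Tendsto (fun t => (L (e t)).re) (𝓝[>] 0) atTop := by
  have h1 : Tendsto (fun t : ℝ => 2 * Real.sin (t / 2)) (𝓝[>] 0) (𝓝[>] 0) := by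
    refine tendsto_nhdsWithin_iff.2 ⟨?_, ?_⟩
    · have : Continuous fun t : ℝ => 2 * Real.sin (t / 2) := by fun_prop
      simpa using (this.tendsto 0).mono_left nhdsWithin_le_nhds
    · filter_upwards [Ioo_mem_nhdsGT Real.pi_pos] with t ht
      exact mul_pos two_pos (XBdry2_cs ht).2
  have h2 : Tendsto (fun t : ℝ => -2 * Real.log (2 * Real.sin (t / 2))) (𝓝[>] 0) atTop :=
    (Real.tendsto_log_nhdsGT_zero.comp h1).const_mul_atBot_of_neg (by norm_num)
  have h3 : ContinuousAt (fun t : ℝ => Real.log (2 * Real.cos (t / 2)) + 2 / π * (T (e t)).re) 0 :=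
    (ContinuousAt.log (by fun_prop) (by simp)).add
      (continuousAt_const.mul XBdry2_Tc.continuousAt)
  refine ((h3.tendsto.mono_left nhdsWithin_le_nhds).add_atTop h2).congr fun t => ?_
  rw [XBdry2_m]
  ring

theorem m_pi : Tendsto (fun t => (L (e t)).re) (𝓝[<] π) atBot := by
  have h1 : Tendsto (fun t : ℝ => 2 * Real.cos (t / 2)) (𝓝[<] π) (𝓝[>] 0) := by
    refine tendsto_nhdsWithin_iff.2 ⟨?_, ?_⟩
    · have : Continuous fun t : ℝ => 2 * Real.cos (t / 2) := by fun_prop
      simpa using (this.tendsto π).mono_left nhdsWithin_le_nhds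
    · filter_upwards [Ioo_mem_nhdsLT Real.pi_pos] with t ht
      exact mul_pos two_pos (XBdry2_cs ht).1
  have h2 : Tendsto (fun t : ℝ => Real.log (2 * Real.cos (t / 2))) (𝓝[<] π) atBot :=
    Real.tendsto_log_nhdsGT_zero.comp h1
  have h3 : ContinuousAt
      (fun t : ℝ => -2 * Real.log (2 * Real.sin (t / 2)) + 2 / π * (T (e t)).re) π :=
    (continuousAt_const.mul (ContinuousAt.log (by fun_prop) (by simp))).add
      (continuousAt_const.mul XBdry2_Tc.continuousAt)
  refine ((h3.tendsto.mono_left nhdsWithin_le_nhds).add_atBot h2).congr fun t => ?_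
  rw [XBdry2_m]
  ring

theorem XBdry2_w {t : ℝ} (ht : t ∈ Ioc 0 π) : ‖Q (e t)‖ =
    2 * Real.cos (t / 2) * Real.exp (2 / π * (T (e t)).re) / (2 * Real.sin (t / 2)) ^ 2 := by
  have hp := Real.pi_pos
  have hc : 0 ≤ Real.cos (t / 2) :=
    Real.cos_nonneg_of_neg_pi_div_two_le_of_le (by linarith [ht.1]) (by linarith [ht.2])
  rw [Q, B, norm_div, norm_mul, norm_pow, XBdry2_norm_add, XBdry2_norm_sub, sq_abs,
    abs_of_nonneg (by positivity), norm_exp, two_div_pi, re_ofReal_mul]

theorem wt : Wt (fun t => ‖Q (e t)‖) rho := by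
  have hp := Real.pi_pos
  have hs : ∀ t ∈ Ioc 0 π, 0 < Real.sin (t / 2) := fun t ht =>
    Real.sin_pos_of_pos_of_lt_pi (by linarith [ht.1]) (by linarith [ht.2])
  have hT := XBdry2_Tc
  refine ⟨?_, ?_, fun t ht => ?_, fun t ht => ?_, Real.exp (2 / π * (T (e π)).re),
    Real.exp_pos _, fun t ht => ?_⟩
  · refine ContinuousOn.congr (ContinuousOn.div ?_ (by fun_prop) fun t ht => ?_)
      fun t ht => XBdry2_w ht
    · exact Continuous.continuousOn (by fun_prop)
    · have := hs t ht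
      positivity
  · unfold rho
    fun_prop
  · have := hs t ht
    unfold rho
    positivity
  · have h1 := hs t ht
    have h2 := Real.sin_two_mul (t / 2)
    rw [show 2 * (t / 2) = t by ring] at h2
    have h3 := Real.exp_pos (2 / π * (T (e t)).re)
    rw [XBdry2_w ht, rho, Real.exp_neg, h2]
    field_simp
    ring
  · have ht' : t ∈ Ioc 0 π := ⟨ht.1, by linarith [ht.2]⟩
    have h1 := hs t ht'
    have h0 := ht.1
    have h2 : t ≤ 1 := by linarith [ht.2, Real.pi_le_four]
    have h3 : Real.sin (t / 2) ≤ t / 2 := Real.sin_le (by linarith)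
    have h4 : 1 / 2 ≤ Real.cos (t / 2) := by
      nlinarith [Real.one_sub_sq_div_two_le_cos (x := t / 2)]
    have h5 : Real.exp (2 / π * (T (e π)).re) ≤ Real.exp (2 / π * (T (e t)).re) :=
      Real.exp_le_exp.2 (mul_le_mul_of_nonneg_left
        (T_re_anti ⟨h0.le, ht'.2⟩ ⟨hp.le, le_rfl⟩ ht'.2) (by positivity))
    have h6 := Real.exp_pos (2 / π * (T (e t)).re)
    rw [XBdry2_w ht']
    refine div_le_div₀ (by positivity) (by nlinarith) (by positivity) (by nlinarith)

end Pool.Agent.P.BSX
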