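import Pool.Agent.P.MP_3df8df_an.XDefs

set_option autoImplicit false

namespace Pool.Agent.P.BSX

open Complex Metric Set Filter Topology
open Pool.Agent.P.MP_3df8df_an
open scoped Real ComplexConjugate

/-- The square of the modulus of `1 + r e (2 t)`. -/
noncomputable def XBump_D (r t : ℝ) : ℝ := (1 - r) ^ 2 + 4 * r * Real.cos t ^ 2

theorem XBump_D_pos {r : ℝ} (r0 : 0 ≤ r) (r1 : r < 1) (t : ℝ) : 0 < XBump_D r t := by
  unfold XBump_D
  have h1 : 0 < (1 - r) ^ 2 := pow_pos (by linarith) 2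
  have h2 : 0 ≤ 4 * r * Real.cos t ^ 2 := by positivity
  linarith

theorem XBump_sq (t : ℝ) : e t ^ 2 = cexp (((2 * t : ℝ) : ℂ) * I) := by
  unfold e
  rw [← Complex.exp_nat_mul]
  congr 1
  push_cast
  ring

theorem XBump_norm (r t : ℝ) : ‖1 + (r : ℂ) * e t ^ 2‖ ^ 2 = XBump_D r t := by
  rw [XBump_sq, Complex.sq_norm, normSq_apply]
  simp only [add_re, one_re, re_ofReal_mul, exp_ofReal_mul_I_re, add_im, one_im, im_ofReal_mul,
    exp_ofReal_mul_I_im, zero_add, XBump_D]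
  have h1 := Real.cos_two_mul t
  have h2 := Real.sin_sq_add_cos_sq (2 * t)
  linear_combination 2 * r * h1 + r ^ 2 * h2

theorem XBump_re (r Λ t : ℝ) :
    (-log (1 + (r : ℂ) * e t ^ 2) / (Λ : ℂ)).re = -(Real.log (XBump_D r t) / 2) / Λ := by
  rw [div_ofReal_re, neg_re, log_re, ← XBump_norm, Real.log_pow]
  push_cast
  ring

theorem XBump_im (r Λ t : ℝ) :
    (-log (1 + (r : ℂ) * e t ^ 2) / (Λ : ℂ)).im = -arg (1 + (r : ℂ) * e t ^ 2) / Λ := by
  rw [div_ofReal_im, neg_im, log_im]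

theorem XBump_small {r : ℝ} (r0 : 0 ≤ r) (r1 : r < 1) {z : ℂ} (hz : z ∈ closedBall (0 : ℂ) 1) :
    ‖(r : ℂ) * z ^ 2‖ < 1 := by
  refine norm_mul_lt r0 r1 ?_
  rw [norm_pow]
  exact pow_le_one₀ (norm_nonneg _) (by simpa using hz)

theorem XBump_nice {r : ℝ} (r0 : 0 ≤ r) (r1 : r < 1) (Λ : ℝ) :
    Nice fun z => -log (1 + (r : ℂ) * z ^ 2) / (Λ : ℂ) := by
  refine ⟨fun z hz => ?_, fun z hz => ?_, by simp⟩
  · have h1 : AnalyticAt ℂ (fun z : ℂ => 1 + (r : ℂ) * z ^ 2) z := by fun_prop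
    have h2 := h1.clog (mem_slitPlane_of_norm_lt_one (XBump_small r0 r1 hz))
    exact h2.neg.div_const
  · have h1 := log_conj' (XBump_small r0 r1 hz)
    rw [map_mul, conj_ofReal, map_pow] at h1
    simp only [h1, map_div₀, map_neg, conj_ofReal]

theorem XBump_deriv {r : ℝ} (r0 : 0 ≤ r) (r1 : r < 1) (Λ t : ℝ) :
    HasDerivAt (fun t => -(Real.log (XBump_D r t) / 2) / Λ)
      (4 * r * Real.sin t * Real.cos t / XBump_D r t / Λ) t := by
  have h1 : HasDerivAt (fun t => XBump_D r t)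
      (4 * r * (((2 : ℕ) : ℝ) * Real.cos t ^ (2 - 1) * -Real.sin t)) t :=
    (((Real.hasDerivAt_cos t).pow 2).const_mul (4 * r)).const_add ((1 - r) ^ 2)
  have h2 := (((h1.log (XBump_D_pos r0 r1 t).ne').div_const 2).neg).div_const Λ
  refine h2.congr_deriv ?_
  push_cast
  ring

theorem bump {τ : ℝ} (hτ : 0 < τ) : ∃ s : ℂ → ℂ, Nice s ∧ ∃ β : ℝ → ℝ, Continuous β ∧
    (∀ t, HasDerivAt (fun t => (s (e t)).re) (β t) t) ∧ (∀ t, |(s (e t)).im| ≤ τ) ∧
    (∀ t ∈ Icc 0 (π / 2), |(s (e t)).im| ≤ τ * Real.sin t) ∧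
    (∀ t ∈ Icc 0 (π / 2), 0 ≤ β t ∧ β t * Real.cos t ≤ τ) ∧ (∀ t ∈ Icc (π / 2) π, β t ≤ 0) ∧
    (∫ t in (0 : ℝ)..π / 2, β t) ≤ 2 ∧ -(∫ t in π / 2..π, β t) ≤ 2 ∧
    1 ≤ -∫ t in π / 2..3 * π / 4, β t := by
  have hp := Real.pi_pos
  have hp4 := Real.pi_le_four
  obtain ⟨Λ, hΛ1, hΛτ⟩ : ∃ Λ : ℝ, 1 ≤ Λ ∧ 4 ≤ τ * Λ := by
    refine ⟨1 + 4 / τ, le_add_of_nonneg_right (by positivity), ?_⟩
    have : τ * (1 + 4 / τ) = τ + 4 := by field_simp
    linarith
  have hΛ : 0 < Λ := by linarith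
  obtain ⟨r, r0, r1, hr⟩ : ∃ r : ℝ, 0 ≤ r ∧ r < 1 ∧ Real.log (1 - r) = -Λ := by
    refine ⟨1 - Real.exp (-Λ), ?_, ?_, by simp⟩
    · have := Real.exp_le_one_iff.2 (show -Λ ≤ 0 by linarith)
      linarith
    · have := Real.exp_pos (-Λ)
      linarith
  have hD := XBump_D_pos r0 r1
  have hc : Continuous fun t => 4 * r * Real.sin t * Real.cos t / XBump_D r t / Λ := by
    refine Continuous.div_const (Continuous.div (by fun_prop) ?_ fun t => (hD t).ne') _
    unfold XBump_D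
    fun_prop
  have hint : ∀ a b : ℝ, (∫ t in a..b, 4 * r * Real.sin t * Real.cos t / XBump_D r t / Λ) =
      -(Real.log (XBump_D r b) / 2) / Λ - -(Real.log (XBump_D r a) / 2) / Λ := fun a b =>
    intervalIntegral.integral_eq_sub_of_hasDerivAt (fun t _ => XBump_deriv r0 r1 Λ t)
      (hc.intervalIntegrable a b)
  have hmid : -(Real.log (XBump_D r (π / 2)) / 2) / Λ = 1 := by
    have : XBump_D r (π / 2) = (1 - r) ^ 2 := by simp [XBump_D]
    rw [this, Real.log_pow, hr]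
    push_cast
    field_simp
  have hend : ∀ t : ℝ, -1 ≤ -(Real.log (XBump_D r t) / 2) / Λ := fun t => by
    have h1 : XBump_D r t ≤ 2 ^ 2 := by
      have := Real.cos_sq_le_one t
      unfold XBump_D
      nlinarith
    have h2 := Real.log_le_log (hD t) h1
    rw [Real.log_pow] at h2
    have h3 := Real.log_two_lt_d9
    rw [le_div_iff₀ hΛ]
    push_cast at h2
    linarith
  refine ⟨_, XBump_nice r0 r1 Λ, _, hc, fun t => ?_, fun t => ?_, fun t ht => ?_, fun t ht => ?_,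
    fun t ht => ?_, ?_, ?_, ?_⟩
  · simp only [XBump_re]
    exact XBump_deriv r0 r1 Λ t
  · rw [XBump_im, abs_div, abs_neg, abs_of_pos hΛ, div_le_iff₀ hΛ]
    linarith [abs_arg_le_pi (1 + (r : ℂ) * e t ^ 2)]
  · rw [XBump_im, abs_div, abs_neg, abs_of_pos hΛ, div_le_iff₀ hΛ, XBump_sq]
    obtain ⟨a0, a1, -⟩ := arg_bound r0 r1 (t := 2 * t) ⟨by linarith [ht.1], by linarith [ht.2]⟩
    rw [abs_of_nonneg a0]
    have h1 := Real.mul_le_sin ht.1 ht.2
    have h2 : t ≤ π / 2 * Real.sin t := by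
      have h3 := mul_le_mul_of_nonneg_left h1 (show 0 ≤ π / 2 by positivity)
      have h4 : π / 2 * (2 / π * t) = t := by field_simp
      linarith
    have h5 := Real.sin_nonneg_of_nonneg_of_le_pi ht.1 (by linarith [ht.2])
    nlinarith
  · have h5 := Real.sin_nonneg_of_nonneg_of_le_pi ht.1 (by linarith [ht.2])
    have h6 := Real.cos_nonneg_of_neg_pi_div_two_le_of_le (by linarith [ht.1]) ht.2
    have h7 := hD t
    refine ⟨by positivity, ?_⟩
    rw [div_mul_eq_mul_div, div_le_iff₀ hΛ, div_mul_eq_mul_div, div_le_iff₀ h7]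
    have h8 := Real.sin_le_one t
    have h9 : 4 * r * Real.cos t ^ 2 ≤ XBump_D r t := by
      unfold XBump_D
      nlinarith [sq_nonneg (1 - r)]
    have h10 : 0 ≤ 4 * r * Real.cos t ^ 2 := by positivity
    nlinarith
  · have h5 := Real.sin_nonneg_of_nonneg_of_le_pi (show 0 ≤ t by linarith [ht.1]) ht.2
    have h6 := Real.cos_nonpos_of_pi_div_two_le_of_le ht.1 (by linarith [ht.2])
    refine div_nonpos_of_nonpos_of_nonneg (div_nonpos_of_nonpos_of_nonneg ?_ (hD t).le) hΛ.le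
    exact mul_nonpos_of_nonneg_of_nonpos (by positivity) h6
  · rw [hint, hmid]
    linarith [hend 0]
  · rw [hint, hmid]
    linarith [hend π]
  · rw [hint, hmid]
    have h1 : Real.cos (3 * π / 4) ^ 2 = 1 / 2 := by
      rw [Real.cos_sq, show 2 * (3 * π / 4) = π / 2 + π by ring, Real.cos_add_pi,
        Real.cos_pi_div_two]
      ring
    have h2 : 1 ≤ XBump_D r (3 * π / 4) := by
      unfold XBump_D
      rw [h1]
      nlinarith
    have h3 := Real.log_nonneg h2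
    have h4 : -(Real.log (XBump_D r (3 * π / 4)) / 2) / Λ ≤ 0 :=
      div_nonpos_of_nonpos_of_nonneg (by linarith) hΛ.le
    linarith

end Pool.Agent.P.BSX
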