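import Pool.Agent.P.MP_3df8df_an.Extremal

/-! Definitions for the non-real perturbation of the function of Barnard and Suffridge. -/

set_option autoImplicit false

namespace Pool.Agent.P.BSX

open Complex Metric Set
open Pool.Agent.P.MP_3df8df_an
open scoped Real ComplexConjugate

/-- The point of the unit circle with argument `t`. -/
noncomputable def e (t : ℝ) : ℂ := cexp (t * I)

/-- Analytic on the closed disc, real on the real axis, zero at zero. -/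
structure Nice (g : ℂ → ℂ) : Prop where
  an : AnalyticOnNhd ℂ g (closedBall 0 1)
  sym : ∀ z ∈ closedBall (0 : ℂ) 1, g (conj z) = conj (g z)
  zero : g 0 = 0

/-- The direction of the boundary curve of the unperturbed function. -/
noncomputable def dev (t : ℝ) : ℝ := min (t - π / 2) 0

/-- Boundary data of a perturbation. -/
structure Bd (a b r d a1 b1 P r1 : ℝ → ℝ) : Prop where
  ca1 : Continuous a1
  cb1 : Continuous b1
  cP : Continuous P
  cr1 : Continuous r1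
  ha : ∀ t, a t = Real.sin t * a1 t
  hd : ∀ t, d t = Real.sin t * P t
  hb : ∀ t, HasDerivAt b (Real.sin t * b1 t) t
  hr : ∀ t, HasDerivAt r (r1 t) t

/-- The speed of the boundary curve of the unperturbed function. -/
structure Wt (w ρ : ℝ → ℝ) : Prop where
  cw : ContinuousOn w (Ioc 0 π)
  cρ : Continuous ρ
  pos : ∀ t ∈ Ioc 0 π, 0 < ρ t
  eq : ∀ t ∈ Ioc 0 π, w t * ρ t = Real.sin t
  low : ∃ c : ℝ, 0 < c ∧ ∀ t ∈ Ioc 0 (π / 4), c / t ≤ w t

/-- A curve that starts at the tip. -/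
noncomputable def J (w x φ : ℝ → ℝ) (t : ℝ) : ℂ :=
  ∫ s in t..π, (w s : ℂ) * cexp ((x s : ℂ) + (φ s : ℂ) * I)

def xp (ε : ℝ) (a r : ℝ → ℝ) (s : ℝ) : ℝ := ε * a s + ε ^ 2 * r s

def xm (ε : ℝ) (a r : ℝ → ℝ) (s : ℝ) : ℝ := -(ε * a s) + ε ^ 2 * r s

noncomputable def fp (ε : ℝ) (b d : ℝ → ℝ) (s : ℝ) : ℝ := dev s + (ε * b s + ε ^ 2 * d s)

noncomputable def fm (ε : ℝ) (b d : ℝ → ℝ) (s : ℝ) : ℝ := -dev s + (ε * b s - ε ^ 2 * d s)

/-- The primitive along radii. -/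
noncomputable def prim (h : ℂ → ℂ) (z : ℂ) : ℂ := ∫ s in (0 : ℝ)..1, z * h (s * z)

/-- The quotient of `f - f (-1)` by `(1 - z ^ 2) f'`. -/
noncomputable def Wf (G : ℂ → ℂ) (z : ℂ) : ℂ :=
  (1 - z) / G z * ∫ s in (0 : ℝ)..1, s * G (-1 + s * (1 + z)) / (1 - (-1 + s * (1 + z))) ^ 2

noncomputable def rho (t : ℝ) : ℝ :=
  4 * Real.sin (t / 2) ^ 3 * Real.exp (-(2 / π * (T (e t)).re))

noncomputable def UU (σ δ : ℂ → ℂ) (ε : ℝ) (z : ℂ) : ℂ := L z + (I * ε * σ z + ε ^ 2 * δ z)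

noncomputable def GG (σ δ : ℂ → ℂ) (ε : ℝ) (z : ℂ) : ℂ :=
  cexp (2 / π * T z + (I * ε * σ z + ε ^ 2 * δ z))

/-- The derivative of the perturbed function. -/
noncomputable def hh (σ δ : ℂ → ℂ) (ε : ℝ) (z : ℂ) : ℂ := (1 + z) * GG σ δ ε z / (1 - z) ^ 2

/-- An admissible perturbation. -/
structure Adm (σ δ : ℂ → ℂ) (a1 b1 P r1 : ℝ → ℝ) (s0 η : ℝ) : Prop where
  nσ : Nice σ
  nδ : Nice δ
  bd : Bd (fun t => -(σ (e t)).im) (fun t => (σ (e t)).re) (fun t => (δ (e t)).re)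
    (fun t => (δ (e t)).im) a1 b1 P r1
  s0p : 0 < s0
  s0l : s0 ≤ π / 4
  ηp : 0 < η
  hH : ∀ t ∈ Icc 0 (π / 2 + s0), |Real.sin t * b1 t| * |a1 t| + P t < 0
  hF : ∀ t ∈ Icc (π / 2 - s0) π,
    b1 t * rho t * (∫ s in t..π, ‖Q (e s)‖ * -(σ (e s)).im) + Real.sin t * (P t + η) ≤ 0

end Pool.Agent.P.BSX
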