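import Pool.Agent.P.MP_3df8df_an.XGain
import Pool.Agent.P.MP_3df8df_an.XApprox
import Pool.Agent.P.MP_3df8df_an.XBdry2

set_option autoImplicit false

namespace Pool.Agent.P.BSX

open Complex Metric Set Filter Topology
open Pool.Agent.P.MP_3df8df_an
open scoped Real ComplexConjugate

theorem XExist_div {g : ℝ → ℝ} (hg : ContinuousOn g (Icc (π / 4) π)) :
    ∃ D : ℝ → ℝ, ContinuousOn D (Icc (π / 4) π) ∧
      ∀ t ∈ Icc (π / 4) π, Real.sin t * D t = ∫ s in t..π, g s := by
  have hp := Real.pi_pos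
  have hle : π / 4 ≤ π := by linarith
  obtain ⟨G, hG, eG⟩ : ∃ G : ℝ → ℝ, Continuous G ∧ ∀ t ∈ Icc (π / 4) π, G t = g t :=
    ⟨IccExtend hle (domRestrict _ g), (continuousOn_iff_continuous_domRestrict.1 hg).Icc_extend',
      fun t ht => IccExtend_of_mem hle _ ht⟩
  have hA : ∀ t, HasDerivAt (fun u => ∫ s in π..u, G s) (G t) t := fun t =>
    (hG.integral_hasStrictDerivAt π t).hasDerivAt
  have c1 : ContinuousOn (dslope (fun u => ∫ s in π..u, G s) π) univ :=
    (continuousOn_dslope univ_mem).2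
      ⟨fun t _ => (hA t).continuousAt.continuousWithinAt, (hA π).differentiableAt⟩
  have c2 : ContinuousOn (dslope Real.sin π) univ :=
    (continuousOn_dslope univ_mem).2 ⟨Real.continuous_sin.continuousOn, Real.differentiableAt_sin⟩
  have e2 : ∀ t, (t - π) * dslope Real.sin π t = Real.sin t := fun t => by
    simpa using sub_smul_dslope Real.sin π t
  have n2 : ∀ t ∈ Icc (π / 4) π, dslope Real.sin π t ≠ 0 := fun t ht h => by
    rcases ht.2.eq_or_lt with rfl | h'
    · rw [dslope_same, Real.deriv_sin, Real.cos_pi] at h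
      norm_num at h
    · have := e2 t
      rw [h, mul_zero] at this
      exact (Real.sin_pos_of_pos_of_lt_pi (by linarith [ht.1]) h').ne this
  refine ⟨fun t => -dslope (fun u => ∫ s in π..u, G s) π t / dslope Real.sin π t,
    ((c1.mono (subset_univ _)).neg).div (c2.mono (subset_univ _)) n2, fun t ht => ?_⟩
  have e1 : (t - π) * dslope (fun u => ∫ s in π..u, G s) π t = ∫ s in π..t, G s := by
    simpa using sub_smul_dslope (fun u => ∫ s in π..u, G s) π t
  have e3 : ∫ s in t..π, g s = ∫ s in t..π, G s :=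
    intervalIntegral.integral_congr fun s hs => by
      rw [uIcc_of_le ht.2] at hs
      exact (eG s ⟨ht.1.trans hs.1, hs.2⟩).symm
  have := n2 t ht
  rw [e3, intervalIntegral.integral_symm, ← e1, ← e2 t]
  field_simp

theorem XExist_low {ω H : ℝ → ℝ} (cω : Continuous ω) (cH : Continuous H) (h2 : ∀ t, ω t ≤ 2)
    (h0 : ∀ t, 0 ≤ H t) :
    -(2 * ∫ t in (0 : ℝ)..π / 2, H t) ≤ ∫ t in (0 : ℝ)..π / 2, ω t * -H t := by
  rw [← intervalIntegral.integral_const_mul, ← intervalIntegral.integral_neg]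
  refine intervalIntegral.integral_mono_on (by positivity)
    (Continuous.intervalIntegrable (by fun_prop) _ _)
    (Continuous.intervalIntegrable (by fun_prop) _ _) fun t _ => ?_
  nlinarith [mul_nonneg (sub_nonneg.2 (h2 t)) (h0 t)]

theorem exist : ∃ (σ δ : ℂ → ℂ) (a1 b1 P r1 : ℝ → ℝ) (s0 η : ℝ), Adm σ δ a1 b1 P r1 s0 η ∧
    0 < (deriv δ 0).re ∧ 0 < (δ 1).re := by
  have hp := Real.pi_pos
  obtain ⟨σ, a1, b1, nσ, ca1, cb1, ha, hb, hν⟩ := gain wt
  have cg : ContinuousOn (fun s => ‖Q (e s)‖ * -(σ (e s)).im) (Icc (π / 4) π) := by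
    simp only [ha]
    exact (wt.cw.mono fun t ht => ⟨by linarith [ht.1], ht.2⟩).mul
      (Continuous.continuousOn (by fun_prop))
  obtain ⟨D, cD, eD⟩ := XExist_div cg
  have cρ := wt.cρ
  have cH : Continuous fun t => |Real.sin t * b1 t| * |a1 t| := by fun_prop
  have hsub : ∀ t ∈ uIcc (π / 2) π, t ∈ Icc (π / 2) π ∧ t ∈ Icc (π / 4) π := fun t ht => by
    rw [uIcc_of_le (by linarith)] at ht
    exact ⟨ht, by linarith [ht.1], ht.2⟩
  have hcos : ∀ t ∈ Icc (π / 2) π, Real.cos t ≤ 0 := fun t ht =>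
    Real.cos_nonpos_of_pi_div_two_le_of_le ht.1 (by linarith [ht.2])
  obtain ⟨p, s0, η, s0p, s0l, ηp, hH, hF, i1, i2⟩ := approx
    (GH := fun t => -(|Real.sin t * b1 t| * |a1 t|)) (GF := fun t => -(b1 t * rho t * D t))
    (ω1 := fun t => Real.sin t ^ 2) (ω2 := fun t => 1 + Real.cos t) cH.neg
    (((cb1.mul cρ).continuousOn.mul cD).neg) (by fun_prop) (by fun_prop)
    (fun t => sq_nonneg _) (fun t => by linarith [Real.neg_one_le_cos t])
    (by
      have h1 := hν (fun _ => 1) continuousOn_const fun _ _ => ⟨by norm_num, le_rfl⟩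
      have h2 := XExist_low (ω := fun t => Real.sin t ^ 2) (by fun_prop) cH
        (fun t => by linarith [Real.sin_sq_le_one t]) fun t => by positivity
      have h3 : ∫ t in π / 2..π, Real.sin t ^ 2 * -(b1 t * rho t * D t) =
          ∫ t in π / 2..π, 1 * -(Real.sin t * b1 t * rho t *
            ∫ s in t..π, ‖Q (e s)‖ * -(σ (e s)).im) :=
        intervalIntegral.integral_congr fun t ht => by
          rw [← eD t (hsub t ht).2]
          ring
      rw [h3]
      linarith)
    (by
      have h1 := hν (fun t => 1 / (1 - Real.cos t))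
        (ContinuousOn.div continuousOn_const (by fun_prop) fun t ht => by linarith [hcos t ht])
        fun t ht => ⟨one_div_le_one_div_of_le (by linarith [hcos t ht])
          (by linarith [Real.neg_one_le_cos t]), by
            rw [div_le_one (by linarith [hcos t ht])]; linarith [hcos t ht]⟩
      have h2 := XExist_low (ω := fun t => 1 + Real.cos t) (by fun_prop) cH
        (fun t => by linarith [Real.cos_le_one t]) fun t => by positivity
      have h3 : ∫ t in π / 2..π, (1 + Real.cos t) * -(b1 t * rho t * D t) =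
          ∫ t in π / 2..π, 1 / (1 - Real.cos t) * -(Real.sin t * b1 t * rho t *
            ∫ s in t..π, ‖Q (e s)‖ * -(σ (e s)).im) :=
        intervalIntegral.integral_congr fun t ht => by
          have h4 : 1 - Real.cos t ≠ 0 := by linarith [hcos t (hsub t ht).1]
          rw [← eD t (hsub t ht).2, one_div, inv_mul_eq_div, eq_div_iff h4]
          linear_combination (b1 t * rho t * D t) * Real.sin_sq_add_cos_sq t
      rw [h3]
      linarith)
  obtain ⟨δ, nδ, hd, d1, d2⟩ := polyd p
  obtain ⟨G, cG, hr⟩ := nδ.re_deriv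
  refine ⟨σ, δ, a1, b1, fun t => p.eval (Real.cos t), fun t => Real.sin t * G t, s0, η,
    ⟨nσ, nδ, ⟨ca1, cb1, p.continuous.comp Real.continuous_cos, by fun_prop, ha, hd, hb, hr⟩,
      s0p, s0l, ηp, fun t ht => ?_, fun t ht => ?_⟩, ?_, ?_⟩
  · linarith [hH t ht]
  · have ht' : t ∈ Icc (π / 4) π := ⟨by linarith [ht.1], ht.2⟩
    have h1 := mul_le_mul_of_nonneg_left (hF t ht)
      (Real.sin_nonneg_of_nonneg_of_le_pi (by linarith [ht'.1]) ht.2)
    rw [← eD t ht']
    linarith
  · exact (mul_pos_iff_of_pos_left hp).1 (by rw [d1]; linarith)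
  · exact (mul_pos_iff_of_pos_left hp).1 (d2 ▸ i2)

end Pool.Agent.P.BSX
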