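import Pool.Agent.P.MP_3df8df_an.XN2

set_option autoImplicit false

namespace Pool.Agent.P.BSX

open Complex Metric Set Filter Topology
open Pool.Agent.P.MP_3df8df_an
open scoped Real ComplexConjugate

theorem XF_unif {K : Set ℝ} (hK : IsCompact K) {l g : ℝ → ℝ} (hl : ContinuousOn l K)
    (hg : ContinuousOn g K) (hi : InjOn l K) {δ : ℝ} (hδ : 0 < δ) :
    ∃ γ > 0, ∀ x ∈ K, ∀ y ∈ K, |l x - l y| < γ → |g x - g y| < δ := by
  have c : ∀ {f : ℝ → ℝ}, ContinuousOn f K →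
      ContinuousOn (fun z : ℝ × ℝ => |f z.1 - f z.2|) (K ×ˢ K) := fun hf =>
    ((hf.comp continuousOn_fst fun _ hz => hz.1).sub
      (hf.comp continuousOn_snd fun _ hz => hz.2)).abs
  obtain ⟨γ, h0, H⟩ := (hK.prod hK).exists_forall_le'
    (f := fun z : ℝ × ℝ => max |l z.1 - l z.2| (δ - |g z.1 - g z.2|)) (a := 0)
    ((c hl).sup (continuousOn_const.sub (c hg))) fun z hz => by
      by_cases e : z.1 = z.2
      · exact lt_max_of_lt_right (by rw [e, sub_self, abs_zero, sub_zero]; exact hδ)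
      · exact lt_max_of_lt_left (abs_pos.2 (sub_ne_zero.2 fun h => e (hi hz.1 hz.2 h)))
  refine ⟨γ, h0, fun x hx y hy h => ?_⟩
  rcases le_max_iff.1 (H (x, y) ⟨hx, hy⟩) with h1 | h1
  · exact absurd h (not_lt.2 h1)
  · linarith

theorem XF_bd {f : ℝ → ℝ} {u v : ℝ} (hf : ContinuousOn f (Icc u v)) :
    ∃ M, 0 < M ∧ ∀ t ∈ Icc u v, |f t| ≤ M := by
  obtain ⟨M, hM⟩ := isCompact_Icc.exists_bound_of_continuousOn hf
  exact ⟨|M| + 1, by positivity, fun t ht => (hM t ht).trans (by linarith [le_abs_self M])⟩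

theorem XF_sin {p : ℝ} (hp : p ∈ Icc (π / 4) π) : π - p ≤ 6 * Real.sin p := by
  have h3 := Real.pi_gt_three
  have h4 := Real.pi_le_four
  have e : ∀ x, 0 ≤ x → x ≤ π / 2 → 2 * x ≤ π * Real.sin x := fun x h0 h1 => by
    have := Real.mul_le_sin h0 h1
    rwa [div_mul_eq_mul_div, div_le_iff₀' Real.pi_pos] at this
  have h0 := Real.sin_nonneg_of_nonneg_of_le_pi (x := p) (by linarith [hp.1]) hp.2
  rcases le_total p (π / 2) with h | h
  · have := e p (by linarith [hp.1]) h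
    nlinarith [hp.1]
  · have := e (π - p) (by linarith [hp.2]) (by linarith)
    rw [Real.sin_pi_sub] at this
    nlinarith

theorem XF_sub : Icc (π / 4) π ⊆ Ioc 0 π := fun _ ht =>
  ⟨lt_of_lt_of_le (by positivity) ht.1, ht.2⟩

theorem XF_pos {w ρ : ℝ → ℝ} (hw : Wt w ρ) {t : ℝ} (ht : t ∈ Ioo 0 π) : 0 < w t := by
  have h := hw.eq t ⟨ht.1, ht.2.le⟩
  have h1 := Real.sin_pos_of_mem_Ioo ht
  rw [← h] at h1
  exact (pos_iff_pos_of_mul_pos h1).2 (hw.pos t ⟨ht.1, ht.2.le⟩)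

theorem XF_der {w ρ : ℝ → ℝ} (hw : Wt w ρ) {t : ℝ} (ht : t ∈ Ioo 0 π) :
    HasDerivAt (fun u => ∫ s in u..π, w s) (-w t) t := by
  refine intervalIntegral.integral_hasDerivAt_left ?_
    ((hw.cw.mono Ioo_subset_Ioc_self).stronglyMeasurableAtFilter isOpen_Ioo t ht)
    (hw.cw.continuousAt (Ioc_mem_nhds ht.1 ht.2))
  refine (hw.cw.mono ?_).intervalIntegrable
  rw [uIcc_of_le ht.2.le]
  exact fun s hs => ⟨ht.1.trans_le hs.1, hs.2⟩

theorem XF_cont {w ρ : ℝ → ℝ} (hw : Wt w ρ) :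
    ContinuousOn (fun u => ∫ s in u..π, w s) (Icc (π / 4) π) := by
  have h : π / 4 ≤ π := by linarith [Real.pi_pos]
  rw [← uIcc_of_le h]
  refine intervalIntegral.continuousOn_primitive_interval_left ?_
  rw [uIcc_of_le h]
  exact (hw.cw.mono XF_sub).integrableOn_Icc

theorem XF_anti {w ρ : ℝ → ℝ} (hw : Wt w ρ) :
    StrictAntiOn (fun u => ∫ s in u..π, w s) (Icc (π / 4) π) := by
  refine strictAntiOn_of_deriv_neg (convex_Icc _ _) (XF_cont hw) fun x hx => ?_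
  rw [interior_Icc] at hx
  have hx' : x ∈ Ioo 0 π := ⟨lt_trans (by positivity) hx.1, hx.2⟩
  rw [(XF_der hw hx').deriv]
  exact neg_neg_of_pos (XF_pos hw hx')

theorem XF_mvt {w ρ b b1 : ℝ → ℝ} (hb : ∀ t, HasDerivAt b (Real.sin t * b1 t) t) (hw : Wt w ρ)
    {p q : ℝ} (hp : p ∈ Ioo 0 π) (hq : q ∈ Ioo 0 π) : ∃ ξ ∈ uIcc p q,
      b p - b q = -(b1 ξ * ρ ξ * ((∫ s in p..π, w s) - ∫ s in q..π, w s)) := by
  wlog hpq : p ≤ q generalizing p q
  · obtain ⟨ξ, h1, h2⟩ := this hq hp (le_of_not_ge hpq)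
    exact ⟨ξ, uIcc_comm p q ▸ h1, by linarith⟩
  rcases hpq.eq_or_lt with rfl | hlt
  · exact ⟨p, left_mem_uIcc, by simp⟩
  have hs : ∀ t ∈ Icc p q, t ∈ Ioo 0 π := fun t ht => ⟨hp.1.trans_le ht.1, ht.2.trans_lt hq.2⟩
  obtain ⟨ξ, h1, h2⟩ := exists_ratio_hasDerivAt_eq_ratio_slope b (fun t => Real.sin t * b1 t) hlt
    (fun t _ => (hb t).continuousAt.continuousWithinAt) (fun t _ => hb t)
    (fun u => ∫ s in u..π, w s) (fun t => -w t)
    (fun t ht => (XF_der hw (hs t ht)).continuousAt.continuousWithinAt)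
    fun t ht => XF_der hw (hs t (Ioo_subset_Icc_self ht))
  have h3 := hs ξ (Ioo_subset_Icc_self h1)
  refine ⟨ξ, uIcc_of_le hpq ▸ Ioo_subset_Icc_self h1, mul_left_cancel₀ (XF_pos hw h3).ne' ?_⟩
  rw [← hw.eq ξ ⟨h3.1, h3.2.le⟩] at h2
  linear_combination (-1 : ℝ) * h2

theorem XF_A {w ρ a : ℝ → ℝ} (hw : Wt w ρ) (ha : Continuous a) : ∃ K, 0 < K ∧
    ∀ p ∈ Icc (π / 4) π, |∫ s in p..π, w s * a s| ≤ K * Real.sin p := by
  obtain ⟨M, h0, hM⟩ := XF_bd (f := fun s => w s * a s) ((hw.cw.mono XF_sub).mul ha.continuousOn)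
  refine ⟨M * 6, by positivity, fun p hp => ?_⟩
  have h := intervalIntegral.norm_integral_le_of_norm_le_const (a := p) (b := π) (C := M)
    (f := fun s => w s * a s) fun s hs => by
      rw [uIoc_of_le hp.2] at hs
      exact hM s ⟨hp.1.trans hs.1.le, hs.2⟩
  rw [abs_of_nonneg (sub_nonneg.2 hp.2)] at h
  exact h.trans (by rw [mul_assoc]; exact mul_le_mul_of_nonneg_left (XF_sin hp) h0.le)

theorem XF_small {c γ : ℝ} (hγ : 0 < γ) : ∀ᶠ ε in 𝓝[>] (0 : ℝ), c * ε < γ := by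
  have h : Tendsto (fun ε : ℝ => c * ε) (𝓝 0) (𝓝 (c * 0)) := tendsto_id.const_mul c
  rw [mul_zero] at h
  exact (h.eventually_lt_const hγ).filter_mono nhdsWithin_le_nhds

theorem matchF {w ρ a b r d a1 b1 P r1 : ℝ → ℝ} (h : Bd a b r d a1 b1 P r1) (hw : Wt w ρ)
    {s0 η : ℝ} (hs : 0 < s0) (hs' : s0 ≤ π / 4) (hη : 0 < η)
    (hF : ∀ t ∈ Icc (π / 2 - s0) π,
      b1 t * ρ t * (∫ s in t..π, w s * a s) + Real.sin t * (P t + η) ≤ 0) :
    ∀ᶠ ε in 𝓝[>] (0 : ℝ), ∀ p ∈ Ioo 0 π, ∀ q ∈ Ioo 0 π,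
      ‖J w (xp ε a r) (fp ε b d) p‖ = ‖J w (xm ε a r) (fm ε b d) q‖ →
      fp ε b d p ≤ fm ε b d q := by
  have cb : Continuous b := continuous_iff_continuousAt.2 fun t => (h.hb t).continuousAt
  have cd : Continuous d := by
    rw [show d = fun t => Real.sin t * P t from funext h.hd]
    exact Real.continuous_sin.mul h.cP
  have ca : Continuous a := by
    rw [show a = fun t => Real.sin t * a1 t from funext h.ha]
    exact Real.continuous_sin.mul h.ca1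
  have cg : Continuous fun t => b1 t * ρ t := h.cb1.mul hw.cρ
  obtain ⟨B, B0, hB⟩ := XF_bd (u := 0) (v := π) cb.continuousOn
  obtain ⟨D, D0, hD⟩ := XF_bd (u := 0) (v := π) cd.continuousOn
  obtain ⟨G, G0, hG⟩ := XF_bd (u := π / 4) (v := π) cg.continuousOn
  obtain ⟨K, K0, hK⟩ := XF_A hw ca
  obtain ⟨γ, γ0, hγ⟩ := XF_unif isCompact_Icc (XF_cont hw) cg.continuousOn (XF_anti hw).injOn
    (δ := η / 2 / K) (by positivity)
  obtain ⟨C, C0, hC⟩ := match_len h hw (2 * B + 2 * D)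
  filter_upwards [hC, self_mem_nhdsWithin, XF_small (c := 1) one_pos,
    XF_small (c := 2 * B + 2 * D) hs, XF_small (c := 2 * K + 2 * C) γ0,
    XF_small (c := G * C) (half_pos hη)] with ε H ε0 ε1 e2 e3 e4 p hp q hq hJ
  have ε0' : 0 < ε := ε0
  rw [one_mul] at ε1
  have dp : dev p ≤ 0 := min_le_right _ _
  have dq : dev q ≤ 0 := min_le_right _ _
  rw [fp, fm]
  by_cases hc : π / 2 - (2 * B + 2 * D) * ε ≤ p ∧ π / 2 - (2 * B + 2 * D) * ε ≤ q
  swap
  · have b1 := (abs_le.1 (hB p (Ioo_subset_Icc_self hp))).2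
    have b2 := (abs_le.1 (hB q (Ioo_subset_Icc_self hq))).1
    have d1 := (abs_le.1 (hD p (Ioo_subset_Icc_self hp))).2
    have d2 := (abs_le.1 (hD q (Ioo_subset_Icc_self hq))).2
    have h1 : dev p + dev q ≤ -((2 * B + 2 * D) * ε) := by
      have dp' : dev p ≤ p - π / 2 := min_le_left _ _
      have dq' : dev q ≤ q - π / 2 := min_le_left _ _
      rcases not_and_or.1 hc with h' | h' <;> linarith [not_le.1 h']
    have h2 : ε * (b p - b q) ≤ ε * (2 * B) := mul_le_mul_of_nonneg_left (by linarith) ε0'.le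
    have h3 : ε ^ 2 * (d p + d q) ≤ ε ^ 2 * (2 * D) :=
      mul_le_mul_of_nonneg_left (by linarith) (by positivity)
    have h4 : ε ^ 2 * (2 * D) ≤ ε * (2 * D) :=
      mul_le_mul_of_nonneg_right (by nlinarith) (by positivity)
    linarith
  have hE := H p ⟨hc.1, hp.2.le⟩ q ⟨hc.2, hq.2.le⟩ hJ
  have pK : p ∈ Icc (π / 4) π := ⟨by linarith [hc.1], hp.2.le⟩
  have qK : q ∈ Icc (π / 4) π := ⟨by linarith [hc.2], hq.2.le⟩
  have Fp := hF p ⟨by linarith [hc.1], hp.2.le⟩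
  have Fq := hF q ⟨by linarith [hc.2], hq.2.le⟩
  obtain ⟨ξ, hξ, e⟩ := XF_mvt h.hb hw hp hq
  have ξK : ξ ∈ Icc (π / 4) π := uIcc_subset_Icc pK qK hξ
  have Ap := hK p pK
  have Aq := hK q qK
  have sp := (Real.sin_pos_of_mem_Ioo hp).le
  have sq := (Real.sin_pos_of_mem_Ioo hq).le
  have sp1 := Real.sin_le_one p
  have sq1 := Real.sin_le_one q
  have hl : |(∫ s in p..π, w s) - ∫ s in q..π, w s| < γ := by
    have h1 : C * ε ^ 2 * (Real.sin p + Real.sin q) ≤ C * ε * 2 :=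
      mul_le_mul (mul_le_mul_of_nonneg_left (by nlinarith) C0) (by linarith) (by linarith)
        (by positivity)
    have h2 : |ε * ((∫ s in p..π, w s * a s) + ∫ s in q..π, w s * a s)| ≤ ε * (2 * K) := by
      rw [abs_mul, abs_of_pos ε0']
      refine mul_le_mul_of_nonneg_left ((abs_add_le _ _).trans ?_) ε0'.le
      nlinarith
    have h3 := abs_sub (((∫ s in p..π, w s) - ∫ s in q..π, w s) +
      ε * ((∫ s in p..π, w s * a s) + ∫ s in q..π, w s * a s))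
      (ε * ((∫ s in p..π, w s * a s) + ∫ s in q..π, w s * a s))
    rw [add_sub_cancel_right] at h3
    linarith
  have hx : (∫ s in ξ..π, w s) ∈ uIcc (∫ s in p..π, w s) (∫ s in q..π, w s) :=
    ((XF_anti hw).antitoneOn.mono (uIcc_subset_Icc pK qK)).mapsTo_uIcc hξ
  have g1 := hγ ξ ξK p pK ((abs_sub_left_of_mem_uIcc hx).trans_lt (by rwa [abs_sub_comm]))
  have g2 := hγ q qK ξ ξK ((abs_sub_right_of_mem_uIcc hx).trans_lt (by rwa [abs_sub_comm]))
  rw [abs_sub_comm] at g2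
  have key : ∀ u v A s : ℝ, |u - v| < η / 2 / K → |A| ≤ K * s → u * A ≤ v * A + η / 2 * s :=
    fun u v A s h1 h2 => by
      have h3 : (u - v) * A ≤ η / 2 / K * (K * s) := (le_abs_self _).trans (by
        rw [abs_mul]; exact mul_le_mul h1.le h2 (abs_nonneg _) (by positivity))
      rw [← mul_assoc, div_mul_cancel₀ _ K0.ne'] at h3
      linarith
  have k1 := key _ _ _ _ g1 Ap
  have k2 := key _ _ _ _ g2 Aq
  generalize (∫ s in p..π, w s * a s) = Ap' at *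
  generalize (∫ s in q..π, w s * a s) = Aq' at *
  generalize (∫ s in p..π, w s) - (∫ s in q..π, w s) = l at *
  have k3 : -(b1 ξ * ρ ξ * (l + ε * (Ap' + Aq'))) ≤
      G * (C * ε ^ 2 * (Real.sin p + Real.sin q)) := (neg_le_abs _).trans (by
    rw [abs_mul]; exact mul_le_mul (hG ξ ξK) hE (abs_nonneg _) G0.le)
  have k4 : G * C * ε * (ε * (Real.sin p + Real.sin q)) ≤
      η / 2 * (ε * (Real.sin p + Real.sin q)) :=
    mul_le_mul_of_nonneg_right e4.le (by positivity)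
  have k5 : ε * (b1 ξ * ρ ξ * (Ap' + Aq')) ≤ ε * (-(d p + d q) - η / 2 * (Real.sin p + Real.sin q)) :=
    mul_le_mul_of_nonneg_left (by rw [h.hd, h.hd]; linarith) ε0'.le
  have k6 : ε * (b p - b q + ε * (d p + d q)) ≤ 0 :=
    mul_nonpos_of_nonneg_of_nonpos ε0'.le (by rw [e]; linarith)
  linarith

end Pool.Agent.P.BSX
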