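import Pool.Agent.P.MP_3df8df_an.XDefs

set_option autoImplicit false

namespace Pool.Agent.P.BSX

open Complex Metric Set Filter Topology
open Pool.Agent.P.MP_3df8df_an
open scoped Real ComplexConjugate

theorem XH_bound {f : ℝ → ℝ} (hf : Continuous f) : ∃ C, 0 < C ∧ ∀ t ∈ Icc 0 π, |f t| ≤ C := by
  obtain ⟨C, hC⟩ := (isCompact_Icc (a := (0 : ℝ)) (b := π)).exists_bound_of_continuousOn
    hf.continuousOn
  exact ⟨max C 1, lt_max_of_lt_right one_pos, fun t ht => (hC t ht).trans (le_max_left _ _)⟩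

theorem XH_lip {f f' : ℝ → ℝ} (hf : ∀ t, HasDerivAt f (f' t) t) {p q K : ℝ}
    (hK : ∀ t ∈ uIcc p q, |f' t| ≤ K) : |f p - f q| ≤ K * |p - q| :=
  (convex_uIcc p q).norm_image_sub_le_of_norm_hasDerivWithin_le
    (fun t _ => (hf t).hasDerivWithinAt) hK right_mem_uIcc left_mem_uIcc

theorem XH_small {φ : ℝ → ℝ} (hφ : Continuous φ) {c : ℝ} (h : φ 0 < c) :
    ∀ᶠ ε in 𝓝[>] (0 : ℝ), φ ε < c :=
  (hφ.continuousAt.eventually (gt_mem_nhds h)).filter_mono nhdsWithin_le_nhds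

theorem XH_margin {F : ℝ → ℝ} (hF : Continuous F) {c : ℝ} (h : ∀ t ∈ Icc 0 c, F t < 0) :
    ∃ μ, 0 < μ ∧ ∀ t ∈ Icc 0 c, F t ≤ -μ := by
  rcases (Icc 0 c).eq_empty_or_nonempty with he | hne
  · exact ⟨1, one_pos, fun t ht => by rw [he] at ht; cases ht⟩
  · obtain ⟨t0, ht0, hmax⟩ := isCompact_Icc.exists_isMaxOn hne hF.continuousOn
    exact ⟨-F t0, neg_pos.2 (h t0 ht0), fun t ht => by rw [neg_neg]; exact hmax ht⟩

theorem XH_sub {p q t : ℝ} (hp : p ∈ Ioo 0 π) (hq : q ∈ Ioo 0 π) (ht : t ∈ uIcc p q) :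
    t ∈ Icc 0 π :=
  uIcc_subset_Icc (Ioo_subset_Icc_self hp) (Ioo_subset_Icc_self hq) ht

theorem XH_close {m r r1 : ℝ → ℝ} (hr : ∀ t, HasDerivAt r (r1 t) t)
    (hm : AntitoneOn (fun t => m t + 5 / 4 * t) (Ioo 0 π)) {R ε p q u : ℝ}
    (hR : ∀ t ∈ Icc 0 π, |r1 t| ≤ R) (hε : ε ^ 2 * R < 1 / 4) (hp : p ∈ Ioo 0 π)
    (hq : q ∈ Ioo 0 π) (he : m p + ε ^ 2 * r p - (m q + ε ^ 2 * r q) = u) : |p - q| ≤ |u| := by
  have h1 := XH_lip hr (p := p) (q := q) fun t ht => hR t (XH_sub hp hq ht)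
  have h2 : ε ^ 2 * |r p - r q| ≤ 1 / 4 * |p - q| := by
    have h3 := mul_le_mul_of_nonneg_left h1 (sq_nonneg ε)
    have h4 := mul_le_mul_of_nonneg_right hε.le (abs_nonneg (p - q))
    linarith
  have h5 := mul_le_mul_of_nonneg_left (le_abs_self (r p - r q)) (sq_nonneg ε)
  have h6 := mul_le_mul_of_nonneg_left (neg_abs_le (r p - r q)) (sq_nonneg ε)
  rcases le_total p q with h | h
  · have h7 : m q + 5 / 4 * q ≤ m p + 5 / 4 * p := hm hp hq h
    rw [abs_of_nonpos (sub_nonpos.2 h)] at h2 ⊢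
    linarith [le_abs_self u]
  · have h7 : m p + 5 / 4 * p ≤ m q + 5 / 4 * q := hm hq hp h
    rw [abs_of_nonneg (sub_nonneg.2 h)] at h2 ⊢
    linarith [neg_abs_le u]

theorem matchH {m a b r d a1 b1 P r1 : ℝ → ℝ} (h : Bd a b r d a1 b1 P r1)
    (hm : AntitoneOn (fun t => m t + 5 / 4 * t) (Ioo 0 π)) {s0 : ℝ} (hs : 0 < s0)
    (hH : ∀ t ∈ Icc 0 (π / 2 + s0), |Real.sin t * b1 t| * |a1 t| + P t < 0) :
    ∀ᶠ ε in 𝓝[>] (0 : ℝ), ∀ p ∈ Ioo 0 π, ∀ q ∈ Ioo 0 π,
      m p + xp ε a r p = m q + xm ε a r q →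
      ε * (b p - b q) + ε ^ 2 * (d p + d q) ≤ max (p - π / 2) 0 + max (q - π / 2) 0 := by
  have cβ : Continuous fun t => Real.sin t * b1 t := Real.continuous_sin.mul h.cb1
  obtain ⟨A, hA0, hA⟩ := XH_bound h.ca1
  obtain ⟨R, -, hR⟩ := XH_bound h.cr1
  obtain ⟨B, -, hB⟩ := XH_bound (f := b)
    (continuous_iff_continuousAt.2 fun t => (h.hb t).continuousAt)
  obtain ⟨D, -, hD⟩ := XH_bound (Real.continuous_sin.mul h.cP)
  obtain ⟨μ, hμ, hμ'⟩ := XH_margin (F := fun t => |Real.sin t * b1 t| * |a1 t| + P t)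
    ((cβ.abs.mul h.ca1.abs).add h.cP) hH
  obtain ⟨δ, hδ, hδ'⟩ := Metric.uniformContinuousOn_iff.1
    ((isCompact_Icc (a := (0 : ℝ)) (b := π)).uniformContinuousOn_of_continuous cβ.continuousOn)
    (μ / A) (div_pos hμ hA0)
  filter_upwards [self_mem_nhdsWithin,
    XH_small (φ := fun ε => ε ^ 2 * R) (c := 1 / 4) (by fun_prop) (by simp),
    XH_small (φ := fun ε => ε * (2 * A)) (c := δ) (by fun_prop) (by simpa using hδ),
    XH_small (φ := fun ε => ε * (2 * B) + ε ^ 2 * (2 * D)) (c := s0) (by fun_prop)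
      (by simpa using hs)] with ε hε h1 h2 h3 p hp q hq he
  have hε0 : 0 < ε := hε
  have hp' := Ioo_subset_Icc_self hp
  have hq' := Ioo_subset_Icc_self hq
  have hsp : 0 ≤ Real.sin p := Real.sin_nonneg_of_mem_Icc hp'
  have hsq : 0 ≤ Real.sin q := Real.sin_nonneg_of_mem_Icc hq'
  by_cases hc : p ≤ π / 2 + s0 ∧ q ≤ π / 2 + s0
  · have h4 : |p - q| ≤ ε * (Real.sin p * |a1 p| + Real.sin q * |a1 q|) := by
      refine (XH_close h.hr hm hR h1 hp hq (u := -(ε * (a p + a q)))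
        (by simp only [xp, xm] at he; linarith)).trans ?_
      rw [abs_neg, abs_mul, abs_of_pos hε0, h.ha, h.ha]
      refine mul_le_mul_of_nonneg_left ((abs_add_le _ _).trans ?_) hε0.le
      rw [abs_mul, abs_mul, abs_of_nonneg hsp, abs_of_nonneg hsq]
    have h5 : |p - q| < δ := by
      refine lt_of_le_of_lt (h4.trans (mul_le_mul_of_nonneg_left ?_ hε0.le)) h2
      have e1 := mul_le_mul (Real.sin_le_one p) (hA p hp') (abs_nonneg _) zero_le_one
      have e2 := mul_le_mul (Real.sin_le_one q) (hA q hq') (abs_nonneg _) zero_le_one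
      linarith
    set K := min |Real.sin p * b1 p| |Real.sin q * b1 q| + μ / A with hK
    have hK0 : 0 ≤ K := add_nonneg (le_min (abs_nonneg _) (abs_nonneg _)) (div_pos hμ hA0).le
    have h6 : |b p - b q| ≤ K * |p - q| := by
      refine XH_lip h.hb fun t ht => ?_
      have ht' := XH_sub hp hq ht
      have e1 := hδ' t ht' p hp' (lt_of_le_of_lt (by
        rw [Real.dist_eq, abs_sub_comm p q] at *
        exact abs_sub_left_of_mem_uIcc ht) h5)
      have e2 := hδ' t ht' q hq' (lt_of_le_of_lt (by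
        rw [Real.dist_eq, abs_sub_comm t q, abs_sub_comm p q]
        exact abs_sub_right_of_mem_uIcc ht) h5)
      rw [Real.dist_eq] at e1 e2
      have e3 := abs_sub_abs_le_abs_sub (Real.sin t * b1 t) (Real.sin p * b1 p)
      have e4 := abs_sub_abs_le_abs_sub (Real.sin t * b1 t) (Real.sin q * b1 q)
      rw [hK, ← min_add_add_right]
      exact le_min (by linarith) (by linarith)
    have h7 : ∀ t ∈ Icc 0 π, t ≤ π / 2 + s0 → K ≤ |Real.sin t * b1 t| + μ / A →
        K * |a1 t| + P t ≤ 0 := by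
      intro t ht ht' hKt
      have e1 := hμ' t ⟨ht.1, ht'⟩
      have e2 := mul_le_mul_of_nonneg_right hKt (abs_nonneg (a1 t))
      have e3 := mul_le_mul_of_nonneg_left (hA t ht) (div_pos hμ hA0).le
      rw [div_mul_cancel₀ _ hA0.ne'] at e3
      linarith
    have h8 := mul_le_mul_of_nonneg_left
      (h7 p hp' hc.1 (add_le_add_left (min_le_left _ _) _)) hsp
    have h9 := mul_le_mul_of_nonneg_left
      (h7 q hq' hc.2 (add_le_add_left (min_le_right _ _) _)) hsq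
    have h10 : b p - b q ≤ K * (ε * (Real.sin p * |a1 p| + Real.sin q * |a1 q|)) :=
      (le_abs_self _).trans (h6.trans (mul_le_mul_of_nonneg_left h4 hK0))
    have h11 := mul_le_mul_of_nonneg_left h10 hε0.le
    have h12 := mul_le_mul_of_nonneg_left (add_le_add h8 h9) (sq_nonneg ε)
    have h13 := le_max_right (p - π / 2) 0
    have h14 := le_max_right (q - π / 2) 0
    rw [h.hd, h.hd]
    nlinarith
  · have h4 : s0 ≤ max (p - π / 2) 0 + max (q - π / 2) 0 := by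
      have e1 := le_max_left (p - π / 2) 0
      have e2 := le_max_left (q - π / 2) 0
      have e3 := le_max_right (p - π / 2) 0
      have e4 := le_max_right (q - π / 2) 0
      rcases not_and_or.1 hc with h5 | h5 <;> linarith [not_le.1 h5]
    have h5 : b p - b q ≤ 2 * B := by
      linarith [(abs_le.1 (hB p hp')).2, (abs_le.1 (hB q hq')).1]
    have h6 : d p + d q ≤ 2 * D := by
      rw [h.hd, h.hd]
      have e1 : Real.sin p * P p ≤ D := (abs_le.1 (hD p hp')).2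
      have e2 : Real.sin q * P q ≤ D := (abs_le.1 (hD q hq')).2
      linarith
    have h7 := mul_le_mul_of_nonneg_left h5 hε0.le
    have h8 := mul_le_mul_of_nonneg_left h6 (sq_nonneg ε)
    linarith

end Pool.Agent.P.BSX
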