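import Pool.Agent.P.MP_3df8df_an.XDefs

set_option autoImplicit false

namespace Pool.Agent.P.BSX

open Complex Metric Set Filter Topology
open Pool.Agent.P.MP_3df8df_an
open scoped Real ComplexConjugate

theorem surj {X : ℝ → ℝ} (hc : ContinuousOn X (Ioo 0 π)) (h0 : Tendsto X (𝓝[>] 0) atTop)
    (h1 : Tendsto X (𝓝[<] π) atBot) (x : ℝ) : ∃ p ∈ Ioo 0 π, X p = x := by
  have e0 : ∀ᶠ t in 𝓝[>] (0 : ℝ), t ∈ Ioo 0 π := Ioo_mem_nhdsGT Real.pi_pos
  have e1 : ∀ᶠ t in 𝓝[<] π, t ∈ Ioo 0 π := Ioo_mem_nhdsLT Real.pi_pos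
  obtain ⟨a, ha, hxa⟩ := (e0.and (h0.eventually (eventually_ge_atTop x))).exists
  obtain ⟨b, hb, hxb⟩ := (e1.and (h1.eventually (eventually_le_atBot x))).exists
  exact isPreconnected_Ioo.intermediate_value hb ha hc ⟨hxb, hxa⟩

theorem XM_inv {X X' : ℝ → ℝ} (hX : ∀ t ∈ Ioo 0 π, HasDerivAt X (X' t) t)
    (nX : ∀ t ∈ Ioo 0 π, X' t < 0) (h0 : Tendsto X (𝓝[>] 0) atTop)
    (h1 : Tendsto X (𝓝[<] π) atBot) :
    ∃ p : ℝ → ℝ, (∀ x, p x ∈ Ioo 0 π) ∧ (∀ x, X (p x) = x) ∧ (∀ t ∈ Ioo 0 π, p (X t) = t) ∧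
      (∀ x, HasDerivAt p (X' (p x))⁻¹ x) ∧
      ∀ τ : ℝ, 0 < τ → ∃ x0 : ℝ, ∀ x ≤ x0, π - τ < p x := by
  have hc : ContinuousOn X (Ioo 0 π) := fun t ht => (hX t ht).continuousAt.continuousWithinAt
  have hanti : StrictAntiOn X (Ioo 0 π) := by
    refine strictAntiOn_of_deriv_neg (convex_Ioo 0 π) hc ?_
    intro t ht
    rw [interior_Ioo] at ht
    rw [(hX t ht).deriv]
    exact nX t ht
  choose p hp hXp using surj hc h0 h1
  have hlow : ∀ t ∈ Ioo 0 π, ∀ y, y < X t → t < p y := by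
    intro t ht y hy
    by_contra hle
    have h2 := hanti.antitoneOn (hp y) ht (not_lt.1 hle)
    rw [hXp] at h2
    linarith
  have hup : ∀ t ∈ Ioo 0 π, ∀ y, X t < y → p y < t := by
    intro t ht y hy
    by_contra hle
    have h2 := hanti.antitoneOn ht (hp y) (not_lt.1 hle)
    rw [hXp] at h2
    linarith
  have hcont : ∀ x, ContinuousAt p x := by
    intro x
    refine tendsto_order.2 ⟨fun a ha => ?_, fun b hb => ?_⟩
    · obtain ⟨t, ht1, ht2⟩ := exists_between (max_lt ha (hp x).1)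
      have ht : t ∈ Ioo 0 π := ⟨lt_of_le_of_lt (le_max_right _ _) ht1, ht2.trans (hp x).2⟩
      have h3 : x < X t := by
        have h4 := hanti ht (hp x) ht2
        rwa [hXp] at h4
      filter_upwards [Iio_mem_nhds h3] with y hy
      exact (lt_of_le_of_lt (le_max_left _ _) ht1).trans (hlow t ht y hy)
    · obtain ⟨t, ht1, ht2⟩ := exists_between (lt_min hb (hp x).2)
      have ht : t ∈ Ioo 0 π := ⟨(hp x).1.trans ht1, lt_of_lt_of_le ht2 (min_le_right _ _)⟩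
      have h3 : X t < x := by
        have h4 := hanti (hp x) ht ht1
        rwa [hXp] at h4
      filter_upwards [Ioi_mem_nhds h3] with y hy
      exact (hup t ht y hy).trans (lt_of_lt_of_le ht2 (min_le_left _ _))
  refine ⟨p, hp, hXp, fun t ht => hanti.injOn (hp _) ht (hXp _), fun x => ?_, fun τ hτ => ?_⟩
  · exact HasDerivAt.of_local_left_inverse (hcont x) (hX _ (hp x)) (nX _ (hp x)).ne
      (Eventually.of_forall hXp)
  · have hpi := Real.pi_pos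
    have ht : max (π - τ) (π / 2) ∈ Ioo 0 π :=
      ⟨lt_of_lt_of_le (by linarith) (le_max_right _ _), max_lt (by linarith) (by linarith)⟩
    refine ⟨X (max (π - τ) (π / 2)) - 1, fun x hx => ?_⟩
    exact lt_of_le_of_lt (le_max_left _ _) (hlow _ ht x (by linarith))

theorem XM_grow {g g' : ℝ → ℝ} (hg : ∀ x, HasDerivAt g (g' x) x)
    (hneg : ∀ x, 0 < g x → g' x < 0) {x1 : ℝ} (h1 : 0 < g x1) {x0 : ℝ} (h0 : x0 ≤ x1) :
    g x1 ≤ g x0 := by
  by_contra hlt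
  have hlt' : g x0 < g x1 := not_le.1 hlt
  have hc : ContinuousOn g (Icc x0 x1) := fun t _ => (hg t).continuousAt.continuousWithinAt
  obtain ⟨c, hcm, hmax⟩ := isCompact_Icc.exists_isMaxOn (nonempty_Icc.2 h0) hc
  have h2 : g x1 ≤ g c := hmax (right_mem_Icc.2 h0)
  have h3 : x0 < c := by
    rcases hcm.1.lt_or_eq with h | h
    · exact h
    · rw [← h] at h2
      linarith
  have h4 : g' c < 0 := hneg c (by linarith)
  have h5 : Tendsto (slope g c) (𝓝[<] c) (𝓝 (g' c)) :=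
    (hasDerivAt_iff_tendsto_slope.1 (hg c)).mono_left (nhdsLT_le_nhdsNE c)
  have h6 : ∀ᶠ y in 𝓝[<] c, slope g c y < 0 := h5.eventually (Iio_mem_nhds h4)
  have h7 : ∀ᶠ y in 𝓝[<] c, y ∈ Ioo x0 c := Ioo_mem_nhdsLT h3
  obtain ⟨y, hy1, hy2⟩ := (h6.and h7).exists
  have h8 : g y ≤ g c := hmax ⟨hy2.1.le, hy2.2.le.trans hcm.2⟩
  rw [slope_def_field] at hy1
  have h9 : 0 ≤ (g y - g c) / (y - c) :=
    div_nonneg_of_nonpos (by linarith) (by linarith [hy2.2])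
  linarith

theorem lemM {V W V' W' : ℝ → ℂ} (hV : ∀ t ∈ Ioo 0 π, HasDerivAt V (V' t) t)
    (hW : ∀ t ∈ Ioo 0 π, HasDerivAt W (W' t) t) (nV : ∀ t ∈ Ioo 0 π, (V' t).re < 0)
    (nW : ∀ t ∈ Ioo 0 π, (W' t).re < 0)
    (V0 : Tendsto (fun t => (V t).re) (𝓝[>] 0) atTop)
    (V1 : Tendsto (fun t => (V t).re) (𝓝[<] π) atBot)
    (W0 : Tendsto (fun t => (W t).re) (𝓝[>] 0) atTop)
    (W1 : Tendsto (fun t => (W t).re) (𝓝[<] π) atBot)
    (hk : ∀ p ∈ Ioo 0 π, ∀ q ∈ Ioo 0 π, (V p).re = (W q).re → 2 * π < (V p).im - (W q).im →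
      (V' p).im / (V' p).re < (W' q).im / (W' q).re)
    (hl : ∀ η : ℝ, 0 < η → ∃ τ : ℝ, 0 < τ ∧ ∀ p ∈ Ioo 0 π, ∀ q ∈ Ioo 0 π, π - τ < p →
      π - τ < q → (V p).re = (W q).re → (V p).im - (W q).im ≤ 2 * π + η) :
    ∀ p ∈ Ioo 0 π, ∀ q ∈ Ioo 0 π, (V p).re = (W q).re → (V p).im - (W q).im ≤ 2 * π := by
  have hre : ∀ {F : ℝ → ℂ} {F' : ℂ} {t : ℝ}, HasDerivAt F F' t →
      HasDerivAt (fun s => (F s).re) F'.re t := fun h =>
    reCLM.hasFDerivAt.comp_hasDerivAt _ h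
  have him : ∀ {F : ℝ → ℂ} {F' : ℂ} {t : ℝ}, HasDerivAt F F' t →
      HasDerivAt (fun s => (F s).im) F'.im t := fun h =>
    imCLM.hasFDerivAt.comp_hasDerivAt _ h
  obtain ⟨a, ha, hXa, haX, da, la⟩ := XM_inv (X := fun t => (V t).re) (X' := fun t => (V' t).re)
    (fun t ht => hre (hV t ht)) nV V0 V1
  obtain ⟨b, hb, hXb, hbX, db, lb⟩ := XM_inv (X := fun t => (W t).re) (X' := fun t => (W' t).re)
    (fun t ht => hre (hW t ht)) nW W0 W1
  have hab : ∀ x, (V (a x)).re = (W (b x)).re := fun x => (hXa x).trans (hXb x).symm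
  have hg : ∀ x, HasDerivAt (fun y => (V (a y)).im - (W (b y)).im - 2 * π)
      ((V' (a x)).im * ((V' (a x)).re)⁻¹ - (W' (b x)).im * ((W' (b x)).re)⁻¹) x := by
    intro x
    have h1 : HasDerivAt (fun y => (V (a y)).im) ((V' (a x)).im * ((V' (a x)).re)⁻¹) x :=
      (him (hV _ (ha x))).comp x (da x)
    have h2 : HasDerivAt (fun y => (W (b y)).im) ((W' (b x)).im * ((W' (b x)).re)⁻¹) x :=
      (him (hW _ (hb x))).comp x (db x)
    exact (h1.sub h2).sub_const _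
  have hneg : ∀ x, 0 < (V (a x)).im - (W (b x)).im - 2 * π →
      (V' (a x)).im * ((V' (a x)).re)⁻¹ - (W' (b x)).im * ((W' (b x)).re)⁻¹ < 0 := by
    intro x hx
    have h1 := hk _ (ha x) _ (hb x) (hab x) (by linarith)
    rw [div_eq_mul_inv, div_eq_mul_inv] at h1
    linarith
  intro p hp q hq hpq
  by_contra hlt
  have hlt' : 2 * π < (V p).im - (W q).im := not_le.1 hlt
  have e1 : a (V p).re = p := haX p hp
  have e2 : b (V p).re = q := by
    rw [hpq]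
    exact hbX q hq
  have hpos : 0 < (V (a (V p).re)).im - (W (b (V p).re)).im - 2 * π := by
    rw [e1, e2]
    linarith
  obtain ⟨τ, hτ, hτl⟩ := hl (((V p).im - (W q).im - 2 * π) / 2) (by linarith)
  obtain ⟨xa, hxa⟩ := la τ hτ
  obtain ⟨xb, hxb⟩ := lb τ hτ
  have h3 := XM_grow hg hneg hpos (min_le_right (min xa xb) (V p).re)
  have h4 := hτl _ (ha (min (min xa xb) (V p).re)) _ (hb (min (min xa xb) (V p).re))
    (hxa _ ((min_le_left _ _).trans (min_le_left _ _)))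
    (hxb _ ((min_le_left _ _).trans (min_le_right _ _))) (hab _)
  rw [e1, e2] at h3
  linarith

end Pool.Agent.P.BSX
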