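import Pool.Agent.P.MP_3df8df_an.XG
import Pool.Agent.P.MP_3df8df_an.XM
import Pool.Agent.P.MP_3df8df_an.XH
import Pool.Agent.P.MP_3df8df_an.XBdry2

set_option autoImplicit false

namespace Pool.Agent.P.BSX

open Complex Metric Set Filter Topology
open Pool.Agent.P.MP_3df8df_an
open scoped Real ComplexConjugate

theorem exp_UU (σ δ : ℂ → ℂ) (ε : ℝ) {z : ℂ} (hz : z ∈ closedBall (0 : ℂ) 1 \ {1, -1}) :
    cexp (UU σ δ ε z) = hh σ δ ε z := by
  rw [UU, exp_add, exp_L hz, hh, GG, exp_add (2 / π * T z), Q, B]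
  ring

theorem UU_e {σ δ : ℂ → ℂ} (hσ : Nice σ) (hδ : Nice δ) (ε : ℝ) {t : ℝ} (ht : t ∈ Ioo 0 π) :
    (UU σ δ ε (e t)).re =
      (L (e t)).re + xp ε (fun t => -(σ (e t)).im) (fun t => (δ (e t)).re) t ∧
    (UU σ δ ε (e (-t))).re =
      (L (e t)).re + xm ε (fun t => -(σ (e t)).im) (fun t => (δ (e t)).re) t ∧
    (UU σ δ ε (e t)).im =
      3 * π / 2 - t + fp ε (fun t => (σ (e t)).re) (fun t => (δ (e t)).im) t ∧
    (UU σ δ ε (e (-t))).im =
      -(3 * π / 2) + t + fm ε (fun t => (σ (e t)).re) (fun t => (δ (e t)).im) t := by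
  have hz := e_mem ht
  have h1 := L_im_e ht
  have h2 : π - max (t - π / 2) 0 = 3 * π / 2 - t + dev t := by
    rw [dev]
    rcases le_total (t - π / 2) 0 with h | h
    · rw [max_eq_right h, min_eq_left h]; ring
    · rw [max_eq_left h, min_eq_right h]; ring
  rw [h2] at h1
  simp only [UU, xp, xm, fp, fm, e_neg, L_conj hz, hσ.sym _ hz.1, hδ.sym _ hz.1, ← ofReal_pow,
    add_re, add_im, mul_re, mul_im, I_re, I_im, ofReal_re, ofReal_im, conj_re, conj_im, h1]
  refine ⟨by ring, by ring, by ring, by ring⟩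

theorem XHinj_bd {g : ℂ → ℂ} (hg : Nice g) :
    ∃ C : ℝ, ∀ z ∈ closedBall (0 : ℂ) 1, ‖(1 - z ^ 2) * deriv g z‖ ≤ C :=
  (isCompact_closedBall 0 1).exists_bound_of_continuousOn
    ((by fun_prop : ContinuousOn (fun z : ℂ => 1 - z ^ 2) _).mul hg.an.deriv.continuousOn)

theorem XHinj_surj {x : ℝ → ℝ} (hx : Continuous x) (y : ℝ) :
    ∃ p ∈ Ioo 0 π, (L (e p)).re + x p = y := by
  refine surj (ContinuousOn.add ?_ hx.continuousOn)
    (m_zero.atTop_add (hx.continuousAt.mono_left nhdsWithin_le_nhds))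
    (m_pi.atBot_add (hx.continuousAt.mono_left nhdsWithin_le_nhds)) y
  have he : Continuous e := by unfold e; fun_prop
  exact continuous_re.comp_continuousOn (L_cont.comp he.continuousOn fun t ht => e_mem ht)

theorem hinj {σ δ : ℂ → ℂ} {a1 b1 P r1 : ℝ → ℝ} {s0 η : ℝ} (h : Adm σ δ a1 b1 P r1 s0 η) :
    ∀ᶠ ε in 𝓝[>] (0 : ℝ), InjOn (hh σ δ ε) (ball 0 1) := by
  obtain ⟨C1, hC1⟩ := XHinj_bd h.nσ
  obtain ⟨C2, hC2⟩ := XHinj_bd h.nδ
  have hsmall : ∀ᶠ ε in 𝓝[>] (0 : ℝ), ε * C1 + ε ^ 2 * C2 < 2 := by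
    have hc : Continuous fun ε : ℝ => ε * C1 + ε ^ 2 * C2 := by fun_prop
    exact ((hc.tendsto 0).mono_left nhdsWithin_le_nhds).eventually_lt_const (by norm_num)
  have ca : Continuous fun t => -(σ (e t)).im := by
    rw [funext h.bd.ha]
    exact Real.continuous_sin.mul h.bd.ca1
  have cr : Continuous fun t => (δ (e t)).re :=
    continuous_iff_continuousAt.2 fun t => (h.bd.hr t).continuousAt
  filter_upwards [hsmall, matchH h.bd m_anti h.s0p h.hH, self_mem_nhdsWithin] with ε h1 h2 h3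
  have h3 : 0 < ε := h3
  choose! L' hL hL' using fun z (hz : z ∈ ball (0 : ℂ) 1) => L_deriv hz
  have key : InjOn (fun z => cexp (UU σ δ ε z)) (ball 0 1) := by
    refine lemG (U' := fun z => L' z + (I * ε * deriv σ z + ε ^ 2 * deriv δ z))
      (fun z hz => ?_) (fun z hz => ?_) ?_ (fun x => ?_) (fun x => ?_) fun p hp q hq hpq => ?_
    · have hz' := ball_subset_closedBall hz
      exact (hL z hz).add (((h.nσ.an z hz').differentiableAt.hasDerivAt.const_mul _).add
        ((h.nδ.an z hz').differentiableAt.hasDerivAt.const_mul _))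
    · have hz' := ball_subset_closedBall hz
      have e1 : (1 - z ^ 2) * (L' z + (I * ε * deriv σ z + ε ^ 2 * deriv δ z)) =
          (1 - z ^ 2) * L' z + (I * ε * ((1 - z ^ 2) * deriv σ z) +
            ε ^ 2 * ((1 - z ^ 2) * deriv δ z)) := by ring
      have e2 : ‖I * ε * ((1 - z ^ 2) * deriv σ z) + ε ^ 2 * ((1 - z ^ 2) * deriv δ z)‖ ≤
          ε * C1 + ε ^ 2 * C2 := by
        refine (norm_add_le _ _).trans (add_le_add ?_ ?_)
        · rw [norm_mul, norm_mul, norm_I, one_mul, norm_real, Real.norm_of_nonneg h3.le]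
          exact mul_le_mul_of_nonneg_left (hC1 z hz') h3.le
        · rw [norm_mul, norm_pow, norm_real, Real.norm_of_nonneg h3.le]
          exact mul_le_mul_of_nonneg_left (hC2 z hz') (sq_nonneg _)
      have e3 := (abs_le.1 ((abs_re_le_norm _).trans e2)).1
      have e4 := hL' z hz
      rw [e1, add_re]
      linarith
    · exact L_cont.add (((h.nσ.an.continuousOn.mono sdiff_subset).const_smul (I * ε)).add
        ((h.nδ.an.continuousOn.mono sdiff_subset).const_smul ((ε : ℂ) ^ 2)))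
    · obtain ⟨p, hp, hx⟩ := XHinj_surj
        (x := xp ε (fun t => -(σ (e t)).im) fun t => (δ (e t)).re)
        ((ca.const_smul ε).add (cr.const_smul (ε ^ 2))) x
      exact ⟨p, hp, (UU_e h.nσ h.nδ ε hp).1.trans hx⟩
    · obtain ⟨p, hp, hx⟩ := XHinj_surj
        (x := xm ε (fun t => -(σ (e t)).im) fun t => (δ (e t)).re)
        ((ca.const_smul ε).neg.add (cr.const_smul (ε ^ 2))) x
      exact ⟨p, hp, (UU_e h.nσ h.nδ ε hp).2.1.trans hx⟩
    · have ep := UU_e h.nσ h.nδ ε hp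
      have eq := UU_e h.nσ h.nδ ε hq
      rw [ep.1, eq.2.1] at hpq
      have h4 := h2 p hp q hq hpq
      have h5 := min_add_max (p - π / 2) 0
      have h6 := min_add_max (q - π / 2) 0
      rw [ep.2.2.1, eq.2.2.2]
      simp only [fp, fm, dev]
      linarith
  intro z hz w hw hzw
  have hm : ∀ z ∈ ball (0 : ℂ) 1, z ∈ closedBall (0 : ℂ) 1 \ {1, -1} := fun z hz =>
    ⟨ball_subset_closedBall hz, by
      rintro (rfl | rfl) <;> simp at hz⟩
  refine key hz hw ?_
  simp only [exp_UU σ δ ε (hm z hz), exp_UU σ δ ε (hm w hw), hzw]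

end Pool.Agent.P.BSX
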