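import Pool.Agent.P.MP_3df8df_an.XDefs

set_option autoImplicit false

namespace Pool.Agent.P.BSX

open Complex Metric Set Filter Topology
open Pool.Agent.P.MP_3df8df_an
open scoped Real ComplexConjugate

theorem XMax_norm (W : ℂ → ℂ) (n : ℕ) (z : ℂ) :
    ‖(1 - z ^ 2) * cexp (-(n * W z))‖ = ‖1 - z ^ 2‖ * Real.exp (-(n * (W z).re)) := by
  rw [norm_mul, Complex.norm_exp, neg_re, ← ofReal_natCast, re_ofReal_mul]

theorem XMax_bound {W : ℂ → ℂ} (hd : DifferentiableOn ℂ W (ball 0 1))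
    (hc : ContinuousOn W (closedBall 0 1 \ {1, -1})) {C : ℝ}
    (hb : ∀ z ∈ ball (0 : ℂ) 1, ‖W z‖ ≤ C)
    (hs : ∀ z : ℂ, ‖z‖ = 1 → z ≠ 1 → z ≠ -1 → 0 < (W z).re) (n : ℕ) {z : ℂ}
    (hz : z ∈ ball (0 : ℂ) 1) : ‖1 - z ^ 2‖ * Real.exp (-(n * (W z).re)) ≤ 2 := by
  have hn : (0 : ℝ) ≤ n := Nat.cast_nonneg n
  have hzero : ∀ w : ℂ, w = 1 ∨ w = -1 → 1 - w ^ 2 = 0 := by
    rintro w (rfl | rfl) <;> norm_num
  have h1 : ∀ w ∈ closedBall (0 : ℂ) 1,
      ‖(1 - w ^ 2) * cexp (-(n * W w))‖ ≤ ‖1 - w ^ 2‖ * Real.exp (n * |C|) := by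
    intro w hw
    by_cases h0 : w = 1 ∨ w = -1
    · rw [hzero w h0, zero_mul, norm_zero, zero_mul]
    · rw [XMax_norm]
      refine mul_le_mul_of_nonneg_left (Real.exp_le_exp.2 ?_) (norm_nonneg _)
      have h2 : -|C| ≤ (W w).re := by
        rcases (mem_closedBall_zero_iff.1 hw).lt_or_eq with h | h
        · have h3 := (abs_re_le_norm (W w)).trans (hb w (mem_ball_zero_iff.2 h))
          linarith [(abs_le.1 h3).1, le_abs_self C]
        · linarith [hs w h (not_or.1 h0).1 (not_or.1 h0).2, abs_nonneg C]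
      nlinarith [mul_le_mul_of_nonneg_left h2 hn]
  have h2 : ContinuousOn (fun w => (1 - w ^ 2) * cexp (-(n * W w))) (closedBall (0 : ℂ) 1) := by
    intro w hw
    by_cases h0 : w = 1 ∨ w = -1
    · have h3 : Tendsto (fun u : ℂ => ‖1 - u ^ 2‖ * Real.exp (n * |C|)) (𝓝[closedBall 0 1] w)
          (𝓝 0) := by
        have h4 : Continuous fun u : ℂ => ‖1 - u ^ 2‖ * Real.exp (n * |C|) := by fun_prop
        have h5 := (h4.tendsto w).mono_left (nhdsWithin_le_nhds (s := closedBall 0 1))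
        rwa [hzero w h0, norm_zero, zero_mul] at h5
      have h6 := squeeze_zero_norm' (eventually_nhdsWithin_of_forall h1) h3
      show Tendsto _ _ (𝓝 ((1 - w ^ 2) * cexp (-(n * W w))))
      rw [hzero w h0, zero_mul]
      exact h6
    · have h3 : ContinuousWithinAt W (closedBall (0 : ℂ) 1) w := by
        have h4 : ({1, -1} : Set ℂ)ᶜ ∈ 𝓝 w :=
          (Set.toFinite _).isClosed.isOpen_compl.mem_nhds h0
        exact (continuousWithinAt_inter h4).1 (hc w ⟨hw, h0⟩)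
      exact (by fun_prop : ContinuousWithinAt (fun u : ℂ => 1 - u ^ 2) _ w).mul
        (continuousWithinAt_const.mul h3).neg.cexp
  have h3 : DiffContOnCl ℂ (fun w => (1 - w ^ 2) * cexp (-(n * W w))) (ball (0 : ℂ) 1) := by
    refine ⟨(by fun_prop : DifferentiableOn ℂ (fun u : ℂ => 1 - u ^ 2) _).mul
      (hd.const_mul _).neg.cexp, ?_⟩
    rwa [closure_ball (0 : ℂ) one_ne_zero]
  rw [← XMax_norm]
  refine Complex.norm_le_of_forall_mem_frontier_norm_le isBounded_ball h3 (fun w hw => ?_)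
    (subset_closure hz)
  rw [frontier_ball (0 : ℂ) one_ne_zero, mem_sphere_zero_iff_norm] at hw
  by_cases h0 : w = 1 ∨ w = -1
  · rw [hzero w h0, zero_mul, norm_zero]
    norm_num
  · rw [XMax_norm]
    have h4 : ‖1 - w ^ 2‖ ≤ 2 := by
      refine (norm_sub_le _ _).trans ?_
      rw [norm_one, norm_pow, hw]
      norm_num
    have h5 : Real.exp (-(n * (W w).re)) ≤ 1 :=
      Real.exp_le_one_iff.2 (neg_nonpos.2
        (mul_nonneg hn (hs w hw (not_or.1 h0).1 (not_or.1 h0).2).le))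
    nlinarith [norm_nonneg (1 - w ^ 2), Real.exp_pos (-(n * (W w).re))]

theorem maxp {W : ℂ → ℂ} (hd : DifferentiableOn ℂ W (ball 0 1))
    (hc : ContinuousOn W (closedBall 0 1 \ {1, -1})) {C : ℝ}
    (hb : ∀ z ∈ ball (0 : ℂ) 1, ‖W z‖ ≤ C)
    (hs : ∀ z : ℂ, ‖z‖ = 1 → z ≠ 1 → z ≠ -1 → 0 < (W z).re) :
    ∀ z ∈ ball (0 : ℂ) 1, 0 < (W z).re := by
  have h1 : ∀ z ∈ ball (0 : ℂ) 1, 0 ≤ (W z).re := by
    intro z hz
    by_contra h
    have h2 : 0 < -(W z).re := by linarith [not_le.1 h]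
    have h3 : 0 < ‖1 - z ^ 2‖ := by
      refine norm_pos_iff.2 (sub_ne_zero.2 fun e => ?_)
      have h4 := congrArg norm e
      rw [norm_one, norm_pow] at h4
      have h5 := mem_ball_zero_iff.1 hz
      nlinarith [norm_nonneg z]
    obtain ⟨n, hn⟩ := exists_nat_gt (2 / (‖1 - z ^ 2‖ * -(W z).re))
    have h4 := XMax_bound hd hc hb hs n hz
    have h5 := mul_le_mul_of_nonneg_left (Real.add_one_le_exp (-(n * (W z).re))) h3.le
    rw [div_lt_iff₀ (mul_pos h3 h2)] at hn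
    nlinarith
  intro z hz
  refine lt_of_le_of_ne (h1 z hz) fun h0 => ?_
  have h2 : IsMaxOn (norm ∘ fun u => cexp (-W u)) (ball (0 : ℂ) 1) z := by
    intro u hu
    show ‖cexp (-W u)‖ ≤ ‖cexp (-W z)‖
    rw [Complex.norm_exp, Complex.norm_exp, neg_re, neg_re, ← h0]
    exact Real.exp_le_exp.2 (neg_le_neg (h1 u hu))
  have h3 := Complex.norm_eqOn_of_isPreconnected_of_isMaxOn (convex_ball (0 : ℂ) 1).isPreconnected
    isOpen_ball hd.neg.cexp hz h2
  have h4 : ∀ u ∈ ball (0 : ℂ) 1, (W u).re = 0 := by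
    intro u hu
    have h5 : ‖cexp (-W u)‖ = ‖cexp (-W z)‖ := h3 hu
    rw [Complex.norm_exp, Complex.norm_exp, neg_re, neg_re, ← h0] at h5
    exact neg_injective (Real.exp_injective h5)
  have hI1 : (I : ℂ) ≠ 1 := fun e => by simpa using congrArg Complex.re e
  have hI2 : (I : ℂ) ≠ -1 := fun e => by simpa using congrArg Complex.re e
  have h5 : ball (0 : ℂ) 1 ⊆ closedBall 0 1 \ {1, -1} := by
    intro u hu
    refine ⟨ball_subset_closedBall hu, ?_⟩
    rintro (rfl | rfl)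
    · simp at hu
    · simp at hu
  have h6 : ContinuousWithinAt (fun u => (W u).re) (ball (0 : ℂ) 1) I :=
    continuous_re.continuousAt.comp_continuousWithinAt
      ((hc I ⟨by simp, fun h => h.elim hI1 hI2⟩).mono h5)
  have h7 : I ∈ closure (ball (0 : ℂ) 1) := by
    rw [closure_ball (0 : ℂ) one_ne_zero]
    simp
  have h8 := h6.closure_le h7 continuousWithinAt_const fun u hu => (h4 u hu).le
  exact absurd (hs I norm_I hI1 hI2) (not_lt.2 h8)

theorem lift_deriv {g E : ℝ → ℂ} {E' : ℂ} {t : ℝ} (hg : ContinuousAt g t)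
    (he : ∀ᶠ s in 𝓝 t, cexp (g s) = E s) (hE : HasDerivAt E E' t) :
    HasDerivAt g (E' / E t) t := by
  have ht : cexp (g t) = E t := he.self_of_nhds
  have h0 : E t ≠ 0 := ht ▸ Complex.exp_ne_zero _
  have h1 : HasDerivAt (fun s => g t + Complex.log (E s / E t)) (E' / E t / (E t / E t)) t :=
    ((hE.div_const (E t)).clog_real (by rw [div_self h0]; exact one_mem_slitPlane)).const_add _
  rw [div_self h0, div_one] at h1
  refine h1.congr_of_eventuallyEq ?_
  have h2 : ∀ᶠ s in 𝓝 t, ‖g s - g t‖ < π := by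
    have h3 := Metric.tendsto_nhds.1 hg π Real.pi_pos
    simpa only [dist_eq_norm] using h3
  filter_upwards [he, h2] with s h3 h4
  have h5 := abs_lt.1 ((abs_im_le_norm (g s - g t)).trans_lt h4)
  rw [← h3, ← ht, ← Complex.exp_sub, Complex.log_exp h5.1 h5.2.le]
  ring

end Pool.Agent.P.BSX
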