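import Pool.Agent.P.MP_3df8df_an.XDefs

set_option autoImplicit false

namespace Pool.Agent.P.BSX

open Complex Metric Set Filter Topology
open Pool.Agent.P.MP_3df8df_an
open scoped Real ComplexConjugate

theorem XPos_dev_cont : Continuous dev := by
  unfold dev
  fun_prop

theorem XPos_w_pos {w ρ : ℝ → ℝ} (hw : Wt w ρ) {s : ℝ} (hs : s ∈ Ioo 0 π) : 0 < w s := by
  have h1 := hw.eq s ⟨hs.1, hs.2.le⟩
  have h2 := hw.pos s ⟨hs.1, hs.2.le⟩
  have h3 := Real.sin_pos_of_pos_of_lt_pi hs.1 hs.2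
  rw [← h1] at h3
  exact (mul_pos_iff_of_pos_right h2).1 h3

theorem XPos_w_nonneg {w ρ : ℝ → ℝ} (hw : Wt w ρ) {s : ℝ} (hs : s ∈ Ioc 0 π) : 0 ≤ w s := by
  have h1 := hw.eq s hs
  have h2 := hw.pos s hs
  have h3 := Real.sin_nonneg_of_nonneg_of_le_pi hs.1.le hs.2
  rw [← h1] at h3
  exact nonneg_of_mul_nonneg_left h3 h2

theorem XPos_re {w x φ : ℝ → ℝ} (hw : ContinuousOn w (Ioc 0 π)) (hx : Continuous x)
    (hφ : Continuous φ) {t : ℝ} (ht : t ∈ Ioo 0 π) :
    (J w x φ t * cexp (-(φ t : ℂ) * I)).re =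
      ∫ s in t..π, w s * (Real.exp (x s) * Real.cos (φ s - φ t)) := by
  have hsub : uIcc t π ⊆ Ioc 0 π := by
    rw [uIcc_of_le ht.2.le]
    exact fun s hs => ⟨ht.1.trans_le hs.1, hs.2⟩
  have hc : ContinuousOn
      (fun s => (w s : ℂ) * cexp ((x s : ℂ) + (φ s : ℂ) * I) * cexp (-(φ t : ℂ) * I))
      (uIcc t π) := by
    refine ContinuousOn.mul (ContinuousOn.mul ?_ ?_) continuousOn_const
    · exact continuous_ofReal.comp_continuousOn (hw.mono hsub)
    · exact Continuous.continuousOn (by fun_prop)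
  rw [J, ← intervalIntegral.integral_mul_const, ← reCLM_apply,
    ← reCLM.intervalIntegral_comp_comm hc.intervalIntegrable]
  refine intervalIntegral.integral_congr fun s _ => ?_
  have h1 : (x s : ℂ) + (φ s : ℂ) * I + -(φ t : ℂ) * I =
      (x s : ℂ) + ((φ s - φ t : ℝ) : ℂ) * I := by
    push_cast
    ring
  simp only [reCLM_apply]
  rw [mul_assoc, ← Complex.exp_add, h1, re_ofReal_mul, exp_re]
  simp

theorem XPos_angle {χ φ : ℝ → ℝ} {sg τ : ℝ} (hsg : sg = 1 ∨ sg = -1)
    (hχ : ∀ s ∈ Icc 0 π, |χ s| ≤ τ) (hφ : ∀ s, φ s = sg * dev s + χ s) {t s : ℝ} (ht : 0 < t)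
    (hts : t ≤ s) (hs : s ≤ π) :
    |φ s - φ t| ≤ min s (π / 2) - min t (π / 2) + 2 * τ := by
  have h1 := abs_le.1 (hχ s ⟨by linarith, hs⟩)
  have h2 := abs_le.1 (hχ t ⟨ht.le, by linarith⟩)
  have h3 : ∀ u, dev u = min u (π / 2) - π / 2 := by
    intro u
    rw [dev, ← min_sub_sub_right, sub_self]
  have h4 : min t (π / 2) ≤ min s (π / 2) := min_le_min_right _ hts
  rw [hφ s, hφ t, h3, h3, abs_le]
  rcases hsg with rfl | rfl <;> constructor <;> linarith

theorem XPos_cos {θ τ : ℝ} (hτ : 0 ≤ τ) (hτ' : τ ≤ π / 24) (h : |θ| ≤ π / 2 + 2 * τ) :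
    -(2 * τ) ≤ Real.cos θ := by
  have hpi := Real.pi_pos
  rw [← Real.cos_abs]
  have h1 := Real.cos_le_cos_of_nonneg_of_le_pi (abs_nonneg θ) (by linarith) h
  have h2 : Real.cos (π / 2 + 2 * τ) = -Real.sin (2 * τ) := by
    rw [add_comm, Real.cos_add_pi_div_two]
  have h3 := Real.sin_le (x := 2 * τ) (by linarith)
  linarith

theorem bpos {w ρ : ℝ → ℝ} (hw : Wt w ρ) : ∃ τ : ℝ, 0 < τ ∧ ∀ (x χ φ : ℝ → ℝ) (sg : ℝ),
    (sg = 1 ∨ sg = -1) → Continuous x → Continuous χ → (∀ s ∈ Icc 0 π, |x s| ≤ 1) →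
    (∀ s ∈ Icc 0 π, |χ s| ≤ τ) → (∀ s, φ s = sg * dev s + χ s) →
    (∀ t ∈ Ioo 0 π, 0 < (J w x φ t * cexp (-(φ t : ℂ) * I)).re) ∧
      Tendsto (fun t => ‖J w x φ t‖) (𝓝[>] 0) atTop := by
  obtain ⟨c, hc, hlow⟩ := hw.low
  have hpi := Real.pi_pos
  have he := Real.exp_pos 1
  have he' := Real.exp_pos (-1)
  have hl2 : 0 < Real.log 2 := Real.log_pos (by norm_num)
  obtain ⟨M, hM⟩ := (isCompact_Icc (a := π / 4) (b := π)).bddAbove_image
    (hw.cw.mono fun s hs => ⟨by linarith [hs.1], hs.2⟩)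
  have hM' : ∀ s ∈ Icc (π / 4) π, w s ≤ M := fun s hs => hM (mem_image_of_mem _ hs)
  have hM0 : 0 < M :=
    (XPos_w_pos hw ⟨by linarith, by linarith⟩).trans_le (hM' (π / 4) ⟨le_rfl, by linarith⟩)
  set A : ℝ := c * (Real.exp (-1) / 2) with hA
  have hA0 : 0 < A := by positivity
  set B : ℝ := M * (Real.exp 1 * 2) * π with hB
  have hB0 : 0 < B := by positivity
  refine ⟨min (π / 24) (A * Real.log 2 / (2 * B)), by positivity, ?_⟩
  intro x χ φ sg hsg hx hχc hx1 hχ hφ
  set τ : ℝ := min (π / 24) (A * Real.log 2 / (2 * B)) with hτ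
  have hτ0 : 0 < τ := by positivity
  have hτ1 : τ ≤ π / 24 := min_le_left _ _
  have hτ2 : τ * (2 * B) ≤ A * Real.log 2 := (le_div_iff₀ (by positivity)).1 (min_le_right _ _)
  have hφc : Continuous φ := by
    have h1 : φ = fun s => sg * dev s + χ s := funext hφ
    rw [h1]
    exact (continuous_const.mul XPos_dev_cont).add hχc
  have hint : ∀ t a b, 0 < a → a ≤ b → b ≤ π → IntervalIntegrable
      (fun s => w s * (Real.exp (x s) * Real.cos (φ s - φ t))) MeasureTheory.volume a b := by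
    intro t a b ha hab hb
    apply ContinuousOn.intervalIntegrable
    rw [uIcc_of_le hab]
    refine (hw.cw.mono fun s hs => ⟨ha.trans_le hs.1, hs.2.trans hb⟩).mul ?_
    exact Continuous.continuousOn (by fun_prop)
  have key : ∀ t, 0 < t → t ≤ π / 4 →
      A * Real.log (π / 4 / t) - τ * B ≤ (J w x φ t * cexp (-(φ t : ℂ) * I)).re := by
    intro t ht ht4
    rw [XPos_re hw.cw hx hφc ⟨ht, by linarith⟩,
      ← intervalIntegral.integral_add_adjacent_intervals (hint t t (π / 4) ht ht4 (by linarith))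
        (hint t (π / 4) π (by linarith) (by linarith) le_rfl)]
    have h1 : ∫ s in t..π / 4, A * s⁻¹ ≤
        ∫ s in t..π / 4, w s * (Real.exp (x s) * Real.cos (φ s - φ t)) := by
      refine intervalIntegral.integral_mono_on ht4 ?_ (hint t t (π / 4) ht ht4 (by linarith)) ?_
      · apply ContinuousOn.intervalIntegrable
        rw [uIcc_of_le ht4]
        exact continuousOn_const.mul
          (continuousOn_id.inv₀ fun s hs => (ht.trans_le hs.1).ne')
      · intro s hs
        have hs0 : 0 < s := ht.trans_le hs.1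
        have h2 := XPos_angle hsg hχ hφ ht hs.1 (by linarith [hs.2])
        rw [min_eq_left (by linarith [hs.2]), min_eq_left (by linarith)] at h2
        have h3 : Real.cos (π / 3) ≤ Real.cos |φ s - φ t| :=
          Real.cos_le_cos_of_nonneg_of_le_pi (abs_nonneg _) (by linarith) (by linarith [hs.2])
        rw [Real.cos_pi_div_three, Real.cos_abs] at h3
        have h4 : Real.exp (-1) ≤ Real.exp (x s) :=
          Real.exp_le_exp.2 (abs_le.1 (hx1 s ⟨hs0.le, by linarith [hs.2]⟩)).1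
        have h5 : Real.exp (-1) / 2 ≤ Real.exp (x s) * Real.cos (φ s - φ t) := by
          rw [div_eq_mul_one_div]
          exact mul_le_mul h4 h3 (by norm_num) (Real.exp_pos _).le
        have h6 := hlow s ⟨hs0, hs.2⟩
        calc A * s⁻¹ = c / s * (Real.exp (-1) / 2) := by rw [hA]; ring
          _ ≤ _ := mul_le_mul h6 h5 (by positivity) ((by positivity : (0 : ℝ) ≤ c / s).trans h6)
    have h2 : ∫ _ in π / 4..π, -(τ * (M * (Real.exp 1 * 2))) ≤
        ∫ s in π / 4..π, w s * (Real.exp (x s) * Real.cos (φ s - φ t)) := by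
      refine intervalIntegral.integral_mono_on (by linarith) intervalIntegrable_const
        (hint t (π / 4) π (by linarith) (by linarith) le_rfl) ?_
      intro s hs
      have hs0 : 0 < s := by linarith [hs.1]
      have h3 := XPos_angle hsg hχ hφ ht (ht4.trans hs.1) hs.2
      rw [min_eq_left (by linarith : t ≤ π / 2)] at h3
      have h4 := XPos_cos hτ0.le hτ1 (h3.trans (by linarith [min_le_right s (π / 2)]))
      have h5 : Real.exp (x s) ≤ Real.exp 1 :=
        Real.exp_le_exp.2 (abs_le.1 (hx1 s ⟨hs0.le, hs.2⟩)).2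
      have h6 := Real.exp_pos (x s)
      have h7 := XPos_w_nonneg hw ⟨hs0, hs.2⟩
      have h8 : w s * Real.exp (x s) ≤ M * Real.exp 1 := mul_le_mul (hM' s hs) h5 h6.le hM0.le
      have h9 := mul_le_mul_of_nonneg_left h4 (mul_nonneg h7 h6.le)
      have h10 := mul_le_mul_of_nonneg_right h8 hτ0.le
      nlinarith
    rw [intervalIntegral.integral_const_mul, integral_inv_of_pos ht (by linarith)] at h1
    rw [intervalIntegral.integral_const, smul_eq_mul] at h2
    have h3 : 0 < τ * (M * (Real.exp 1 * 2)) * π := by positivity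
    have h4 : τ * B = τ * (M * (Real.exp 1 * 2)) * π := by rw [hB]; ring
    nlinarith
  constructor
  · intro t ht
    rcases le_total t (π / 8) with h8 | h8
    · refine lt_of_lt_of_le ?_ (key t ht.1 (by linarith))
      have h1 : Real.log 2 ≤ Real.log (π / 4 / t) :=
        Real.log_le_log (by norm_num) ((le_div_iff₀ ht.1).2 (by linarith))
      have h2 := mul_le_mul_of_nonneg_left h1 hA0.le
      have h3 := mul_pos hτ0 hB0
      linarith
    · rw [XPos_re hw.cw hx hφc ht]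
      refine intervalIntegral.intervalIntegral_pos_of_pos_on (hint t t π ht.1 ht.2.le le_rfl)
        (fun s hs => ?_) ht.2
      have h1 := XPos_angle hsg hχ hφ ht.1 hs.1.le hs.2.le
      have h2 : π / 8 ≤ min t (π / 2) := le_min h8 (by linarith)
      have h3 : |φ s - φ t| < π / 2 := by linarith [min_le_right s (π / 2)]
      exact mul_pos (XPos_w_pos hw ⟨ht.1.trans hs.1, hs.2⟩)
        (mul_pos (Real.exp_pos _) (Real.cos_pos_of_mem_Ioo (abs_lt.1 h3)))
  · have h1 : Tendsto (fun t : ℝ => π / 4 / t) (𝓝[>] 0) atTop :=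
      Tendsto.const_mul_atTop (by positivity) tendsto_inv_nhdsGT_zero
    have h2 : Tendsto (fun t : ℝ => A * Real.log (π / 4 / t) - τ * B) (𝓝[>] 0) atTop :=
      tendsto_atTop_add_const_right _ _ ((Real.tendsto_log_atTop.comp h1).const_mul_atTop hA0)
    refine tendsto_atTop_mono' _ ?_ h2
    filter_upwards [Ioc_mem_nhdsGT (show (0 : ℝ) < π / 4 by positivity)] with t ht
    refine (key t ht.1 ht.2).trans ((re_le_norm _).trans ?_)
    have h3 : -(φ t : ℂ) * I = ((-φ t : ℝ) : ℂ) * I := by push_cast; ring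
    rw [norm_mul, h3, norm_exp_ofReal_mul_I, mul_one]

end Pool.Agent.P.BSX
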