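import Pool.Agent.P.MP_3df8df_an.XGG
import Pool.Agent.P.MP_3df8df_an.XHinj
import Pool.Agent.P.MP_3df8df_an.XMax
import Pool.Agent.P.MP_3df8df_an.XPos

set_option autoImplicit false

namespace Pool.Agent.P.BSX

open Complex Metric Set Filter Topology
open Pool.Agent.P.MP_3df8df_an
open scoped Real ComplexConjugate

theorem e_cont : Continuous e := by unfold e; fun_prop

theorem e_norm (t : ℝ) : ‖e t‖ = 1 := norm_exp_ofReal_mul_I t

theorem e_mem' {t : ℝ} (ht : t ∈ Ioo 0 π) : e (-t) ∈ closedBall (0 : ℂ) 1 \ {1, -1} := by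
  have h := e_mem ht
  refine ⟨by simp [e_norm], ?_⟩
  rw [e_neg]
  rintro (h1 | h1)
  · exact h.2 (Or.inl (by simpa using congrArg conj h1))
  · exact h.2 (Or.inr (by simpa using congrArg conj h1))

theorem one_sub_e_sq (t : ℝ) : 1 - e t ^ 2 = -(2 * Real.sin t) * (I * e t) := by
  have h1 : e t = Real.cos t + Real.sin t * I := by simp [e, exp_mul_I]
  have h2 : (Real.sin t : ℂ) ^ 2 + (Real.cos t : ℂ) ^ 2 = 1 := by
    exact_mod_cast Real.sin_sq_add_cos_sq t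
  rw [h1]
  linear_combination (-1) * h2 + (Real.sin t : ℂ) ^ 2 * I_sq

theorem sphere_cases {z : ℂ} (hz : ‖z‖ = 1) (h1 : z ≠ 1) (h2 : z ≠ -1) :
    ∃ t ∈ Ioo 0 π, z = e t ∨ z = e (-t) := by
  have h : e (arg z) = z := by simpa [e, hz] using norm_mul_exp_arg_mul_I z
  have a0 : arg z ≠ 0 := fun h' => h1 (by rw [← h, h']; simp [e])
  have a1 : arg z ≠ π := fun h' => h2 (by rw [← h, h']; simp [e])
  rcases lt_or_gt_of_ne a0 with h3 | h3
  · exact ⟨-arg z, ⟨by linarith, by linarith [neg_pi_lt_arg z]⟩, Or.inr (by rw [neg_neg, h])⟩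
  · exact ⟨arg z, ⟨h3, lt_of_le_of_ne (arg_le_pi z) a1⟩, Or.inl h.symm⟩

theorem speed {σ δ : ℂ → ℂ} (hσ : Nice σ) (hδ : Nice δ) (ε : ℝ) {t : ℝ} (ht : t ∈ Ioo 0 π) :
    I * e t * hh σ δ ε (e t) = (‖Q (e t)‖ : ℝ) *
      cexp ((xp ε (fun t => -(σ (e t)).im) (fun t => (δ (e t)).re) t : ℝ) +
        (fp ε (fun t => (σ (e t)).re) (fun t => (δ (e t)).im) t : ℝ) * I) ∧
    I * e (-t) * hh σ δ ε (e (-t)) = -((‖Q (e t)‖ : ℝ) *
      cexp ((xm ε (fun t => -(σ (e t)).im) (fun t => (δ (e t)).re) t : ℝ) +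
        (fm ε (fun t => (σ (e t)).re) (fun t => (δ (e t)).im) t : ℝ) * I)) := by
  obtain ⟨u1, u2, u3, u4⟩ := UU_e hσ hδ ε ht
  have hI : cexp (π / 2 * I) = I := exp_pi_div_two_mul_I
  rw [← exp_UU σ δ ε (e_mem ht), ← exp_UU σ δ ε (e_mem' ht), ← exp_L (e_mem ht), norm_exp,
    ← re_add_im (UU σ δ ε (e t)), ← re_add_im (UU σ δ ε (e (-t))), u1, u2, u3, u4, ofReal_exp]
  generalize (L (e t)).re = m
  generalize xp _ _ _ _ = x1
  generalize xm _ _ _ _ = x2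
  generalize fp _ _ _ _ = f1
  generalize fm _ _ _ _ = f2
  constructor
  · nth_rewrite 1 [← hI]
    rw [e, ← exp_add, ← exp_add, ← exp_add, ← exp_periodic (m + _)]
    congr 1
    push_cast
    ring
  · nth_rewrite 1 [← hI]
    rw [e, ← exp_add, ← exp_add, ← exp_add, ← exp_sub_pi_mul_I]
    congr 1
    push_cast
    ring

theorem J_deriv {w x φ : ℝ → ℝ} (cw : ContinuousOn w (Ioc 0 π)) (cx : Continuous x)
    (cφ : Continuous φ) {t : ℝ} (ht : t ∈ Ioo 0 π) :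
    HasDerivAt (fun t => -J w x φ t) ((w t : ℂ) * cexp ((x t : ℂ) + (φ t : ℂ) * I)) t := by
  have c : ContinuousOn (fun s => (w s : ℂ) * cexp ((x s : ℂ) + (φ s : ℂ) * I)) (Ioc 0 π) :=
    (continuous_ofReal.comp_continuousOn cw).mul (by fun_prop)
  have c' := c.mono Ioo_subset_Ioc_self
  have := (intervalIntegral.integral_hasDerivAt_left (b := π)
    ((c.mono (by rw [uIcc_of_le ht.2.le]; exact Icc_subset_Ioc_left ht.1)).intervalIntegrable)
    (c'.stronglyMeasurableAtFilter isOpen_Ioo t ht)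
    (c'.continuousAt (isOpen_Ioo.mem_nhds ht))).neg
  rwa [neg_neg] at this

/-- One side of the slit. -/
theorem side {V E W : ℂ → ℂ} {c : ℝ → ℂ} {w x φ : ℝ → ℝ} (cw : ContinuousOn w (Ioc 0 π))
    (cx : Continuous x) (cφ : Continuous φ) (cc : Continuous c) (cπ : c π = -1)
    (cm : ∀ t ∈ Ioo 0 π, c t ∈ closedBall (0 : ℂ) 1 \ {1, -1})
    (cV : ContinuousOn V (closedBall 0 1 \ {1, -1}))
    (eV : ∀ z ∈ closedBall (0 : ℂ) 1 \ {1, -1}, cexp (V z) = E z)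
    (cE : ContinuousOn E (closedBall 0 1 \ {1})) (E0 : E (-1) = 0)
    (h1 : ∀ t ∈ Ioo 0 π, E (c t) = -J w x φ t)
    (h2 : ∀ t ∈ Ioo 0 π, E (c t) =
      -(2 * Real.sin t) * ((w t : ℂ) * cexp ((x t : ℂ) + (φ t : ℂ) * I)) * W (c t))
    (h3 : Tendsto (fun t => ‖J w x φ t‖) (𝓝[>] 0) atTop) :
    (∀ t ∈ Ioo 0 π, HasDerivAt (fun t => V (c t)) (-((2 * Real.sin t : ℝ) * W (c t))⁻¹) t) ∧
    (∀ t ∈ Ioo 0 π, Real.exp (V (c t)).re = ‖J w x φ t‖) ∧
    Tendsto (fun t => (V (c t)).re) (𝓝[>] 0) atTop ∧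
    Tendsto (fun t => (V (c t)).re) (𝓝[<] π) atBot := by
  have hp := Real.pi_pos
  have n1 : ∀ t ∈ Ioo 0 π, Real.exp (V (c t)).re = ‖E (c t)‖ := fun t ht => by
    rw [← eV _ (cm t ht), norm_exp]
  have n2 : ∀ t ∈ Ioo 0 π, Real.exp (V (c t)).re = ‖J w x φ t‖ := fun t ht => by
    rw [n1 t ht, h1 t ht, norm_neg]
  refine ⟨fun t ht => ?_, n2, ?_, ?_⟩
  · have o := isOpen_Ioo.mem_nhds ht
    have := lift_deriv (g := fun t => V (c t)) (E := fun t => -J w x φ t)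
      ((cV.comp cc.continuousOn cm).continuousAt o)
      (mem_of_superset o fun s hs => (eV _ (cm s hs)).trans (h1 s hs)) (J_deriv cw cx cφ ht)
    refine this.congr_deriv ?_
    have e0 : E (c t) ≠ 0 := eV _ (cm t ht) ▸ exp_ne_zero _
    rw [← h1 t ht, h2 t ht] at *
    have e1 := right_ne_zero_of_mul (left_ne_zero_of_mul e0)
    have e2 := right_ne_zero_of_mul e0
    have e3 := left_ne_zero_of_mul (left_ne_zero_of_mul e0)
    rw [neg_ne_zero] at e3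
    have e4 := right_ne_zero_of_mul e3
    generalize (w t : ℂ) * cexp ((x t : ℂ) + (φ t : ℂ) * I) = y at *
    push_cast at *
    field_simp
  · refine Real.tendsto_exp_comp_atTop.1 (h3.congr' ?_)
    filter_upwards [Ioo_mem_nhdsGT hp] with t ht using (n2 t ht).symm
  · refine Real.tendsto_exp_comp_nhds_zero.1 ?_
    have t1 : Tendsto c (𝓝[<] π) (𝓝[closedBall 0 1 \ {1}] (-1)) := by
      refine tendsto_nhdsWithin_iff.2 ⟨cπ ▸ cc.continuousAt.mono_left nhdsWithin_le_nhds, ?_⟩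
      filter_upwards [Ioo_mem_nhdsLT hp] with t ht
      exact ⟨(cm t ht).1, fun h => (cm t ht).2 (Or.inl h)⟩
    have t2 := ((cE (-1) ⟨by simp, by norm_num⟩).tendsto.comp t1).norm
    rw [E0, norm_zero] at t2
    refine t2.congr' ?_
    filter_upwards [Ioo_mem_nhdsLT hp] with t ht using (n1 t ht).symm

theorem slope_lt {u v : ℂ} {a b : ℝ} (ha : 0 < a) (hb : 0 < b) (hu : 0 < u.re) (hv : 0 < v.re)
    (h : arg v < arg u) :
    (-((a : ℂ) * u)⁻¹).im / (-((a : ℂ) * u)⁻¹).re < (-((b : ℂ) * v)⁻¹).im / (-((b : ℂ) * v)⁻¹).re := by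
  have key : ∀ (a : ℝ) (u : ℂ), 0 < a → 0 < u.re →
      (-((a : ℂ) * u)⁻¹).im / (-((a : ℂ) * u)⁻¹).re = -Real.tan (arg u) := fun a u ha hu => by
    have : normSq ((a : ℂ) * u) ≠ 0 := by
      rw [Ne, normSq_eq_zero]
      exact mul_ne_zero (by exact_mod_cast ha.ne') fun h => by simp [h] at hu
    rw [tan_arg, neg_im, neg_re, inv_im, inv_re, re_ofReal_mul, im_ofReal_mul]
    field_simp
  rw [key a u ha hu, key b v hb hv, neg_lt_neg_iff]
  exact Real.strictMonoOn_tan (abs_lt.1 (abs_arg_lt_pi_div_two_iff.2 (Or.inl hv)))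
    (abs_lt.1 (abs_arg_lt_pi_div_two_iff.2 (Or.inl hu))) h

theorem neg_inv_re {u : ℂ} {a : ℝ} (ha : 0 < a) (hu : 0 < u.re) : (-((a : ℂ) * u)⁻¹).re < 0 := by
  rw [neg_re, neg_lt_zero, inv_re, re_ofReal_mul]
  exact div_pos (mul_pos ha hu) (normSq_pos.2
    (mul_ne_zero (by exact_mod_cast ha.ne') fun h => by simp [h] at hu))

end Pool.Agent.P.BSX
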