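import Pool.Agent.P.MP_3df8df_an.XDefs

set_option autoImplicit false

namespace Pool.Agent.P.BSX

open Complex Metric Set Filter Topology
open Pool.Agent.P.MP_3df8df_an
open scoped Real ComplexConjugate

theorem XPrim_param {X : Type} [TopologicalSpace X] {K : Set X} {a b : ℝ} (hab : a ≤ b)
    {f : X → ℝ → ℂ} (hf : ContinuousOn (fun p : X × ℝ => f p.1 p.2) (K ×ˢ Icc a b)) :
    ContinuousOn (fun x => ∫ s in a..b, f x s) K := by
  rw [continuousOn_iff_continuous_domRestrict]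
  have h1 : Continuous (Function.uncurry fun (x : K) (s : ℝ) => f x (projIcc a b hab s)) :=
    hf.comp_continuous (f := fun p : K × ℝ => ((p.1 : X), (projIcc a b hab p.2 : ℝ)))
      ((continuous_subtype_val.comp continuous_fst).prodMk
        (continuous_subtype_val.comp (continuous_projIcc.comp continuous_snd)))
      fun p => ⟨p.1.2, (projIcc a b hab p.2).2⟩
  refine (intervalIntegral.continuous_parametric_intervalIntegral_of_continuous'
    (μ := MeasureTheory.volume) h1 a b).congr fun x => ?_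
  refine intervalIntegral.integral_congr fun s hs => ?_
  rw [uIcc_of_le hab] at hs
  simp only [projIcc_of_mem hab hs]

theorem XPrim_star {z : ℂ} (hz : z ∈ closedBall (0 : ℂ) 1 \ {1}) {s : ℝ} (hs : s ∈ Icc (0 : ℝ) 1) :
    (s : ℂ) * z ∈ closedBall (0 : ℂ) 1 \ {1} := by
  have h1 : ‖z‖ ≤ 1 := mem_closedBall_zero_iff.1 hz.1
  have h2 : ‖(s : ℂ) * z‖ = s * ‖z‖ := by rw [norm_mul, norm_real, Real.norm_of_nonneg hs.1]
  refine ⟨mem_closedBall_zero_iff.2 ?_, fun h3 => hz.2 ?_⟩
  · rw [h2]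
    exact mul_le_one₀ hs.2 (norm_nonneg _) h1
  · rw [mem_singleton_iff] at h3 ⊢
    rw [h3, norm_one] at h2
    have h4 : s = 1 := le_antisymm hs.2 (by nlinarith [hs.1])
    rwa [h4, ofReal_one, one_mul] at h3

theorem XPrim_deriv {h : ℂ → ℂ} (hd : DifferentiableOn ℂ h (ball 0 1)) :
    ∀ z ∈ ball (0 : ℂ) 1, HasDerivAt (prim h) (h z) z := by
  obtain ⟨F, h0, hF⟩ := hd.isExactOn_ball.with_val_at 0 0
  have h1 : ∀ z ∈ ball (0 : ℂ) 1, prim h z = F z := by
    intro z hz
    have h2 : ∀ s ∈ uIcc (0 : ℝ) 1, (s : ℂ) * z ∈ ball (0 : ℂ) 1 := by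
      intro s hs
      rw [uIcc_of_le zero_le_one] at hs
      rw [mem_ball_zero_iff] at hz ⊢
      rw [norm_mul, norm_real, Real.norm_of_nonneg hs.1]
      exact (mul_le_of_le_one_left (norm_nonneg _) hs.2).trans_lt hz
    have h3 : ∀ s ∈ uIcc (0 : ℝ) 1, HasDerivAt (fun s : ℝ => F (s * z)) (z * h (s * z)) s := by
      intro s hs
      have h4 := ((hF _ (h2 s hs)).comp (s : ℂ) ((hasDerivAt_id (s : ℂ)).mul_const z)).comp_ofReal
      rw [one_mul, mul_comm] at h4
      exact h4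
    have h5 : ContinuousOn (fun s : ℝ => z * h (s * z)) (uIcc (0 : ℝ) 1) :=
      continuousOn_const.mul (hd.continuousOn.comp (by fun_prop) h2)
    rw [prim, intervalIntegral.integral_eq_sub_of_hasDerivAt h3 h5.intervalIntegrable]
    simp [h0]
  intro z hz
  exact (hF z hz).congr_of_eventuallyEq (mem_of_superset (isOpen_ball.mem_nhds hz) h1)

theorem XPrim_cont {h : ℂ → ℂ} (hc : ContinuousOn h (closedBall 0 1 \ {1})) :
    ContinuousOn (prim h) (closedBall 0 1 \ {1}) :=
  XPrim_param zero_le_one (f := fun z s => z * h (s * z))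
    (continuousOn_fst.mul (hc.comp (by fun_prop) fun _ hp => XPrim_star hp.1 hp.2))

theorem XPrim_arc {h : ℂ → ℂ} (hd : DifferentiableOn ℂ h (ball 0 1))
    (hc : ContinuousOn h (closedBall 0 1 \ {1})) {a b : ℝ} (hab : a ≤ b) {γ γ' : ℝ → ℂ}
    (hγ : ∀ s, HasDerivAt γ (γ' s) s) (hγ' : Continuous γ')
    (hm : ∀ s ∈ Icc a b, γ s ∈ closedBall (0 : ℂ) 1 \ {1}) :
    ∫ s in a..b, γ' s * h (γ s) = prim h (γ b) - prim h (γ a) := by
  have hγc : Continuous γ := continuous_iff_continuousAt.2 fun s => (hγ s).continuousAt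
  have c1 : ContinuousOn (fun r : ℝ => ∫ s in a..b, r * γ' s * h (r * γ s)) (Icc 0 1) :=
    XPrim_param hab (f := fun (r : ℝ) s => r * γ' s * h (r * γ s))
      (ContinuousOn.mul (by fun_prop)
        (hc.comp (by fun_prop) fun p hp => XPrim_star (hm _ hp.2) hp.1))
  have c2 : ∀ s ∈ Icc a b, ContinuousOn (fun r : ℝ => prim h (r * γ s)) (Icc 0 1) := fun s hs =>
    (XPrim_cont hc).comp (by fun_prop) fun r hr => XPrim_star (hm s hs) hr
  have e1 : EqOn (fun r : ℝ => ∫ s in a..b, r * γ' s * h (r * γ s))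
      (fun r : ℝ => prim h (r * γ b) - prim h (r * γ a)) (Ico 0 1) := by
    intro r hr
    have h2 : ∀ s ∈ uIcc a b, (r : ℂ) * γ s ∈ ball (0 : ℂ) 1 := by
      intro s hs
      rw [uIcc_of_le hab] at hs
      rw [mem_ball_zero_iff, norm_mul, norm_real, Real.norm_of_nonneg hr.1]
      exact (mul_le_of_le_one_right hr.1 (mem_closedBall_zero_iff.1 (hm s hs).1)).trans_lt hr.2
    have h3 : ∀ s ∈ uIcc a b,
        HasDerivAt (fun s : ℝ => prim h (r * γ s)) (r * γ' s * h (r * γ s)) s := by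
      intro s hs
      have h4 := (XPrim_deriv hd _ (h2 s hs)).scomp s ((hγ s).const_mul (r : ℂ))
      rw [smul_eq_mul] at h4
      exact h4
    have h5 : ContinuousOn (fun s : ℝ => r * γ' s * h (r * γ s)) (uIcc a b) :=
      ContinuousOn.mul (by fun_prop) (hd.continuousOn.comp (by fun_prop) h2)
    exact intervalIntegral.integral_eq_sub_of_hasDerivAt h3 h5.intervalIntegrable
  have e2 := e1.of_subset_closure c1
    ((c2 b (right_mem_Icc.2 hab)).sub (c2 a (left_mem_Icc.2 hab))) Ico_subset_Icc_self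
    (by rw [closure_Ico zero_ne_one]) (right_mem_Icc.2 zero_le_one)
  simpa using e2

theorem XPrim_e_deriv (s : ℝ) : HasDerivAt e (I * e s) s := by
  have h1 := ((hasDerivAt_id (s : ℂ)).mul_const I).cexp.comp_ofReal
  rw [one_mul, mul_comm] at h1
  exact h1

theorem XPrim_e_mem {s : ℝ} (h : Real.cos s ≠ 1) : e s ∈ closedBall (0 : ℂ) 1 \ {1} := by
  refine ⟨mem_closedBall_zero_iff.2 (norm_exp_ofReal_mul_I s).le, fun h1 => h ?_⟩
  rw [mem_singleton_iff] at h1
  rw [← exp_ofReal_mul_I_re]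
  exact congrArg re h1

theorem XPrim_cos {t s : ℝ} (ht : 0 < t) (hs : s ∈ Icc t π) : Real.cos s ≠ 1 := by
  have := Real.cos_lt_cos_of_nonneg_of_le_pi le_rfl hs.2 (ht.trans_le hs.1)
  rw [Real.cos_zero] at this
  exact this.ne

theorem prim_spec {h : ℂ → ℂ} (hd : DifferentiableOn ℂ h (ball 0 1))
    (hc : ContinuousOn h (closedBall 0 1 \ {1})) :
    (∀ z ∈ ball (0 : ℂ) 1, HasDerivAt (prim h) (h z) z) ∧ prim h 0 = 0 ∧
    ContinuousOn (prim h) (closedBall 0 1 \ {1}) ∧
    (∀ t ∈ Ioo 0 π, prim h (e t) - prim h (-1) = -∫ s in t..π, I * e s * h (e s)) ∧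
    (∀ t ∈ Ioo 0 π, prim h (e (-t)) - prim h (-1) = ∫ s in t..π, I * e (-s) * h (e (-s))) := by
  have hec : Continuous e := continuous_iff_continuousAt.2 fun s => (XPrim_e_deriv s).continuousAt
  refine ⟨XPrim_deriv hd, by simp [prim], XPrim_cont hc, fun t ht => ?_, fun t ht => ?_⟩
  · have h1 := XPrim_arc hd hc ht.2.le XPrim_e_deriv (continuous_const.mul hec)
      fun s hs => XPrim_e_mem (XPrim_cos ht.1 hs)
    have h2 : e π = -1 := exp_pi_mul_I
    rw [h1, h2, neg_sub]
  · have h0 : ∀ s : ℝ, HasDerivAt (fun s => e (-s)) (-(I * e (-s))) s := fun s => by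
      have h3 := (XPrim_e_deriv (-s)).scomp s (hasDerivAt_neg s)
      rw [neg_smul, one_smul] at h3
      exact h3
    have h1 := XPrim_arc hd hc ht.2.le h0 (continuous_const.mul (hec.comp continuous_neg)).neg
      fun s hs => XPrim_e_mem (by rw [Real.cos_neg]; exact XPrim_cos ht.1 hs)
    have h2 : e (-π) = -1 := by
      rw [e, ofReal_neg, neg_mul, exp_neg, exp_pi_mul_I]
      norm_num
    simp only [neg_mul, intervalIntegral.integral_neg] at h1
    rw [h2] at h1
    rw [← neg_sub, ← h1, neg_neg]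

end Pool.Agent.P.BSX
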