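import Pool.Agent.P.MP_3df8df_an.XDefs

set_option autoImplicit false

namespace Pool.Agent.P.BSX

open Complex Metric Set Filter Topology
open Pool.Agent.P.MP_3df8df_an
open scoped Real ComplexConjugate

theorem XW_combo (z : ℂ) (s : ℝ) : -1 + s * (1 + z) = (1 - s) • (-1 : ℂ) + s • z := by
  simp only [real_smul]
  push_cast
  ring

theorem XW_low {z : ℂ} (hz : z ∈ closedBall (0 : ℂ) 1) {s : ℝ} (hs : s ∈ Icc (0 : ℝ) 1) :
    2 * (1 - s) + ‖1 - z‖ ≤ 3 * ‖1 - (-1 + s * (1 + z))‖ := by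
  have hz1 : ‖z‖ ≤ 1 := mem_closedBall_zero_iff.1 hz
  have h1 : 2 * (1 - s) ≤ ‖1 - (-1 + s * (1 + z))‖ := by
    refine le_trans ?_ (re_le_norm _)
    have := (re_le_norm z).trans hz1
    simp only [sub_re, add_re, mul_re, one_re, neg_re, ofReal_re, ofReal_im, zero_mul, sub_zero]
    nlinarith [hs.1]
  have h2 : ‖1 - z‖ ≤ ‖1 - (-1 + s * (1 + z))‖ + (1 - s) * 2 := by
    have e1 : 1 - z = 1 - (-1 + s * (1 + z)) - ((1 - s : ℝ) : ℂ) * (1 + z) := by
      push_cast
      ring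
    have e2 : ‖1 + z‖ ≤ 2 := (norm_add_le _ _).trans (by rw [norm_one]; linarith)
    calc ‖1 - z‖ = _ := congrArg _ e1
      _ ≤ _ := norm_sub_le _ _
      _ ≤ _ := by
        rw [norm_mul, norm_real, Real.norm_of_nonneg (sub_nonneg.2 hs.2)]
        gcongr
        exact sub_nonneg.2 hs.2
  linarith

theorem XW_mem {z : ℂ} (hz : z ∈ closedBall (0 : ℂ) 1 \ {1}) {s : ℝ} (hs : s ∈ Icc (0 : ℝ) 1) :
    -1 + s * (1 + z) ∈ closedBall (0 : ℂ) 1 \ {1} := by
  refine ⟨?_, fun h => ?_⟩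
  · rw [XW_combo]
    exact convex_closedBall _ _ (by simp) hz.1 (sub_nonneg.2 hs.2) hs.1 (by ring)
  · have h1 := XW_low hz.1 hs
    rw [mem_singleton_iff.1 h, sub_self, norm_zero] at h1
    have h2 : 0 < ‖1 - z‖ := norm_pos_iff.2 (sub_ne_zero.2 fun h => hz.2 h.symm)
    linarith [hs.2]

theorem XW_cont {G : ℂ → ℂ} (hc : ContinuousOn G (closedBall 0 1)) :
    ContinuousOn (fun p : ℂ × ℝ => p.2 * G (-1 + p.2 * (1 + p.1)) / (1 - (-1 + p.2 * (1 + p.1))) ^ 2)
      ((closedBall (0 : ℂ) 1 \ {1}) ×ˢ Icc (0 : ℝ) 1) := by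
  refine ContinuousOn.div (ContinuousOn.mul (by fun_prop)
    (hc.comp (by fun_prop) fun p hp => (XW_mem hp.1 hp.2).1)) (by fun_prop) fun p hp => ?_
  exact pow_ne_zero _ (sub_ne_zero.2 fun h => (XW_mem hp.1 hp.2).2 h.symm)

theorem XW_contK {G : ℂ → ℂ} (hc : ContinuousOn G (closedBall 0 1)) :
    ContinuousOn (fun z : ℂ =>
      ∫ s in (0 : ℝ)..1, s * G (-1 + s * (1 + z)) / (1 - (-1 + s * (1 + z))) ^ 2)
      (closedBall (0 : ℂ) 1 \ {1}) := by
  rw [continuousOn_iff_continuous_domRestrict]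
  have h := (XW_cont hc).comp_continuous
    (f := fun p : ↥(closedBall (0 : ℂ) 1 \ {1}) × ℝ => (p.1.1, (projIcc (0 : ℝ) 1 zero_le_one p.2).1))
    (by fun_prop) fun p => ⟨p.1.2, (projIcc (0 : ℝ) 1 zero_le_one p.2).2⟩
  have h2 := intervalIntegral.continuous_parametric_intervalIntegral_of_continuous'
    (μ := MeasureTheory.volume)
    (f := fun (z : ↥(closedBall (0 : ℂ) 1 \ {1})) (s : ℝ) =>
      ((projIcc (0 : ℝ) 1 zero_le_one s).1 : ℂ) *
        G (-1 + (projIcc (0 : ℝ) 1 zero_le_one s).1 * (1 + z.1)) /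
        (1 - (-1 + (projIcc (0 : ℝ) 1 zero_le_one s).1 * (1 + z.1))) ^ 2) h 0 1
  refine h2.congr fun z => intervalIntegral.integral_congr fun s hs => ?_
  rw [uIcc_of_le zero_le_one] at hs
  simp only [projIcc_of_mem zero_le_one hs]

theorem XW_bound {G : ℂ → ℂ} {M : ℝ} (hM : ∀ z ∈ closedBall (0 : ℂ) 1, ‖G z‖ ≤ M) {z : ℂ}
    (hz : z ∈ closedBall (0 : ℂ) 1 \ {1}) :
    ‖1 - z‖ * ‖∫ s in (0 : ℝ)..1, s * G (-1 + s * (1 + z)) / (1 - (-1 + s * (1 + z))) ^ 2‖ ≤
      9 * M / 2 := by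
  have hc : 0 < ‖1 - z‖ := norm_pos_iff.2 (sub_ne_zero.2 fun h => hz.2 h.symm)
  have hM0 : 0 ≤ M := (norm_nonneg _).trans (hM z hz.1)
  have pos : ∀ s ∈ uIcc (0 : ℝ) 1, 0 < 2 * (1 - s) + ‖1 - z‖ := fun s hs => by
    rw [uIcc_of_le zero_le_one] at hs
    linarith [hs.2]
  have hi : IntervalIntegrable (fun s : ℝ => 9 * M / (2 * (1 - s) + ‖1 - z‖) ^ 2)
      MeasureTheory.volume 0 1 :=
    (ContinuousOn.div (by fun_prop) (by fun_prop)
      fun s hs => pow_ne_zero _ (pos s hs).ne').intervalIntegrable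
  have h1 := intervalIntegral.norm_integral_le_of_norm_le zero_le_one
    (f := fun s : ℝ => s * G (-1 + s * (1 + z)) / (1 - (-1 + s * (1 + z))) ^ 2)
    (Eventually.of_forall fun s hs => ?_) hi
  · have h2 := intervalIntegral.integral_eq_sub_of_hasDerivAt
      (f := fun s : ℝ => 9 * M / 2 * (2 * (1 - s) + ‖1 - z‖)⁻¹) (fun s hs => ?_) hi
    · rw [h2] at h1
      have h3 : 0 ≤ 9 * M / 2 * (2 * (1 - 0) + ‖1 - z‖)⁻¹ := by positivity
      calc _ ≤ ‖1 - z‖ * (9 * M / 2 * (2 * (1 - 1) + ‖1 - z‖)⁻¹) := by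
            gcongr
            linarith
        _ = _ := by
            rw [sub_self, mul_zero, zero_add]
            field_simp
    · have := (((((hasDerivAt_id s).const_sub 1).const_mul 2).add_const ‖1 - z‖).inv
        (pos s hs).ne').const_mul (9 * M / 2)
      refine HasDerivAt.congr_deriv this ?_
      simp only [id]
      ring
  · have hs' : s ∈ Icc (0 : ℝ) 1 := Ioc_subset_Icc_self hs
    have l1 := XW_low hz.1 hs'
    have p1 := pos s (by rwa [uIcc_of_le zero_le_one])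
    have g1 := hM _ (XW_mem hz hs').1
    rw [norm_div, norm_mul, norm_pow, norm_real, Real.norm_of_nonneg hs'.1]
    calc _ ≤ 1 * M / ((2 * (1 - s) + ‖1 - z‖) / 3) ^ 2 := by
          gcongr
          · exact hs'.2
          · linarith
      _ = _ := by
          field_simp
          ring

theorem Wf_spec {G f : ℂ → ℂ} (hd : DifferentiableOn ℂ G (ball 0 1))
    (hc : ContinuousOn G (closedBall 0 1)) (h0 : ∀ z ∈ closedBall (0 : ℂ) 1, G z ≠ 0)
    (hf : ∀ z ∈ ball (0 : ℂ) 1, HasDerivAt f ((1 + z) * G z / (1 - z) ^ 2) z)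
    (cf : ContinuousOn f (closedBall 0 1 \ {1})) :
    ContinuousOn (Wf G) (closedBall 0 1 \ {1}) ∧ Wf G (-1) = 1 / 4 ∧
    (∃ C : ℝ, ∀ z ∈ ball (0 : ℂ) 1, ‖Wf G z‖ ≤ C) ∧
    (∀ z ∈ closedBall (0 : ℂ) 1 \ {1}, f z - f (-1) = (1 + z) ^ 2 * G z / (1 - z) * Wf G z) ∧
    DifferentiableOn ℂ (Wf G) (ball 0 1) := by
  have hK := XW_contK hc
  have id1 : ∀ z ∈ closedBall (0 : ℂ) 1 \ {1},
      f z - f (-1) = (1 + z) ^ 2 * G z / (1 - z) * Wf G z := by
    intro z hz
    by_cases hz1 : z = -1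
    · simp [hz1]
    have hne : 1 - z ≠ 0 := sub_ne_zero.2 fun h => hz.2 h.symm
    have hG := h0 z hz.1
    have hi : IntervalIntegrable (fun s : ℝ => (1 + z) ^ 2 *
        (s * G (-1 + s * (1 + z)) / (1 - (-1 + s * (1 + z))) ^ 2)) MeasureTheory.volume 0 1 :=
      (((XW_cont hc).comp (f := fun s : ℝ => (z, s)) (by fun_prop)
        fun s hs => ⟨hz, hs⟩).intervalIntegrable_of_Icc zero_le_one).const_mul _
    have h1 := intervalIntegral.integral_eq_sub_of_hasDerivAt_of_le zero_le_one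
      (f := fun s : ℝ => f (-1 + s * (1 + z))) (cf.comp (by fun_prop) fun s hs => XW_mem hz hs)
      (fun s hs => ?_) hi
    · rw [intervalIntegral.integral_const_mul] at h1
      simp only [ofReal_one, ofReal_zero, zero_mul, add_zero, one_mul, neg_add_cancel_left] at h1
      rw [← h1, Wf]
      field_simp
    · have hb : -1 + s * (1 + z) ∈ ball (0 : ℂ) 1 := by
        rw [XW_combo, mem_ball_zero_iff]
        exact norm_combo_lt_of_ne (by simp) (mem_closedBall_zero_iff.1 hz.1) (Ne.symm hz1)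
          (sub_pos.2 hs.2) hs.1 (by ring)
      have h2 : HasDerivAt (fun w : ℂ => -1 + w * (1 + z)) (1 + z) (s : ℂ) := by
        simpa using ((hasDerivAt_id (s : ℂ)).mul_const (1 + z)).const_add (-1)
      refine HasDerivAt.congr_deriv ((hf _ hb).comp (s : ℂ) h2).comp_ofReal ?_
      ring
  have sub : ∀ z ∈ ball (0 : ℂ) 1, z ∈ closedBall (0 : ℂ) 1 \ {1} := fun z hz =>
    ⟨ball_subset_closedBall hz, fun h => by simp [mem_singleton_iff.1 h] at hz⟩
  refine ⟨((by fun_prop : ContinuousOn (fun z : ℂ => 1 - z) _).div (hc.mono sdiff_subset)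
    fun z hz => h0 z hz.1).mul hK, ?_, ?_, id1, ?_⟩
  · have hG := h0 (-1) (by simp)
    have h1 : ∫ s in (0 : ℝ)..1, (s : ℂ) = 1 / 2 := by
      rw [intervalIntegral.integral_ofReal, integral_id]
      norm_num
    simp only [Wf, add_neg_cancel, mul_zero, add_zero]
    rw [intervalIntegral.integral_div, intervalIntegral.integral_mul_const, h1]
    field_simp
    ring
  · obtain ⟨M, hM⟩ := (isCompact_closedBall (0 : ℂ) 1).exists_bound_of_continuousOn hc
    obtain ⟨N, hN⟩ := (isCompact_closedBall (0 : ℂ) 1).exists_bound_of_continuousOn (hc.inv₀ h0)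
    refine ⟨N * (9 * M / 2), fun z hz => ?_⟩
    have h1 := XW_bound hM (sub z hz)
    have h2 := hN z (sub z hz).1
    rw [Wf, div_eq_mul_inv, mul_comm (1 - z), mul_assoc, norm_mul, norm_mul]
    exact mul_le_mul h2 h1 (by positivity) ((norm_nonneg _).trans h2)
  · have hz1 : ∀ z ∈ ball (0 : ℂ) 1, 1 + z ≠ 0 := fun z hz h => by
      simp [(neg_eq_of_add_eq_zero_right h).symm] at hz
    have df : DifferentiableOn ℂ f (ball 0 1) := fun z hz =>
      (hf z hz).differentiableAt.differentiableWithinAt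
    refine DifferentiableOn.congr (f := fun z => (f z - f (-1)) * (1 - z) / ((1 + z) ^ 2 * G z))
      (DifferentiableOn.div (by fun_prop) (by fun_prop) fun z hz =>
        mul_ne_zero (pow_ne_zero _ (hz1 z hz)) (h0 z (sub z hz).1)) fun z hz => ?_
    have a1 := hz1 z hz
    have a2 := h0 z (sub z hz).1
    have a3 : 1 - z ≠ 0 := sub_ne_zero.2 fun h => (sub z hz).2 h.symm
    rw [id1 z (sub z hz)]
    field_simp

end Pool.Agent.P.BSX
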