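import Pool.Agent.P.MP_3df8df_an.XFinA
import Pool.Agent.P.MP_3df8df_an.XPrim
import Pool.Agent.P.MP_3df8df_an.XW
import Pool.Agent.P.MP_3df8df_an.XF

set_option autoImplicit false

namespace Pool.Agent.P.BSX

open Complex Metric Set Filter Topology
open Pool.Agent.P.MP_3df8df_an
open scoped Real ComplexConjugate

theorem small {u v : ℝ → ℝ} (hu : Continuous u) (hv : Continuous v) {τ : ℝ} (hτ : 0 < τ) :
    ∀ᶠ ε in 𝓝[>] (0 : ℝ), ∀ s ∈ Icc 0 π, |ε * u s + ε ^ 2 * v s| ≤ τ := by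
  obtain ⟨A, hA⟩ := (isCompact_Icc (a := 0) (b := π)).exists_bound_of_continuousOn hu.continuousOn
  obtain ⟨B, hB⟩ := (isCompact_Icc (a := 0) (b := π)).exists_bound_of_continuousOn hv.continuousOn
  have t : Tendsto (fun ε : ℝ => ε * A + ε ^ 2 * B) (𝓝[>] 0) (𝓝 (0 * A + 0 ^ 2 * B)) :=
    (Continuous.tendsto (by fun_prop) 0).mono_left nhdsWithin_le_nhds
  filter_upwards [t.eventually (gt_mem_nhds (by simpa using hτ : _ < τ)), self_mem_nhdsWithin]
    with ε h1 h2 s hs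
  have h2 : 0 < ε := h2
  refine (abs_add_le _ _).trans (le_trans ?_ h1.le)
  rw [abs_mul, abs_mul, abs_of_pos h2, abs_of_pos (pow_pos h2 2)]
  exact add_le_add (mul_le_mul_of_nonneg_left (hA s hs) h2.le)
    (mul_le_mul_of_nonneg_left (hB s hs) (pow_pos h2 2).le)

theorem re_pos_add {z : ℂ} (hz : ‖z‖ ≤ 1) (h : z ≠ -1) : 0 < (1 + z).re := by
  have h1 := (abs_le.1 ((abs_re_le_norm z).trans hz)).1
  rcases h1.lt_or_eq with h2 | h2
  · simp only [add_re, one_re]; linarith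
  · have h3 : normSq z ≤ 1 := by rw [← Complex.sq_norm]; nlinarith [norm_nonneg z]
    rw [normSq_apply, ← h2] at h3
    exact absurd (Complex.ext (by simp [← h2]) (by simp; nlinarith)) h

theorem finj {σ δ : ℂ → ℂ} {a1 b1 P r1 : ℝ → ℝ} {s0 η : ℝ} (h : Adm σ δ a1 b1 P r1 s0 η) :
    ∀ᶠ ε in 𝓝[>] (0 : ℝ), InjOn (prim (hh σ δ ε)) (ball 0 1) := by
  obtain ⟨τ, hτ, hb⟩ := bpos wt
  have cs : Continuous fun t => σ (e t) :=
    h.nσ.cont.comp_continuous e_cont fun t => by simp [e_norm]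
  have cd : Continuous fun t => δ (e t) :=
    h.nδ.cont.comp_continuous e_cont fun t => by simp [e_norm]
  have ca : Continuous fun t => -(σ (e t)).im := (continuous_im.comp cs).neg
  have cb : Continuous fun t => (σ (e t)).re := continuous_re.comp cs
  have cr : Continuous fun t => (δ (e t)).re := continuous_re.comp cd
  have ci : Continuous fun t => (δ (e t)).im := continuous_im.comp cd
  filter_upwards [matchF h.bd wt h.s0p h.s0l h.ηp h.hF, small ca cr one_pos,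
    small ca.neg cr one_pos, small cb ci hτ, small cb ci.neg hτ] with ε mF x1 x2 y1 y2
  have cdev : Continuous dev := by unfold dev; fun_prop
  have sp := fun t ht => speed h.nσ h.nδ ε (t := t) ht
  have ue := fun t ht => UU_e h.nσ h.nδ ε (t := t) ht
  obtain ⟨p1, p2⟩ := hb (xp ε _ _) _ (fp ε _ _) 1 (Or.inl rfl) (by unfold xp; fun_prop)
    (by fun_prop) x1 y1 fun s => by rw [fp, one_mul]
  obtain ⟨q1, q2⟩ := hb (xm ε (fun t => -(σ (e t)).im) fun t => (δ (e t)).re) _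
    (fm ε (fun t => (σ (e t)).re) fun t => (δ (e t)).im) (-1) (Or.inr rfl) (by unfold xm; fun_prop)
    (by fun_prop) (fun s hs => by simpa [xm] using x2 s hs) y2 fun s => by simp [fm, sub_eq_add_neg]
  have cxp : Continuous (xp ε (fun t => -(σ (e t)).im) fun t => (δ (e t)).re) := by
    unfold xp; fun_prop
  have cxm : Continuous (xm ε (fun t => -(σ (e t)).im) fun t => (δ (e t)).re) := by
    unfold xm; fun_prop
  have cfp : Continuous (fp ε (fun t => (σ (e t)).re) fun t => (δ (e t)).im) := by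
    unfold fp; fun_prop
  have cfm : Continuous (fm ε (fun t => (σ (e t)).re) fun t => (δ (e t)).im) := by
    unfold fm; fun_prop
  generalize xp ε _ _ = Xp at *
  generalize xm ε _ _ = Xm at *
  generalize fp ε _ _ = Fp at *
  generalize fm ε _ _ = Fm at *
  obtain ⟨hF, -, cF, b1, b2⟩ := prim_spec (hh_diff h.nσ h.nδ ε) (hh_cont h.nσ h.nδ ε)
  obtain ⟨cW, W1, ⟨C, bW⟩, eW, dW⟩ := Wf_spec (GG_diff h.nσ h.nδ ε) (GG_cont h.nσ h.nδ ε)
    (fun z _ => GG_ne σ δ ε z) hF cF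
  generalize prim (hh σ δ ε) = f at *
  generalize Wf (GG σ δ ε) = W at *
  have sub : closedBall (0 : ℂ) 1 \ {1, -1} ⊆ closedBall 0 1 \ {1} :=
    fun z hz => ⟨hz.1, fun h => hz.2 (Or.inl h)⟩
  have sub' : ball (0 : ℂ) 1 ⊆ closedBall 0 1 \ {1, -1} := fun z hz =>
    ⟨ball_subset_closedBall hz, by rintro (rfl | rfl) <;> simp at hz⟩
  have eW' : ∀ z ∈ closedBall (0 : ℂ) 1 \ {1, -1},
      f z - f (-1) = (1 - z ^ 2) * hh σ δ ε z * W z := fun z hz => by
    have : 1 - z ≠ 0 := sub_ne_zero.2 fun h => hz.2 (Or.inl h.symm)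
    rw [eW z (sub hz), hh]
    field_simp
    ring
  have ae : ∀ᵐ s : ℝ, s ≠ π := by simp [MeasureTheory.ae_iff]
  have j1 : ∀ t ∈ Ioo 0 π, f (e t) - f (-1) = -J (fun t => ‖Q (e t)‖) Xp Fp t := fun t ht => by
    rw [b1 t ht, J, neg_inj]
    refine intervalIntegral.integral_congr_ae (ae.mono fun s h1 h2 => (sp s ?_).1)
    rw [uIoc_of_le ht.2.le] at h2
    exact ⟨ht.1.trans h2.1, lt_of_le_of_ne h2.2 h1⟩
  have j2 : ∀ t ∈ Ioo 0 π, f (e (-t)) - f (-1) = -J (fun t => ‖Q (e t)‖) Xm Fm t := fun t ht => by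
    rw [b2 t ht, J, ← intervalIntegral.integral_neg]
    refine intervalIntegral.integral_congr_ae (ae.mono fun s h1 h2 => (sp s ?_).2)
    rw [uIoc_of_le ht.2.le] at h2
    exact ⟨ht.1.trans h2.1, lt_of_le_of_ne h2.2 h1⟩
  have k1 : ∀ t ∈ Ioo 0 π, f (e t) - f (-1) = -(2 * Real.sin t) *
      ((‖Q (e t)‖ : ℝ) * cexp ((Xp t : ℂ) + (Fp t : ℂ) * I)) * W (e t) := fun t ht => by
    rw [eW' _ (e_mem ht), one_sub_e_sq, ← (sp t ht).1]
    ring
  have k2 : ∀ t ∈ Ioo 0 π, f (e (-t)) - f (-1) = -(2 * Real.sin t) *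
      ((‖Q (e t)‖ : ℝ) * cexp ((Xm t : ℂ) + (Fm t : ℂ) * I)) * W (e (-t)) := fun t ht => by
    rw [eW' _ (e_mem' ht), one_sub_e_sq, ← neg_eq_iff_eq_neg.2 (sp t ht).2, Real.sin_neg]
    push_cast
    ring
  have pos : ∀ (X F : ℝ → ℝ) (t : ℝ) (u : ℂ), t ∈ Ioo 0 π →
      0 < (J (fun t => ‖Q (e t)‖) X F t * cexp (-(F t : ℂ) * I)).re →
      -J (fun t => ‖Q (e t)‖) X F t = -(2 * Real.sin t) *
        ((‖Q (e t)‖ : ℝ) * cexp ((X t : ℂ) + (F t : ℂ) * I)) * u → 0 < u.re := by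
    intro X F t u ht h1 h2
    have h3 : J (fun t => ‖Q (e t)‖) X F t * cexp (-(F t : ℂ) * I) =
        ((2 * Real.sin t * ‖Q (e t)‖ * Real.exp (X t) : ℝ) : ℂ) * u := by
      have : cexp ((X t : ℂ) + (F t : ℂ) * I) * cexp (-(F t : ℂ) * I) = cexp (X t) := by
        rw [← exp_add]; congr 1; ring
      rw [← neg_neg (J _ _ _ _), h2]
      push_cast
      rw [← this]
      ring
    rw [h3, re_ofReal_mul] at h1
    have := Real.sin_pos_of_mem_Ioo ht
    exact pos_of_mul_pos_right h1 (by positivity)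
  have w1 : ∀ t ∈ Ioo 0 π, 0 < (W (e t)).re := fun t ht =>
    pos _ _ t _ ht (p1 t ht) ((j1 t ht).symm.trans (k1 t ht))
  have w2 : ∀ t ∈ Ioo 0 π, 0 < (W (e (-t))).re := fun t ht =>
    pos _ _ t _ ht (q1 t ht) ((j2 t ht).symm.trans (k2 t ht))
  have ws : ∀ z : ℂ, ‖z‖ = 1 → z ≠ 1 → z ≠ -1 → 0 < (W z).re := fun z h1 h2 h3 => by
    obtain ⟨t, ht, rfl | rfl⟩ := sphere_cases h1 h2 h3
    exacts [w1 t ht, w2 t ht]
  have wb := maxp dW (cW.mono sub) bW ws
  have wa : ∀ z ∈ closedBall (0 : ℂ) 1 \ {1, -1}, 0 < (W z).re := fun z hz => by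
    rcases (mem_closedBall_zero_iff.1 hz.1).lt_or_eq with h1 | h1
    · exact wb z (mem_ball_zero_iff.2 h1)
    · exact ws z h1 (fun h => hz.2 (Or.inl h)) fun h => hz.2 (Or.inr h)
  have r1 : ∀ z ∈ closedBall (0 : ℂ) 1 \ {1, -1}, 0 < (1 + z).re := fun z hz =>
    re_pos_add (mem_closedBall_zero_iff.1 hz.1) fun h => hz.2 (Or.inr h)
  have r2 : ∀ z ∈ closedBall (0 : ℂ) 1 \ {1, -1}, 0 < (1 - z).re := fun z hz =>
    re_pos_add (z := -z) (by simpa using hz.1) fun h => hz.2 (Or.inl (neg_inj.1 h))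
  obtain ⟨V, hV⟩ : ∃ V : ℂ → ℂ,
      V = fun z => log (1 - z) + log (1 + z) + UU σ δ ε z + log (W z) := ⟨_, rfl⟩
  have ne : ∀ {u : ℂ}, 0 < u.re → u ≠ 0 := fun hu h => by simp [h] at hu
  have cV : ContinuousOn V (closedBall 0 1 \ {1, -1}) := hV ▸
    ((((ContinuousOn.clog (by fun_prop) fun z hz => Or.inl (r2 z hz)).add
      (ContinuousOn.clog (by fun_prop) fun z hz => Or.inl (r1 z hz))).add
      (L_cont.add (((continuousOn_const.mul h.nσ.cont).add
        (continuousOn_const.mul h.nδ.cont)).mono sdiff_subset))).add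
      ((cW.mono sub).clog fun z hz => Or.inl (wa z hz)))
  have eV : ∀ z ∈ closedBall (0 : ℂ) 1 \ {1, -1}, cexp (V z) = f z - f (-1) := fun z hz => by
    rw [hV, eW' z hz]
    simp only [exp_add, exp_log (ne (r1 z hz)), exp_log (ne (r2 z hz)), exp_log (ne (wa z hz)),
      exp_UU σ δ ε hz]
    ring
  have dV : ∀ z ∈ ball (0 : ℂ) 1, HasDerivAt V (deriv V z) z := fun z hz => by
    obtain ⟨L', hL, -⟩ := L_deriv hz
    have o := isOpen_ball.mem_nhds hz
    refine DifferentiableAt.hasDerivAt (hV ▸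
      ((((DifferentiableAt.clog (by fun_prop) (Or.inl (r2 z (sub' hz)))).add
      (DifferentiableAt.clog (by fun_prop) (Or.inl (r1 z (sub' hz))))).add
      (hL.differentiableAt.add (((h.nσ.diff.differentiableAt o).const_mul _).add
        ((h.nδ.diff.differentiableAt o).const_mul _)))).add
      ((dW.differentiableAt o).clog (Or.inl (wb z hz)))))
  have pV : ∀ z ∈ ball (0 : ℂ) 1, 0 < ((1 - z ^ 2) * deriv V z).re := fun z hz => by
    have e1 := (dV z hz).cexp.unique (((hF z hz).sub_const (f (-1))).congr_of_eventuallyEq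
      (mem_of_superset (isOpen_ball.mem_nhds hz) fun y hy => eV y (sub' hy)))
    have e2 : hh σ δ ε z ≠ 0 := exp_UU σ δ ε (sub' hz) ▸ exp_ne_zero _
    rw [eV z (sub' hz), eW' z (sub' hz)] at e1
    have e3 : (1 - z ^ 2) * deriv V z = (W z)⁻¹ :=
      eq_inv_of_mul_eq_one_left (mul_left_cancel₀ e2 (by linear_combination e1))
    rw [e3, inv_re]
    exact div_pos (wb z hz) (normSq_pos.2 (ne (wb z hz)))
  obtain ⟨s1, s2, s3, s4⟩ := side (E := fun z => f z - f (-1)) wt.cw cxp cfp e_cont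
    (by simp [e]) (fun t ht => e_mem ht) cV eV (cF.sub continuousOn_const) (sub_self _) j1 k1 p2
  obtain ⟨t1, t2, t3, t4⟩ := side (E := fun z => f z - f (-1)) (c := fun t => e (-t)) wt.cw cxm cfm
    (e_cont.comp continuous_neg) (by simp [e, exp_neg]) (fun t ht => e_mem' ht) cV eV
    (cF.sub continuousOn_const) (sub_self _) j2 k2 q2
  have im : ∀ p ∈ Ioo 0 π, ∀ q ∈ Ioo 0 π, (V (e p)).re = (V (e (-q))).re →
      (V (e p)).im - (V (e (-q))).im ≤ 2 * π + (arg (W (e p)) - arg (W (e (-q)))) := by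
    intro p hp q hq hpq
    have m1 := mF p hp q hq (by rw [← s2 p hp, ← t2 q hq, hpq])
    have l1 : (log (1 + e (-q))).im = -(q / 2) := by
      rw [e_neg, ← map_one conj, ← map_add, log_conj _ (slitPlane_arg_ne_pi
        (Or.inl (r1 _ (e_mem hq)))), conj_im, (logs_im hq).1]
    have l2 : (log (1 - e (-q))).im = (π - q) / 2 := by
      rw [e_neg, ← map_one conj, ← map_sub, log_conj _ (slitPlane_arg_ne_pi
        (Or.inl (r2 _ (e_mem hq)))), conj_im, (logs_im hq).2, neg_neg]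
    simp only [hV, add_im, l1, l2, (logs_im hp).1, (logs_im hp).2, (ue p hp).2.2.1, (ue q hq).2.2.2]
    simp only [log_im]
    linarith
  have sin2 : ∀ t ∈ Ioo 0 π, 0 < 2 * Real.sin t := fun t ht =>
    mul_pos two_pos (Real.sin_pos_of_mem_Ioo ht)
  have hm := lemM s1 t1 (fun t ht => neg_inv_re (sin2 t ht) (w1 t ht))
    (fun t ht => neg_inv_re (sin2 t ht) (w2 t ht)) s3 s4 t3 t4
    (fun p hp q hq h1 h2 => slope_lt (sin2 p hp) (sin2 q hq) (w1 p hp) (w2 q hq)
      (by linarith [im p hp q hq h1])) fun θ hθ => by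
    have a0 : ContinuousWithinAt (fun z => arg (W z)) (closedBall 0 1 \ {1}) (-1) :=
      (continuousAt_arg (Or.inl (by rw [W1]; norm_num))).comp_continuousWithinAt
        (cW (-1) ⟨by simp, by norm_num⟩)
    obtain ⟨κ, hκ, a1⟩ := Metric.continuousWithinAt_iff.1 a0 (θ / 2) (by positivity)
    obtain ⟨τ', hτ', a2⟩ := Metric.continuousAt_iff.1 (e_cont.continuousAt (x := π)) κ hκ
    have eπ : e π = -1 := by simp [e]
    refine ⟨τ', hτ', fun p hp q hq h1 h2 h3 => ?_⟩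
    have d1 := a1 (sub (e_mem hp)) (eπ ▸ a2 (by rw [Real.dist_eq, abs_lt]; constructor <;> linarith [hp.2]))
    have d2 := a1 (sub (e_mem' hq)) (by
      have := a2 (x := q) (by rw [Real.dist_eq, abs_lt]; constructor <;> linarith [hq.2])
      rwa [eπ, ← dist_conj_conj, ← e_neg, map_neg, map_one] at this)
    rw [Real.dist_eq, abs_lt] at d1 d2
    linarith [im p hp q hq h3]
  have fin := lemG dV pV cV
    (surj (fun t ht => (reCLM.continuous.continuousAt.comp (s1 t ht).continuousAt).continuousWithinAt)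
      s3 s4)
    (surj (fun t ht => (reCLM.continuous.continuousAt.comp (t1 t ht).continuousAt).continuousWithinAt)
      t3 t4) hm
  intro z hz y hy hzy
  exact fin hz hy (by simp only [eV z (sub' hz), eV y (sub' hy), hzy])

end Pool.Agent.P.BSX
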