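import Pool.Agent.P.MP_3df8df_an.XDefs

set_option autoImplicit false

namespace Pool.Agent.P.BSX

open Complex Metric Set Filter Topology
open Pool.Agent.P.MP_3df8df_an
open scoped Real ComplexConjugate

/-- The map of the strip onto the disc. -/
noncomputable def XG_phi (w : ℂ) : ℂ := (cexp w - 1) / (cexp w + 1)

theorem XG_re_nonneg {w : ℂ} (h : |w.im| ≤ π / 2) : 0 ≤ (cexp w).re := by
  rw [exp_re]
  exact mul_nonneg (Real.exp_pos _).le (Real.cos_nonneg_of_mem_Icc (abs_le.1 h))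

theorem XG_re_pos {w : ℂ} (h : |w.im| < π / 2) : 0 < (cexp w).re := by
  rw [exp_re]
  exact mul_pos (Real.exp_pos _) (Real.cos_pos_of_mem_Ioo (abs_lt.1 h))

theorem XG_ne {E : ℂ} (h : 0 ≤ E.re) : E + 1 ≠ 0 := by
  intro h1
  have h2 := congrArg Complex.re h1
  simp only [add_re, one_re, zero_re] at h2
  linarith

theorem XG_sq (E : ℂ) : ‖E + 1‖ ^ 2 = ‖E - 1‖ ^ 2 + 4 * E.re := by
  rw [Complex.sq_norm, Complex.sq_norm, normSq_apply, normSq_apply]
  simp only [add_re, add_im, sub_re, sub_im, one_re, one_im]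
  ring

theorem XG_mem_ball {w : ℂ} (h : |w.im| < π / 2) : XG_phi w ∈ ball (0 : ℂ) 1 := by
  have h1 := XG_re_pos h
  have h2 := norm_pos_iff.2 (XG_ne h1.le)
  rw [mem_ball_zero_iff, XG_phi, norm_div, div_lt_one h2]
  have h3 := XG_sq (cexp w)
  exact lt_of_pow_lt_pow_left₀ 2 h2.le (by linarith)

theorem XG_mem_closed {w : ℂ} (h : |w.im| ≤ π / 2) :
    XG_phi w ∈ closedBall (0 : ℂ) 1 \ {1, -1} := by
  have h1 := XG_re_nonneg h
  have h0 := XG_ne h1
  have h2 := norm_pos_iff.2 h0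
  refine ⟨?_, ?_⟩
  · rw [mem_closedBall_zero_iff, XG_phi, norm_div, div_le_one h2]
    have h3 := XG_sq (cexp w)
    exact le_of_pow_le_pow_left₀ two_ne_zero h2.le (by linarith)
  · rintro (h4 | h4)
    · rw [XG_phi, div_eq_iff h0] at h4
      have h5 : (2 : ℂ) = 0 := by linear_combination -h4
      exact two_ne_zero h5
    · rw [mem_singleton_iff, XG_phi, div_eq_iff h0] at h4
      have h5 : 2 * cexp w = 0 := by linear_combination h4
      exact mul_ne_zero two_ne_zero (exp_ne_zero w) h5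

theorem XG_deriv {w : ℂ} (h : |w.im| ≤ π / 2) :
    HasDerivAt XG_phi ((1 - XG_phi w ^ 2) / 2) w := by
  have h0 := XG_ne (XG_re_nonneg h)
  have h1 := ((Complex.hasDerivAt_exp w).sub_const 1).div
    ((Complex.hasDerivAt_exp w).add_const 1) h0
  have h2 : (cexp w * (cexp w + 1) - (cexp w - 1) * cexp w) / (cexp w + 1) ^ 2 =
      (1 - XG_phi w ^ 2) / 2 := by
    rw [XG_phi]
    field_simp
    ring
  rw [← h2]
  exact h1

theorem XG_inv {z : ℂ} (h1 : z ≠ 1) (h2 : z ≠ -1) : XG_phi (log ((1 + z) / (1 - z))) = z := by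
  have h3 : 1 - z ≠ 0 := sub_ne_zero.2 h1.symm
  have h4 : 1 + z ≠ 0 := fun h => h2 (by linear_combination h)
  have h5 : (1 + z) / (1 - z) + 1 = 2 / (1 - z) := by
    field_simp
    ring
  rw [XG_phi, exp_log (div_ne_zero h4 h3), h5]
  field_simp
  ring

theorem XG_q_re (z : ℂ) : ((1 + z) / (1 - z)).re = (1 - ‖z‖ ^ 2) / normSq (1 - z) := by
  rw [div_re, Complex.sq_norm, normSq_apply z]
  simp only [add_re, add_im, sub_re, sub_im, one_re, one_im]
  ring

theorem XG_q_im (z : ℂ) : ((1 + z) / (1 - z)).im = 2 * z.im / normSq (1 - z) := by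
  rw [div_im]
  simp only [add_re, add_im, sub_re, sub_im, one_re, one_im]
  ring

theorem XG_in {z : ℂ} (hz : z ∈ ball (0 : ℂ) 1) : ∃ w : ℂ, |w.im| < π / 2 ∧ XG_phi w = z := by
  rw [mem_ball_zero_iff] at hz
  have h1 : z ≠ 1 := by
    rintro rfl
    simp at hz
  have h2 : z ≠ -1 := by
    rintro rfl
    simp at hz
  refine ⟨_, ?_, XG_inv h1 h2⟩
  rw [log_im, abs_arg_lt_pi_div_two_iff, XG_q_re]
  left
  have h3 : ‖z‖ ^ 2 < 1 := by nlinarith [norm_nonneg z]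
  exact div_pos (by linarith) (normSq_pos.2 (sub_ne_zero.2 h1.symm))

theorem XG_bd {z : ℂ} (hz : ‖z‖ = 1) (hi : z.im ≠ 0) :
    ∃ w : ℂ, |w.im| = π / 2 ∧ 0 < w.im * z.im ∧ XG_phi w = z := by
  have h1 : z ≠ 1 := by
    rintro rfl
    simp at hi
  have h2 : z ≠ -1 := by
    rintro rfl
    simp at hi
  have h3 : 0 < normSq (1 - z) := normSq_pos.2 (sub_ne_zero.2 h1.symm)
  have h4 : ((1 + z) / (1 - z)).re = 0 := by
    rw [XG_q_re, hz]
    simp
  have hpi := Real.pi_pos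
  refine ⟨log ((1 + z) / (1 - z)), ?_⟩
  rw [log_im]
  rcases lt_or_gt_of_ne hi with h | h
  · have h5 : arg ((1 + z) / (1 - z)) = -(π / 2) := by
      rw [arg_eq_neg_pi_div_two_iff, XG_q_im]
      exact ⟨h4, div_neg_of_neg_of_pos (by linarith) h3⟩
    rw [h5]
    exact ⟨by rw [abs_neg, abs_of_pos (by linarith)], by nlinarith, XG_inv h1 h2⟩
  · have h5 : arg ((1 + z) / (1 - z)) = π / 2 := by
      rw [arg_eq_pi_div_two_iff, XG_q_im]
      exact ⟨h4, div_pos (by linarith) h3⟩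
    rw [h5]
    exact ⟨abs_of_pos (by linarith), by nlinarith, XG_inv h1 h2⟩

theorem XG_key {U U' : ℂ → ℂ} (hd : ∀ z ∈ ball (0 : ℂ) 1, HasDerivAt U (U' z) z)
    (hp : ∀ z ∈ ball (0 : ℂ) 1, 0 < ((1 - z ^ 2) * U' z).re)
    (hc : ContinuousOn U (closedBall 0 1 \ {1, -1})) {w1 w2 : ℂ} (h1 : |w1.im| < π / 2)
    (h2 : |w2.im| ≤ π / 2) (hne : w2 ≠ w1) :
    0 < ((U (XG_phi w2) - U (XG_phi w1)) * conj (w2 - w1)).re := by
  obtain ⟨d, hdd⟩ : ∃ d, d = w2 - w1 := ⟨_, rfl⟩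
  have hd0 : d ≠ 0 := hdd ▸ sub_ne_zero.2 hne
  have him : ∀ s : ℝ, (w1 + s * d).im = (1 - s) * w1.im + s * w2.im := by
    intro s
    rw [hdd]
    simp only [add_im, mul_im, ofReal_re, ofReal_im, sub_im, zero_mul, add_zero]
    ring
  obtain ⟨a1, a2⟩ := abs_lt.1 h1
  obtain ⟨b1, b2⟩ := abs_le.1 h2
  have hcl : ∀ s ∈ Icc (0 : ℝ) 1, |(w1 + s * d).im| ≤ π / 2 := by
    intro s hs
    rw [him, abs_le]
    constructor <;> nlinarith [hs.1, hs.2]
  have hop : ∀ s ∈ Ioo (0 : ℝ) 1, |(w1 + s * d).im| < π / 2 := by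
    intro s hs
    rw [him, abs_lt]
    constructor <;> nlinarith [hs.1, hs.2]
  have hlin : ∀ s : ℝ, HasDerivAt (fun s : ℝ => w1 + s * d) d s := by
    intro s
    simpa using ((Complex.ofRealCLM.hasDerivAt (x := s)).mul_const d).const_add w1
  have hcont : ContinuousOn (fun s : ℝ => (U (XG_phi (w1 + s * d)) * conj d).re) (Icc 0 1) := by
    have c1 : ContinuousOn (fun s : ℝ => XG_phi (w1 + s * d)) (Icc 0 1) := fun s hs =>
      (ContinuousAt.comp (f := fun s : ℝ => w1 + s * d) (XG_deriv (hcl s hs)).continuousAt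
        (hlin s).continuousAt).continuousWithinAt
    have c2 : ContinuousOn (fun s : ℝ => U (XG_phi (w1 + s * d))) (Icc 0 1) :=
      hc.comp c1 fun s hs => XG_mem_closed (hcl s hs)
    exact Complex.continuous_re.comp_continuousOn (c2.mul continuousOn_const)
  have hder : ∀ s ∈ Ioo (0 : ℝ) 1, HasDerivAt (fun s : ℝ => (U (XG_phi (w1 + s * d)) * conj d).re)
      ((U' (XG_phi (w1 + s * d)) * ((1 - XG_phi (w1 + s * d) ^ 2) / 2) * d * conj d).re) s := by
    intro s hs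
    have e1 := (hd _ (XG_mem_ball (hop s hs))).comp (w1 + s * d) (XG_deriv (hop s hs).le)
    have e2 : HasDerivAt (fun w : ℂ => w1 + w * d) d (s : ℂ) := by
      simpa using ((hasDerivAt_id (s : ℂ)).mul_const d).const_add w1
    have e3 := (HasDerivAt.comp (s : ℂ) (h := fun w : ℂ => w1 + w * d) e1 e2).mul_const (conj d)
    exact e3.real_of_complex
  have hmono : StrictMonoOn (fun s : ℝ => (U (XG_phi (w1 + s * d)) * conj d).re) (Icc 0 1) := by
    refine strictMonoOn_of_deriv_pos (convex_Icc 0 1) hcont fun s hs => ?_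
    rw [interior_Icc] at hs
    rw [(hder s hs).deriv]
    have e1 := hp _ (XG_mem_ball (hop s hs))
    have e2 : U' (XG_phi (w1 + s * d)) * ((1 - XG_phi (w1 + s * d) ^ 2) / 2) * d * conj d =
        ((normSq d / 2 : ℝ) : ℂ) *
          ((1 - XG_phi (w1 + s * d) ^ 2) * U' (XG_phi (w1 + s * d))) := by
      rw [mul_assoc _ d, mul_conj]
      push_cast
      ring
    rw [e2, re_ofReal_mul]
    exact mul_pos (half_pos (normSq_pos.2 hd0)) e1
  have h3 := hmono (left_mem_Icc.2 zero_le_one) (right_mem_Icc.2 zero_le_one) zero_lt_one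
  have e0 : w1 + ((0 : ℝ) : ℂ) * d = w1 := by simp
  have e1 : w1 + ((1 : ℝ) : ℂ) * d = w2 := by
    rw [hdd]
    simp
  simp only [e0, e1] at h3
  rw [← hdd, sub_mul, sub_re]
  linarith

theorem XG_side {U U' : ℂ → ℂ} (hd : ∀ z ∈ ball (0 : ℂ) 1, HasDerivAt U (U' z) z)
    (hp : ∀ z ∈ ball (0 : ℂ) 1, 0 < ((1 - z ^ 2) * U' z).re)
    (hc : ContinuousOn U (closedBall 0 1 \ {1, -1})) {z : ℂ} (hz : z ∈ ball (0 : ℂ) 1) (t : ℝ)
    (ht : Real.sin t ≠ 0) (hre : (U (e t)).re = (U z).re) :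
    0 < ((U (e t)).im - (U z).im) * Real.sin t := by
  have hi : (e t).im = Real.sin t := exp_ofReal_mul_I_im t
  obtain ⟨w1, h1, rfl⟩ := XG_in hz
  obtain ⟨w2, h2, h3, h4⟩ := XG_bd (z := e t) (norm_exp_ofReal_mul_I t) (hi ▸ ht)
  have hne : w2 ≠ w1 := by
    rintro rfl
    exact h1.ne h2
  have h5 := XG_key hd hp hc h1 h2.le hne
  rw [h4] at h5
  rw [hi] at h3
  simp only [mul_re, sub_re, sub_im, conj_re, conj_im, hre, sub_self, zero_mul] at h5
  obtain ⟨a1, a2⟩ := abs_lt.1 h1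
  have hpi := Real.pi_pos
  rcases abs_eq (by linarith : (0 : ℝ) ≤ π / 2) |>.1 h2 with h6 | h6
  · rw [h6] at h3 h5
    have h7 : 0 < Real.sin t := by nlinarith
    have h8 : 0 < (U (e t)).im - (U (XG_phi w1)).im := by nlinarith
    exact mul_pos h8 h7
  · rw [h6] at h3 h5
    have h7 : Real.sin t < 0 := by nlinarith
    have h8 : (U (e t)).im - (U (XG_phi w1)).im < 0 := by nlinarith
    exact mul_pos_of_neg_of_neg h8 h7

theorem lemG {U U' : ℂ → ℂ} (hd : ∀ z ∈ ball (0 : ℂ) 1, HasDerivAt U (U' z) z)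
    (hp : ∀ z ∈ ball (0 : ℂ) 1, 0 < ((1 - z ^ 2) * U' z).re)
    (hc : ContinuousOn U (closedBall 0 1 \ {1, -1}))
    (s1 : ∀ x : ℝ, ∃ p ∈ Ioo 0 π, (U (e p)).re = x)
    (s2 : ∀ x : ℝ, ∃ q ∈ Ioo 0 π, (U (e (-q))).re = x)
    (hm : ∀ p ∈ Ioo 0 π, ∀ q ∈ Ioo 0 π, (U (e p)).re = (U (e (-q))).re →
      (U (e p)).im - (U (e (-q))).im ≤ 2 * π) :
    InjOn (fun z => cexp (U z)) (ball 0 1) := by
  have hgap : ∀ z1 ∈ ball (0 : ℂ) 1, ∀ z2 ∈ ball (0 : ℂ) 1, (U z1).re = (U z2).re →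
      (U z1).im - (U z2).im < 2 * π := by
    intro z1 h1 z2 h2 hre
    obtain ⟨p, hp1, hp2⟩ := s1 (U z1).re
    obtain ⟨q, hq1, hq2⟩ := s2 (U z1).re
    have sp := Real.sin_pos_of_mem_Ioo hp1
    have sq := Real.sin_pos_of_mem_Ioo hq1
    have a1 := XG_side hd hp hc h1 p sp.ne' hp2
    have a2 := XG_side hd hp hc h2 (-q) (by rw [Real.sin_neg]; exact neg_ne_zero.2 sq.ne')
      (hq2.trans hre)
    rw [Real.sin_neg] at a2
    have a3 := hm p hp1 q hq1 (hp2.trans hq2.symm)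
    have a4 : 0 < (U (e p)).im - (U z1).im := by nlinarith
    have a5 : (U (e (-q))).im - (U z2).im < 0 := by nlinarith
    linarith
  intro z1 h1 z2 h2 h
  obtain ⟨k, hk⟩ := Complex.exp_eq_exp_iff_exists_int.1 h
  have hre : (U z1).re = (U z2).re := by
    rw [hk]
    simp
  have him : (U z1).im = (U z2).im + k * (2 * π) := by
    rw [hk]
    simp
  have hpi := Real.pi_pos
  have b1 := hgap z1 h1 z2 h2 hre
  have b2 := hgap z2 h2 z1 h1 hre.symm
  have k1 : (k : ℝ) < 1 := by nlinarith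
  have k2 : (-1 : ℝ) < k := by nlinarith
  have k3 : k = 0 := by
    have k4 : k < 1 := by exact_mod_cast k1
    have k5 : -1 < k := by exact_mod_cast k2
    omega
  rw [k3] at hk
  simp only [Int.cast_zero, zero_mul, add_zero] at hk
  obtain ⟨w1, c1, rfl⟩ := XG_in h1
  obtain ⟨w2, c2, rfl⟩ := XG_in h2
  by_contra hne
  have h5 := XG_key hd hp hc c1 c2.le (fun h6 => hne (by rw [h6]))
  rw [hk] at h5
  simp at h5

end Pool.Agent.P.BSX
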