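import Pool.Agent.P.MP_3df8df_an.XDefs

set_option autoImplicit false

namespace Pool.Agent.P.BSX

open Complex Metric Set Filter Topology
open Pool.Agent.P.MP_3df8df_an
open scoped Real ComplexConjugate

theorem Nice.cont {g : ℂ → ℂ} (h : Nice g) : ContinuousOn g (closedBall 0 1) := h.an.continuousOn

theorem Nice.diff {g : ℂ → ℂ} (h : Nice g) : DifferentiableOn ℂ g (ball 0 1) :=
  h.an.differentiableOn.mono ball_subset_closedBall

theorem GG_diff {σ δ : ℂ → ℂ} (hσ : Nice σ) (hδ : Nice δ) (ε : ℝ) :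
    DifferentiableOn ℂ (GG σ δ ε) (ball 0 1) :=
  ((T_diff.const_mul _).add ((hσ.diff.const_mul _).add (hδ.diff.const_mul _))).cexp

theorem GG_cont {σ δ : ℂ → ℂ} (hσ : Nice σ) (hδ : Nice δ) (ε : ℝ) :
    ContinuousOn (GG σ δ ε) (closedBall 0 1) :=
  ((continuousOn_const.mul T_cont).add
    ((continuousOn_const.mul hσ.cont).add (continuousOn_const.mul hδ.cont))).cexp

theorem GG_ne (σ δ : ℂ → ℂ) (ε : ℝ) (z : ℂ) : GG σ δ ε z ≠ 0 := exp_ne_zero _

theorem hh_diff {σ δ : ℂ → ℂ} (hσ : Nice σ) (hδ : Nice δ) (ε : ℝ) :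
    DifferentiableOn ℂ (hh σ δ ε) (ball 0 1) :=
  (DifferentiableOn.mul (by fun_prop) (GG_diff hσ hδ ε)).div (by fun_prop)
    fun _ hz => pow_ne_zero _ (one_sub_ne hz)

theorem hh_cont {σ δ : ℂ → ℂ} (hσ : Nice σ) (hδ : Nice δ) (ε : ℝ) :
    ContinuousOn (hh σ δ ε) (closedBall 0 1 \ {1}) :=
  (ContinuousOn.mul (by fun_prop) ((GG_cont hσ hδ ε).mono sdiff_subset)).div (by fun_prop)
    fun _ hz => pow_ne_zero _ (sub_ne_zero.2 fun h => hz.2 h.symm)

theorem hh_deriv {σ δ : ℂ → ℂ} (hσ : Nice σ) (hδ : Nice δ) (ε : ℝ) :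
    HasDerivAt (hh σ δ ε) (3 + 2 / π + (I * ε * deriv σ 0 + ε ^ 2 * deriv δ 0)) 0 := by
  have h1 := ((hasDerivAt_id' (0 : ℂ)).const_sub 1).pow 2
  have s1 := (hσ.an 0 (by simp)).differentiableAt.hasDerivAt
  have d1 := (hδ.an 0 (by simp)).differentiableAt.hasDerivAt
  have h2 := (((T_hasDerivAt (z := 0) (by simp)).const_mul (2 / π : ℂ)).add
    ((s1.const_mul (I * ε)).add (d1.const_mul ((ε : ℂ) ^ 2)))).cexp
  refine ((((hasDerivAt_id' (0 : ℂ)).const_add 1).mul h2).div h1 (by simp)).congr_deriv ?_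
  simp [T_zero, T_deriv_zero, hσ.zero, hδ.zero]
  ring

end Pool.Agent.P.BSX
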