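import Pool.Agent.P.MP_3df8df_an.XNice
import Pool.Agent.P.MP_3df8df_an.XBump

set_option autoImplicit false

namespace Pool.Agent.P.BSX

open Complex Metric Set Filter Topology
open Pool.Agent.P.MP_3df8df_an
open scoped Real ComplexConjugate

theorem XGain_e_sq (t : ℝ) : (e t) ^ 2 = cexp (((2 * t : ℝ) : ℂ) * I) := by
  unfold e
  rw [← Complex.exp_nat_mul]
  congr 1
  push_cast
  ring

theorem XGain_left {lam τ : ℝ} {Gs β : ℝ → ℝ} (hl : 1 ≤ lam) (hτ : lam ^ 2 * τ = 1)
    (cG : Continuous Gs) (cβ : Continuous β)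
    (hG : ∀ t ∈ Icc 0 (π / 2), |Real.sin t * Gs t| ≤ τ * Real.sin t)
    (hβ : ∀ t ∈ Icc 0 (π / 2), 0 ≤ β t ∧ β t * Real.cos t ≤ τ)
    (hI : (∫ t in (0 : ℝ)..π / 2, β t) ≤ 2) :
    2 * (∫ t in (0 : ℝ)..π / 2,
      |-(2 * Real.sin (2 * t)) + lam * β t| * |-(2 * Real.cos t) - lam * Gs t|) ≤ 36 := by
  have hpi := Real.pi_pos
  have hl0 : 0 < lam := by linarith
  have hτ0 : 0 < τ := by
    by_contra h
    have := mul_nonpos_of_nonneg_of_nonpos (sq_nonneg lam) (not_lt.mp h)
    linarith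
  have hlτ : lam * τ ≤ 1 := by nlinarith [mul_pos hl0 hτ0]
  have key : (∫ t in (0 : ℝ)..π / 2,
      |-(2 * Real.sin (2 * t)) + lam * β t| * |-(2 * Real.cos t) - lam * Gs t|)
      ≤ ∫ t in (0 : ℝ)..π / 2, (8 + β t) := by
    apply intervalIntegral.integral_mono_on_of_le_Ioo (by positivity)
    · exact (by fun_prop : Continuous _).intervalIntegrable _ _
    · exact (by fun_prop : Continuous _).intervalIntegrable _ _
    intro t ht
    have ht' : t ∈ Icc 0 (π / 2) := ⟨ht.1.le, ht.2.le⟩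
    have hs : 0 < Real.sin t := Real.sin_pos_of_pos_of_lt_pi ht.1 (by linarith [ht.2])
    have hc : 0 ≤ Real.cos t := Real.cos_nonneg_of_mem_Icc ⟨by linarith [ht.1], ht.2.le⟩
    have hc1 := Real.cos_le_one t
    have hG1 : |Gs t| ≤ τ := by
      have h := hG t ht'
      rw [abs_mul, abs_of_pos hs, mul_comm] at h
      exact le_of_mul_le_mul_right h hs
    obtain ⟨hb0, hb1⟩ := hβ t ht'
    have h1 : |-(2 * Real.sin (2 * t)) + lam * β t| ≤ 2 + lam * β t := by
      have := mul_nonneg hl0.le hb0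
      rw [abs_le]
      constructor <;> linarith [Real.sin_le_one (2 * t), Real.neg_one_le_sin (2 * t)]
    have h2 : |-(2 * Real.cos t) - lam * Gs t| ≤ 2 * Real.cos t + lam * τ := by
      obtain ⟨g1, g2⟩ := abs_le.mp hG1
      have := mul_le_mul_of_nonneg_left g1 hl0.le
      have := mul_le_mul_of_nonneg_left g2 hl0.le
      rw [abs_le]
      constructor <;> linarith
    have h3 := mul_le_mul h1 h2 (abs_nonneg _) (by have := mul_nonneg hl0.le hb0; linarith)
    have h4 := mul_le_mul_of_nonneg_left hb1 hl0.le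
    have h5 : (2 + lam * β t) * (2 * Real.cos t + lam * τ)
        = 4 * Real.cos t + 2 * (lam * τ) + 2 * (lam * (β t * Real.cos t))
          + (lam ^ 2 * τ) * β t := by ring
    rw [h5, hτ] at h3
    linarith
  rw [intervalIntegral.integral_add (by simp) (cβ.intervalIntegrable _ _)] at key
  simp only [intervalIntegral.integral_const, smul_eq_mul] at key
  linarith [Real.pi_le_four]

theorem XGain_right {w ρ : ℝ → ℝ} (hw : Wt w ρ) : ∃ k C : ℝ, 0 < k ∧
    ∀ (lam τ : ℝ) (Is β ν : ℝ → ℝ), 1 ≤ lam → lam ^ 2 * τ = 1 → Continuous Is → Continuous β →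
      (∀ t, |Is t| ≤ τ) → (∀ t ∈ Icc (π / 2) π, β t ≤ 0) → -(∫ t in π / 2..π, β t) ≤ 2 →
      (1 ≤ -∫ t in π / 2..3 * π / 4, β t) → ContinuousOn ν (Icc (π / 2) π) →
      (∀ t ∈ Icc (π / 2) π, 1 / 2 ≤ ν t ∧ ν t ≤ 1) →
      lam * k / 2 - C ≤ ∫ t in π / 2..π, ν t *
        -((-(2 * Real.sin (2 * t)) + lam * β t) * ρ t *
          ∫ s in t..π, w s * -(Real.sin (2 * s) + lam * Is s)) := by
  have hpi := Real.pi_pos
  have hsub : Icc (π / 2) π ⊆ Ioc 0 π := fun t ht => ⟨by linarith [ht.1], ht.2⟩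
  have cw : ContinuousOn w (Icc (π / 2) π) := hw.cw.mono hsub
  have hw0 : ∀ t ∈ Icc (π / 2) π, 0 ≤ w t := by
    intro t ht
    have h1 := hw.eq t (hsub ht)
    have h2 := hw.pos t (hsub ht)
    have h3 : 0 ≤ Real.sin t := Real.sin_nonneg_of_nonneg_of_le_pi (by linarith [ht.1]) ht.2
    by_contra h
    have := mul_neg_of_neg_of_pos (not_le.mp h) h2
    linarith
  have hint : ∀ f : ℝ → ℝ, Continuous f → ∀ t ∈ Icc (π / 2) π, ∀ u ∈ Icc (π / 2) π,
      IntervalIntegrable (fun s => w s * f s) MeasureTheory.volume t u := by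
    intro f hf t ht u hu
    exact ((cw.mono (uIcc_subset_Icc ht hu)).mul hf.continuousOn).intervalIntegrable
  have hP : π ∈ Icc (π / 2) π := ⟨by linarith, le_rfl⟩
  have hP2 : π / 2 ∈ Icc (π / 2) π := ⟨le_rfl, by linarith⟩
  have hP3 : 3 * π / 4 ∈ Icc (π / 2) π := ⟨by linarith, by linarith⟩
  obtain ⟨tm, htm, hmin⟩ := isCompact_Icc.exists_isMinOn ⟨π, hP⟩ hw.cρ.continuousOn
  obtain ⟨tM, htM, hmax⟩ := isCompact_Icc.exists_isMaxOn ⟨π, hP⟩ hw.cρ.continuousOn
  have hm0 := hw.pos tm (hsub htm)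
  have hM0 := hw.pos tM (hsub htM)
  have hsin : ∀ s ∈ Icc (π / 2) π, 0 ≤ -Real.sin (2 * s) := by
    intro s hs
    have := Real.sin_nonneg_of_nonneg_of_le_pi (x := 2 * s - π) (by linarith [hs.1])
      (by linarith [hs.2])
    rwa [Real.sin_sub_pi] at this
  have cs : Continuous fun s : ℝ => -Real.sin (2 * s) := by fun_prop
  set l : ℝ := ∫ s in π / 2..π, w s * 1 with hl
  set c0 : ℝ := ∫ s in 3 * π / 4..π, w s * -Real.sin (2 * s) with hc0
  have hc0p : 0 < c0 := by
    apply intervalIntegral.intervalIntegral_pos_of_pos_on (hint _ cs _ hP3 _ hP) _ (by linarith)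
    intro s hs
    have hs' : s ∈ Ioc 0 π := ⟨by linarith [hs.1], hs.2.le⟩
    have h1 := hw.eq s hs'
    have h2 := hw.pos s hs'
    have h3 : 0 < Real.sin s := Real.sin_pos_of_pos_of_lt_pi hs'.1 hs.2
    have h4 := Real.sin_pos_of_pos_of_lt_pi (x := 2 * s - π) (by linarith [hs.1])
      (by linarith [hs.2])
    rw [Real.sin_sub_pi] at h4
    refine mul_pos ?_ h4
    by_contra h
    have := mul_nonpos_of_nonpos_of_nonneg (not_lt.mp h) h2.le
    linarith
  -- the bound of a weighted integral by the total weight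
  have hbd : ∀ (f : ℝ → ℝ) (B : ℝ), Continuous f → (∀ s, |f s| ≤ B) → ∀ t ∈ Icc (π / 2) π,
      |∫ s in t..π, w s * f s| ≤ B * l := by
    intro f B hf hB t ht
    have hB0 : 0 ≤ B := (abs_nonneg _).trans (hB 0)
    have h1 : (∫ s in t..π, w s * 1) ≤ l := by
      apply intervalIntegral.integral_mono_interval ht.1 ht.2 le_rfl _
        (hint _ continuous_const _ hP2 _ hP)
      filter_upwards [MeasureTheory.ae_restrict_mem measurableSet_Ioc] with s hs
      simpa using hw0 s ⟨hs.1.le, hs.2⟩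
    have h2 : |∫ s in t..π, w s * f s| ≤ ∫ s in t..π, B * (w s * 1) := by
      refine (intervalIntegral.abs_integral_le_integral_abs ht.2).trans ?_
      apply intervalIntegral.integral_mono_on ht.2 (hint f hf t ht _ hP).abs
        ((hint _ continuous_const t ht _ hP).const_mul B)
      intro s hs
      have h0 := hw0 s ⟨ht.1.trans hs.1, hs.2⟩
      rw [abs_mul, abs_of_nonneg h0, mul_one, mul_comm]
      exact mul_le_mul_of_nonneg_right (hB s) h0
    rw [intervalIntegral.integral_const_mul] at h2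
    exact h2.trans (mul_le_mul_of_nonneg_left h1 hB0)
  have hl0 : 0 ≤ l := intervalIntegral.integral_nonneg (by linarith) fun s hs => by
    simpa using hw0 s hs
  refine ⟨ρ tm * c0, 10 * (ρ tM * l), mul_pos hm0 hc0p, ?_⟩
  intro lam τ Is β ν h1l hτ cI cβ hI hβ hβ1 hβ2 cν hν
  have hlam : 0 < lam := by linarith
  have hτ0 : 0 ≤ τ := (abs_nonneg _).trans (hI 0)
  have hlτ : lam * τ ≤ 1 := by nlinarith [mul_nonneg hlam.le hτ0]
  set C := ρ tM * l with hC
  have hC0 : 0 ≤ C := mul_nonneg hM0.le hl0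
  set f : ℝ → ℝ := fun t => ν t * -((-(2 * Real.sin (2 * t)) + lam * β t) * ρ t *
    ∫ s in t..π, w s * -(Real.sin (2 * s) + lam * Is s)) with hf
  have cf : ContinuousOn f (Icc (π / 2) π) := by
    have cA : ContinuousOn (fun t => ∫ s in t..π, w s * -(Real.sin (2 * s) + lam * Is s))
        (Icc (π / 2) π) := by
      have h := intervalIntegral.continuousOn_primitive_interval_left (a := π / 2) (b := π)
        (μ := MeasureTheory.volume) (f := fun s => w s * -(Real.sin (2 * s) + lam * Is s))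
        (by
          rw [uIcc_of_le (by linarith)]
          exact (cw.mul (by fun_prop)).integrableOn_Icc)
      rwa [uIcc_of_le (by linarith)] at h
    have cρ := hw.cρ
    exact cν.mul (ContinuousOn.neg (ContinuousOn.mul (by fun_prop) cA))
  -- pointwise lower bound
  have hpt : ∀ t ∈ Icc (π / 2) π, ∀ κ : ℝ, 0 ≤ κ → κ ≤ (∫ s in t..π, w s * -Real.sin (2 * s)) →
      lam * (ρ tm * κ) / 2 * -β t ≤ f t - (C * β t - 4 * C) := by
    intro t ht κ hκ0 hκ
    have hsplit : (∫ s in t..π, w s * -(Real.sin (2 * s) + lam * Is s))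
        = (∫ s in t..π, w s * -Real.sin (2 * s)) - lam * ∫ s in t..π, w s * Is s := by
      rw [← intervalIntegral.integral_const_mul, ← intervalIntegral.integral_sub
        (hint _ cs t ht _ hP) ((hint _ cI t ht _ hP).const_mul lam)]
      congr 1
      funext s
      ring
    have hA0 := hbd _ 1 cs (fun s => by rw [abs_neg]; exact Real.abs_sin_le_one _) t ht
    have hAs := hbd _ τ cI hI t ht
    simp only [hf]
    rw [hsplit]
    generalize (∫ s in t..π, w s * -Real.sin (2 * s)) = A0 at hκ hA0 ⊢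
    generalize (∫ s in t..π, w s * Is s) = As at hAs ⊢
    obtain ⟨n1, n2⟩ := hν t ht
    have r1 : ρ tm ≤ ρ t := hmin ht
    have r2 : ρ t ≤ ρ tM := hmax ht
    have hb : 0 ≤ -β t := by linarith [hβ t ht]
    have hρ0 : 0 ≤ ρ t := by linarith
    have hνρ : ν t * ρ t ≤ ρ tM := by nlinarith
    have hνρ0 : 0 ≤ ν t * ρ t := by nlinarith
    have hνρ1 : ρ tm / 2 ≤ ν t * ρ t := by nlinarith
    have e1 : ρ tm / 2 * κ ≤ ν t * ρ t * A0 := mul_le_mul hνρ1 hκ hκ0 hνρ0
    have e2 : |ν t * ρ t * As| ≤ τ * C := by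
      rw [abs_mul, abs_of_nonneg hνρ0, hC]
      have := mul_le_mul hνρ hAs (abs_nonneg _) hM0.le
      linarith
    have e3 : |ν t * ρ t * A0| ≤ C := by
      rw [abs_mul, abs_of_nonneg hνρ0, hC]
      have := mul_le_mul hνρ hA0 (abs_nonneg _) hM0.le
      linarith
    have hid : ν t * -((-(2 * Real.sin (2 * t)) + lam * β t) * ρ t * (A0 - lam * As))
        = lam * (ν t * ρ t * A0) * -β t - lam ^ 2 * (ν t * ρ t * As) * -β t
          + 2 * (Real.sin (2 * t) * (ν t * ρ t * A0 - lam * (ν t * ρ t * As))) := by ring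
    rw [hid]
    generalize ν t * ρ t * A0 = X at e1 e3 ⊢
    generalize ν t * ρ t * As = Y at e2 ⊢
    obtain ⟨y1, y2⟩ := abs_le.mp e2
    obtain ⟨x1, x2⟩ := abs_le.mp e3
    have z1 : lam * (ρ tm / 2 * κ) * -β t ≤ lam * X * -β t :=
      mul_le_mul_of_nonneg_right (mul_le_mul_of_nonneg_left e1 hlam.le) hb
    have z2 : lam ^ 2 * Y * -β t ≤ C * -β t := by
      apply mul_le_mul_of_nonneg_right _ hb
      have := mul_le_mul_of_nonneg_left y2 (sq_nonneg lam)
      rwa [← mul_assoc, hτ, one_mul] at this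
    have z3 : |X - lam * Y| ≤ 2 * C := by
      have u1 := mul_le_mul_of_nonneg_left y1 hlam.le
      have u2 := mul_le_mul_of_nonneg_left y2 hlam.le
      have u3 := mul_le_mul_of_nonneg_right hlτ hC0
      rw [abs_le]
      constructor <;> nlinarith
    have z4 : |Real.sin (2 * t) * (X - lam * Y)| ≤ 2 * C := by
      rw [abs_mul]
      have := mul_le_mul (Real.abs_sin_le_one (2 * t)) z3 (abs_nonneg _) zero_le_one
      linarith
    have z5 := (abs_le.mp z4).1
    linarith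
  have cg : Continuous fun t => C * β t - 4 * C := by fun_prop
  have ch : ContinuousOn (fun t => f t - (C * β t - 4 * C)) (Icc (π / 2) π) :=
    cf.sub cg.continuousOn
  have ih : ∀ t ∈ Icc (π / 2) π, ∀ u ∈ Icc (π / 2) π,
      IntervalIntegrable (fun t => f t - (C * β t - 4 * C)) MeasureTheory.volume t u :=
    fun t ht u hu => (ch.mono (uIcc_subset_Icc ht hu)).intervalIntegrable
  have hA00 : ∀ t ∈ Icc (π / 2) π, ∀ u ∈ Icc t π, 0 ≤ w u * -Real.sin (2 * u) :=
    fun t ht u hu => mul_nonneg (hw0 u ⟨ht.1.trans hu.1, hu.2⟩) (hsin u ⟨ht.1.trans hu.1, hu.2⟩)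
  have s1 : (∫ t in π / 2..3 * π / 4, (f t - (C * β t - 4 * C)))
      ≤ ∫ t in π / 2..π, (f t - (C * β t - 4 * C)) := by
    apply intervalIntegral.integral_mono_interval le_rfl hP3.1 hP3.2 _ (ih _ hP2 _ hP)
    filter_upwards [MeasureTheory.ae_restrict_mem measurableSet_Ioc] with t ht
    have ht' : t ∈ Icc (π / 2) π := ⟨ht.1.le, ht.2⟩
    simpa using hpt t ht' 0 le_rfl (intervalIntegral.integral_nonneg ht.2 (hA00 t ht'))
  have s2 : (∫ t in π / 2..3 * π / 4, lam * (ρ tm * c0) / 2 * -β t)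
      ≤ ∫ t in π / 2..3 * π / 4, (f t - (C * β t - 4 * C)) := by
    apply intervalIntegral.integral_mono_on hP3.1
      ((by fun_prop : Continuous _).intervalIntegrable _ _) (ih _ hP2 _ hP3)
    intro t ht
    have ht' : t ∈ Icc (π / 2) π := ⟨ht.1, ht.2.trans hP3.2⟩
    apply hpt t ht' c0 hc0p.le
    apply intervalIntegral.integral_mono_interval ht.2 hP3.2 le_rfl _ (hint _ cs t ht' _ hP)
    filter_upwards [MeasureTheory.ae_restrict_mem measurableSet_Ioc] with u hu
    exact hA00 t ht' u ⟨hu.1.le, hu.2⟩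
  rw [intervalIntegral.integral_const_mul, intervalIntegral.integral_neg] at s2
  have s3 : (∫ t in π / 2..π, (f t - (C * β t - 4 * C)))
      = (∫ t in π / 2..π, f t) - (C * (∫ t in π / 2..π, β t) - (π - π / 2) * (4 * C)) := by
    rw [intervalIntegral.integral_sub
      (cf.mono (uIcc_subset_Icc hP2 hP)).intervalIntegrable (cg.intervalIntegrable _ _),
      intervalIntegral.integral_sub ((by fun_prop : Continuous _).intervalIntegrable _ _) (by simp),
      intervalIntegral.integral_const_mul]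
    simp only [intervalIntegral.integral_const, smul_eq_mul]
  have s4 : lam * (ρ tm * c0) / 2 * 1
      ≤ lam * (ρ tm * c0) / 2 * -∫ t in π / 2..3 * π / 4, β t :=
    mul_le_mul_of_nonneg_left hβ2 (by positivity)
  have s5 := mul_le_mul_of_nonneg_left hβ1 hC0
  have s6 := mul_le_mul_of_nonneg_left Real.pi_le_four hC0
  nlinarith

/-- The second variation has a favourable direction. -/
theorem gain {w ρ : ℝ → ℝ} (hw : Wt w ρ) : ∃ (σ : ℂ → ℂ) (a1 b1 : ℝ → ℝ), Nice σ ∧
    Continuous a1 ∧ Continuous b1 ∧ (∀ t, -(σ (e t)).im = Real.sin t * a1 t) ∧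
    (∀ t, HasDerivAt (fun t => (σ (e t)).re) (Real.sin t * b1 t) t) ∧
    ∀ ν : ℝ → ℝ, ContinuousOn ν (Icc (π / 2) π) → (∀ t ∈ Icc (π / 2) π, 1 / 2 ≤ ν t ∧ ν t ≤ 1) →
      2 * (∫ t in (0 : ℝ)..π / 2, |Real.sin t * b1 t| * |a1 t|) <
        ∫ t in π / 2..π, ν t *
          -(Real.sin t * b1 t * ρ t * ∫ s in t..π, w s * -(σ (e s)).im) := by
  obtain ⟨k, C, hk, hR⟩ := XGain_right hw
  obtain ⟨lam, hl1, hl2⟩ : ∃ lam : ℝ, 1 ≤ lam ∧ 36 < lam * k / 2 - C := by
    refine ⟨max 1 ((2 * C + 74) / k), le_max_left _ _, ?_⟩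
    have h := mul_le_mul_of_nonneg_right (le_max_right 1 ((2 * C + 74) / k)) hk.le
    rw [div_mul_cancel₀ _ hk.ne'] at h
    linarith
  have hl0 : 0 < lam := by linarith
  have hτ : lam ^ 2 * (1 / lam ^ 2) = 1 := by field_simp
  obtain ⟨s, ns, β, cβ, dβ, b1, b2, b3, b4, b5, b6, b7⟩ :=
    bump (τ := 1 / lam ^ 2) (by positivity)
  obtain ⟨Gs, cG, hG⟩ := ns.im_fac
  obtain ⟨Gb, cb, hb⟩ := ns.re_deriv
  have hβ : ∀ t, β t = Real.sin t * Gb t := fun t => (dβ t).unique (hb t)
  have him : ∀ t, ((e t) ^ 2 + (lam : ℂ) * s (e t)).im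
      = Real.sin (2 * t) + lam * (Real.sin t * Gs t) := by
    intro t
    rw [Complex.add_im, XGain_e_sq, Complex.exp_ofReal_mul_I_im, Complex.im_ofReal_mul, hG]
  have hre : ∀ t, ((e t) ^ 2 + (lam : ℂ) * s (e t)).re
      = Real.cos (2 * t) + lam * (s (e t)).re := by
    intro t
    rw [Complex.add_re, XGain_e_sq, Complex.exp_ofReal_mul_I_re, Complex.re_ofReal_mul]
  have hb1 : ∀ t, Real.sin t * (-(4 * Real.cos t) + lam * Gb t)
      = -(2 * Real.sin (2 * t)) + lam * β t := by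
    intro t
    rw [hβ, Real.sin_two_mul]
    ring
  refine ⟨fun z => z ^ 2 + (lam : ℂ) * s z, fun t => -(2 * Real.cos t) - lam * Gs t,
    fun t => -(4 * Real.cos t) + lam * Gb t, ⟨?_, ?_, ?_⟩, by fun_prop, by fun_prop, ?_, ?_, ?_⟩
  · exact (analyticOnNhd_id.pow 2).add (analyticOnNhd_const.mul ns.an)
  · intro z hz
    simp only [map_add, map_mul, map_pow, Complex.conj_ofReal, ns.sym z hz]
  · simp [ns.zero]
  · intro t
    rw [him, Real.sin_two_mul]
    ring
  · intro t
    simp only [hre, hb1]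
    have h := ((hasDerivAt_id t).const_mul 2).cos.add ((dβ t).const_mul lam)
    refine h.congr_deriv ?_
    simp only [id]
    ring
  · intro ν cν hν
    simp only [him, hb1]
    have h1 := XGain_left hl1 hτ cG cβ (fun t ht => by rw [← hG]; exact b2 t ht) b3 b5
    have h2 := hR lam _ (fun t => Real.sin t * Gs t) β ν hl1 hτ (by fun_prop) cβ
      (fun t => by rw [← hG]; exact b1 t) b4 b6 b7 cν hν
    linarith

end Pool.Agent.P.BSX
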