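import Pool.Agent.P.MP_3df8df_an.XGG
import Pool.Agent.P.MP_3df8df_an.XFinj
import Pool.Agent.P.MP_3df8df_an.XExist
import Pool.Agent.P.MP_3df8df_an.XAsym

set_option autoImplicit false

namespace Pool.Agent.P.BSX

open Complex Metric Set Filter Topology
open Pool.Agent.P.MP_3df8df_an
open scoped Real ComplexConjugate

theorem main : ∃ f : ℂ → ℂ, InS' f ∧ 3 / 2 + 1 / π < ‖coeff f 2‖ ∧
    ∃ m : ℝ, 2 * Real.exp (2 * catalanG / π) < m ∧
      Tendsto (fun n => ‖coeff f n‖) atTop (𝓝 m) := by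
  obtain ⟨σ, δ, a1, b1, P, r1, s0, η, h, h1, h2⟩ := exist
  obtain ⟨ε, ⟨i1, i2⟩, hε⟩ := (((hinj h).and (finj h)).and self_mem_nhdsWithin).exists
  have hε : 0 < ε := hε
  obtain ⟨hF, h0, -⟩ := prim_spec (hh_diff h.nσ h.nδ ε) (hh_cont h.nσ h.nδ ε)
  have hd : ∀ z ∈ ball (0 : ℂ) 1, deriv (prim (hh σ δ ε)) z = hh σ δ ε z :=
    fun z hz => (hF z hz).deriv
  have hc : ∀ n, coeff (prim (hh σ δ ε)) (n + 1) =
      iteratedDeriv n (hh σ δ ε) 0 / (n + 1).factorial := fun n => by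
    rw [coeff, iteratedDeriv_succ', (Filter.EventuallyEq.iteratedDeriv
      (mem_of_superset (ball_mem_nhds _ one_pos) hd) n).eq_of_nhds]
  refine ⟨_, ⟨fun z hz => (hF z hz).differentiableAt.differentiableWithinAt, i2, h0,
    by simp [hd 0 (by simp), hh, GG, T_zero, h.nσ.zero, h.nδ.zero],
    i1.congr fun z hz => (hd z hz).symm⟩, ?_, ‖2 * GG σ δ ε 1‖, ?_, ?_⟩
  · have e1 := sym_iter (fun z hz => h.nσ.sym z (ball_subset_closedBall hz)) 1
    rw [iteratedDeriv_one] at e1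
    refine lt_of_lt_of_le ?_ (re_le_norm _)
    rw [hc, iteratedDeriv_one, (hh_deriv h.nσ h.nδ ε).deriv, div_natCast_re, two_div_pi,
      ← ofReal_pow]
    simp only [add_re, mul_re, mul_im, I_re, I_im, ofReal_re, ofReal_im, e1, re_ofNat]
    have := mul_pos (pow_pos hε 2) h1
    have e2 : (2 : ℝ) / π = 2 * (1 / π) := by ring
    norm_num [Nat.factorial] at this ⊢
    rw [div_eq_mul_inv (2 : ℝ) π]
    nlinarith
  · have e1 : (σ 1).im = 0 := by
      have := h.nσ.sym 1 (by simp)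
      rw [map_one] at this
      exact conj_eq_iff_im.1 this.symm
    rw [norm_mul, GG, norm_exp, T_one, two_div_pi, ← ofReal_pow]
    simp only [add_re, mul_re, mul_im, I_re, I_im, ofReal_re, ofReal_im, e1, norm_ofNat]
    have := mul_pos (pow_pos hε 2) h2
    refine mul_lt_mul_of_pos_left (Real.exp_lt_exp.2 ?_) two_pos
    have e2 : 2 * catalanG / π = 2 / π * catalanG := by ring
    rw [e2]
    nlinarith
  · rw [← tendsto_add_atTop_iff_nat 1]
    simp only [hc]
    exact (asym (GG_diff h.nσ h.nδ ε) (GG_cont h.nσ h.nδ ε)).norm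

end Pool.Agent.P.BSX
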