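import Pool.Agent.P.MP_3df8df_an.XDefs

set_option autoImplicit false

namespace Pool.Agent.P.BSX

open Complex Metric Set Filter Topology
open Pool.Agent.P.MP_3df8df_an
open scoped Real ComplexConjugate

theorem XN_alg {l K c : ℝ} {A R : ℂ} (K0 : 0 ≤ K) (Kl : K ≤ l) (c0 : 0 ≤ c) (c1 : c ≤ 1 / 4)
    (hA : ‖A‖ ≤ c * K) (hR : ‖R‖ ≤ c ^ 2 * K) :
    |‖(l : ℂ) + A + R‖ - l - A.re| ≤ 3 * c ^ 2 * K := by
  have a1 := abs_le.mp (le_trans (Complex.abs_re_le_norm A) hA)
  have a2 := abs_le.mp (le_trans (Complex.abs_im_le_norm A) hA)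
  have r1 := abs_le.mp (le_trans (Complex.abs_re_le_norm R) hR)
  have r2 := abs_le.mp (le_trans (Complex.abs_im_le_norm R) hR)
  have cK : 0 ≤ c * K := mul_nonneg c0 K0
  have c2K : c ^ 2 * K ≤ c * K / 4 := by nlinarith
  have cK4 : c * K ≤ K / 4 := by nlinarith
  have c20 : 0 ≤ c ^ 2 * K := by positivity
  set Z : ℂ := (l : ℂ) + A + R with hZ
  have hre : Z.re = l + A.re + R.re := by simp [hZ]
  have him : Z.im = A.im + R.im := by simp [hZ]
  have hx : K / 2 ≤ Z.re := by rw [hre]; linarith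
  have hy : Z.im ^ 2 ≤ (5 / 4 * (c * K)) ^ 2 := by
    apply sq_le_sq'
    · rw [him]; linarith
    · rw [him]; linarith
  have low : Z.re ≤ ‖Z‖ := Complex.re_le_norm Z
  have up : ‖Z‖ ≤ Z.re + 2 * (c ^ 2 * K) := by
    apply abs_le_of_sq_le_sq' _ (by linarith) |>.2
    rw [Complex.sq_norm, Complex.normSq_apply]
    have h1 : c ^ 2 * K * (K / 2) ≤ c ^ 2 * K * Z.re := mul_le_mul_of_nonneg_left hx c20
    have h2 : 0 ≤ (c ^ 2 * K) ^ 2 := by positivity
    have h3 : 0 ≤ (c * K) ^ 2 := by positivity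
    nlinarith
  rw [abs_le]
  constructor <;> linarith

theorem normJ {w k : ℝ → ℝ} {ω : ℝ → ℂ} {t c : ℝ} (ht : t ≤ π) (cw : ContinuousOn w (Icc t π))
    (ck : ContinuousOn k (Icc t π)) (cω : ContinuousOn ω (Icc t π))
    (w0 : ∀ s ∈ Icc t π, 0 ≤ w s) (hk : ∀ s ∈ Icc t π, 0 ≤ k s ∧ k s ≤ 1) (c0 : 0 ≤ c)
    (c1 : c ≤ 1 / 4) (hω : ∀ s ∈ Icc t π, ‖ω s‖ ≤ c * k s) :
    |‖∫ s in t..π, (w s : ℂ) * cexp (ω s)‖ - (∫ s in t..π, w s) -
      ∫ s in t..π, w s * (ω s).re| ≤ 3 * c ^ 2 * ∫ s in t..π, w s * k s := by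
  have hu : uIcc t π = Icc t π := uIcc_of_le ht
  have cw' : ContinuousOn (fun s => (w s : ℂ)) (Icc t π) :=
    Complex.continuous_ofReal.comp_continuousOn cw
  have iw : IntervalIntegrable w MeasureTheory.volume t π :=
    ContinuousOn.intervalIntegrable (by rw [hu]; exact cw)
  have iwk : IntervalIntegrable (fun s => w s * k s) MeasureTheory.volume t π :=
    ContinuousOn.intervalIntegrable (by rw [hu]; exact cw.mul ck)
  have i0 : IntervalIntegrable (fun s => (w s : ℂ)) MeasureTheory.volume t π :=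
    ContinuousOn.intervalIntegrable (by rw [hu]; exact cw')
  have i1 : IntervalIntegrable (fun s => (w s : ℂ) * ω s) MeasureTheory.volume t π :=
    ContinuousOn.intervalIntegrable (by rw [hu]; exact cw'.mul cω)
  have i2 : IntervalIntegrable (fun s => (w s : ℂ) * (cexp (ω s) - 1 - ω s))
      MeasureTheory.volume t π :=
    ContinuousOn.intervalIntegrable (by
      rw [hu]
      exact cw'.mul ((cω.cexp.sub continuousOn_const).sub cω))
  have hsplit : ∫ s in t..π, (w s : ℂ) * cexp (ω s) =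
      ((∫ s in t..π, w s : ℝ) : ℂ) + (∫ s in t..π, (w s : ℂ) * ω s) +
        ∫ s in t..π, (w s : ℂ) * (cexp (ω s) - 1 - ω s) := by
    rw [← intervalIntegral.integral_ofReal, ← intervalIntegral.integral_add i0 i1,
      ← intervalIntegral.integral_add (i0.add i1) i2]
    refine intervalIntegral.integral_congr fun s _ => ?_
    ring
  have hre : ∫ s in t..π, w s * (ω s).re = (∫ s in t..π, (w s : ℂ) * ω s).re := by
    have h := Complex.reCLM.intervalIntegral_comp_comm i1
    simp only [Complex.reCLM_apply, Complex.re_ofReal_mul] at h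
    exact h
  rw [hsplit, hre]
  refine XN_alg ?_ ?_ c0 c1 ?_ ?_
  · exact intervalIntegral.integral_nonneg ht fun s hs => mul_nonneg (w0 s hs) (hk s hs).1
  · refine intervalIntegral.integral_mono_on ht iwk iw fun s hs => ?_
    have := mul_le_mul_of_nonneg_left (hk s hs).2 (w0 s hs)
    linarith
  · rw [← intervalIntegral.integral_const_mul]
    refine intervalIntegral.norm_integral_le_of_norm_le ht
      (Eventually.of_forall fun s hs => ?_) (iwk.const_mul c)
    have hs' : s ∈ Icc t π := Ioc_subset_Icc_self hs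
    rw [norm_mul, Complex.norm_real, Real.norm_of_nonneg (w0 s hs')]
    have := mul_le_mul_of_nonneg_left (hω s hs') (w0 s hs')
    linarith
  · rw [← intervalIntegral.integral_const_mul]
    refine intervalIntegral.norm_integral_le_of_norm_le ht
      (Eventually.of_forall fun s hs => ?_) (iwk.const_mul (c ^ 2))
    have hs' : s ∈ Icc t π := Ioc_subset_Icc_self hs
    rw [norm_mul, Complex.norm_real, Real.norm_of_nonneg (w0 s hs')]
    have k0 := (hk s hs').1
    have k1 := (hk s hs').2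
    have h1 := hω s hs'
    have n0 := norm_nonneg (ω s)
    have h2 : c * k s ≤ 1 := by nlinarith
    have h3 := Complex.norm_exp_sub_one_sub_id_le (le_trans h1 h2)
    have h4 : ‖ω s‖ ^ 2 ≤ (c * k s) ^ 2 := pow_le_pow_left₀ n0 h1 2
    have h5 : (c * k s) ^ 2 ≤ c ^ 2 * k s := by
      have : k s ^ 2 ≤ k s := by nlinarith
      rw [mul_pow]
      exact mul_le_mul_of_nonneg_left this (sq_nonneg c)
    have := mul_le_mul_of_nonneg_left (le_trans h3 (le_trans h4 h5)) (w0 s hs')
    linarith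

end Pool.Agent.P.BSX
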