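import Pool.Agent.P.MP_3df8df_an.XN

set_option autoImplicit false

namespace Pool.Agent.P.BSX

open Complex Metric Set Filter Topology
open Pool.Agent.P.MP_3df8df_an
open scoped Real ComplexConjugate

theorem XN2_half {s : ℝ} (h0 : π / 4 ≤ s) (h1 : s ≤ π / 2) : 1 / 2 ≤ Real.sin s := by
  have hp := Real.pi_pos
  refine le_trans ?_ (Real.mul_le_sin (by linarith) h1)
  rw [div_mul_eq_mul_div, le_div_iff₀ hp]
  linarith

theorem XN2_sin {s : ℝ} (h0 : π / 4 ≤ s) (h1 : s ≤ π) : π - s ≤ 6 * Real.sin s := by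
  have hp := Real.pi_pos
  have hp4 := Real.pi_le_four
  rcases le_total s (π / 2) with h | h
  · linarith [XN2_half h0 h]
  · have h2 := Real.mul_le_sin (x := π - s) (by linarith) (by linarith)
    rw [Real.sin_pi_sub, div_mul_eq_mul_div, div_le_iff₀ hp] at h2
    have h3 : 0 ≤ Real.sin s := Real.sin_nonneg_of_nonneg_of_le_pi (by linarith) h1
    nlinarith

theorem XN2_bd {f : ℝ → ℝ} (hf : Continuous f) : ∃ M, 0 ≤ M ∧ ∀ s ∈ Icc 0 π, |f s| ≤ M := by
  obtain ⟨M, hM⟩ := isCompact_Icc.exists_bound_of_continuousOn (hf.continuousOn (s := Icc 0 π))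
  exact ⟨M, (norm_nonneg _).trans (hM 0 ⟨le_rfl, Real.pi_pos.le⟩), hM⟩

theorem XN2_lip {f g : ℝ → ℝ} (hf : ∀ t, HasDerivAt f (g t) t) (hg : Continuous g) :
    ∃ M, 0 ≤ M ∧ ∀ s ∈ Icc (π / 4) π, |f s - f π| ≤ M * Real.sin s := by
  obtain ⟨M, M0, hM⟩ := XN2_bd hg
  have hp := Real.pi_pos
  refine ⟨6 * M, by positivity, fun s hs => ?_⟩
  have h := (convex_Icc (0 : ℝ) π).norm_image_sub_le_of_norm_hasDerivWithin_le
    (fun x _ => (hf x).hasDerivWithinAt) hM (x := π) (y := s) ⟨hp.le, le_rfl⟩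
    ⟨by linarith [hs.1], hs.2⟩
  rw [Real.norm_eq_abs, Real.norm_eq_abs, abs_sub_comm s, abs_of_nonneg (sub_nonneg.2 hs.2)] at h
  nlinarith [XN2_sin hs.1 hs.2]

theorem XN2_int {g : ℝ → ℝ} {t M : ℝ} (ht0 : π / 4 ≤ t) (ht : t ≤ π) (M0 : 0 ≤ M)
    (hg : ∀ s ∈ Icc t π, |g s| ≤ M) : |∫ s in t..π, g s| ≤ 6 * M * Real.sin t := by
  have h := intervalIntegral.norm_integral_le_of_norm_le_const (a := t) (b := π) (C := M) (f := g)
    fun s hs => hg s (by rw [uIoc_of_le ht] at hs; exact Ioc_subset_Icc_self hs)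
  rw [Real.norm_eq_abs, abs_of_nonneg (sub_nonneg.2 ht)] at h
  nlinarith [XN2_sin ht0 ht]

theorem XN2_one {w a r φ : ℝ → ℝ} {t ε W c β : ℝ} (ht0 : π / 4 ≤ t) (ht : t ≤ π)
    (cw : ContinuousOn w (Icc t π)) (ca : Continuous a) (cr : Continuous r) (cφ : Continuous φ)
    (W0 : 0 ≤ W) (hw : ∀ s ∈ Icc t π, 0 ≤ w s ∧ w s ≤ W) (ε0 : 0 ≤ ε) (ε1 : ε ≤ 1) (c0 : 0 ≤ c)
    (hc : 3 * c * ε ≤ 1 / 4) (ha : ∀ s ∈ Icc t π, |a s| ≤ c * Real.sin s)
    (hr : ∀ s ∈ Icc t π, |r s - r π| ≤ c * Real.sin s)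
    (hφ : ∀ s ∈ Icc t π, |φ s - β| ≤ c * ε * Real.sin s) :
    |Real.exp (-(ε ^ 2 * r π)) * ‖J w (xp ε a r) φ t‖ - (∫ s in t..π, w s) -
      ε * ∫ s in t..π, w s * a s| ≤ (162 * c ^ 2 * W + 6 * (W * c)) * ε ^ 2 * Real.sin t := by
  have hp := Real.pi_pos
  have hs : ∀ s ∈ Icc t π, 0 ≤ Real.sin s ∧ Real.sin s ≤ 1 := fun s hs =>
    ⟨Real.sin_nonneg_of_nonneg_of_le_pi (by linarith [hs.1]) hs.2, Real.sin_le_one s⟩
  let ω : ℝ → ℂ := fun s => ((ε * a s + ε ^ 2 * (r s - r π) : ℝ) : ℂ) + ((φ s - β : ℝ) : ℂ) * I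
  have hre : ∀ s, (ω s).re = ε * a s + ε ^ 2 * (r s - r π) := fun s => by
    simp only [ω, add_re, ofReal_re, mul_re, I_re, I_im, ofReal_im, mul_zero, zero_mul, sub_self,
      add_zero]
  have hω : ∀ s ∈ Icc t π, ‖ω s‖ ≤ 3 * c * ε * Real.sin s := by
    intro s h
    refine (norm_add_le _ _).trans ?_
    rw [norm_mul, norm_I, mul_one, norm_real, norm_real, Real.norm_eq_abs, Real.norm_eq_abs]
    have h1 := abs_add_le (ε * a s) (ε ^ 2 * (r s - r π))
    rw [abs_mul, abs_mul, abs_of_nonneg ε0, abs_of_nonneg (sq_nonneg ε)] at h1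
    have h2 := mul_le_mul_of_nonneg_left (ha s h) ε0
    have h3 : ε ^ 2 * |r s - r π| ≤ ε * (c * Real.sin s) :=
      mul_le_mul (by nlinarith) (hr s h) (abs_nonneg _) ε0
    linarith [hφ s h]
  have h1 := normJ ht cw Real.continuous_sin.continuousOn (ω := ω) (by fun_prop)
    (fun s h => (hw s h).1) hs (by positivity) hc hω
  have e1 : J w (xp ε a r) φ t =
      cexp (((ε ^ 2 * r π : ℝ) : ℂ) + (β : ℂ) * I) * ∫ s in t..π, (w s : ℂ) * cexp (ω s) := by
    rw [J, ← intervalIntegral.integral_const_mul]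
    congr 1
    funext s
    rw [mul_left_comm, ← Complex.exp_add]
    congr 2
    simp only [ω, xp]
    push_cast
    ring
  have e2 : Real.exp (-(ε ^ 2 * r π)) * ‖J w (xp ε a r) φ t‖ =
      ‖∫ s in t..π, (w s : ℂ) * cexp (ω s)‖ := by
    rw [e1, norm_mul, Complex.norm_exp, ← mul_assoc, ← Real.exp_add]
    simp only [add_re, ofReal_re, mul_re, I_re, I_im, ofReal_im, mul_zero, zero_mul, sub_self,
      add_zero, neg_add_cancel, Real.exp_zero, one_mul]
  have i1 : IntervalIntegrable (fun s => w s * a s) MeasureTheory.volume t π :=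
    (cw.mul ca.continuousOn).intervalIntegrable_of_Icc ht
  have i2 : IntervalIntegrable (fun s => w s * (r s - r π)) MeasureTheory.volume t π :=
    (cw.mul (cr.sub continuous_const).continuousOn).intervalIntegrable_of_Icc ht
  have e3 : ∫ s in t..π, w s * (ω s).re =
      ε * (∫ s in t..π, w s * a s) + ε ^ 2 * ∫ s in t..π, w s * (r s - r π) := by
    rw [← intervalIntegral.integral_const_mul, ← intervalIntegral.integral_const_mul,
      ← intervalIntegral.integral_add (i1.const_mul _) (i2.const_mul _)]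
    congr 1
    funext s
    rw [hre]
    ring
  have b1 := XN2_int (g := fun s => w s * Real.sin s) ht0 ht W0 fun s h => by
    rw [abs_of_nonneg (mul_nonneg (hw s h).1 (hs s h).1)]
    nlinarith [hw s h, hs s h]
  have b2 := XN2_int (g := fun s => w s * (r s - r π)) ht0 ht (mul_nonneg W0 c0) fun s h => by
    rw [abs_mul, abs_of_nonneg (hw s h).1]
    exact mul_le_mul (hw s h).2 ((hr s h).trans (by nlinarith [hs s h])) (abs_nonneg _) W0
  rw [e3, ← e2, abs_le] at h1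
  have b3 := mul_le_mul_of_nonneg_left (le_of_abs_le b1) (show 0 ≤ 3 * (3 * c * ε) ^ 2 by positivity)
  have b4 := mul_le_mul_of_nonneg_left (abs_le.1 b2).1 (sq_nonneg ε)
  have b5 := mul_le_mul_of_nonneg_left (abs_le.1 b2).2 (sq_nonneg ε)
  rw [abs_le]
  constructor <;> linarith [h1.1, h1.2]

/-- First order relation between two points at the same distance from the tip. -/
theorem match_len {w ρ a b r d a1 b1 P r1 : ℝ → ℝ} (h : Bd a b r d a1 b1 P r1) (hw : Wt w ρ)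
    (C1 : ℝ) : ∃ C : ℝ, 0 ≤ C ∧ ∀ᶠ ε in 𝓝[>] (0 : ℝ), ∀ p ∈ Icc (π / 2 - C1 * ε) π,
      ∀ q ∈ Icc (π / 2 - C1 * ε) π,
      ‖J w (xp ε a r) (fp ε b d) p‖ = ‖J w (xm ε a r) (fm ε b d) q‖ →
      |(∫ s in p..π, w s) - (∫ s in q..π, w s) +
        ε * ((∫ s in p..π, w s * a s) + ∫ s in q..π, w s * a s)| ≤
        C * ε ^ 2 * (Real.sin p + Real.sin q) := by
  have hp := Real.pi_pos
  obtain ⟨A, A0, hA⟩ := XN2_bd h.ca1
  obtain ⟨D, D0, hD⟩ := XN2_bd h.cP
  obtain ⟨B, B0, hB⟩ := XN2_lip h.hb (Real.continuous_sin.mul h.cb1)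
  obtain ⟨R, R0, hR⟩ := XN2_lip h.hr h.cr1
  have sub : Icc (π / 4) π ⊆ Ioc 0 π := fun s hs => ⟨by linarith [hs.1], hs.2⟩
  obtain ⟨W, hW⟩ := isCompact_Icc.exists_bound_of_continuousOn (hw.cw.mono sub)
  have W0 : 0 ≤ W := (norm_nonneg _).trans (hW π ⟨by linarith, le_rfl⟩)
  have C0 := abs_nonneg C1
  set c := A + D + B + R + 2 * |C1| with hc
  have c0 : 0 ≤ c := by positivity
  have ca : Continuous a := by
    rw [show a = _ from funext h.ha]
    exact Real.continuous_sin.mul h.ca1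
  have cd : Continuous d := by
    rw [show d = _ from funext h.hd]
    exact Real.continuous_sin.mul h.cP
  have cb : Continuous b := continuous_iff_continuousAt.2 fun t => (h.hb t).continuousAt
  have cr : Continuous r := continuous_iff_continuousAt.2 fun t => (h.hr t).continuousAt
  have cv : Continuous dev := by unfold dev; fun_prop
  have small : ∀ M : ℝ, ∀ δ > 0, ∀ᶠ ε in 𝓝[>] (0 : ℝ), M * ε ≤ δ := fun M δ hδ =>
    (((continuous_const_mul M).tendsto' 0 0 (mul_zero M)).mono_left nhdsWithin_le_nhds).eventually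
      (eventually_le_nhds hδ)
  refine ⟨162 * c ^ 2 * W + 6 * (W * c), by positivity, ?_⟩
  filter_upwards [self_mem_nhdsWithin, small 1 1 one_pos, small (3 * c) (1 / 4) (by norm_num),
    small C1 (π / 4) (by positivity)] with ε ε0 ε1 ε2 ε3 p hp' q hq' e
  have ε0 : 0 ≤ ε := le_of_lt ε0
  rw [one_mul] at ε1
  have key : ∀ s ∈ Icc (π / 2 - C1 * ε) π, (0 ≤ w s ∧ w s ≤ W) ∧ |a s| ≤ c * Real.sin s ∧
      |r s - r π| ≤ c * Real.sin s ∧ |fp ε b d s - ε * b π| ≤ c * ε * Real.sin s ∧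
      |fm ε b d s - ε * b π| ≤ c * ε * Real.sin s := by
    intro s hs
    have s1 : s ∈ Icc (π / 4) π := ⟨by linarith [hs.1], hs.2⟩
    have s2 : s ∈ Icc 0 π := Ioc_subset_Icc_self (sub s1)
    have s3 : 0 ≤ Real.sin s := Real.sin_nonneg_of_nonneg_of_le_pi s2.1 s2.2
    have v : |dev s| ≤ 2 * |C1| * ε * Real.sin s := by
      unfold dev
      rcases le_total s (π / 2) with h' | h'
      · rw [min_eq_left (by linarith), abs_of_nonpos (by linarith)]
        have := mul_le_mul_of_nonneg_left (XN2_half s1.1 h') (mul_nonneg C0 ε0)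
        have := mul_le_mul_of_nonneg_right (le_abs_self C1) ε0
        linarith [hs.1]
      · rw [min_eq_right (by linarith), abs_zero]
        positivity
    have u1 := mul_le_mul_of_nonneg_left (abs_le.1 (hB s s1)).1 ε0
    have u2 := mul_le_mul_of_nonneg_left (abs_le.1 (hB s s1)).2 ε0
    have u3 : |ε ^ 2 * d s| ≤ ε * (D * Real.sin s) := by
      rw [abs_mul, abs_of_nonneg (sq_nonneg ε), h.hd, abs_mul, abs_of_nonneg s3]
      exact mul_le_mul (by nlinarith) (by nlinarith [hD s s2]) (by positivity) ε0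
    have u4 : 0 ≤ (A + R) * ε * Real.sin s := by positivity
    have u5 : 0 ≤ (D + B + R + 2 * |C1|) * Real.sin s := by positivity
    have u6 : 0 ≤ (A + D + B + 2 * |C1|) * Real.sin s := by positivity
    rw [abs_le] at v u3
    refine ⟨⟨?_, (le_abs_self _).trans (hW s s1)⟩, ?_, ?_, ?_, ?_⟩
    · exact nonneg_of_mul_nonneg_left ((hw.eq s (sub s1)).symm ▸ s3) (hw.pos s (sub s1))
    · rw [h.ha, abs_mul, abs_of_nonneg s3, hc]
      nlinarith [hA s s2]
    · rw [hc]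
      linarith [hR s s1]
    · rw [abs_le, fp, hc]
      constructor <;> linarith [v.1, v.2, u3.1, u3.2]
    · rw [abs_le, fm, hc]
      constructor <;> linarith [v.1, v.2, u3.1, u3.2]
  have p0 : π / 4 ≤ p := by linarith [hp'.1]
  have q0 : π / 4 ≤ q := by linarith [hq'.1]
  have kp := fun s (hs : s ∈ Icc p π) => key s (Icc_subset_Icc_left hp'.1 hs)
  have kq := fun s (hs : s ∈ Icc q π) => key s (Icc_subset_Icc_left hq'.1 hs)
  have h1 := XN2_one p0 hp'.2 (hw.cw.mono ((Icc_subset_Icc_left p0).trans sub)) ca cr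
    (φ := fp ε b d) (by unfold fp; fun_prop) W0 (fun s hs => (kp s hs).1) ε0 ε1 c0 ε2
    (fun s hs => (kp s hs).2.1) (fun s hs => (kp s hs).2.2.1) fun s hs => (kp s hs).2.2.2.1
  have h2 := XN2_one (a := fun s => -a s) q0 hq'.2
    (hw.cw.mono ((Icc_subset_Icc_left q0).trans sub)) ca.neg cr
    (φ := fm ε b d) (by unfold fm; fun_prop) W0 (fun s hs => (kq s hs).1) ε0 ε1 c0 ε2
    (fun s hs => (abs_neg _).trans_le (kq s hs).2.1) (fun s hs => (kq s hs).2.2.1)
    fun s hs => (kq s hs).2.2.2.2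
  have e1 : xp ε (fun s => -a s) r = xm ε a r := funext fun s => by simp only [xp, xm, mul_neg]
  simp only [e1, mul_neg, intervalIntegral.integral_neg, ← e] at h2
  rw [abs_le] at h1 h2 ⊢
  constructor <;> linarith [h1.1, h1.2, h2.1, h2.2]

end Pool.Agent.P.BSX
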