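import Pool.Agent.P.MP_3df8df_an.XDefs

set_option autoImplicit false

namespace Pool.Agent.P.BSX

open Complex Metric Set Filter Topology
open Pool.Agent.P.MP_3df8df_an
open scoped Real ComplexConjugate

theorem XNice_mem (t s : ℝ) :
    (Real.cos t : ℂ) + (Real.sin t * Real.sin s : ℝ) * I ∈ closedBall (0 : ℂ) 1 := by
  rw [mem_closedBall_zero_iff, ← sq_le_one_iff₀ (norm_nonneg _), Complex.sq_norm, normSq_add_mul_I]
  nlinarith [Real.sin_sq_add_cos_sq t, Real.sin_sq_le_one s, sq_nonneg (Real.sin t)]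

theorem XNice_e (t : ℝ) : e t = (Real.cos t : ℂ) + (Real.sin t : ℝ) * I := by
  rw [e, exp_mul_I]; push_cast; rfl

theorem XNice_emem (t : ℝ) : e t ∈ closedBall (0 : ℂ) 1 := by
  simp [e]

theorem Nice.im_fac {g : ℂ → ℂ} (h : Nice g) :
    ∃ G : ℝ → ℝ, Continuous G ∧ ∀ t, (g (e t)).im = Real.sin t * G t := by
  have hc : Continuous fun q : ℝ × ℝ =>
      deriv g ((Real.cos q.1 : ℂ) + (Real.sin q.1 * Real.sin q.2 : ℝ) * I) :=
    h.an.deriv.continuousOn.comp_continuous (by fun_prop) fun q => XNice_mem q.1 q.2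
  have hc2 : Continuous fun q : ℝ × ℝ => Real.cos q.2 *
      (deriv g ((Real.cos q.1 : ℂ) + (Real.sin q.1 * Real.sin q.2 : ℝ) * I)).re :=
    (Real.continuous_cos.comp continuous_snd).mul (continuous_re.comp hc)
  refine ⟨fun t => ∫ s in (0 : ℝ)..π / 2, Real.cos s *
      (deriv g ((Real.cos t : ℂ) + (Real.sin t * Real.sin s : ℝ) * I)).re,
    intervalIntegral.continuous_parametric_intervalIntegral_of_continuous'
      (f := fun t s => Real.cos s *
        (deriv g ((Real.cos t : ℂ) + (Real.sin t * Real.sin s : ℝ) * I)).re) hc2 _ _, fun t => ?_⟩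
  have hd : ∀ s : ℝ, HasDerivAt
      (fun s : ℝ => (g ((Real.cos t : ℂ) + (Real.sin t * Real.sin s : ℝ) * I)).im)
      (Real.sin t * (Real.cos s *
        (deriv g ((Real.cos t : ℂ) + (Real.sin t * Real.sin s : ℝ) * I)).re)) s := fun s => by
    have h1 : HasDerivAt (fun s : ℝ => (Real.cos t : ℂ) + (Real.sin t * Real.sin s : ℝ) * I)
        (((Real.sin t * Real.cos s : ℝ) : ℂ) * I) s :=
      ((((Real.hasDerivAt_sin s).const_mul (Real.sin t)).ofReal_comp).mul_const I).const_add _
    have h2 := ((h.an _ (XNice_mem t s)).differentiableAt.hasDerivAt.hasFDerivAt.restrictScalars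
      ℝ).comp_hasDerivAt s h1
    refine HasDerivAt.congr_deriv (imCLM.hasFDerivAt.comp_hasDerivAt s h2) ?_
    simp only [imCLM_apply, ContinuousLinearMap.coe_restrictScalars',
      ContinuousLinearMap.toSpanSingleton_apply, smul_eq_mul]
    rw [mul_assoc, im_ofReal_mul, I_mul_im, mul_assoc]
  have hI := intervalIntegral.integral_eq_sub_of_hasDerivAt (a := 0) (b := π / 2)
    (fun s _ => hd s) ((continuous_const.mul
      (hc2.comp (continuous_const.prodMk continuous_id))).intervalIntegrable _ _)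
  rw [intervalIntegral.integral_const_mul] at hI
  have h0 : (g (Real.cos t)).im = 0 := by
    have := h.sym (Real.cos t) (by simpa using XNice_mem t 0)
    rw [conj_ofReal] at this
    exact conj_eq_iff_im.1 this.symm
  rw [hI, Real.sin_pi_div_two, mul_one, Real.sin_zero, mul_zero, ofReal_zero, zero_mul, add_zero,
    h0, sub_zero, XNice_e]

theorem XNice_sym_deriv {g : ℂ → ℂ} (h : Nice g) :
    ∀ z ∈ closedBall (0 : ℂ) 1, deriv g (conj z) = conj (deriv g z) := by
  have hc := h.an.deriv.continuousOn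
  refine EqOn.of_subset_closure (s := ball 0 1)
    (sym_deriv fun z hz => h.sym z (ball_subset_closedBall hz))
    (hc.comp continuous_conj.continuousOn fun z hz => by simpa using hz)
    (continuous_conj.comp_continuousOn hc) ball_subset_closedBall ?_
  rw [closure_ball _ one_ne_zero]

theorem Nice.re_deriv {g : ℂ → ℂ} (h : Nice g) : ∃ G : ℝ → ℝ, Continuous G ∧
    ∀ t, HasDerivAt (fun t => (g (e t)).re) (Real.sin t * G t) t := by
  have hn : Nice fun z => -(z * deriv g z) :=
    ⟨(analyticOnNhd_id.mul h.an.deriv).neg, fun z hz => by simp [XNice_sym_deriv h z hz], by simp⟩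
  obtain ⟨G, hG, hG2⟩ := hn.im_fac
  refine ⟨G, hG, fun t => ?_⟩
  have d1 := (((h.an _ (XNice_emem t)).differentiableAt.hasDerivAt).comp (t : ℂ)
    (hasDerivAt_mul_const I).cexp).comp_ofReal
  refine HasDerivAt.congr_deriv (reCLM.hasFDerivAt.comp_hasDerivAt t d1) ?_
  rw [← hG2, reCLM_apply, ← mul_assoc, mul_I_re, neg_im, mul_comm, e]

theorem XNice_nice (r : Polynomial ℝ) : Nice fun z => z * Polynomial.aeval z r :=
  ⟨fun z _ => (differentiable_id.mul (Polynomial.differentiable_aeval r)).analyticAt z,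
    fun z _ => by rw [map_mul, Polynomial.aeval_conj], by simp⟩

theorem XNice_deriv (r : Polynomial ℝ) :
    deriv (fun z : ℂ => z * Polynomial.aeval z r) 0 = (r.coeff 0 : ℝ) := by
  have := ((hasDerivAt_id' (0 : ℂ)).mul (Polynomial.hasDerivAt_aeval r (0 : ℂ))).deriv
  refine this.trans ?_
  simp [← Polynomial.coeff_zero_eq_aeval_zero']

theorem XNice_coeff {δ : ℂ → ℂ} (h : Nice δ) {P : ℝ → ℝ}
    (hP : ∀ t, (δ (e t)).im = Real.sin t * P t) :
    π * (deriv δ 0).re = 2 * ∫ t in (0 : ℝ)..π, Real.sin t ^ 2 * P t := by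
  have hd : DiffContOnCl ℂ δ (ball 0 1) := by
    apply DifferentiableOn.diffContOnCl
    rw [closure_ball _ one_ne_zero]
    exact h.an.differentiableOn
  have := coeff_int hd (fun z hz => h.sym z (by simp [hz])) 0
  simp only [zero_add, iteratedDeriv_one, Nat.factorial_one, Nat.cast_one, div_one,
    one_mul] at this
  rw [this, ← intervalIntegral.integral_const_mul]
  refine intervalIntegral.integral_congr fun t _ => ?_
  have h2 := hP t
  rw [e] at h2
  simp only [h2]; ring

theorem XNice_poly (p : Polynomial ℝ) : ∃ r : Polynomial ℝ,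
    (∀ t, (e t * Polynomial.aeval (e t) r).im = Real.sin t * p.eval (Real.cos t)) ∧
    π * r.eval 1 = ∫ t in (0 : ℝ)..π, (1 + Real.cos t) * p.eval (Real.cos t) := by
  have ci : ∀ (q : Polynomial ℝ) (f : ℝ → ℝ), Continuous f → IntervalIntegrable
      (fun t => f t * q.eval (Real.cos t)) MeasureTheory.volume 0 π := fun q f hf =>
    (hf.mul (q.continuous.comp Real.continuous_cos)).intervalIntegrable _ _
  induction p using Polynomial.induction_on with
  | C a =>
    refine ⟨Polynomial.C a, fun t => ?_, ?_⟩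
    · simp [XNice_e, sin_ofReal_re]
    · simp only [Polynomial.eval_C, intervalIntegral.integral_mul_const]
      rw [intervalIntegral.integral_add (by simp) (Real.continuous_cos.intervalIntegrable _ _)]
      simp
  | add p q hp hq =>
    obtain ⟨r, h1, h2⟩ := hp
    obtain ⟨s, h3, h4⟩ := hq
    refine ⟨r + s, fun t => ?_, ?_⟩
    · rw [map_add, mul_add, add_im, h1, h3, Polynomial.eval_add, mul_add]
    · rw [Polynomial.eval_add, mul_add, h2, h4, ← intervalIntegral.integral_add
        (ci _ _ (by fun_prop)) (ci _ _ (by fun_prop))]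
      simp only [Polynomial.eval_add, mul_add]
  | monomial n a hp =>
    obtain ⟨r, h1, h2⟩ := hp
    rw [pow_succ, ← mul_assoc]
    generalize Polynomial.C a * Polynomial.X ^ n = p at h1 h2 ⊢
    have h3 := XNice_coeff (XNice_nice r) h1
    rw [XNice_deriv, ofReal_re] at h3
    have h4 := Polynomial.X_mul_divX_add r
    refine ⟨Polynomial.C (1 / 2) * (Polynomial.X * r + r.divX), fun t => ?_, ?_⟩
    · have h5 := congrArg (Polynomial.aeval (e t)) h4
      simp only [map_add, map_mul, Polynomial.aeval_X, Polynomial.aeval_C, coe_algebraMap] at h5 ⊢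
      have h6 : e t * e t + 1 = 2 * (Real.cos t : ℂ) * e t := by
        have : (Real.sin t : ℂ) ^ 2 + (Real.cos t : ℂ) ^ 2 = 1 := by
          exact_mod_cast Real.sin_sq_add_cos_sq t
        rw [XNice_e]
        linear_combination (Real.sin t : ℂ) ^ 2 * I_sq - this
      have h7 : e t * (((1 / 2 : ℝ) : ℂ) * (e t * Polynomial.aeval (e t) r +
          Polynomial.aeval (e t) r.divX)) = (Real.cos t : ℂ) * (e t * Polynomial.aeval (e t) r) -
          ((r.coeff 0 / 2 : ℝ) : ℂ) := by
        rw [ofReal_div, ofReal_div, ofReal_one, ofReal_ofNat]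
        linear_combination (1 / 2 : ℂ) * h5 + (1 / 2 : ℂ) * Polynomial.aeval (e t) r * h6
      rw [h7, sub_im, ofReal_im, im_ofReal_mul, h1, Polynomial.eval_mul, Polynomial.eval_X]
      ring
    · have h5 := congrArg (Polynomial.eval 1) h4
      simp only [Polynomial.eval_add, Polynomial.eval_mul, Polynomial.eval_X,
        Polynomial.eval_C] at h5 ⊢
      have h6 : ∫ t in (0 : ℝ)..π, (1 + Real.cos t) * (p.eval (Real.cos t) * Real.cos t) =
          (∫ t in (0 : ℝ)..π, (1 + Real.cos t) * p.eval (Real.cos t)) -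
            ∫ t in (0 : ℝ)..π, Real.sin t ^ 2 * p.eval (Real.cos t) := by
        rw [← intervalIntegral.integral_sub (ci _ _ (by fun_prop)) (ci _ _ (by fun_prop))]
        refine intervalIntegral.integral_congr fun t _ => ?_
        simp only [Real.sin_sq]; ring
      rw [h6, ← h2]
      linear_combination (π / 2) * h5 - (1 / 2) * h3

theorem polyd (p : Polynomial ℝ) : ∃ δ : ℂ → ℂ, Nice δ ∧
    (∀ t, (δ (e t)).im = Real.sin t * p.eval (Real.cos t)) ∧
    π * (deriv δ 0).re = 2 * (∫ t in (0 : ℝ)..π, Real.sin t ^ 2 * p.eval (Real.cos t)) ∧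
    π * (δ 1).re = ∫ t in (0 : ℝ)..π, (1 + Real.cos t) * p.eval (Real.cos t) := by
  obtain ⟨r, h1, h2⟩ := XNice_poly p
  refine ⟨_, XNice_nice r, h1, XNice_coeff (XNice_nice r) h1, ?_⟩
  have : Polynomial.aeval (1 : ℂ) r = (r.eval 1 : ℝ) := by
    have := Polynomial.aeval_algebraMap_apply_eq_algebraMap_eval (A := ℂ) (1 : ℝ) r
    simpa using this
  rw [← h2, one_mul, this, ofReal_re]

end Pool.Agent.P.BSX
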